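import Pool.Agent.Lib.ST.Forc

/-!
# ST: properties of all sufficiently closed countable sets (rows L1-L4)
-/

set_option autoImplicit false

open Set Cardinal

namespace Pool.ST

/-- The property `Q` holds for all countable sets which are closed under some countably-valued
function of finite sets. -/
def CL (Q : Set Om → Prop) : Prop :=
  ∃ Φ : Finset Om → Set Om, (∀ e, (Φ e).Countable) ∧ ∀ N : Set Om, N.Countable →
    (∀ e : Finset Om, (↑e : Set Om) ⊆ N → Φ e ⊆ N) → Q N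

section RowL1


/-- Row L1. -/
theorem CL.mono {Q Q' : Set Om → Prop} (h : CL Q) (h' : ∀ N, N.Countable → Q N → Q' N) :
    CL Q' := by
  obtain ⟨Φ, hc, h⟩ := h
  exact ⟨Φ, hc, fun N hN hcl => h' N hN (h N hN hcl)⟩

/-- Row L1. -/
theorem CL.and {Q Q' : Set Om → Prop} (h : CL Q) (h' : CL Q') : CL (fun N => Q N ∧ Q' N) := by
  obtain ⟨Φ, hc, h⟩ := h
  obtain ⟨Φ', hc', h'⟩ := h'
  refine ⟨fun e => Φ e ∪ Φ' e, fun e => (hc e).union (hc' e), fun N hN hcl => ⟨?_, ?_⟩⟩
  · exact h N hN fun e he => subset_union_left.trans (hcl e he)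
  · exact h' N hN fun e he => subset_union_right.trans (hcl e he)

/-- Row L1. -/
theorem CL.all {ι : Type} [Countable ι] {Q : ι → Set Om → Prop} (h : ∀ i, CL (Q i)) :
    CL (fun N => ∀ i, Q i N) := by
  choose Φ hc h using h
  refine ⟨fun e => ⋃ i, Φ i e, fun e => countable_iUnion fun i => hc i e, fun N hN hcl i => ?_⟩
  exact h i N hN fun e he => (subset_iUnion (fun i => Φ i e) i).trans (hcl e he)

/-- Row L1. -/
theorem CL.imp {Q : Set Om → Prop} {φ : Prop} (h : φ → CL Q) : CL (fun N => φ → Q N) := by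
  by_cases hφ : φ
  · exact CL.mono (h hφ) fun N _ hQ _ => hQ
  · exact ⟨fun _ => ∅, fun _ => countable_empty, fun N _ _ h' => absurd h' hφ⟩

private lemma L1_fin {X : Set Om} (hX : X.Countable) :
    {e : Finset Om | (↑e : Set Om) ⊆ X}.Countable := by
  have h := (Set.countable_ofPred_finite_subset hX).preimage_of_injOn
    (f := fun e : Finset Om => (↑e : Set Om)) (fun a _ b _ hab => Finset.coe_injective hab)
  refine h.mono ?_
  intro e he
  exact ⟨e.finite_toSet, he⟩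

/-- Row L1. Closed sets exist. -/
theorem CL.exists {Q : Set Om → Prop} (h : CL Q) {X : Set Om} (hX : X.Countable) :
    ∃ N, N.Countable ∧ X ⊆ N ∧ Q N := by
  obtain ⟨Φ, hc, h⟩ := h
  let F : ℕ → Set Om := fun n => Nat.rec X
    (fun _ Y => Y ∪ ⋃ e ∈ {e : Finset Om | (↑e : Set Om) ⊆ Y}, Φ e) n
  have hF0 : F 0 = X := rfl
  have hFs : ∀ n, F (n + 1) = F n ∪ ⋃ e ∈ {e : Finset Om | (↑e : Set Om) ⊆ F n}, Φ e :=
    fun n => rfl
  have hFc : ∀ n, (F n).Countable := by
    intro n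
    induction n with
    | zero => rw [hF0]; exact hX
    | succ n ih =>
      rw [hFs]
      exact ih.union ((L1_fin ih).biUnion fun e _ => hc e)
  have hmono : Monotone F := by
    refine monotone_nat_of_le_succ fun n => ?_
    rw [hFs]
    exact subset_union_left
  refine ⟨⋃ n, F n, countable_iUnion hFc, ?_, ?_⟩
  · rw [← hF0]
    exact subset_iUnion F 0
  · refine h _ (countable_iUnion hFc) ?_
    intro e he
    have h1 : ∃ n, (↑e : Set Om) ⊆ F n := by
      have h2 : ∀ x : Om, ∃ n, x ∈ e → x ∈ F n := by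
        intro x
        by_cases hx : x ∈ e
        · obtain ⟨n, hn⟩ := mem_iUnion.1 (he hx)
          exact ⟨n, fun _ => hn⟩
        · exact ⟨0, fun h' => absurd h' hx⟩
      choose g hg using h2
      refine ⟨e.sup g, ?_⟩
      intro x hx
      exact hmono (Finset.le_sup (f := g) hx) (hg x hx)
    obtain ⟨n, hn⟩ := h1
    intro x hx
    refine mem_iUnion.2 ⟨n + 1, ?_⟩
    rw [hFs]
    exact Or.inr (mem_biUnion (show e ∈ {e : Finset Om | (↑e : Set Om) ⊆ F n} from hn) hx)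

end RowL1





section RowL2


/-- Row L2. Diagonal intersection: `code t` is the set of the elements of `Om` occurring in `t`. -/
theorem CL.diag {T : Type 1} (code : T → Finset Om)
    (hc : ∀ e : Finset Om, {t | (↑(code t) : Set Om) ⊆ ↑e}.Countable) {Q : T → Set Om → Prop}
    (h : ∀ t, CL (Q t)) : CL (fun N => ∀ t, (↑(code t) : Set Om) ⊆ N → Q t N) := by
  classical
  choose Φ hΦ hQ using h
  refine ⟨fun e => ⋃ e' ∈ e.powerset, ⋃ t ∈ {t | (↑(code t) : Set Om) ⊆ ↑e}, Φ t e', ?_, ?_⟩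
  · intro e
    refine Set.Countable.biUnion (Finset.countable_toSet e.powerset) ?_
    intro e' _
    exact Set.Countable.biUnion (hc e) (fun t _ => hΦ t e')
  · intro N hN hcl t ht
    refine hQ t N hN ?_
    intro e' he'
    have h1 : (↑(code t ∪ e') : Set Om) ⊆ N := by
      rw [Finset.coe_union]
      exact Set.union_subset ht he'
    refine Set.Subset.trans ?_ (hcl (code t ∪ e') h1)
    intro x hx
    refine Set.mem_biUnion (x := e') ?_ ?_
    · exact Finset.mem_coe.2 (Finset.mem_powerset.2 Finset.subset_union_right)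
    · refine Set.mem_biUnion (x := t) ?_ hx
      exact Finset.coe_subset.2 Finset.subset_union_left

/-- Row L2. -/
theorem CL.op {T : Type 1} (code : T → Finset Om)
    (hc : ∀ e : Finset Om, {t | (↑(code t) : Set Om) ⊆ ↑e}.Countable) (f : T → Set Om)
    (hf : ∀ t, (f t).Countable) : CL (fun N => ∀ t, (↑(code t) : Set Om) ⊆ N → f t ⊆ N) := by
  refine ⟨fun e => ⋃ t ∈ {t | (↑(code t) : Set Om) ⊆ ↑e}, f t, ?_, ?_⟩
  · intro e
    exact Set.Countable.biUnion (hc e) (fun t _ => hf t)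
  · intro N _ hcl t ht
    refine Set.Subset.trans ?_ (hcl (code t) ht)
    intro x hx
    exact Set.mem_biUnion (x := t) (Set.Subset.refl _) hx

end RowL2


/-! ### Objects of `N` -/

/-- The condition `c` is in `N`. -/
def InN (N : Set Om) (c : Cond) : Prop :=
  (∀ M ∈ c.S, cd M ∈ N) ∧ (∀ β ∈ c.B, β ∈ N) ∧ ∀ α, ∀ x ∈ c.p α, x ∈ N

/-- Parameters: conditions with countable nodes, finite sets of countable sets, finite sets and
lists of ordinals, codes of bounded relations, ordinals. -/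
structure Par : Type 1 where
  q : Cond
  S : Finset (Set Om)
  B : Finset Om
  a : Finset Om
  l : List Om
  x : Om
  y : Om
  R : Rel

/-- The parameter is legal. -/
def Par.Ok (t : Par) : Prop :=
  (∀ M ∈ t.q.S, M.Countable) ∧ (∀ M ∈ t.S, M.Countable) ∧ ∃ α, BdR α t.R

/-- The parameter is in `N`. -/
def Par.In (t : Par) (N : Set Om) : Prop :=
  InN N t.q ∧ (∀ M ∈ t.S, cd M ∈ N) ∧ (∀ β ∈ t.B, β ∈ N) ∧ (∀ β ∈ t.a, β ∈ N) ∧
    (∀ x ∈ t.l, x ∈ N) ∧ t.x ∈ N ∧ t.y ∈ N ∧ cr t.R ∈ N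

section RowL3


open Classical in
/-- the elements of `Om` occurring in the condition `q` -/
noncomputable def L3_cc (q : Cond) : Finset Om := q.S.image cd ∪ q.B ∪ q.B.biUnion q.p

open Classical in
/-- the elements of `Om` occurring in the parameter `t` -/
noncomputable def L3_pc (t : Par) : Finset Om :=
  L3_cc t.q ∪ (t.S.image cd ∪ (t.B ∪ (t.a ∪ (t.l.toFinset ∪ {t.x, t.y, cr t.R}))))

lemma L3_image_inj {S S' : Finset (Set Om)} (h : ∀ M ∈ S, M.Countable)
    (h' : ∀ M ∈ S', M.Countable) (he : (↑S : Set (Set Om)).image cd = (↑S' : Set (Set Om)).image cd) :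
    S = S' := by
  have h1 : (↑S : Set (Set Om)) ⊆ {X | X.Countable} := fun M hM => h M hM
  have h2 : (↑S' : Set (Set Om)) ⊆ {X | X.Countable} := fun M hM => h' M hM
  exact Finset.coe_injective ((cd_inj.image_eq_image_iff h1 h2).1 he)

lemma L3_cc_sub {e : Finset Om} {q : Cond} (h : L3_cc q ⊆ e) :
    (∀ M ∈ q.S, cd M ∈ e) ∧ q.B ⊆ e ∧ ∀ α, q.p α ⊆ e := by
  classical
  unfold L3_cc at h
  rw [Finset.union_subset_iff, Finset.union_subset_iff] at h
  refine ⟨fun M hM => h.1.1 (Finset.mem_image_of_mem cd hM), h.1.2, fun α x hx => ?_⟩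
  by_cases hα : α ∈ q.B
  · exact h.2 (Finset.mem_biUnion.2 ⟨α, hα, hx⟩)
  · rw [q.hp α hα] at hx
    exact absurd hx (Finset.notMem_empty _)

lemma L3_pc_sub {e : Finset Om} {t : Par} (h : L3_pc t ⊆ e) :
    L3_cc t.q ⊆ e ∧ (∀ M ∈ t.S, cd M ∈ e) ∧ t.B ⊆ e ∧ t.a ⊆ e ∧ (∀ x ∈ t.l, x ∈ e) ∧
      t.x ∈ e ∧ t.y ∈ e ∧ cr t.R ∈ e := by
  classical
  unfold L3_pc at h
  rw [Finset.union_subset_iff, Finset.union_subset_iff, Finset.union_subset_iff,
    Finset.union_subset_iff, Finset.union_subset_iff] at h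
  obtain ⟨h1, h2, h3, h4, h5, h6⟩ := h
  refine ⟨h1, fun M hM => h2 (Finset.mem_image_of_mem cd hM), h3, h4,
    fun x hx => h5 (List.mem_toFinset.2 hx), h6 (by simp), h6 (by simp), h6 (by simp)⟩

/-- the data of a condition with code inside `e` -/
noncomputable def L3_dc (e : Finset Om) (q : Cond) :
    Set Om × Finset Om × (↥e → Finset Om) :=
  ((↑q.S : Set (Set Om)).image cd, q.B, fun β => q.p β)

lemma L3_dc_inj {e : Finset Om} {q q' : Cond} (h : L3_cc q ⊆ e) (h' : L3_cc q' ⊆ e)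
    (hc : ∀ M ∈ q.S, M.Countable) (hc' : ∀ M ∈ q'.S, M.Countable)
    (he : L3_dc e q = L3_dc e q') : q = q' := by
  unfold L3_dc at he
  rw [Prod.mk.injEq, Prod.mk.injEq] at he
  obtain ⟨h1, h2, h3⟩ := he
  ext1
  · exact L3_image_inj hc hc' h1
  · exact h2
  · funext α
    by_cases hα : α ∈ e
    · exact congrFun h3 ⟨α, hα⟩
    · rw [q.hp α fun hb => hα ((L3_cc_sub h).2.1 hb), q'.hp α fun hb => hα ((L3_cc_sub h').2.1 hb)]

lemma L3_fin_pow (e : Finset Om) : {s : Finset Om | s ⊆ e}.Finite := by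
  classical
  refine (Finset.finite_toSet e.powerset).subset ?_
  intro s hs
  exact Finset.mem_coe.2 (Finset.mem_powerset.2 hs)

lemma L3_fin_img (e : Finset Om) : {s : Set Om | s ⊆ ↑e}.Finite :=
  (Finset.finite_toSet e).finite_subsets

lemma L3_ctb_dc (e : Finset Om) :
    {d : Set Om × Finset Om × (↥e → Finset Om) | d.1 ⊆ ↑e ∧ d.2.1 ⊆ e ∧ ∀ β, d.2.2 β ⊆ e}.Countable := by
  have h1 : {f : ↥e → Finset Om | ∀ β, f β ⊆ e}.Finite := by
    have := Set.Finite.pi' (ι := ↥e) (t := fun _ => {s : Finset Om | s ⊆ e}) (fun _ => L3_fin_pow e)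
    exact this
  have h2 := (L3_fin_img e).prod ((L3_fin_pow e).prod h1)
  refine (h2.subset ?_).countable
  rintro ⟨a, b, c⟩ ⟨ha, hb, hc⟩
  exact ⟨ha, hb, hc⟩

lemma L3_mem_dc {e : Finset Om} {q : Cond} (h : L3_cc q ⊆ e) :
    L3_dc e q ∈ {d : Set Om × Finset Om × (↥e → Finset Om) | d.1 ⊆ ↑e ∧ d.2.1 ⊆ e ∧
      ∀ β, d.2.2 β ⊆ e} := by
  obtain ⟨h1, h2, h3⟩ := L3_cc_sub h
  refine ⟨?_, h2, fun β => h3 β⟩
  rintro _ ⟨M, hM, rfl⟩
  exact h1 M hM

lemma L3_ctb_cond (e : Finset Om) :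
    {q : {q : Cond // ∀ M ∈ q.S, M.Countable} | (↑(L3_cc q.1) : Set Om) ⊆ ↑e}.Countable := by
  refine Set.MapsTo.countable_of_injOn (f := fun q => L3_dc e q.1) (t := {d | d.1 ⊆ ↑e ∧ d.2.1 ⊆ e ∧
      ∀ β, d.2.2 β ⊆ e}) ?_ ?_ (L3_ctb_dc e)
  · intro q hq
    exact L3_mem_dc (Finset.coe_subset.1 hq)
  · intro q hq q' hq' he
    exact Subtype.ext (L3_dc_inj (Finset.coe_subset.1 hq) (Finset.coe_subset.1 hq') q.2 q'.2 he)

lemma L3_ctb_list (e : Finset Om) : {l : List Om | ∀ x ∈ l, x ∈ e}.Countable := by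
  have h := Set.countable_range (List.map ((↑) : ↥e → Om))
  refine h.mono ?_
  intro l hl
  have := Set.range_list_map_coe (↑e : Set Om)
  rw [show Set.range (List.map ((↑) : ↥e → Om)) = {l | ∀ x ∈ l, x ∈ (↑e : Set Om)} from this]
  exact hl

lemma L3_ctb_par (e : Finset Om) :
    {t : {t : Par // t.Ok} | (↑(L3_pc t.1) : Set Om) ⊆ ↑e}.Countable := by
  refine Set.MapsTo.countable_of_injOn
    (f := fun t => (L3_dc e t.1.q, (↑t.1.S : Set (Set Om)).image cd, t.1.B, t.1.a, t.1.l, t.1.x,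
      t.1.y, cr t.1.R))
    (t := {d | d.1 ⊆ ↑e ∧ d.2.1 ⊆ e ∧ ∀ β, d.2.2 β ⊆ e} ×ˢ ({s : Set Om | s ⊆ ↑e} ×ˢ
      ({s : Finset Om | s ⊆ e} ×ˢ ({s : Finset Om | s ⊆ e} ×ˢ ({l : List Om | ∀ x ∈ l, x ∈ e} ×ˢ
        ((↑e : Set Om) ×ˢ ((↑e : Set Om) ×ˢ (↑e : Set Om)))))))) ?_ ?_ ?_
  · intro t ht
    obtain ⟨h1, h2, h3, h4, h5, h6, h7, h8⟩ := L3_pc_sub (Finset.coe_subset.1 ht)
    refine ⟨L3_mem_dc h1, ?_, h3, h4, h5, h6, h7, h8⟩
    rintro _ ⟨M, hM, rfl⟩
    exact h2 M hM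
  · intro t ht t' ht' he
    simp only [Prod.mk.injEq] at he
    obtain ⟨e1, e2, e3, e4, e5, e6, e7, e8⟩ := he
    obtain ⟨h1, -⟩ := L3_pc_sub (Finset.coe_subset.1 ht)
    obtain ⟨h1', -⟩ := L3_pc_sub (Finset.coe_subset.1 ht')
    have r1 := L3_dc_inj h1 h1' t.2.1 t'.2.1 e1
    have r2 := L3_image_inj t.2.2.1 t'.2.2.1 e2
    have r8 : t.1.R = t'.1.R := cr_inj t.2.2.2 t'.2.2.2 e8
    obtain ⟨⟨q, S, B, a, l, x, y, R⟩, ht0⟩ := t
    obtain ⟨⟨q', S', B', a', l', x', y', R'⟩, ht0'⟩ := t'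
    simp only at r1 r2 e3 e4 e5 e6 e7 r8
    subst r1 r2 e3 e4 e5 e6 e7 r8
    rfl
  · exact (L3_ctb_dc e).prod ((L3_fin_img e).countable.prod ((L3_fin_pow e).countable.prod
      ((L3_fin_pow e).countable.prod ((L3_ctb_list e).prod (e.countable_toSet.prod
        (e.countable_toSet.prod e.countable_toSet))))))

lemma L3_cc_In {N : Set Om} {q : Cond} (h : InN N q) : (↑(L3_cc q) : Set Om) ⊆ N := by
  classical
  intro x hx
  unfold L3_cc at hx
  rw [Finset.mem_coe, Finset.mem_union, Finset.mem_union, Finset.mem_image,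
    Finset.mem_biUnion] at hx
  rcases hx with (⟨M, hM, rfl⟩ | hx) | ⟨α, _, hx⟩
  · exact h.1 M hM
  · exact h.2.1 x hx
  · exact h.2.2 α x hx

lemma L3_pc_In {N : Set Om} {t : Par} (h : t.In N) : (↑(L3_pc t) : Set Om) ⊆ N := by
  classical
  obtain ⟨h1, h2, h3, h4, h5, h6, h7, h8⟩ := h
  intro x hx
  unfold L3_pc at hx
  rw [Finset.mem_coe, Finset.mem_union, Finset.mem_union, Finset.mem_union, Finset.mem_union,
    Finset.mem_union, Finset.mem_image, List.mem_toFinset, Finset.mem_insert, Finset.mem_insert,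
    Finset.mem_singleton] at hx
  rcases hx with hx | ⟨M, hM, rfl⟩ | hx | hx | hx | rfl | rfl | rfl
  · exact L3_cc_In h1 hx
  · exact h2 M hM
  · exact h3 x hx
  · exact h4 x hx
  · exact h5 x hx
  · exact h6
  · exact h7
  · exact h8

/-- Row L3. Diagonal intersection over the parameters in `N`. -/
theorem CL.par {Q : Par → Set Om → Prop} (h : ∀ t, t.Ok → CL (Q t)) :
    CL (fun N => ∀ t, t.Ok → t.In N → Q t N) := by
  have h1 := Pool.ST.CL.diag (T := {t : Par // t.Ok}) (fun t => L3_pc t.1) L3_ctb_par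
    (Q := fun t N => Q t.1 N) (fun t => h t.1 t.2)
  exact Pool.ST.CL.mono h1 fun N _ hN t ht hin => hN ⟨t, ht⟩ (L3_pc_In hin)

/-- Row L3. -/
theorem CL.parop (f : Par → Set Om) (hf : ∀ t, t.Ok → (f t).Countable) :
    CL (fun N => ∀ t, t.Ok → t.In N → f t ⊆ N) := by
  have h1 := Pool.ST.CL.op (T := {t : Par // t.Ok}) (fun t => L3_pc t.1) L3_ctb_par
    (fun t => f t.1) (fun t => hf t.1 t.2)
  exact Pool.ST.CL.mono h1 fun N _ hN t ht hin => hN ⟨t, ht⟩ (L3_pc_In hin)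

/-- Row L3. Ordinals only. -/
theorem CL.ord {Q : Om → Set Om → Prop} (h : ∀ α, CL (Q α)) :
    CL (fun N => ∀ α ∈ N, Q α N) := by
  have h1 := Pool.ST.CL.diag (T := Om) (fun t => {t}) (fun e => by
    refine e.countable_toSet.mono ?_
    intro t ht
    exact ht (by simp)) (Q := Q) h
  exact Pool.ST.CL.mono h1 fun N _ hN t ht => hN t (by simpa using ht)

/-- Row L3. Conditions only. -/
theorem CL.cond {Q : Cond → Set Om → Prop} (h : ∀ q, (∀ M ∈ q.S, M.Countable) → CL (Q q)) :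
    CL (fun N => ∀ q, (∀ M ∈ q.S, M.Countable) → InN N q → Q q N) := by
  have h1 := Pool.ST.CL.diag (T := {q : Cond // ∀ M ∈ q.S, M.Countable}) (fun q => L3_cc q.1)
    L3_ctb_cond (Q := fun q N => Q q.1 N) (fun q => h q.1 q.2)
  exact Pool.ST.CL.mono h1 fun N _ hN q hq hin => hN ⟨q, hq⟩ (L3_cc_In hin)

end RowL3




section RowL4


lemma L4_mem : CL (fun N => ∀ X : Set Om, X.Countable → cd X ∈ N → X ⊆ N) := by
  have h1 := Pool.ST.CL.op (T := {X : Set Om // X.Countable}) (fun X => {cd X.1}) (fun e => by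
    refine Set.MapsTo.countable_of_injOn (f := fun X => cd X.1) (t := (↑e : Set Om)) ?_ ?_
      e.countable_toSet
    · intro X hX
      exact hX (by simp)
    · intro X _ Y _ he
      exact Subtype.ext (cd_inj X.2 Y.2 he)) (fun X => X.1) (fun X => X.2)
  exact Pool.ST.CL.mono h1 fun N _ hN X hX hin => hN ⟨X, hX⟩ (by simpa using hin)

lemma L4_cut : CL (fun N => ∀ X : Set Om, X.Countable → ∀ α ∈ N, cd X ∈ N →
    cd (X ∩ Iio α) ∈ N) := by
  classical
  have h1 := Pool.ST.CL.op (T := {X : Set Om // X.Countable} × Om) (fun X => {cd X.1.1, X.2})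
    (fun e => by
      refine Set.MapsTo.countable_of_injOn (f := fun X => (cd X.1.1, X.2))
        (t := (↑e : Set Om) ×ˢ (↑e : Set Om)) ?_ ?_ (e.countable_toSet.prod e.countable_toSet)
      · intro X hX
        exact ⟨hX (by simp), hX (by simp)⟩
      · intro X _ Y _ he
        simp only [Prod.mk.injEq] at he
        exact Prod.ext (Subtype.ext (cd_inj X.1.2 Y.1.2 he.1)) he.2)
    (fun X => {cd (X.1.1 ∩ Iio X.2)}) (fun X => Set.countable_singleton _)
  refine Pool.ST.CL.mono h1 fun N _ hN X hX α hα hin => hN (⟨X, hX⟩, α) ?_ rfl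
  intro y hy
  simp only [Finset.coe_insert, Finset.coe_singleton, Set.mem_insert_iff,
    Set.mem_singleton_iff] at hy
  rcases hy with rfl | rfl
  · exact hin
  · exact hα

lemma L4_init : CL (fun N => ∀ ξ ∈ N, ξ < w1 → ∀ η < ξ, η ∈ N) := by
  classical
  have h1 := Pool.ST.CL.op (T := Om) (fun ξ => {ξ})
    (fun e => by
      refine e.countable_toSet.mono ?_
      intro t ht
      exact ht (by simp))
    (fun ξ => if ξ < w1 then Iio ξ else ∅) (fun ξ => by
      split_ifs with h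
      · exact countable_Iio h
      · exact Set.countable_empty)
  refine Pool.ST.CL.mono h1 fun N _ hN ξ hξ hw η hη => hN ξ (by simpa using hξ) ?_
  rw [if_pos hw]
  exact hη

/-- Row L4. -/
theorem CL.node : CL IsNode :=
  Pool.ST.CL.mono (Pool.ST.CL.and L4_mem (Pool.ST.CL.and L4_cut L4_init))
    fun _ hc h => ⟨hc, h.1, h.2.1, h.2.2⟩

/-- Row L4. Every finite set of ordinals which are in `N`; `w₁`, `0` can be put in `N`. -/
theorem CL.mem (α : Om) : CL (fun N => α ∈ N) :=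
  ⟨fun _ => {α}, fun _ => Set.countable_singleton _, fun _ _ h => h ∅ (by simp) rfl⟩

/-- Row L4. -/
theorem countable_cond (c : Cond) : {x | (∃ M ∈ c.S, x = cd M) ∨ x ∈ c.B ∨ ∃ α, x ∈ c.p α}.Countable := by
  classical
  refine (c.S.image cd ∪ c.B ∪ c.B.biUnion c.p).countable_toSet.mono ?_
  rintro x (⟨M, hM, rfl⟩ | hx | ⟨α, hx⟩)
  · simp only [Finset.coe_union, Set.mem_union, Finset.mem_coe]
    exact Or.inl (Or.inl (Finset.mem_image_of_mem cd hM))
  · simp only [Finset.coe_union, Set.mem_union, Finset.mem_coe]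
    exact Or.inl (Or.inr hx)
  · simp only [Finset.coe_union, Set.mem_union, Finset.mem_coe]
    refine Or.inr (Finset.mem_biUnion.2 ⟨α, ?_, hx⟩)
    by_contra hα
    rw [c.hp α hα] at hx
    exact absurd hx (Finset.notMem_empty _)

end RowL4



end Pool.ST
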