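import Pool.Agent.Lib.ST.Defs

/-!
# ST: codes of countable sets and of names, the big nodes (rows K1-K6)
-/

set_option autoImplicit false

open Set Cardinal

namespace Pool.ST

/-! ### Countable ordinals -/

section RowK1


/-- Row K1. -/
theorem w1_pos : (0 : Om) < w1 := by
  rw [pos_iff_ne_zero]
  intro h
  unfold w1 at h
  rw [Cardinal.ord_eq_zero] at h
  exact (Cardinal.aleph_pos 1).ne' h

/-- Row K1. -/
theorem countable_Iio {ξ : Om} (h : ξ < w1) : (Iio ξ).Countable := by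
  unfold w1 at h
  rw [Cardinal.lt_ord, ← Cardinal.succ_aleph0, Order.lt_succ_iff] at h
  rw [← Cardinal.le_aleph0_iff_set_countable, Cardinal.mk_Iio_ordinal]
  exact Cardinal.lift_le_aleph0.2 h

private theorem K1_not_countable : ¬ (Iio w1 : Set Om).Countable := by
  intro h
  rw [← Cardinal.le_aleph0_iff_set_countable, Cardinal.mk_Iio_ordinal] at h
  have h1 := Cardinal.lift_le_aleph0.1 h
  unfold w1 at h1
  rw [Cardinal.card_ord, ← Cardinal.succ_aleph0] at h1
  exact absurd h1 (not_le.2 (Order.lt_succ _))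

/-- Row K1. -/
theorem exists_bound {X : Set Om} (hX : X.Countable) (h : ∀ x ∈ X, x < w1) :
    ∃ ξ < w1, ∀ x ∈ X, x < ξ := by
  by_contra hcon
  push Not at hcon
  apply K1_not_countable
  have hc : (⋃ x ∈ X, (Iio x ∪ {x})).Countable :=
    hX.biUnion fun x hx => (countable_Iio (h x hx)).union (countable_singleton x)
  refine hc.mono ?_
  intro ξ hξ
  obtain ⟨x, hx, hle⟩ := hcon ξ hξ
  rw [mem_iUnion₂]
  refine ⟨x, hx, ?_⟩
  rcases hle.lt_or_eq with h1 | h1
  · exact Or.inl h1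
  · exact Or.inr h1

/-- Row K1.  A countable set is bounded. -/
theorem exists_bd {X : Set Om} (hX : X.Countable) : ∃ α : Om, X ⊆ Iio α := by
  have : Countable X := hX.to_subtype
  obtain ⟨b, hb⟩ := Ordinal.bddAbove_of_small (s := X)
  exact ⟨Order.succ b, fun x hx => Order.lt_succ_iff.2 (hb hx)⟩

/-- Row K1. -/
theorem succ_lt_w1 {ξ : Om} (h : ξ < w1) : Order.succ ξ < w1 :=
  (Cardinal.isSuccLimit_ord (Cardinal.aleph0_le_aleph 1)).succ_lt h

end RowK1





/-! ### Codes -/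

section RowK2


private theorem K2_inj {T : Type 1} (U : Set T) (hU : Small.{0} U) :
    ∃ g : T → Om, InjOn g U := by
  classical
  let e : U ≃ Shrink.{0} U := equivShrink U
  let r : Shrink.{0} U → Shrink.{0} U → Prop := WellOrderingRel
  refine ⟨fun t => if h : t ∈ U then Ordinal.typein r (e ⟨t, h⟩) else 0, ?_⟩
  intro s hs t ht hst
  simp only [dif_pos hs, dif_pos ht] at hst
  have h1 := (Ordinal.typein r).toRelEmbedding.injective hst
  exact congrArg Subtype.val (e.injective h1)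

/-- Row K2.  A union of `Om` many small sets can be coded by elements of `Om` (for `#Om` is
`Cardinal.univ`, a strong limit regular cardinal; `∑ α, #(U α) ≤ #Om * #Om`). -/
theorem exists_code {T : Type 1} (U : Om → Set T) (hU : ∀ α, Small.{0} (U α)) :
    ∃ f : T → Om, InjOn f {t | ∃ α, t ∈ U α} := by
  classical
  have hinf : ℵ₀ ≤ #Om := Cardinal.aleph0_le_mk Om
  obtain ⟨J⟩ : Nonempty (Om × Om ≃ Om) := by
    rw [← Cardinal.eq, Cardinal.mk_prod, Cardinal.lift_id, Cardinal.mul_eq_self hinf]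
  choose g hg using fun α => K2_inj (U α) (hU α)
  refine ⟨fun t => if h : ∃ α, t ∈ U α then J (h.choose, g h.choose t) else 0, ?_⟩
  intro s hs t ht hst
  have hs' : ∃ α, s ∈ U α := hs
  have ht' : ∃ α, t ∈ U α := ht
  simp only [dif_pos hs', dif_pos ht'] at hst
  have h1 := J.injective hst
  rw [Prod.mk.injEq] at h1
  have h2 := hs'.choose_spec
  have h3 := ht'.choose_spec
  have h4 := h1.2
  rw [← h1.1] at h3 h4
  exact hg _ h2 h3 h4

end RowK2

section RowK3


/-- Row K3. -/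
theorem small_sets (α : Om) : Small.{0} {X : Set Om | X ⊆ Iio α} :=
  small_powerset (Iio α)

private theorem K3_fam (α : Om) : Small.{0} (𝒫 {X : Set Om | X ⊆ Iio α}) := by
  have h := small_sets α
  exact small_powerset _

private def K3_g (c : Cond) : Set (Set Om) × Set Om × Set (Om × Om) :=
  (↑c.S, ↑c.B, {x | x.2 ∈ c.p x.1})

private theorem K3_g_inj : Function.Injective K3_g := by
  intro c d h
  have h1 := congrArg Prod.fst h
  have h2 := congrArg (fun x => x.2.1) h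
  have h3 := congrArg (fun x => x.2.2) h
  ext1
  · exact Finset.coe_injective h1
  · exact Finset.coe_injective h2
  · funext α
    ext x
    have h4 : (α, x) ∈ {x : Om × Om | x.2 ∈ c.p x.1} ↔ (α, x) ∈ {x : Om × Om | x.2 ∈ d.p x.1} := by
      have h5 : {x : Om × Om | x.2 ∈ c.p x.1} = {x : Om × Om | x.2 ∈ d.p x.1} := h3
      rw [h5]
    exact h4

private theorem K3_target (α : Om) : Small.{0} (𝒫 {X : Set Om | X ⊆ Iio α} ×ˢ
    (𝒫 (Iio α) ×ˢ 𝒫 (Iio α ×ˢ Iio w1)) : Set (Set (Set Om) × Set Om × Set (Om × Om))) := by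
  have h1 := K3_fam α
  have h2 : Small.{0} (𝒫 (Iio α)) := small_powerset _
  have h3 : Small.{0} (Iio α ×ˢ Iio w1 : Set (Om × Om)) := small_setProd _ _
  have h4 : Small.{0} (𝒫 (Iio α ×ˢ Iio w1 : Set (Om × Om))) := small_powerset _
  have h5 : Small.{0} (𝒫 (Iio α) ×ˢ 𝒫 (Iio α ×ˢ Iio w1) : Set (Set Om × Set (Om × Om))) :=
    small_setProd _ _
  exact small_setProd _ _

/-- Row K3. -/
theorem small_conds (α : Om) : Small.{0} {c : Cond | Bd α c ∧ ∀ M ∈ c.S, M.Countable} := by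
  have ht := K3_target α
  have hmem : ∀ c : {c : Cond | Bd α c ∧ ∀ M ∈ c.S, M.Countable},
      K3_g c.1 ∈ (𝒫 {X : Set Om | X ⊆ Iio α} ×ˢ
        (𝒫 (Iio α) ×ˢ 𝒫 (Iio α ×ˢ Iio w1)) : Set (Set (Set Om) × Set Om × Set (Om × Om))) := by
    rintro ⟨c, hc, -⟩
    refine ⟨fun M hM => hc.1 M hM, fun β hβ => hc.2 β hβ, ?_⟩
    rintro ⟨a, x⟩ hx
    have hx' : x ∈ c.p a := hx
    refine ⟨?_, c.hw a x hx'⟩
    refine hc.2 a ?_
    by_contra hcon
    rw [c.hp a hcon] at hx'
    exact absurd hx' (Finset.notMem_empty _)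
  exact small_of_injective (f := fun c => (⟨K3_g c.1, hmem c⟩ :
    (𝒫 {X : Set Om | X ⊆ Iio α} ×ˢ
        (𝒫 (Iio α) ×ˢ 𝒫 (Iio α ×ˢ Iio w1)) : Set (Set (Set Om) × Set Om × Set (Om × Om)))))
    (fun c d h => Subtype.ext (K3_g_inj (congrArg Subtype.val h)))

private theorem K3_lists : Small.{0} {l : List Om | ∀ x ∈ l, x < w1} := by
  have h1 : Small.{0} (List (Iio w1)) := inferInstance
  have h2 : Small.{0} (Set.range (fun l : List (Iio w1) => l.map Subtype.val)) :=
    small_range _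
  have h3 : {l : List Om | ∀ x ∈ l, x < w1} ⊆
      Set.range (fun l : List (Iio w1) => l.map Subtype.val) := by
    intro l hl
    refine ⟨l.attach.map (fun x => ⟨x.1, hl x.1 x.2⟩), ?_⟩
    simp
  exact small_subset h3

/-- Row K3. -/
theorem small_rels (α : Om) : Small.{0} {R : Rel | BdR α R} := by
  have h1 := small_conds α
  have h2 := K3_lists
  have h3 : Small.{0} ({c : Cond | Bd α c ∧ ∀ M ∈ c.S, M.Countable} ×ˢ
    {l : List Om | ∀ x ∈ l, x < w1} : Set (Cond × List Om)) := small_setProd _ _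
  have h4 : Small.{0} (𝒫 ({c : Cond | Bd α c ∧ ∀ M ∈ c.S, M.Countable} ×ˢ
    {l : List Om | ∀ x ∈ l, x < w1} : Set (Cond × List Om))) := small_powerset _
  have hmem : ∀ R : {R : Rel | BdR α R}, {x : Cond × List Om | R.1 x.1 x.2} ∈
      𝒫 ({c : Cond | Bd α c ∧ ∀ M ∈ c.S, M.Countable} ×ˢ
    {l : List Om | ∀ x ∈ l, x < w1} : Set (Cond × List Om)) := by
    rintro ⟨R, hR⟩ ⟨q, l⟩ hx
    obtain ⟨g1, g2, g3⟩ := hR q l hx
    exact ⟨⟨g1, g2⟩, g3⟩
  refine small_of_injective (f := fun R => (⟨{x : Cond × List Om | R.1 x.1 x.2}, hmem R⟩ :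
    𝒫 ({c : Cond | Bd α c ∧ ∀ M ∈ c.S, M.Countable} ×ˢ
    {l : List Om | ∀ x ∈ l, x < w1} : Set (Cond × List Om)))) ?_
  intro R R' h
  apply Subtype.ext
  funext q l
  have h5 : {x : Cond × List Om | R.1 x.1 x.2} = {x : Cond × List Om | R'.1 x.1 x.2} :=
    congrArg Subtype.val h
  have h6 : ((q, l) ∈ {x : Cond × List Om | R.1 x.1 x.2}) =
    ((q, l) ∈ {x : Cond × List Om | R'.1 x.1 x.2}) := by rw [h5]
  exact h6

end RowK3



theorem exists_cd : ∃ f : Set Om → Om, InjOn f {X | X.Countable} := by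
  obtain ⟨f, hf⟩ := exists_code (fun α => {X : Set Om | X ⊆ Iio α}) small_sets
  refine ⟨f, hf.mono ?_⟩
  intro X hX
  obtain ⟨α, hα⟩ := exists_bd hX
  exact ⟨α, hα⟩

theorem exists_cr : ∃ f : Rel → Om, InjOn f {R | ∃ α, BdR α R} :=
  exists_code (fun α => {R : Rel | BdR α R}) small_rels

/-- The code of a countable set. -/
noncomputable def cd : Set Om → Om := exists_cd.choose

theorem cd_inj : InjOn cd {X | X.Countable} := exists_cd.choose_spec

/-- The code of a bounded relation. -/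
noncomputable def cr : Rel → Om := exists_cr.choose

theorem cr_inj : InjOn cr {R | ∃ α, BdR α R} := exists_cr.choose_spec

/-! ### Big nodes -/

/-- The ordinals which can be big nodes. -/
structure IsBig (β : Om) : Prop where
  w1_lt : w1 < β
  mem : ∀ X : Set Om, X.Countable → cd X < β → X ⊆ Iio β
  code : ∀ X : Set Om, X.Countable → X ⊆ Iio β → cd X < β
  rel : ∀ α < β, ∀ R : Rel, BdR α R → cr R < β

section RowK4


/-- A small family of values is strictly bounded. -/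
private theorem K4_bdd {T : Type 1} (S : Set T) (hS : Small.{0} S) (f : T → Om) :
    ∃ b : Om, ∀ t ∈ S, f t < b := by
  have h1 : Small.{0} (f '' S) := small_image f S
  obtain ⟨b, hb⟩ : BddAbove (f '' S) := Ordinal.bddAbove_of_small
  exact ⟨Order.succ b, fun t ht => Order.lt_succ_of_le (hb ⟨t, ht, rfl⟩)⟩

private theorem K4_mono_Bd {α β : Om} (h : α ≤ β) {c : Cond} (hc : Bd α c) : Bd β c :=
  ⟨fun M hM => (hc.1 M hM).trans (Iio_subset_Iio h), fun b hb => (hc.2 b hb).trans_le h⟩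

private theorem K4_mono_BdR {α β : Om} (h : α ≤ β) {R : Rel} (hR : BdR α R) : BdR β R :=
  fun q l hq => ⟨K4_mono_Bd h (hR q l hq).1, (hR q l hq).2⟩

/-- One step. -/
private theorem K4_step (H : Cond → Om) (b : Om) : ∃ g : Om, b < g ∧
    (∀ X : Set Om, X.Countable → X ⊆ Iio b → cd X < g) ∧
    (∀ X : Set Om, X.Countable → cd X < b → X ⊆ Iio g) ∧
    (∀ R : Rel, BdR b R → cr R < g) ∧
    (∀ c : Cond, (∀ M ∈ c.S, M.Countable) → Bd b c → H c < g) := by
  classical
  obtain ⟨g2, h2⟩ := K4_bdd _ (small_sets b) cd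
  obtain ⟨g4, h4⟩ := K4_bdd _ (small_rels b) cr
  obtain ⟨g5, h5⟩ := K4_bdd _ (small_conds b) H
  -- the countable sets with code below b
  have hsm : Small.{0} {X : Set Om | X.Countable ∧ cd X < b} := by
    have hI : Small.{0} (Iio b) := Ordinal.small_Iio b
    refine small_of_injective (β := Iio b)
      (f := fun X : {X : Set Om | X.Countable ∧ cd X < b} => (⟨cd X.1, X.2.2⟩ : Iio b)) ?_
    intro X Y h
    have h1 : cd X.1 = cd Y.1 := congrArg Subtype.val h
    exact Subtype.ext (cd_inj X.2.1 Y.2.1 h1)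
  have hch : ∀ X : Set Om, ∃ α : Om, X.Countable → X ⊆ Iio α := by
    intro X
    by_cases hX : X.Countable
    · obtain ⟨α, hα⟩ := exists_bd hX
      exact ⟨α, fun _ => hα⟩
    · exact ⟨0, fun h => absurd h hX⟩
  choose bd hbd using hch
  obtain ⟨g3, h3⟩ := K4_bdd _ hsm bd
  refine ⟨max (Order.succ b) (max g2 (max g3 (max g4 g5))), ?_, ?_, ?_, ?_, ?_⟩
  · exact lt_max_of_lt_left (Order.lt_succ b)
  · intro X _ hX
    exact (h2 X hX).trans_le ((le_max_left _ _).trans (le_max_right _ _))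
  · intro X hX hc x hx
    have h6 : x < bd X := hbd X hX hx
    have h7 : bd X < g3 := h3 X ⟨hX, hc⟩
    exact (h6.trans h7).trans_le
      ((le_max_left _ _).trans ((le_max_right _ _).trans (le_max_right _ _)))
  · intro R hR
    exact (h4 R hR).trans_le ((le_max_left _ _).trans
      ((le_max_right _ _).trans ((le_max_right _ _).trans (le_max_right _ _))))
  · intro c hc hb
    exact (h5 c ⟨hb, hc⟩).trans_le ((le_max_right _ _).trans
      ((le_max_right _ _).trans ((le_max_right _ _).trans (le_max_right _ _))))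

/-- The sequence. -/
private theorem K4_seq (G : Om → Om) (γ : Om) : ∃ b : Om → Om, (∀ i, γ < b i) ∧
    (∀ i j, j < i → G (b j) < b i) ∧
    (∀ i x, x < b i → x ≤ γ ∨ ∃ j < i, x ≤ G (b j)) := by
  classical
  let F : (i : Om) → ((j : Om) → j < i → Om) → Om := fun i rec =>
    max (Order.succ γ) (⨆ j : Iio i, Order.succ (G (rec j.1 j.2)))
  let b : Om → Om := (wellFounded_lt (α := Om)).fix F
  have hb : ∀ i, b i = max (Order.succ γ) (⨆ j : Iio i, Order.succ (G (b j.1))) := by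
    intro i
    exact (wellFounded_lt (α := Om)).fix_eq F i
  have hbdd : ∀ i, BddAbove (range fun j : Iio i => Order.succ (G (b j.1))) := by
    intro i
    have hI : Small.{0} (Iio i) := Ordinal.small_Iio i
    exact Ordinal.bddAbove_of_small
  refine ⟨b, ?_, ?_, ?_⟩
  · intro i
    rw [hb]
    exact lt_max_of_lt_left (Order.lt_succ γ)
  · intro i j hj
    rw [hb i]
    refine lt_max_of_lt_right ?_
    exact (Order.lt_succ _).trans_le (le_ciSup (hbdd i) (⟨j, hj⟩ : Iio i))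
  · intro i x hx
    rw [hb, lt_max_iff] at hx
    rcases hx with hx | hx
    · exact Or.inl (Order.lt_succ_iff.1 hx)
    · right
      by_contra hcon
      push Not at hcon
      have h1 : (⨆ j : Iio i, Order.succ (G (b j.1))) ≤ x := by
        refine ciSup_le' fun j => ?_
        exact Order.succ_le_of_lt (hcon j.1 j.2)
      exact absurd hx (not_lt.2 h1)

theorem exists_big (H : Cond → Om) (γ : Om) : ∃ β, IsBig β ∧ γ < β ∧
    ∀ c : Cond, (∀ M ∈ c.S, M.Countable) → Bd β c → H c < β := by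
  classical
  choose G hG1 hG2 hG3 hG4 hG5 using K4_step H
  obtain ⟨b, hb1, hb2, hb3⟩ := K4_seq G (max γ w1)
  have hmono : ∀ i j, j < i → b j < b i := fun i j h => (hG1 (b j)).trans (hb2 i j h)
  have hA : ∀ x, x < b w1 → ∃ j < w1, x < b j := by
    intro x hx
    rcases hb3 w1 x hx with h | ⟨j, hj, h⟩
    · exact ⟨0, w1_pos, h.trans_lt (hb1 0)⟩
    · exact ⟨Order.succ j, succ_lt_w1 hj, h.trans_lt (hb2 _ _ (Order.lt_succ j))⟩
  -- a countable subset is bounded
  have hC : ∀ X : Set Om, X.Countable → X ⊆ Iio (b w1) → ∃ ξ < w1, X ⊆ Iio (b ξ) := by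
    intro X hX hXb
    have hch : ∀ x : Om, ∃ j, x ∈ X → j < w1 ∧ x < b j := by
      intro x
      by_cases hx : x ∈ X
      · obtain ⟨j, hj, h⟩ := hA x (hXb hx)
        exact ⟨j, fun _ => ⟨hj, h⟩⟩
      · exact ⟨0, fun h => absurd h hx⟩
    choose j hj using hch
    obtain ⟨ξ, hξ, h⟩ := exists_bound (hX.image j) (by
      rintro _ ⟨x, hx, rfl⟩
      exact (hj x hx).1)
    exact ⟨ξ, hξ, fun x hx => (hj x hx).2.trans (hmono _ _ (h _ ⟨x, hx, rfl⟩))⟩
  refine ⟨b w1, ⟨?_, ?_, ?_, ?_⟩, ?_, ?_⟩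
  · exact (le_max_right _ _).trans_lt (hb1 w1)
  · intro X hX hc
    obtain ⟨j, hj, h⟩ := hA _ hc
    exact (hG3 (b j) X hX h).trans (Iio_subset_Iio (hb2 _ _ hj).le)
  · intro X hX hXb
    obtain ⟨ξ, hξ, h⟩ := hC X hX hXb
    exact (hG2 (b ξ) X hX h).trans (hb2 _ _ hξ)
  · intro α hα R hR
    obtain ⟨j, hj, h⟩ := hA _ hα
    exact (hG4 (b j) R (K4_mono_BdR h.le hR)).trans (hb2 _ _ hj)
  · exact (le_max_left _ _).trans_lt (hb1 w1)
  · intro c hc hB
    obtain ⟨ξ, hξ, h⟩ := hC ((⋃ M ∈ c.S, M) ∪ (c.B : Set Om))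
      ((c.S.countable_toSet.biUnion fun M hM => hc M hM).union c.B.countable_toSet) (by
        intro x hx
        rcases hx with hx | hx
        · obtain ⟨M, hM, hx⟩ := mem_iUnion₂.1 hx
          exact hB.1 M hM hx
        · exact hB.2 x hx)
    have hBd : Bd (b ξ) c := by
      refine ⟨fun M hM x hx => h (Or.inl (mem_iUnion₂.2 ⟨M, hM, hx⟩)), fun β hβ => h (Or.inr hβ)⟩
    exact (hG5 (b ξ) c hc hBd).trans (hb2 _ _ hξ)

end RowK4

section RowK5


/-- The set of the triples with first component `α`. -/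
private def K5_U (α : Om) : Set (Om × Cond × Rel) :=
  {t | t.1 = α ∧ (Bd α t.2.1 ∧ ∀ M ∈ t.2.1.S, M.Countable) ∧ BdR α t.2.2}

private lemma K5_small (α : Om) : Small.{0} (K5_U α) := by
  have := small_conds α
  have := small_rels α
  refine small_of_injective (β := {c : Cond | Bd α c ∧ ∀ M ∈ c.S, M.Countable} ×
    {R : Rel | BdR α R}) (f := fun t => (⟨t.1.2.1, t.2.2.1⟩, ⟨t.1.2.2, t.2.2.2⟩)) ?_
  rintro ⟨⟨a, c, R⟩, ha, hc, hR⟩ ⟨⟨a', c', R'⟩, ha', hc', hR'⟩ h
  have h1 := congrArg (fun z => (z.1 : Cond)) h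
  have h2 := congrArg (fun z => (z.2 : Rel)) h
  dsimp only at h1 h2 ha ha'
  subst h1
  subst h2
  subst ha
  subst ha'
  rfl

private lemma K5_unbdd (e : Om × Om ≃ Om) (x γ : Om) : ∃ γ', γ < e (x, γ') := by
  by_contra hcon
  have h1 : ∀ γ', e (x, γ') ≤ γ := fun γ' => not_lt.1 fun h => hcon ⟨γ', h⟩
  have : Small.{0} (Iic γ) := Ordinal.small_Iic γ
  have h2 : Small.{0} Om := by
    refine small_of_injective (β := Iic γ) (f := fun γ' => ⟨e (x, γ'), h1 γ'⟩) ?_
    intro a b hab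
    have h3 := congrArg Subtype.val hab
    have h4 := e.injective h3
    exact (Prod.ext_iff.1 h4).2
  exact not_small_ordinal.{0, 0} h2

/-- Row K5.  Bookkeeping: every triple of an ordinal, a condition and a bounded relation occurs at
arbitrarily large big nodes. (`Om × Cond' × Rel'` can be coded by elements of `Om`, and `Om` can be
partitioned into `Om` many pieces, each of which contains unboundedly many big nodes.) -/
theorem exists_bk : ∃ bk : Om → Om × Cond × Rel, ∀ (α γ : Om) (r : Cond) (F : Rel), Bd α r →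
    (∀ M ∈ r.S, M.Countable) → BdR α F → ∃ β, IsBig β ∧ γ < β ∧ bk β = (α, r, F) := by
  classical
  obtain ⟨f, hf⟩ := exists_code K5_U K5_small
  have hinf : ℵ₀ ≤ #Om := by
    have : Infinite Om := NoMaxOrder.infinite
    exact Cardinal.aleph0_le_mk Om
  obtain ⟨e⟩ : Nonempty (Om × Om ≃ Om) := by
    rw [← Cardinal.eq, Cardinal.mk_prod, Cardinal.lift_id, Cardinal.mul_eq_self hinf]
  set S : Set Om := {β | IsBig β} with hS
  have hunb : ¬ BddAbove S := by
    rintro ⟨γ, hγ⟩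
    obtain ⟨β, h1, h2, _⟩ := exists_big (fun _ => 0) γ
    exact absurd (hγ h1) (not_le.2 h2)
  set B : Om → Om := Ordinal.enumOrd S with hB
  have hBm : StrictMono B := Ordinal.enumOrd_strictMono hunb
  have hBS : ∀ i, IsBig (B i) := fun i => Ordinal.enumOrd_mem hunb i
  refine ⟨fun β => if h : ∃ t : Om × Cond × Rel, (∃ α, t ∈ K5_U α) ∧ ∃ γ', β = B (e (f t, γ')) then
    h.choose else (0, ⟨∅, ∅, fun _ => ∅, fun _ _ => rfl, fun _ x hx =>
      absurd hx (Finset.notMem_empty x)⟩, fun _ _ => False), ?_⟩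
  intro α γ r F h1 h2 h3
  have ht : ∃ α', (α, r, F) ∈ K5_U α' := ⟨α, rfl, ⟨h1, h2⟩, h3⟩
  obtain ⟨γ', hγ'⟩ := K5_unbdd e (f (α, r, F)) γ
  refine ⟨B (e (f (α, r, F), γ')), hBS _, lt_of_lt_of_le hγ' hBm.le_apply, ?_⟩
  have hex : ∃ t : Om × Cond × Rel, (∃ α, t ∈ K5_U α) ∧ ∃ γ'',
      B (e (f (α, r, F), γ')) = B (e (f t, γ'')) := ⟨(α, r, F), ht, γ', rfl⟩
  beta_reduce
  rw [dif_pos hex]
  obtain ⟨h4, γ'', h5⟩ := hex.choose_spec
  have h6 := e.injective (hBm.injective h5)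
  exact hf h4 ht (Prod.ext_iff.1 h6).1.symm

end RowK5

/-! ### Small nodes -/

/-- Small nodes. -/
structure IsNode (M : Set Om) : Prop where
  ctb : M.Countable
  mem : ∀ X : Set Om, X.Countable → cd X ∈ M → X ⊆ M
  cut : ∀ X : Set Om, X.Countable → ∀ α ∈ M, cd X ∈ M → cd (X ∩ Iio α) ∈ M
  init : ∀ ξ ∈ M, ξ < w1 → ∀ η < ξ, η ∈ M

section RowK6


/-- Row K6. -/
theorem IsNode.inter {M : Set Om} (h : IsNode M) {β : Om} (hβ : IsBig β) :
    IsNode (M ∩ Iio β) where
  ctb := h.ctb.mono inter_subset_left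
  mem X hX hc := subset_inter (h.mem X hX hc.1) (hβ.mem X hX hc.2)
  cut X hX α hα hc := ⟨h.cut X hX α hα.1 hc.1,
    hβ.code _ (hX.mono inter_subset_left) (inter_subset_left.trans (hβ.mem X hX hc.2))⟩
  init ξ hξ hw η hη := ⟨h.init ξ hξ.1 hw η hη, lt_trans hη hξ.2⟩

end RowK6

end Pool.ST
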