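import Mathlib

/-!
# ST (MP_b18e8e_lc): two-type side conditions with finite good sets, definitions (V-side)

`Om` is the class of the ordinals of the small universe, so it behaves like an inaccessible
cardinal.  Small nodes are countable subsets of `Om`, big nodes are elements of `Om`.
-/

set_option autoImplicit false

open Set Cardinal

namespace Pool.ST

/-- The index class. -/
abbrev Om : Type 1 := Ordinal.{0}

/-- The first uncountable ordinal. -/
noncomputable def w1 : Om := (Cardinal.aleph 1).ord

/-- Conditions (not yet the legal ones): finitely many small nodes, finitely many big nodes, for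
finitely many big nodes `α` a finite set `p α` of countable ordinals. -/
@[ext] structure Cond : Type 1 where
  S : Finset (Set Om)
  B : Finset Om
  p : Om → Finset Om
  hp : ∀ α, α ∉ B → p α = ∅
  hw : ∀ α, ∀ x ∈ p α, x < w1

instance : PartialOrder Cond where
  le c d := d.S ⊆ c.S ∧ d.B ⊆ c.B ∧ ∀ α, d.p α ⊆ c.p α
  le_refl c := ⟨Finset.Subset.refl _, Finset.Subset.refl _, fun _ => Finset.Subset.refl _⟩
  le_trans a b c h h' := ⟨h'.1.trans h.1, h'.2.1.trans h.2.1, fun α => (h'.2.2 α).trans (h.2.2 α)⟩
  le_antisymm a b h h' := by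
    ext1
    · exact Finset.Subset.antisymm h'.1 h.1
    · exact Finset.Subset.antisymm h'.2.1 h.2.1
    · exact funext fun α => Finset.Subset.antisymm (h'.2.2 α) (h.2.2 α)

lemma Cond.le_def {c d : Cond} : c ≤ d ↔ d.S ⊆ c.S ∧ d.B ⊆ c.B ∧ ∀ α, d.p α ⊆ c.p α := Iff.rfl

/-- All nodes of `c` are below `α`. -/
def Bd (α : Om) (c : Cond) : Prop := (∀ M ∈ c.S, M ⊆ Iio α) ∧ ∀ β ∈ c.B, β < α

open Classical in
/-- The restriction of `c` to the level `α`. -/
noncomputable def Cond.res (c : Cond) (α : Om) : Cond where
  S := c.S.filter (fun M => M ⊆ Iio α)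
  B := c.B.filter (fun β => β < α)
  p := fun γ => if γ < α then c.p γ else ∅
  hp := by
    intro γ h
    split_ifs with hγ
    · exact c.hp γ fun h' => h (Finset.mem_filter.2 ⟨h', hγ⟩)
    · rfl
  hw := by
    intro γ x hx
    split_ifs at hx with hγ
    · exact c.hw γ x hx
    · exact absurd hx (Finset.notMem_empty _)

/-- Relations between conditions and finite sequences of ordinals (the names). -/
abbrev Rel : Type 1 := Cond → List Om → Prop

/-- The relation `R` is bounded by `α`. -/
def BdR (α : Om) (R : Rel) : Prop := ∀ q l, R q l → Bd α q ∧ (∀ M ∈ q.S, M.Countable) ∧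
  ∀ x ∈ l, x < w1

end Pool.ST
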