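import Pool.Agent.Lib.ST.Gen

/-!
# ST: the final V-side theorems (rows F1-F6)
-/

set_option autoImplicit false

open Set Cardinal

namespace Pool.ST

/-! ### Arbitrary bookkeeping -/

section
variable {nm : Om → Set Cond → Rel}

/-- Row F1.  A condition can be extended by a small node which is closed under everything. -/
theorem exists_node {c : Cond} (hc : c ∈ PP nm) {Q : Set Om → Prop} (hQ : CL Q) :
    ∃ N, N.Countable ∧ InN N c ∧ IsNode N ∧ Q N ∧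
      ∃ e ∈ PP nm, e ≤ c ∧ N ∈ e.S ∧ e.B = c.B ∧ e.p = c.p := by
  obtain ⟨N, hN, hXN, hnode, hQN⟩ := (CL.node.and hQ).exists (countable_cond c)
  have hin : InN N c := ⟨fun M hM => hXN (Or.inl ⟨M, hM, rfl⟩),
    fun β hβ => hXN (Or.inr (Or.inl hβ)), fun α x hx => hXN (Or.inr (Or.inr ⟨α, hx⟩))⟩
  exact ⟨N, hN, hin, hnode, hQN, addSmall hc hnode hin.1 hin.2.1⟩



section RowF2


section
variable {nm : Om → Set Cond → Rel}

/-- A property which holds for all sets holds for all sufficiently closed sets. -/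
theorem F2_true {Q : Set Om → Prop} (h : ∀ N, Q N) : CL Q :=
  (CL.mem 0).mono fun N _ _ => h N

/-- Row F2.  No new ordinals `≥ ω₁` from countably many values: every condition has an extension
which bounds all the values of a name `G` of a sequence of countable ordinals. -/
theorem bound_vals {G : Cond → ℕ → Om → Prop}
    (mono : ∀ q ∈ PP nm, ∀ q' ∈ PP nm, q' ≤ q → ∀ n ξ, G q n ξ → G q' n ξ)
    (func : ∀ q ∈ PP nm, ∀ n ξ ξ', G q n ξ → G q n ξ' → ξ = ξ') {r : Cond} (hr : r ∈ PP nm) :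
    ∃ r' ∈ PP nm, r' ≤ r ∧ ∃ δ < w1, ∀ q ∈ PP nm, q ≤ r' → ∀ n ξ, ξ < w1 → G q n ξ → ξ < δ := by
  have h1 : CL (fun N => ∀ n : ℕ, Gen nm ⊤ {q | ∃ ξ, ξ < w1 ∧ G q n ξ} N) := by
    apply CL.all
    intro n
    exact (gen_main (nm := nm) ⊤ (fun b hb => absurd hb (WithTop.top_ne_coe))
      {q | ∃ ξ, ξ < w1 ∧ G q n ξ}).mono
      fun N _ h => h fun b hb => absurd hb (WithTop.top_ne_coe)
  have h2 : CL (fun N => ∀ q : Cond, (∀ M ∈ q.S, M.Countable) → InN N q →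
      (q ∈ PP nm → ∀ n ξ, G q n ξ → ξ ∈ N)) := by
    apply CL.cond (Q := fun q N => q ∈ PP nm → ∀ n ξ, G q n ξ → ξ ∈ N)
    intro q _
    apply CL.imp
    intro hq
    apply CL.all
    intro n
    by_cases hex : ∃ ξ, G q n ξ
    · obtain ⟨ξ, hξ⟩ := hex
      refine (CL.mem ξ).mono fun N _ hN ξ' hξ' => ?_
      rw [func q hq n ξ' ξ hξ' hξ]
      exact hN
    · exact F2_true fun N ξ hξ => absurd ⟨ξ, hξ⟩ hex
  obtain ⟨N, hNc, -, -, ⟨hQ1, hQ2⟩, e, he, her, hNe, -, -⟩ := exists_node hr (h1.and h2)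
  obtain ⟨δ, hδ, hδ'⟩ := exists_bound (X := {x | x ∈ N ∧ x < w1})
    (hNc.mono fun x hx => hx.1) (fun x hx => hx.2)
  refine ⟨e, he, her, δ, hδ, ?_⟩
  intro q hq hqe n ξ hξ hG
  have hcut : cutT N ⊤ ∈ q.S := by
    rw [cutT_top]
    exact hqe.1 hNe
  obtain ⟨c', hc'D, hc', hin, e', he', heq, hec⟩ := hQ1 n q ⟨ξ, hξ, hG⟩ (by rw [WT_top]; exact hq) hcut
  obtain ⟨ξ', hξ', hG'⟩ := hc'D
  rw [WT_top] at hc' he'
  have h3 : ξ' ∈ N := hQ2 c' (ctb_of_mem hc') hin hc' n ξ' hG'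
  have h4 : ξ = ξ' := func e' he' n ξ ξ' (mono q hq e' he' heq n ξ hG)
    (mono c' hc' e' he' hec n ξ' hG')
  rw [h4]
  exact hδ' ξ' ⟨h3, hξ'⟩

end

end RowF2

section RowF3


variable {nm : Om → Set Cond → Rel}

open Classical in
/-- put `x` into the working part at `β` -/
private noncomputable def F3_add (e : Cond) (β x : Om) (hβ : β ∈ e.B) (hx : x < w1) : Cond where
  S := e.S
  B := e.B
  p := fun α => if α = β then insert x (e.p α) else e.p α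
  hp := by
    intro α hα
    have h : α ≠ β := fun h => hα (h ▸ hβ)
    rw [if_neg h]
    exact e.hp α hα
  hw := by
    intro α y hy
    split_ifs at hy with h
    · rcases Finset.mem_insert.1 hy with rfl | hy
      · exact hx
      · exact e.hw α y hy
    · exact e.hw α y hy

private lemma F3_le (e : Cond) (β x : Om) (hβ : β ∈ e.B) (hx : x < w1) :
    F3_add e β x hβ hx ≤ e := by
  classical
  refine ⟨Finset.Subset.refl _, Finset.Subset.refl _, fun α => ?_⟩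
  change e.p α ⊆ if α = β then insert x (e.p α) else e.p α
  split_ifs with h
  · exact Finset.subset_insert _ _
  · exact Finset.Subset.refl _

private lemma F3_mem {e : Cond} (he : e ∈ PP nm) {β x : Om} (hβ : β ∈ e.B) (hx : x < w1)
    (hp : e.p β = ∅) (hs : Suit β (W nm β) (A nm β)) : F3_add e β x hβ hx ∈ PP nm := by
  classical
  refine ⟨he.1, fun α hα => ?_⟩
  by_cases h : α = β
  · subst h
    have hpx : (F3_add e α x hβ hx).p α = {x} := by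
      change (if α = α then insert x (e.p α) else e.p α) = {x}
      rw [if_pos rfl, hp]
      rfl
    refine ⟨hs, ?_, ?_⟩
    · intro y hy z hz hyz
      rw [hpx, Finset.mem_singleton] at hy hz
      rw [hy, hz] at hyz
      exact absurd hyz (lt_irrefl _)
    · intro q _ _ u hu v hv w _ huv _
      rw [hpx, Finset.mem_singleton] at hu hv
      exact absurd (hu.trans hv.symm) huv
  · have hpα : (F3_add e β x hβ hx).p α = e.p α := by
      change (if α = β then insert x (e.p α) else e.p α) = e.p α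
      rw [if_neg h]
    rw [hpα] at hα
    exact (he.2 α hα).mono hpα (Finset.Subset.refl _) (res_mono (F3_le e β x hβ hx) α)

/-- Row F3.  The generic set at a stage with a suitable name can be made unbounded. -/
theorem start {c : Cond} (hc : c ∈ PP nm) {β : Om} (hβ : β ∈ c.B) (hp : c.p β = ∅)
    (hs : Suit β (W nm β) (A nm β)) :
    ∃ c' ∈ PP nm, c' ≤ c ∧ ∀ q ∈ PP nm, q ≤ c' → ∀ ξ < w1, ∃ q' ∈ PP nm, q' ≤ q ∧
      ∃ x ∈ q'.p β, ξ < x := by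
  classical
  let D : Set Cond := {d | ∃ η < w1, ∀ d' ∈ PP nm, d' ≤ d → ∀ x ∈ d'.p β, x < η}
  let η : Cond → Om := fun d => if h : d ∈ D then h.choose else 0
  have hη : ∀ d ∈ D, η d < w1 ∧ ∀ d' ∈ PP nm, d' ≤ d → ∀ x ∈ d'.p β, x < η d := by
    intro d hd
    simp only [η, dif_pos hd]
    exact hd.choose_spec
  have hQ : CL (fun N => Gen nm ⊤ D N ∧
      ∀ d : Cond, (∀ M ∈ d.S, M.Countable) → InN N d → η d ∈ N) := by
    refine CL.and ?_ (CL.cond fun d _ => CL.mem (η d))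
    refine (gen_main (nm := nm) ⊤ (fun b hb => absurd hb WithTop.top_ne_coe) D).mono fun N _ hN => ?_
    exact hN fun b hb => absurd hb WithTop.top_ne_coe
  obtain ⟨N, hNc, -, hNn, ⟨hgen, hcl⟩, e, he, hec, hNe, heB, hep⟩ := exists_node hc hQ
  obtain ⟨x, hx, hxN⟩ := exists_bound (X := {y | y ∈ N ∧ y < w1}) (hNc.mono fun y hy => hy.1)
    fun y hy => hy.2
  have hxN' : x ∉ N := fun h => lt_irrefl _ (hxN x ⟨h, hx⟩)
  have hβe : β ∈ e.B := by rw [heB]; exact hβ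
  have hpe : e.p β = ∅ := by rw [hep]; exact hp
  refine ⟨F3_add e β x hβe hx, F3_mem he hβe hx hpe hs, (F3_le e β x hβe hx).trans hec, ?_⟩
  intro q hq hqc
  by_contra hcon
  push Not at hcon
  obtain ⟨ξ, hξ, hcon⟩ := hcon
  have hxp : x ∈ (F3_add e β x hβe hx).p β := by
    change x ∈ if β = β then insert x (e.p β) else e.p β
    rw [if_pos rfl]
    exact Finset.mem_insert_self _ _
  have hqD : q ∈ D := by
    refine ⟨Order.succ ξ, succ_lt_w1 hξ, fun d' hd' hle y hy => ?_⟩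
    exact Order.lt_succ_of_le (hcon d' hd' hle y hy)
  have hNq : cutT N ⊤ ∈ q.S := by
    rw [cutT_top]
    exact hqc.1 hNe
  obtain ⟨d, hdD, hdW, hdN, e', he', heq, hed⟩ := hgen q hqD (by rw [WT_top]; exact hq) hNq
  rw [WT_top] at hdW he'
  obtain ⟨h1, h2⟩ := hη d hdD
  have hxe : x ∈ e'.p β := (heq.trans hqc).2.2 β hxp
  have h3 := h2 e' he' hed x hxe
  have h4 := hcl d (ctb_of_mem hdW) hdN
  exact hxN' (hNn.init _ h4 h1 x h3)

end RowF3

end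

/-! ### The bookkeeping -/

/-- The bookkeeping function. -/
noncomputable def bk : Om → Om × Cond × Rel := exists_bk.choose

theorem bk_spec (α γ : Om) (r : Cond) (F : Rel) (hr : Bd α r) (hc : ∀ M ∈ r.S, M.Countable)
    (hF : BdR α F) : ∃ β, IsBig β ∧ γ < β ∧ bk β = (α, r, F) :=
  exists_bk.choose_spec α γ r F hr hc hF

/-- The names of the stages: below `r` and with the big node `α` the given name `F` of an operation,
the trivial operation `f(u, v) = v` otherwise. -/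
noncomputable def nmb : Om → Set Cond → Rel := fun β W q l => q ∈ W ∧
  ∃ u < w1, ∃ v < w1, ∃ w < w1, l = [u, v, w] ∧
    ((q ≤ (bk β).2.1 ∧ (bk β).1 ∈ q.B ∧ ∃ q0, q ≤ q0 ∧ (bk β).2.2 q0 [u, v, w]) ∨
      ((∀ q' ∈ W, q' ≤ q → ¬ (q' ≤ (bk β).2.1 ∧ (bk β).1 ∈ q'.B)) ∧ w = v))

/-- `F` is a name (below `r`) for a total involutory operation on `ω₁`. -/
structure OpName (r : Cond) (F : Cond → Om → Om → Om → Prop) : Prop where
  mem : r ∈ PP nmb
  mono : ∀ q ∈ PP nmb, ∀ q' ∈ PP nmb, q' ≤ q → ∀ u v w, F q u v w → F q' u v w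
  func : ∀ q ∈ PP nmb, ∀ u v w w', F q u v w → F q u v w' → w = w'
  inv : ∀ q ∈ PP nmb, q ≤ r → ∀ u v w, F q u v w → F q u w v
  tot : ∀ q ∈ PP nmb, q ≤ r → ∀ u < w1, ∀ v < w1, ∃ q' ∈ PP nmb, q' ≤ q ∧
    ∃ w < w1, F q' u v w

section RowF4


theorem F4_bd {c : Cond} (hc : ∀ M ∈ c.S, M.Countable) : ∃ α, Bd α c := by
  obtain ⟨α, hα⟩ := exists_bd (X := (⋃ M ∈ c.S, M) ∪ (c.B : Set Om))
    ((c.S.countable_toSet.biUnion fun M hM => hc M hM).union c.B.countable_toSet)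
  exact ⟨α, fun M hM x hx => hα (Or.inl (mem_iUnion₂.2 ⟨M, hM, hx⟩)), fun β hβ => hα (Or.inr hβ)⟩

theorem F4_mono {α β : Om} {c : Cond} (h : Bd α c) (hαβ : α ≤ β) : Bd β c :=
  ⟨fun M hM => (h.1 M hM).trans (Iio_subset_Iio hαβ), fun γ hγ => (h.2 γ hγ).trans_le hαβ⟩

/-- Row F4. A big node `α` such that the values can be decided below `α`. -/
theorem exists_closed {r : Cond} {F : Cond → Om → Om → Om → Prop} (h : OpName r F) :
    ∃ α, IsBig α ∧ Bd α r ∧ ∀ q ∈ W nmb α, q ≤ r → ∀ u < w1, ∀ v < w1, ∃ q' ∈ W nmb α,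
      q' ≤ q ∧ ∃ w < w1, F q' u v w := by
  have key : ∀ c : Cond, ∃ δ : Om, c ∈ PP nmb → c ≤ r → ∀ u < w1, ∀ v < w1, ∃ q' ∈ PP nmb,
      Bd δ q' ∧ q' ≤ c ∧ ∃ w < w1, F q' u v w := by
    intro c
    by_cases hc : c ∈ PP nmb ∧ c ≤ r
    · have h1 : ∀ x : Iio w1 × Iio w1, ∃ q' ∈ PP nmb, q' ≤ c ∧ ∃ w < w1, F q' x.1.1 x.2.1 w :=
        fun x => h.tot c hc.1 hc.2 _ x.1.2 _ x.2.2
      choose q' hq1 hq2 hq3 using h1
      have h2 : ∀ x, ∃ α, Bd α (q' x) := fun x => F4_bd (ctb_of_mem (hq1 x))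
      choose b hb using h2
      have : Small.{0} (range b) := small_range b
      obtain ⟨δ, hδ⟩ := Ordinal.bddAbove_of_small (s := range b)
      exact ⟨δ, fun _ _ u hu v hv => ⟨q' (⟨u, hu⟩, ⟨v, hv⟩), hq1 _,
        F4_mono (hb _) (hδ (mem_range_self _)), hq2 _, hq3 (⟨u, hu⟩, ⟨v, hv⟩)⟩⟩
    · exact ⟨0, fun h1 h2 => absurd ⟨h1, h2⟩ hc⟩
  choose H hH using key
  obtain ⟨γ, hγ⟩ := F4_bd (ctb_of_mem h.mem)
  obtain ⟨β, hβ, hγβ, hcl⟩ := exists_big H γ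
  refine ⟨β, hβ, F4_mono hγ hγβ.le, fun q hq hqr u hu v hv => ?_⟩
  obtain ⟨hq1, hq2⟩ := mem_W.1 hq
  obtain ⟨q', h1, h2, h3, h4⟩ := hH q hq1 hqr u hu v hv
  exact ⟨q', mem_W.2 ⟨h1, F4_mono h2 (hcl q (ctb_of_mem hq1) hq2).le⟩, h3, h4⟩

end RowF4

/-- The name restricted to the conditions below `α`. -/
def rawF (α : Om) (F : Cond → Om → Om → Om → Prop) : Rel := fun q l => q ∈ W nmb α ∧
  ∃ u < w1, ∃ v < w1, ∃ w < w1, l = [u, v, w] ∧ F q u v w

section RowF5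


/-- Unfolding of the name of the stage `β`. -/
theorem F5_A_iff {r : Cond} {F : Cond → Om → Om → Om → Prop} {α β : Om}
    (hbk : bk β = (α, r, rawF α F)) (q : Cond) (u v w : Om) :
    A nmb β q [u, v, w] ↔ q ∈ W nmb β ∧ u < w1 ∧ v < w1 ∧ w < w1 ∧
      ((q ≤ r ∧ α ∈ q.B ∧ ∃ q0, q ≤ q0 ∧ q0 ∈ W nmb α ∧ F q0 u v w) ∨
        ((∀ q' ∈ W nmb β, q' ≤ q → ¬ (q' ≤ r ∧ α ∈ q'.B)) ∧ w = v)) := by
  unfold A nmb
  simp only [hbk]
  constructor
  · rintro ⟨hq, u', hu, v', hv, w', hw, hl, h⟩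
    simp only [List.cons.injEq, and_true] at hl
    obtain ⟨rfl, rfl, rfl⟩ := hl
    refine ⟨hq, hu, hv, hw, ?_⟩
    rcases h with ⟨h1, h2, q0, h3, h4⟩ | h
    · refine Or.inl ⟨h1, h2, q0, h3, ?_⟩
      obtain ⟨h5, u', -, v', -, w', -, hl, h6⟩ := h4
      simp only [List.cons.injEq, and_true] at hl
      obtain ⟨rfl, rfl, rfl⟩ := hl
      exact ⟨h5, h6⟩
    · exact Or.inr h
  · rintro ⟨hq, hu, hv, hw, h⟩
    refine ⟨hq, u, hu, v, hv, w, hw, rfl, ?_⟩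
    rcases h with ⟨h1, h2, q0, h3, h4, h5⟩ | h
    · exact Or.inl ⟨h1, h2, q0, h3, h4, u, hu, v, hv, w, hw, rfl, h5⟩
    · exact Or.inr h

theorem F5_A_shape {β : Om} {q : Cond} {l : List Om} (h : A nmb β q l) :
    q ∈ W nmb β ∧ ∃ u < w1, ∃ v < w1, ∃ w < w1, l = [u, v, w] := by
  obtain ⟨hq, u, hu, v, hv, w, hw, hl, -⟩ := h
  exact ⟨hq, u, hu, v, hv, w, hw, hl⟩

/-- Row F5. -/
theorem suit_bk {r : Cond} {F : Cond → Om → Om → Om → Prop} (h : OpName r F) {α β : Om}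
    (hα : IsBig α) (hr : Bd α r) (hcl : ∀ q ∈ W nmb α, q ≤ r → ∀ u < w1, ∀ v < w1,
      ∃ q' ∈ W nmb α, q' ≤ q ∧ ∃ w < w1, F q' u v w) (hβ : IsBig β) (hαβ : α < β)
    (hbk : bk β = (α, r, rawF α F)) : Suit β (W nmb β) (A nmb β) where
  bd := by
    intro q l hA
    obtain ⟨hq, u, hu, v, hv, w, hw, rfl⟩ := F5_A_shape hA
    obtain ⟨hq1, hq2⟩ := mem_W.1 hq
    refine ⟨hq2, ctb_of_mem hq1, ?_⟩
    intro x hx
    simp only [List.mem_cons, List.not_mem_nil, or_false] at hx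
    rcases hx with rfl | rfl | rfl <;> assumption
  mem := fun q l hA => (F5_A_shape hA).1
  mono := by
    intro q q' l hA hq' hle
    obtain ⟨hq, u, hu, v, hv, w, hw, rfl⟩ := F5_A_shape hA
    rw [F5_A_iff hbk] at hA ⊢
    obtain ⟨-, -, -, -, hA⟩ := hA
    refine ⟨hq', hu, hv, hw, ?_⟩
    rcases hA with ⟨h1, h2, q0, h3, h4, h5⟩ | ⟨h1, h2⟩
    · exact Or.inl ⟨hle.trans h1, hle.2.1 h2, q0, hle.trans h3, h4, h5⟩
    · exact Or.inr ⟨fun q'' hq'' hle' => h1 q'' hq'' (hle'.trans hle), h2⟩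
  tot := by
    intro q hq u hu v hv
    by_cases hex : ∃ q1 ∈ W nmb β, q1 ≤ q ∧ q1 ≤ r ∧ α ∈ q1.B
    · obtain ⟨q1, hq1, hle, hr1, hα1⟩ := hex
      obtain ⟨hP1, hb1⟩ := mem_W.1 hq1
      obtain ⟨q2, hq2, hle2, w, hw, hF⟩ := hcl (q1.res α) (res_mem hP1 hα1)
        (res_le_of hr1 hr) u hu v hv
      obtain ⟨e, he, he1, he2, -, heS, heB, -⟩ := glue hP1 hα1 hq2 hle2
      have hb2 := (mem_W.1 hq2).2
      have heW : e ∈ W nmb β := by
        refine mem_W.2 ⟨he, ?_, ?_⟩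
        · intro M hM
          rw [heS] at hM
          rcases Finset.mem_union.1 hM with hM | hM
          · exact hb1.1 M hM
          · exact (hb2.1 M hM).trans (Iio_subset_Iio hαβ.le)
        · intro b hb
          rw [heB] at hb
          rcases Finset.mem_union.1 hb with hb | hb
          · exact hb1.2 b hb
          · exact (hb2.2 b hb).trans hαβ
      refine ⟨e, heW, he1.trans hle, w, hw, ?_⟩
      rw [F5_A_iff hbk]
      exact ⟨heW, hu, hv, hw, Or.inl ⟨he1.trans hr1, he1.2.1 hα1, q2, he2, hq2, hF⟩⟩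
    · refine ⟨q, hq, le_rfl, v, hv, ?_⟩
      rw [F5_A_iff hbk]
      exact ⟨hq, hu, hv, hv, Or.inr ⟨fun q' hq' hle hcon => hex ⟨q', hq', hle, hcon.1, hcon.2⟩,
        rfl⟩⟩
  func := by
    intro q u v w w' h1 h2
    rw [F5_A_iff hbk] at h1 h2
    obtain ⟨hq, -, -, -, h1⟩ := h1
    obtain ⟨-, -, -, -, h2⟩ := h2
    have hP := (mem_W.1 hq).1
    rcases h1 with ⟨a1, a2, q0, a3, a4, a5⟩ | ⟨a1, a2⟩
    · rcases h2 with ⟨-, -, q0', b3, b4, b5⟩ | ⟨b1, -⟩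
      · exact h.func q hP u v w w' (h.mono q0 (mem_W.1 a4).1 q hP a3 u v w a5)
          (h.mono q0' (mem_W.1 b4).1 q hP b3 u v w' b5)
      · exact absurd ⟨a1, a2⟩ (b1 q hq le_rfl)
    · rcases h2 with ⟨b1, b2, -⟩ | ⟨-, b2⟩
      · exact absurd ⟨b1, b2⟩ (a1 q hq le_rfl)
      · rw [a2, b2]
  inv := by
    intro q u v w h1
    rw [F5_A_iff hbk] at h1 ⊢
    obtain ⟨hq, hu, hv, hw, h1⟩ := h1
    have hP := (mem_W.1 hq).1
    refine ⟨hq, hu, hw, hv, ?_⟩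
    rcases h1 with ⟨a1, a2, q0, a3, a4, a5⟩ | ⟨a1, a2⟩
    · have hm : q.res α ∈ W nmb α := res_mem hP a2
      have hm' := (mem_W.1 hm).1
      have h2 : F (q.res α) u v w :=
        h.mono q0 (mem_W.1 a4).1 _ hm' (res_le_of a3 (mem_W.1 a4).2) u v w a5
      exact Or.inl ⟨a1, a2, q.res α, res_le q α, hm,
        h.inv _ hm' (res_le_of a1 hr) u v w h2⟩
    · exact Or.inr ⟨a1, a2.symm⟩

end RowF5

section RowF6


theorem F6_bdR_rawF (α : Om) (F : Cond → Om → Om → Om → Prop) : BdR α (rawF α F) := by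
  rintro q l ⟨hq, u, hu, v, hv, w, hw, rfl, -⟩
  obtain ⟨h1, h2⟩ := mem_W.1 hq
  refine ⟨h2, ctb_of_mem h1, ?_⟩
  intro x hx
  simp only [List.mem_cons, List.not_mem_nil, or_false] at hx
  rcases hx with rfl | rfl | rfl
  · exact hu
  · exact hv
  · exact hw

theorem F6_A_def {β : Om} {q : Cond} {l : List Om} (h : A nmb β q l) {α : Om} {r : Cond} {F : Rel}
    (hbk : bk β = (α, r, F)) : ∃ u < w1, ∃ v < w1, ∃ w < w1, l = [u, v, w] ∧
    ((q ≤ r ∧ α ∈ q.B ∧ ∃ q0, q ≤ q0 ∧ F q0 [u, v, w]) ∨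
      ((∀ q' ∈ W nmb β, q' ≤ q → ¬ (q' ≤ r ∧ α ∈ q'.B)) ∧ w = v)) := by
  have h' : nmb β (W nmb β) q l := h
  obtain ⟨-, u, hu, v, hv, w, hw, hl, h3⟩ := h'
  rw [hbk] at h3
  exact ⟨u, hu, v, hv, w, hw, hl, h3⟩

/-- Row F6.  The final theorem of the V-side: below every condition `r` which forces that `F` is a
total involutory operation there are `r'` and a stage `β` whose generic set is unbounded in `ω₁`
and contains no `u, v, w` with `u ≠ v`, `w ≠ v`, `f(u, v) = w`. -/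
theorem exists_free {r : Cond} {F : Cond → Om → Om → Om → Prop} (h : OpName r F) :
    ∃ r' ∈ PP nmb, r' ≤ r ∧ ∃ β : Om,
      (∀ q ∈ PP nmb, q ≤ r' → ∀ ξ < w1, ∃ q' ∈ PP nmb, q' ≤ q ∧ ∃ x ∈ q'.p β, ξ < x) ∧
      ∀ q ∈ PP nmb, q ≤ r' → ∀ u ∈ q.p β, ∀ v ∈ q.p β, ∀ w ∈ q.p β, u ≠ v → w ≠ v →
        ¬ F q u v w := by
  obtain ⟨α, hα, hr, hcl⟩ := exists_closed h
  have hrW : r ∈ W nmb α := mem_W.2 ⟨h.mem, hr⟩
  obtain ⟨e, he, her, hαe, heS, heB, hep⟩ := addBig hrW hα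
  obtain ⟨β, hβ, hαβ, hbk⟩ := bk_spec α α r (rawF α F) hr (ctb_of_mem h.mem) (F6_bdR_rawF α F)
  have hrβ : Bd β r := ⟨fun M hM => (hr.1 M hM).trans (Iio_subset_Iio hαβ.le),
    fun b hb => (hr.2 b hb).trans hαβ⟩
  have heW : e ∈ W nmb β := by
    refine mem_W.2 ⟨he, ?_, ?_⟩
    · rw [heS]; exact hrβ.1
    · rw [heB]
      intro b hb
      rcases Finset.mem_insert.1 hb with rfl | hb
      · exact hαβ
      · exact hrβ.2 b hb
  obtain ⟨e2, he2, he2e, hβe2, he2S, he2B, he2p⟩ := addBig heW hβ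
  have hp : e2.p β = ∅ := by
    rw [he2p, hep]
    exact r.hp β fun hb => lt_irrefl _ (hrβ.2 β hb)
  have hs := suit_bk h hα hr hcl hβ hαβ hbk
  obtain ⟨c', hc', hc'e, hunb⟩ := start he2 hβe2 hp hs
  have hc'r : c' ≤ r := (hc'e.trans he2e).trans her
  refine ⟨c', hc', hc'r, β, hunb, ?_⟩
  intro q hq hqc u hu v hv w hw huv hwv hF
  have hqr : q ≤ r := hqc.trans hc'r
  have hβq : β ∈ q.B := (hqc.trans hc'e).2.1 hβe2
  have hαq : α ∈ q.B := (hqc.trans (hc'e.trans he2e)).2.1 hαe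
  have hreq : Req β (W nmb β) (A nmb β) q := hq.2 β ⟨u, hu⟩
  obtain ⟨q1, hq1, hq1q, w', hw', hA⟩ := hs.tot (q.res β) (res_mem hq hβq) u (q.hw β u hu) v
    (q.hw β v hv)
  obtain ⟨e', he', he'q, he'q1, -⟩ := glue hq hβq hq1 hq1q
  obtain ⟨u', hu', v', hv', w'', hw'', hl, h3⟩ := F6_A_def hA hbk
  have hl' : u = u' ∧ v = v' ∧ w' = w'' := by simpa using hl
  obtain ⟨rfl, rfl, rfl⟩ := hl'
  have hq1r : q1 ≤ r := hq1q.trans (res_le_of hqr hrβ)
  have hαq1 : α ∈ q1.B := by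
    refine hq1q.2.1 ?_
    exact Finset.mem_filter.2 ⟨hαq, hαβ⟩
  rcases h3 with ⟨-, -, q0, hq10, hq0, u2, hu2, v2, hv2, w2, hw2, hl2, hF2⟩ | ⟨h4, -⟩
  · have hl3 : u = u2 ∧ v = v2 ∧ w' = w2 := by simpa using hl2
    obtain ⟨rfl, rfl, rfl⟩ := hl3
    have hq0P : q0 ∈ PP nmb := (mem_W.1 hq0).1
    have h5 : F e' u v w' := h.mono q0 hq0P e' he' (he'q1.trans hq10) u v w' hF2
    have h6 : F e' u v w := h.mono q hq e' he' he'q u v w hF
    have h7 : w = w' := h.func e' he' u v w w' h6 h5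
    subst h7
    exact hreq.ind q1 hq1 hq1q u hu v hv w hw huv hwv hA
  · exact h4 q1 hq1 le_rfl ⟨hq1r, hαq1⟩

end RowF6


/-- Row F1. -/
theorem exists_cond : ∃ c : Cond, c ∈ PP nmb ∧ ∀ d ∈ PP nmb, d ≤ c := by
  refine ⟨⟨∅, ∅, fun _ => ∅, fun _ _ => rfl, fun _ x hx => absurd hx (Finset.notMem_empty x)⟩,
    ⟨isSide_empty, fun α hα => absurd hα Finset.not_nonempty_empty⟩, ?_⟩
  intro d _
  exact ⟨Finset.empty_subset _, Finset.empty_subset _, fun _ => Finset.empty_subset _⟩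

end Pool.ST
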