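import Pool.Agent.Lib.ST.Side

/-!
# ST: the forcing (definitions by recursion, rows C1-C9)

`nm α W` is the name attached to the stage `α` (it may depend on the set `W` of the conditions
below `α`).
-/

set_option autoImplicit false

open Set Cardinal

namespace Pool.ST

/-- `A` is a `W`-name for a total involutory operation on `ω₁`: `A q [u, v, w]` means that `q`
forces `f(u, v) = w`; `f(u, f(u, v)) = v`. -/
structure Suit (α : Om) (W : Set Cond) (A : Rel) : Prop where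
  bd : BdR α A
  mem : ∀ q l, A q l → q ∈ W
  mono : ∀ q q' l, A q l → q' ∈ W → q' ≤ q → A q' l
  tot : ∀ q ∈ W, ∀ u < w1, ∀ v < w1, ∃ q' ∈ W, q' ≤ q ∧ ∃ w < w1, A q' [u, v, w]
  func : ∀ q u v w w', A q [u, v, w] → A q [u, v, w'] → w = w'
  inv : ∀ q u v w, A q [u, v, w] → A q [u, w, v]

/-- The derivative of a name `R` for a set of sequences: `q` forces that uncountably many `z`
satisfy `l ++ [z] ∈ R`. -/
def DR (W : Set Cond) (R : Rel) : Rel := fun q l => q ∈ W ∧ (∀ x ∈ l, x < w1) ∧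
  ∀ ξ < w1, ∀ q1 ∈ W, q1 ≤ q → ∃ q2 ∈ W, q2 ≤ q1 ∧ ∃ z, ξ < z ∧ z < w1 ∧ R q2 (l ++ [z])

/-- `R` is closed under extensions. -/
def Down (W : Set Cond) (R : Rel) : Prop := ∀ q q' l, R q l → q' ∈ W → q' ≤ q → R q' l

/-- The small set `K` is good for the stage `α`. -/
structure Good (α : Om) (W : Set Cond) (A : Rel) (K : Set Om) : Prop where
  mem : α ∈ K
  nm : cr A ∈ K
  der : ∀ R, BdR α R → cr R ∈ K → cr (DR W R) ∈ K
  gen : ∀ R, BdR α R → Down W R → cr R ∈ K → ∀ l : List Om, (∀ x ∈ l, x ∈ K) → ∀ q ∈ W,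
    K ∩ Iio α ∈ q.S → ∀ z < w1, z ∉ K → R q (l ++ [z]) → DR W R q l

/-- The requirement on `c` at the stage `α`. -/
structure Req (α : Om) (W : Set Cond) (A : Rel) (c : Cond) : Prop where
  suit : Suit α W A
  sep : ∀ x ∈ c.p α, ∀ y ∈ c.p α, x < y → ∃ K ∈ c.S, Good α W A K ∧ x ∈ K ∧ y ∉ K
  ind : ∀ q ∈ W, q ≤ c.res α → ∀ u ∈ c.p α, ∀ v ∈ c.p α, ∀ w ∈ c.p α, u ≠ v → w ≠ v →
    ¬ A q [u, v, w]

variable (nm : Om → Set Cond → Rel)

/-- The conditions below `β`. -/
noncomputable def W : Om → Set Cond := WellFounded.fix (wellFounded_lt (α := Om)) fun β F =>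
  {c | Bd β c ∧ IsSide c.S c.B ∧
    ∀ α, ∀ h : α < β, (c.p α).Nonempty → Req α (F α h) (nm α (F α h)) c}

theorem W_def (β : Om) : W nm β = {c | Bd β c ∧ IsSide c.S c.B ∧
    ∀ α < β, (c.p α).Nonempty → Req α (W nm α) (nm α (W nm α)) c} := by
  unfold W
  rw [WellFounded.fix_eq]

/-- The name attached to the stage `α`. -/
noncomputable def A (α : Om) : Rel := nm α (W nm α)

/-- The legal conditions. -/
def PP : Set Cond := {c | IsSide c.S c.B ∧ ∀ α, (c.p α).Nonempty → Req α (W nm α) (A nm α) c}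

variable {nm}

theorem mem_W {β : Om} {c : Cond} : c ∈ W nm β ↔ c ∈ PP nm ∧ Bd β c := by
  rw [W_def]
  constructor
  · rintro ⟨h1, h2, h3⟩
    refine ⟨⟨h2, fun α hα => h3 α ?_ hα⟩, h1⟩
    by_contra hcon
    have : α ∉ c.B := fun h => hcon (h1.2 α h)
    rw [c.hp α this] at hα
    exact Finset.not_nonempty_empty hα
  · rintro ⟨h1, h2⟩
    exact ⟨h2, h1.1, fun α _ hα => h1.2 α hα⟩

/-! ### Levels: big nodes or the top -/

/-- The part of `N` below the level `β`. -/
def cutT (N : Set Om) (β : WithTop Om) : Set Om := {x ∈ N | (x : WithTop Om) < β}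

/-- The conditions below the level `β`. -/
def WT (nm : Om → Set Cond → Rel) (β : WithTop Om) : Set Cond :=
  {c | c ∈ PP nm ∧ (∀ M ∈ c.S, ∀ x ∈ M, (x : WithTop Om) < β) ∧ ∀ b ∈ c.B, (b : WithTop Om) < β}

section RowC1


variable {nm : Om → Set Cond → Rel}

/-- Row C1. -/
theorem WT_coe (β : Om) : WT nm (β : WithTop Om) = W nm β := by
  ext c
  rw [mem_W]
  constructor
  · rintro ⟨h1, h2, h3⟩
    exact ⟨h1, fun M hM x hx => WithTop.coe_lt_coe.1 (h2 M hM x hx),
      fun b hb => WithTop.coe_lt_coe.1 (h3 b hb)⟩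
  · rintro ⟨h1, h2, h3⟩
    exact ⟨h1, fun M hM x hx => WithTop.coe_lt_coe.2 (h2 M hM hx),
      fun b hb => WithTop.coe_lt_coe.2 (h3 b hb)⟩

/-- Row C1. -/
theorem WT_top : WT nm ⊤ = PP nm := by
  ext c
  constructor
  · rintro ⟨h1, _, _⟩
    exact h1
  · intro h1
    exact ⟨h1, fun M hM x hx => WithTop.coe_lt_top x, fun b hb => WithTop.coe_lt_top b⟩

/-- Row C1. -/
theorem cutT_coe (N : Set Om) (β : Om) : cutT N (β : WithTop Om) = N ∩ Iio β := by
  ext x
  constructor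
  · rintro ⟨h1, h2⟩
    exact ⟨h1, WithTop.coe_lt_coe.1 h2⟩
  · rintro ⟨h1, h2⟩
    exact ⟨h1, WithTop.coe_lt_coe.2 h2⟩

/-- Row C1. -/
theorem cutT_top (N : Set Om) : cutT N ⊤ = N := by
  ext x
  constructor
  · rintro ⟨h1, _⟩
    exact h1
  · intro h1
    exact ⟨h1, WithTop.coe_lt_top x⟩

end RowC1




/-! ### Basic facts -/

section RowC2


variable {nm : Om → Set Cond → Rel}

/-- Row C2. -/
theorem ctb_of_mem {c : Cond} (h : c ∈ PP nm) : ∀ M ∈ c.S, M.Countable :=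
  fun M hM => (h.1.node M hM).ctb

private lemma C2_mem_S (c : Cond) (α : Om) (M : Set Om) :
    M ∈ (c.res α).S ↔ M ∈ c.S ∧ M ⊆ Iio α := by
  classical
  exact Finset.mem_filter

private lemma C2_mem_B (c : Cond) (α β : Om) : β ∈ (c.res α).B ↔ β ∈ c.B ∧ β < α := by
  classical
  exact Finset.mem_filter

private lemma C2_mem_p (c : Cond) (α γ x : Om) : x ∈ (c.res α).p γ ↔ x ∈ c.p γ ∧ γ < α := by
  classical
  unfold Cond.res
  simp only
  split_ifs with hγ
  · exact ⟨fun h => ⟨h, hγ⟩, fun h => h.1⟩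
  · exact ⟨fun h => absurd h (Finset.notMem_empty _), fun h => absurd h.2 hγ⟩

/-- Row C2. -/
theorem res_le (c : Cond) (α : Om) : c ≤ c.res α :=
  ⟨fun M hM => ((C2_mem_S c α M).1 hM).1, fun β hβ => ((C2_mem_B c α β).1 hβ).1,
    fun γ x hx => ((C2_mem_p c α γ x).1 hx).1⟩

/-- Row C2. -/
theorem res_mono {c d : Cond} (h : c ≤ d) (α : Om) : c.res α ≤ d.res α := by
  refine ⟨fun M hM => ?_, fun β hβ => ?_, fun γ x hx => ?_⟩
  · have h1 := (C2_mem_S d α M).1 hM
    exact (C2_mem_S c α M).2 ⟨h.1 h1.1, h1.2⟩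
  · have h1 := (C2_mem_B d α β).1 hβ
    exact (C2_mem_B c α β).2 ⟨h.2.1 h1.1, h1.2⟩
  · have h1 := (C2_mem_p d α γ x).1 hx
    exact (C2_mem_p c α γ x).2 ⟨h.2.2 γ h1.1, h1.2⟩

/-- Row C2. -/
theorem bd_res (c : Cond) (α : Om) : Bd α (c.res α) :=
  ⟨fun M hM => ((C2_mem_S c α M).1 hM).2, fun β hβ => ((C2_mem_B c α β).1 hβ).2⟩

/-- Row C2. -/
theorem res_eq {c : Cond} {α : Om} (h : Bd α c) : c.res α = c := by
  refine le_antisymm (Cond.le_def.2 ⟨fun M hM => (C2_mem_S c α M).2 ⟨hM, h.1 M hM⟩,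
    fun β hβ => (C2_mem_B c α β).2 ⟨hβ, h.2 β hβ⟩, fun γ x hx => (C2_mem_p c α γ x).2 ⟨hx, ?_⟩⟩)
    (res_le c α)
  by_contra hγ
  have h1 : γ ∉ c.B := fun hB => hγ (h.2 γ hB)
  rw [c.hp γ h1] at hx
  exact Finset.notMem_empty _ hx

/-- Row C2. If `d` is below `α` and `c ≤ d` then `c.res α ≤ d`. -/
theorem res_le_of {c d : Cond} {α : Om} (h : c ≤ d) (hd : Bd α d) : c.res α ≤ d := by
  have := res_mono h α
  rwa [res_eq hd] at this

end RowC2






section RowC3


variable {nm : Om → Set Cond → Rel}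

theorem C3_bdR_DR {α : Om} {R : Rel} : BdR α (DR (W nm α) R) := by
  intro q l h
  have hq := mem_W.1 h.1
  exact ⟨hq.2, ctb_of_mem hq.1, h.2.1⟩

theorem C3_inter {α β : Om} {K : Set Om} (hS : Suit α (W nm α) (A nm α))
    (h : Good α (W nm α) (A nm α) K) (hβ : IsBig β) (hαβ : α < β) :
    Good α (W nm α) (A nm α) (K ∩ Iio β) where
  mem := ⟨h.mem, hαβ⟩
  nm := ⟨h.nm, hβ.rel α hαβ _ hS.bd⟩
  der := by
    intro R hR hcr
    exact ⟨h.der R hR hcr.1, hβ.rel α hαβ _ C3_bdR_DR⟩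
  gen := by
    intro R hR hD hcr l hl q hq hN z hz hzK hRz
    have e : K ∩ Iio β ∩ Iio α = K ∩ Iio α := by
      ext x
      constructor
      · rintro ⟨⟨h1, _⟩, h3⟩
        exact ⟨h1, h3⟩
      · rintro ⟨h1, h3⟩
        exact ⟨⟨h1, lt_trans h3 hαβ⟩, h3⟩
    rw [e] at hN
    refine h.gen R hR hD hcr.1 l (fun x hx => (hl x hx).1) q hq hN z hz ?_ hRz
    intro hzK'
    exact hzK ⟨hzK', lt_trans hz hβ.w1_lt⟩

theorem C3_res_res (c : Cond) {γ α : Om} (h : γ ≤ α) : (c.res α).res γ ≤ c.res γ := by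
  classical
  refine ⟨?_, ?_, ?_⟩
  · intro M hM
    have h1 := Finset.mem_filter.1 hM
    refine Finset.mem_filter.2 ⟨Finset.mem_filter.2 ⟨h1.1, ?_⟩, h1.2⟩
    exact h1.2.trans (Iio_subset_Iio h)
  · intro b hb
    have h1 := Finset.mem_filter.1 hb
    exact Finset.mem_filter.2 ⟨Finset.mem_filter.2 ⟨h1.1, lt_of_lt_of_le h1.2 h⟩, h1.2⟩
  · intro δ x hx
    have e1 : (c.res γ).p δ = if δ < γ then c.p δ else ∅ := rfl
    have e2 : ((c.res α).res γ).p δ = if δ < γ then (if δ < α then c.p δ else ∅) else ∅ := rfl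
    rw [e1] at hx
    rw [e2]
    by_cases hδ : δ < γ
    · rw [if_pos hδ] at hx
      rw [if_pos hδ, if_pos (lt_of_lt_of_le hδ h)]
      exact hx
    · rw [if_neg hδ] at hx
      exact absurd hx (Finset.notMem_empty _)

/-- Row C3. The restriction of a legal condition to one of its big nodes is legal. -/
theorem res_mem {c : Cond} (h : c ∈ PP nm) {α : Om} (hα : α ∈ c.B) : c.res α ∈ W nm α := by
  classical
  rw [mem_W]
  refine ⟨⟨?_, ?_⟩, bd_res c α⟩
  · exact h.1.resBig hα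
  · intro γ hγ
    have e : (c.res α).p γ = if γ < α then c.p γ else ∅ := rfl
    have hγα : γ < α := by
      by_contra hcon
      rw [e, if_neg hcon] at hγ
      exact Finset.not_nonempty_empty hγ
    rw [if_pos hγα] at e
    rw [e] at hγ
    have hR := h.2 γ hγ
    have hbig : IsBig α := h.1.big α hα
    refine ⟨hR.suit, ?_, ?_⟩
    · intro x hx y hy hxy
      rw [e] at hx hy
      obtain ⟨K, hK, hG, hxK, hyK⟩ := hR.sep x hx y hy hxy
      refine ⟨K ∩ Iio α, Finset.mem_filter.2 ⟨h.1.cut K hK α hα, inter_subset_right⟩,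
        C3_inter hR.suit hG hbig hγα, ⟨hxK, ?_⟩, fun hh => hyK hh.1⟩
      exact lt_trans (c.hw γ x hx) hbig.w1_lt
    · intro q hq hle u hu v hv w hw huv hwv
      rw [e] at hu hv hw
      exact hR.ind q hq (le_trans hle (C3_res_res c hγα.le)) u hu v hv w hw huv hwv

/-- Row C3. The requirement at `α` only depends on the part of the condition below `α` and on
`p α`, and is preserved when nodes are added and the condition below `α` is strengthened. -/
theorem Req.mono {α : Om} {c d : Cond} (h : Req α (W nm α) (A nm α) c) (hp : d.p α = c.p α)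
    (hS : c.S ⊆ d.S) (hres : d.res α ≤ c.res α) : Req α (W nm α) (A nm α) d where
  suit := h.suit
  sep := by
    intro x hx y hy hxy
    rw [hp] at hx hy
    obtain ⟨K, hK, hG, hxK, hyK⟩ := h.sep x hx y hy hxy
    exact ⟨K, hS hK, hG, hxK, hyK⟩
  ind := by
    intro q hq hle u hu v hv w hw huv hwv
    rw [hp] at hu hv hw
    exact h.ind q hq (le_trans hle hres) u hu v hv w hw huv hwv

end RowC3


section RowC4


variable {nm : Om → Set Cond → Rel}

/-- Row C4. Glue: `d` below the big node `α` of `c` with `d ≤ c.res α`. -/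
theorem glue {c : Cond} (hc : c ∈ PP nm) {α : Om} (hα : α ∈ c.B) {d : Cond} (hd : d ∈ W nm α)
    (hdc : d ≤ c.res α) : ∃ e ∈ PP nm, e ≤ c ∧ e ≤ d ∧ e.res α = d ∧ e.S = c.S ∪ d.S ∧
      e.B = c.B ∪ d.B ∧ ∀ γ, e.p γ = c.p γ ∪ d.p γ := by
  classical
  obtain ⟨hdP, hdB⟩ := mem_W.1 hd
  have hdS : ∀ M ∈ c.S, M ⊆ Iio α → M ∈ d.S := fun M hM hMα =>
    hdc.1 (Finset.mem_filter.2 ⟨hM, hMα⟩)
  have hdBB : ∀ β ∈ c.B, β < α → β ∈ d.B := fun β hβ hβα =>
    hdc.2.1 (Finset.mem_filter.2 ⟨hβ, hβα⟩)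
  have hdp : ∀ γ, γ < α → c.p γ ⊆ d.p γ := by
    intro γ hγ
    have := hdc.2.2 γ
    have h2 : (c.res α).p γ = c.p γ := if_pos hγ
    rwa [h2] at this
  have hdp0 : ∀ γ, ¬ γ < α → d.p γ = ∅ := fun γ hγ => d.hp γ fun h => hγ (hdB.2 γ h)
  set e : Cond :=
    { S := c.S ∪ d.S
      B := c.B ∪ d.B
      p := fun γ => c.p γ ∪ d.p γ
      hp := by
        intro γ hγ
        rw [Finset.mem_union, not_or] at hγ
        rw [c.hp γ hγ.1, d.hp γ hγ.2, Finset.empty_union]
      hw := by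
        intro γ x hx
        rcases Finset.mem_union.1 hx with h | h
        · exact c.hw γ x h
        · exact d.hw γ x h } with he
  have hec : e ≤ c := ⟨fun M hM => Finset.mem_union_left _ hM,
    fun M hM => Finset.mem_union_left _ hM, fun γ M hM => Finset.mem_union_left _ hM⟩
  have hed : e ≤ d := ⟨fun M hM => Finset.mem_union_right _ hM,
    fun M hM => Finset.mem_union_right _ hM, fun γ M hM => Finset.mem_union_right _ hM⟩
  have hside : IsSide e.S e.B := by
    have h := IsSide.amalBig hc.1 hα hdP.1 hdB.1 hdB.2 hdS hdBB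
    convert h using 1
  refine ⟨e, ⟨hside, ?_⟩, hec, hed, ?_, ?_, ?_, ?_⟩
  · intro γ hγ
    by_cases hγα : γ < α
    · have hp : e.p γ = d.p γ := Finset.union_eq_right.2 (hdp γ hγα)
      rw [hp] at hγ
      exact (hdP.2 γ hγ).mono hp hed.1 (res_mono hed γ)
    · have hp : e.p γ = c.p γ := by
        show c.p γ ∪ d.p γ = c.p γ
        rw [hdp0 γ hγα, Finset.union_empty]
      rw [hp] at hγ
      exact (hc.2 γ hγ).mono hp hec.1 (res_mono hec γ)
  · apply Cond.ext
    · ext M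
      constructor
      · intro hM
        obtain ⟨h1, h2⟩ := Finset.mem_filter.1 hM
        rcases Finset.mem_union.1 h1 with h | h
        · exact hdS M h h2
        · exact h
      · intro hM
        exact Finset.mem_filter.2 ⟨Finset.mem_union_right _ hM, hdB.1 M hM⟩
    · ext M
      constructor
      · intro hM
        obtain ⟨h1, h2⟩ := Finset.mem_filter.1 hM
        rcases Finset.mem_union.1 h1 with h | h
        · exact hdBB M h h2
        · exact h
      · intro hM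
        exact Finset.mem_filter.2 ⟨Finset.mem_union_right _ hM, hdB.2 M hM⟩
    · funext γ
      by_cases hγα : γ < α
      · have h2 : (e.res α).p γ = e.p γ := if_pos hγα
        rw [h2]
        exact Finset.union_eq_right.2 (hdp γ hγα)
      · have h2 : (e.res α).p γ = ∅ := if_neg hγα
        rw [h2, hdp0 γ hγα]
  · ext M
    rw [Finset.mem_union]
  · ext M
    rw [Finset.mem_union]
  · intro γ
    ext M
    rw [Finset.mem_union]

end RowC4

section RowC5


variable {nm : Om → Set Cond → Rel}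

/-- Row C5. Add a small node on top of `c`. -/
theorem addSmall {c : Cond} (hc : c ∈ PP nm) {N : Set Om} (hN : IsNode N)
    (hS : ∀ M ∈ c.S, cd M ∈ N) (hB : ∀ β ∈ c.B, β ∈ N) :
    ∃ e ∈ PP nm, e ≤ c ∧ N ∈ e.S ∧ e.B = c.B ∧ e.p = c.p := by
  classical
  set e : Cond :=
    { S := insert N (c.S ∪ c.B.image (fun β => N ∩ Iio β))
      B := c.B
      p := c.p
      hp := c.hp
      hw := c.hw } with he
  have hec : e ≤ c := ⟨fun M hM => Finset.mem_insert_of_mem (Finset.mem_union_left _ hM),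
    Finset.Subset.refl _, fun γ => Finset.Subset.refl _⟩
  have hside : IsSide e.S e.B := by
    have h := IsSide.addSmall hc.1 hN hS hB
    convert h using 1
  exact ⟨e, ⟨hside, fun γ hγ => (hc.2 γ hγ).mono rfl hec.1 (res_mono hec γ)⟩, hec,
    Finset.mem_insert_self _ _, rfl, rfl⟩

/-- Row C5. Add a big node on top of `c`. -/
theorem addBig {c : Cond} {α : Om} (hc : c ∈ W nm α) (hα : IsBig α) :
    ∃ e ∈ PP nm, e ≤ c ∧ α ∈ e.B ∧ e.S = c.S ∧ e.B = insert α c.B ∧ e.p = c.p := by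
  classical
  obtain ⟨hcP, hcB⟩ := mem_W.1 hc
  set e : Cond :=
    { S := c.S
      B := insert α c.B
      p := c.p
      hp := fun γ hγ => c.hp γ fun h => hγ (Finset.mem_insert_of_mem h)
      hw := c.hw } with he
  have hec : e ≤ c := ⟨Finset.Subset.refl _, Finset.subset_insert _ _,
    fun γ => Finset.Subset.refl _⟩
  have hside : IsSide e.S e.B := by
    have h := IsSide.addBig hcP.1 hα hcB.1 hcB.2
    convert h using 1
  refine ⟨e, ⟨hside, fun γ hγ => (hcP.2 γ hγ).mono rfl hec.1 (res_mono hec γ)⟩, hec,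
    Finset.mem_insert_self _ _, rfl, ?_, rfl⟩
  ext M
  rw [Finset.mem_insert]

end RowC5


section RowC6


variable {nm : Om → Set Cond → Rel}

/-- Row C6. `DR` of a name is a name. -/
theorem bdR_DR {α : Om} {R : Rel} : BdR α (DR (W nm α) R) := by
  intro q l h
  have h1 := mem_W.1 h.1
  exact ⟨h1.2, ctb_of_mem h1.1, h.2.1⟩

/-- Row C6. -/
theorem down_DR {α : Om} {R : Rel} : Down (W nm α) (DR (W nm α) R) := by
  intro q q' l h hq' hle
  exact ⟨hq', h.2.1, fun ξ hξ q1 hq1 hle1 => h.2.2 ξ hξ q1 hq1 (hle1.trans hle)⟩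

/-- Row C6. A good set remains good when it is cut at a larger big node. -/
theorem Good.inter {α β : Om} {K : Set Om} (hS : Suit α (W nm α) (A nm α))
    (h : Good α (W nm α) (A nm α) K) (hβ : IsBig β) (hαβ : α < β) :
    Good α (W nm α) (A nm α) (K ∩ Iio β) where
  mem := ⟨h.mem, hαβ⟩
  nm := ⟨h.nm, hβ.rel α hαβ _ hS.bd⟩
  der R hR hRK := ⟨h.der R hR hRK.1, hβ.rel α hαβ _ bdR_DR⟩
  gen R hR hRd hRK l hl q hq hqS z hz hzK hRz := by
    refine h.gen R hR hRd hRK.1 l (fun x hx => (hl x hx).1) q hq ?_ z hz ?_ hRz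
    · have : K ∩ Iio β ∩ Iio α = K ∩ Iio α := by
        ext x
        simp only [mem_inter_iff, mem_Iio]
        exact ⟨fun hx => ⟨hx.1.1, hx.2⟩, fun hx => ⟨⟨hx.1, hx.2.trans hαβ⟩, hx.2⟩⟩
      rwa [this] at hqS
    · exact fun hzK' => hzK ⟨hzK', hz.trans hβ.w1_lt⟩

end RowC6



end Pool.ST
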