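import Pool.Agent.Lib.ST.Clos

/-!
# ST: reflection at small nodes (rows G1-G12)
-/

set_option autoImplicit false

open Set Cardinal

namespace Pool.ST

variable (nm : Om → Set Cond → Rel)

/-- Every condition `c ∈ D` below the level `β` which has the node `N` is compatible with a
condition in `D ∩ N`. -/
def Gen (β : WithTop Om) (D : Set Cond) (N : Set Om) : Prop :=
  ∀ c ∈ D, c ∈ WT nm β → cutT N β ∈ c.S →
    ∃ c' ∈ D, c' ∈ WT nm β ∧ InN N c' ∧ ∃ e ∈ WT nm β, e ≤ c ∧ e ≤ c'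

open Classical in
/-- The name of the set of the sequences `l` such that some `c' ∈ D` whose restriction to `α` is in
the generic filter has `c'.p α = a ∪ l`. -/
def RD (β : WithTop Om) (D : Set Cond) (α : Om) (a : Finset Om) (S0 : Finset (Set Om))
    (B0 : Finset Om) : Rel := fun q l => q ∈ W nm α ∧ ∃ c' ∈ D, c' ∈ WT nm β ∧ α ∈ c'.B ∧
  S0 ⊆ c'.S ∧ B0 ⊆ c'.B ∧ c'.p α = a ∪ l.toFinset ∧ q ≤ c'.res α

/-- The properties of `N` which are used for `Gen β D N`. -/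
structure Nice (β : WithTop Om) (D : Set Cond) (N : Set Om) : Prop where
  ctb : N.Countable
  zero : (0 : Om) ∈ N
  good : ∀ α ∈ N, IsBig α → (α : WithTop Om) < β → Good α (W nm α) (A nm α) N
  gen1 : ∀ α ∈ N, IsBig α → (α : WithTop Om) < β → ∀ ξ ∈ N, ∀ l : List Om, (∀ x ∈ l, x ∈ N) →
    ∀ R, BdR α R → cr R ∈ N → Gen nm α {q | ∃ z, ξ < z ∧ z < w1 ∧ R q (l ++ [z])} N
  zf : ∀ α ∈ N, IsBig α → (α : WithTop Om) < β → ∀ ξ ∈ N, ∀ l : List Om, (∀ x ∈ l, x ∈ N) →
    ∀ R, BdR α R → cr R ∈ N → ∀ q, (∀ M ∈ q.S, M.Countable) → InN N q →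
      (∃ z, ξ < z ∧ z < w1 ∧ R q (l ++ [z])) → ∃ z ∈ N, ξ < z ∧ z < w1 ∧ R q (l ++ [z])
  gen2 : ∀ α ∈ N, IsBig α → (α : WithTop Om) < β → ∀ l : List Om, (∀ x ∈ l, x ∈ N) →
    ∀ R, BdR α R → cr R ∈ N → Gen nm α {q | R q l} N
  rd : ∀ α ∈ N, ∀ a : Finset Om, (∀ x ∈ a, x ∈ N) → ∀ S0 : Finset (Set Om),
    (∀ M ∈ S0, M.Countable) → (∀ M ∈ S0, cd M ∈ N) → ∀ B0 : Finset Om, (∀ b ∈ B0, b ∈ N) →
    cr (RD nm β D α a S0 B0) ∈ N
  cf : ∀ α ∈ N, ∀ a : Finset Om, (∀ x ∈ a, x ∈ N) → ∀ S0 : Finset (Set Om),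
    (∀ M ∈ S0, M.Countable) → (∀ M ∈ S0, cd M ∈ N) → ∀ B0 : Finset Om, (∀ b ∈ B0, b ∈ N) →
    ∀ l : List Om, (∀ x ∈ l, x ∈ N) → ∀ q, (∀ M ∈ q.S, M.Countable) → InN N q →
    RD nm β D α a S0 B0 q l →
    ∃ c' ∈ D, c' ∈ WT nm β ∧ InN N c' ∧ α ∈ c'.B ∧ S0 ⊆ c'.S ∧ B0 ⊆ c'.B ∧
      c'.p α = a ∪ l.toFinset ∧ q ≤ c'.res α
  c0 : ∀ S0 : Finset (Set Om), (∀ M ∈ S0, M.Countable) → (∀ M ∈ S0, cd M ∈ N) →
    ∀ B0 : Finset Om, (∀ b ∈ B0, b ∈ N) → (∃ c' ∈ D, c' ∈ WT nm β ∧ S0 ⊆ c'.S ∧ B0 ⊆ c'.B) →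
    ∃ c' ∈ D, c' ∈ WT nm β ∧ InN N c' ∧ S0 ⊆ c'.S ∧ B0 ⊆ c'.B

variable {nm}

section RowG1


variable {nm : Om → Set Cond → Rel}

/-- Row G1. -/
theorem bdR_RD {β : WithTop Om} {D : Set Cond} {α : Om} {a : Finset Om} {S0 : Finset (Set Om)}
    {B0 : Finset Om} : BdR α (RD nm β D α a S0 B0) := by
  rintro q l ⟨h1, c', -, -, -, -, -, h2, -⟩
  refine ⟨(mem_W.1 h1).2, ctb_of_mem (mem_W.1 h1).1, fun x hx => ?_⟩
  refine c'.hw α x ?_
  rw [h2]
  exact Finset.mem_union_right _ (List.mem_toFinset.2 hx)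

/-- Row G1. -/
theorem down_RD {β : WithTop Om} {D : Set Cond} {α : Om} {a : Finset Om} {S0 : Finset (Set Om)}
    {B0 : Finset Om} : Down (W nm α) (RD nm β D α a S0 B0) := by
  rintro q q' l ⟨-, c', h1, h2, h3, h4, h5, h6, h7⟩ hq' hqq
  exact ⟨hq', c', h1, h2, h3, h4, h5, h6, hqq.trans h7⟩

end RowG1


section RowG2


variable {nm : Om → Set Cond → Rel}

private def G2_emp : Cond where
  S := ∅
  B := ∅
  p := fun _ => ∅
  hp := fun _ _ => rfl
  hw := fun _ x hx => absurd hx (Finset.notMem_empty x)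

/-- the bounds `ξ` of the possible last elements -/
private def G2_X (nm : Om → Set Cond → Rel) (α : Om) (R : Rel) (l : List Om) (q : Cond) : Set Om :=
  {ξ | ξ < w1 ∧ ∀ q2 ∈ W nm α, q2 ≤ q → ∀ z, ξ < z → z < w1 → ¬ R q2 (l ++ [z])}

private theorem G2_parIn {N : Set Om} (h0 : (0 : Om) ∈ N) {q : Cond} (hq : InN N q)
    {l : List Om} (hl : ∀ x ∈ l, x ∈ N) {R : Rel} (hR : cr R ∈ N) :
    (⟨q, ∅, ∅, ∅, l, 0, 0, R⟩ : Par).In N :=
  ⟨hq, fun M hM => absurd hM (Finset.notMem_empty M), fun M hM => absurd hM (Finset.notMem_empty M),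
    fun M hM => absurd hM (Finset.notMem_empty M), hl, h0, h0, hR⟩

private theorem G2_parOk {q : Cond} (hq : ∀ M ∈ q.S, M.Countable)
    {l : List Om} {R : Rel} {α : Om} (hR : BdR α R) :
    (⟨q, ∅, ∅, ∅, l, 0, 0, R⟩ : Par).Ok :=
  ⟨hq, fun M hM => absurd hM (Finset.notMem_empty M), α, hR⟩

private theorem G2_empIn {N : Set Om} : InN N G2_emp :=
  ⟨fun M hM => absurd hM (Finset.notMem_empty M), fun M hM => absurd hM (Finset.notMem_empty M),
    fun _ M hM => absurd hM (Finset.notMem_empty M)⟩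

private theorem G2_empOk : ∀ M ∈ G2_emp.S, M.Countable :=
  fun M hM => absurd hM (Finset.notMem_empty M)

/-- Row G2.  If `N` reflects at the level `α` then `N` is good for the stage `α`.  For `gen` apply
`Gen` to the set of the `q` such that for some `ξ < ω₁` no extension of `q` forces `l ++ [z]` into
`R` for any `z > ξ`; the least such `ξ` is in `N`. -/
theorem CL_good {α : Om} (hα : IsBig α)
    (h : ∀ D : Set Cond, CL (fun N => α ∈ N → Gen nm (α : WithTop Om) D N)) :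
    CL (fun N => α ∈ N → Good α (W nm α) (A nm α) N) := by
  have k1 := CL.node
  have k2 := CL.mem (0 : Om)
  have k3 := CL.mem (cr (A nm α))
  have k4 := CL.parop (fun t => {cr (DR (W nm α) t.R)}) (fun t _ => countable_singleton _)
  have k5 := CL.parop (fun t => {sInf (G2_X nm α t.R t.l t.q)}) (fun t _ => countable_singleton _)
  have k6 := CL.par (Q := fun t N => α ∈ N → Gen nm (α : WithTop Om)
    {q | (G2_X nm α t.R t.l q).Nonempty} N) (fun t _ => h _)
  refine ((((((k1.and k2).and k3).and k4).and k5).and k6)).mono ?_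
  rintro N hctb ⟨⟨⟨⟨⟨hnode, h0⟩, hA⟩, h4⟩, h5⟩, h6⟩ hαN
  refine ⟨hαN, hA, ?_, ?_⟩
  · intro R hR hcr
    have := h4 (⟨G2_emp, ∅, ∅, ∅, [], 0, 0, R⟩ : Par) (G2_parOk G2_empOk hR)
      (G2_parIn h0 G2_empIn (fun x hx => absurd hx (List.not_mem_nil)) hcr)
    exact this (mem_singleton _)
  · intro R hR hdown hcr l hl q hq hNq z hz hzN hRz
    have hlz := (hR q (l ++ [z]) hRz).2.2
    refine ⟨hq, fun x hx => hlz x (List.mem_append_left _ hx), ?_⟩
    by_contra hcon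
    push Not at hcon
    obtain ⟨ξ, hξ, q1, hq1, hqq1, hno⟩ := hcon
    have hne : (G2_X nm α R l q1).Nonempty :=
      ⟨ξ, hξ, fun q2 hq2 hq12 z' hz1 hz2 => hno q2 hq2 hq12 z' hz1 hz2⟩
    have hgen := h6 (⟨G2_emp, ∅, ∅, ∅, l, 0, 0, R⟩ : Par) (G2_parOk G2_empOk hR)
      (G2_parIn h0 G2_empIn hl hcr) hαN
    have hq1' : q1 ∈ WT nm (α : WithTop Om) := by rw [WT_coe]; exact hq1
    have hcut : cutT N (α : WithTop Om) ∈ q1.S := by
      rw [cutT_coe]
      exact (Cond.le_def.1 hqq1).1 hNq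
    obtain ⟨c', hc'D, hc'W, hc'N, e, heW, heq1, hec'⟩ := hgen q1 hne hq1' hcut
    rw [WT_coe] at hc'W heW
    have hc'ctb := ctb_of_mem (mem_W.1 hc'W).1
    have hξN : sInf (G2_X nm α R l c') ∈ N :=
      h5 (⟨c', ∅, ∅, ∅, l, 0, 0, R⟩ : Par) (G2_parOk hc'ctb hR)
        (G2_parIn h0 hc'N hl hcr) (mem_singleton _)
    have hmem : sInf (G2_X nm α R l c') ∈ G2_X nm α R l c' := csInf_mem hc'D
    have hlt : sInf (G2_X nm α R l c') < z := by
      by_contra hle
      rcases (not_lt.1 hle).lt_or_eq with h1 | h1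
      · exact hzN (hnode.init _ hξN hmem.1 z h1)
      · exact hzN (h1 ▸ hξN)
    exact hmem.2 e heW hec' z hlt hz (hdown q e (l ++ [z]) hRz heW (heq1.trans hqq1))

end RowG2

section RowG3


variable {nm : Om → Set Cond → Rel}

/-- The empty condition. -/
def G3_e : Cond where
  S := ∅
  B := ∅
  p := fun _ => ∅
  hp := fun _ _ => rfl
  hw := fun _ x hx => absurd hx (Finset.notMem_empty x)

/-- The empty relation. -/
def G3_R : Rel := fun _ _ => False

theorem G3_bdR (α : Om) : BdR α G3_R := fun _ _ h => h.elim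

theorem G3_ctb : ∀ M ∈ G3_e.S, M.Countable := fun M hM => absurd hM (Finset.notMem_empty M)

theorem G3_inN (N : Set Om) : InN N G3_e :=
  ⟨fun M hM => absurd hM (Finset.notMem_empty M), fun β hβ => absurd hβ (Finset.notMem_empty β),
    fun _ x hx => absurd hx (Finset.notMem_empty x)⟩

/-- A chosen ordinal with the property `P`, if there is one. -/
def G3_pick (P : Om → Prop) : Set Om := {z | ∃ h : ∃ z, P z, z = h.choose}

theorem G3_pick_ctb (P : Om → Prop) : (G3_pick P).Countable := by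
  refine Set.Subsingleton.countable ?_
  rintro x ⟨h, rfl⟩ y ⟨h', rfl⟩
  rfl

theorem G3_pick_spec {P : Om → Prop} {N : Set Om} (hN : G3_pick P ⊆ N) (h : ∃ z, P z) :
    ∃ z ∈ N, P z := ⟨h.choose, hN ⟨h, rfl⟩, h.choose_spec⟩

/-- The elements of a chosen condition with the property `P`, if there is one. -/
def G3_pickC (P : Cond → Prop) : Set Om := {x | ∃ h : ∃ c, P c,
  (∃ M ∈ h.choose.S, x = cd M) ∨ x ∈ h.choose.B ∨ ∃ α, x ∈ h.choose.p α}

theorem G3_pickC_ctb (P : Cond → Prop) : (G3_pickC P).Countable := by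
  by_cases h : ∃ c, P c
  · refine (countable_cond h.choose).mono ?_
    rintro x ⟨_, hx⟩
    exact hx
  · have h0 : G3_pickC P = ∅ := by
      ext x
      exact ⟨fun ⟨h', _⟩ => absurd h' h, fun hx => absurd hx (Set.notMem_empty x)⟩
    rw [h0]
    exact Set.countable_empty

theorem G3_pickC_spec {P : Cond → Prop} {N : Set Om} (hN : G3_pickC P ⊆ N) (h : ∃ c, P c) :
    ∃ c, P c ∧ InN N c :=
  ⟨h.choose, h.choose_spec, fun M hM => hN ⟨h, Or.inl ⟨M, hM, rfl⟩⟩,
    fun _ hβ => hN ⟨h, Or.inr (Or.inl hβ)⟩, fun α _ hx => hN ⟨h, Or.inr (Or.inr ⟨α, hx⟩)⟩⟩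

/-- Row G3. -/
theorem CL_nice {β : WithTop Om} {D : Set Cond}
    (h : ∀ α : Om, IsBig α → (α : WithTop Om) < β → ∀ D' : Set Cond,
      CL (fun N => α ∈ N → Gen nm (α : WithTop Om) D' N)) :
    CL (Nice nm β D) := by
  have hz : CL (fun N => (0 : Om) ∈ N) := CL.mem 0
  have hr : CL (fun N => cr G3_R ∈ N) := CL.mem _
  have hgood : CL (fun N => ∀ α ∈ N, IsBig α → (α : WithTop Om) < β → α ∈ N →
      Good α (W nm α) (A nm α) N) :=
    CL.ord fun α => CL.imp fun hα => CL.imp fun hαβ => CL_good hα (h α hα hαβ)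
  have hg1 : CL (fun N => ∀ t : Par, t.Ok → t.In N → IsBig t.x → (t.x : WithTop Om) < β →
      t.x ∈ N → Gen nm (t.x : WithTop Om)
        {q | ∃ z, t.y < z ∧ z < w1 ∧ t.R q (t.l ++ [z])} N) :=
    CL.par fun t _ => CL.imp fun hb => CL.imp fun hβ => h t.x hb hβ _
  have hg2 : CL (fun N => ∀ t : Par, t.Ok → t.In N → IsBig t.x → (t.x : WithTop Om) < β →
      t.x ∈ N → Gen nm (t.x : WithTop Om) {q | t.R q t.l} N) :=
    CL.par fun t _ => CL.imp fun hb => CL.imp fun hβ => h t.x hb hβ _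
  have hzf : CL (fun N => ∀ t : Par, t.Ok → t.In N →
      G3_pick (fun z => t.y < z ∧ z < w1 ∧ t.R t.q (t.l ++ [z])) ⊆ N) :=
    CL.parop _ fun t _ => G3_pick_ctb _
  have hrd : CL (fun N => ∀ t : Par, t.Ok → t.In N →
      ({cr (RD nm β D t.x t.a t.S t.B)} : Set Om) ⊆ N) :=
    CL.parop _ fun t _ => Set.countable_singleton _
  have hcf : CL (fun N => ∀ t : Par, t.Ok → t.In N →
      G3_pickC (fun c' => c' ∈ D ∧ c' ∈ WT nm β ∧ t.x ∈ c'.B ∧ t.S ⊆ c'.S ∧ t.B ⊆ c'.B ∧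
        c'.p t.x = t.a ∪ t.l.toFinset ∧ t.q ≤ c'.res t.x) ⊆ N) :=
    CL.parop _ fun t _ => G3_pickC_ctb _
  have hc0 : CL (fun N => ∀ t : Par, t.Ok → t.In N →
      G3_pickC (fun c' => c' ∈ D ∧ c' ∈ WT nm β ∧ t.S ⊆ c'.S ∧ t.B ⊆ c'.B) ⊆ N) :=
    CL.parop _ fun t _ => G3_pickC_ctb _
  refine ((((((((hz.and hr).and hgood).and hg1).and hg2).and hzf).and hrd).and hcf).and hc0).mono
    fun N hN h' => ?_
  obtain ⟨⟨⟨⟨⟨⟨⟨⟨hz, hr⟩, hgood⟩, hg1⟩, hg2⟩, hzf⟩, hrd⟩, hcf⟩, hc0⟩ := h'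
  have e0 : ∀ x ∈ (∅ : Finset Om), x ∈ N := fun x hx => absurd hx (Finset.notMem_empty x)
  have e1 : ∀ M ∈ (∅ : Finset (Set Om)), cd M ∈ N :=
    fun x hx => absurd hx (Finset.notMem_empty x)
  have e2 : ∀ M ∈ (∅ : Finset (Set Om)), M.Countable :=
    fun x hx => absurd hx (Finset.notMem_empty x)
  have e3 : ∀ x ∈ ([] : List Om), x ∈ N := fun x hx => absurd hx List.not_mem_nil
  exact
    { ctb := hN
      zero := hz
      good := fun α hα hb hαβ => hgood α hα hb hαβ hα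
      gen1 := fun α hα hb hαβ ξ hξ l hl R hR hRN =>
        hg1 ⟨G3_e, ∅, ∅, ∅, l, α, ξ, R⟩ ⟨G3_ctb, e2, α, hR⟩
          ⟨G3_inN N, e1, e0, e0, hl, hα, hξ, hRN⟩ hb hαβ hα
      zf := fun α hα hb hαβ ξ hξ l hl R hR hRN q hq hqN hex =>
        G3_pick_spec (hzf ⟨q, ∅, ∅, ∅, l, α, ξ, R⟩ ⟨hq, e2, α, hR⟩
          ⟨hqN, e1, e0, e0, hl, hα, hξ, hRN⟩) hex
      gen2 := fun α hα hb hαβ l hl R hR hRN =>
        hg2 ⟨G3_e, ∅, ∅, ∅, l, α, 0, R⟩ ⟨G3_ctb, e2, α, hR⟩
          ⟨G3_inN N, e1, e0, e0, hl, hα, hz, hRN⟩ hb hαβ hα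
      rd := fun α hα a ha S0 hS0 hS0N B0 hB0 =>
        hrd ⟨G3_e, S0, B0, a, [], α, 0, G3_R⟩ ⟨G3_ctb, hS0, 0, G3_bdR 0⟩
          ⟨G3_inN N, hS0N, hB0, ha, e3, hα, hz, hr⟩ rfl
      cf := fun α hα a ha S0 hS0 hS0N B0 hB0 l hl q hq hqN hRD => by
        obtain ⟨_, c', h1, h2, h3, h4, h5, h6, h7⟩ := hRD
        obtain ⟨c, ⟨g1, g2, g3, g4, g5, g6, g7⟩, g8⟩ :=
          G3_pickC_spec (hcf ⟨q, S0, B0, a, l, α, 0, G3_R⟩ ⟨hq, hS0, 0, G3_bdR 0⟩
            ⟨hqN, hS0N, hB0, ha, hl, hα, hz, hr⟩) ⟨c', h1, h2, h3, h4, h5, h6, h7⟩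
        exact ⟨c, g1, g2, g8, g3, g4, g5, g6, g7⟩
      c0 := fun S0 hS0 hS0N B0 hB0 hex => by
        obtain ⟨c', h1, h2, h3, h4⟩ := hex
        obtain ⟨c, ⟨g1, g2, g3, g4⟩, g8⟩ :=
          G3_pickC_spec (hc0 ⟨G3_e, S0, B0, ∅, [], 0, 0, G3_R⟩ ⟨G3_ctb, hS0, 0, G3_bdR 0⟩
            ⟨G3_inN N, hS0N, hB0, e0, e3, hz, hz, hr⟩) ⟨c', h1, h2, h3, h4⟩
        exact ⟨c, g1, g2, g8, g3, g4⟩ }

end RowG3

section RowG4


variable {nm : Om → Set Cond → Rel}

/-- Row G4.  Going down: `R` has uncountably many first elements `z₁`, each with uncountably many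
`z₂`, and so on. -/
theorem descend {α : Om} {R : Rel} {d0 : Cond} (hd0 : d0 ∈ W nm α) (hR : BdR α R)
    (hRd : Down (W nm α) R) (ys : List Om) (hy : ∀ y ∈ ys, y < w1)
    (hsep : ∀ i (hi : i < ys.length), ∃ K : Set Om, Good α (W nm α) (A nm α) K ∧ cr R ∈ K ∧
      K ∩ Iio α ∈ d0.S ∧ (∀ x ∈ ys.take i, x ∈ K) ∧ ys[i] ∉ K) (h : R d0 ys) :
    ((DR (W nm α))^[ys.length] R) d0 [] := by
  induction ys using List.reverseRecOn generalizing R with
  | nil => simpa using h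
  | append_singleton ys z ih =>
    have hlen : (ys ++ [z]).length = ys.length + 1 := by simp
    rw [hlen, Function.iterate_succ_apply]
    refine ih (R := DR (W nm α) R) bdR_DR down_DR (fun y hy' => hy y (by simp [hy'])) ?_ ?_
    · intro i hi
      obtain ⟨K, hK, hcr, hS, hx, hi'⟩ := hsep i (by rw [hlen]; omega)
      refine ⟨K, hK, hK.der R hR hcr, hS, ?_, ?_⟩
      · intro x hx'
        apply hx x
        rw [List.take_append_of_le_length hi.le]
        exact hx'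
      · rw [List.getElem_append_left hi] at hi'
        exact hi'
    · obtain ⟨K, hK, hcr, hS, hx, hi'⟩ := hsep ys.length (by rw [hlen]; omega)
      refine hK.gen R hR hRd hcr ys ?_ d0 hd0 hS z (hy z (by simp)) ?_ h
      · intro x hx'
        apply hx x
        rw [List.take_append_of_le_length le_rfl, List.take_length]
        exact hx'
      · simpa using hi'

end RowG4

section RowG5


variable {nm : Om → Set Cond → Rel}

/-- Row G5.  One step up. -/
theorem step_up {α : Om} {N : Set Om} (hz : (0 : Om) ∈ N)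
    (gen1 : ∀ ξ ∈ N, ∀ l : List Om, (∀ x ∈ l, x ∈ N) → ∀ R, BdR α R → cr R ∈ N →
      Gen nm α {q | ∃ z, ξ < z ∧ z < w1 ∧ R q (l ++ [z])} N)
    (zf : ∀ ξ ∈ N, ∀ l : List Om, (∀ x ∈ l, x ∈ N) →
      ∀ R, BdR α R → cr R ∈ N → ∀ q, (∀ M ∈ q.S, M.Countable) → InN N q →
      (∃ z, ξ < z ∧ z < w1 ∧ R q (l ++ [z])) → ∃ z ∈ N, ξ < z ∧ z < w1 ∧ R q (l ++ [z]))
    {R : Rel} (hR : BdR α R) (hRd : Down (W nm α) R) (hcr : cr R ∈ N) {l : List Om}
    (hl : ∀ x ∈ l, x ∈ N) {d : Cond} (hd : d ∈ W nm α) (hdN : N ∩ Iio α ∈ d.S)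
    (h : DR (W nm α) R d l) (F : Finset Om) :
    ∃ d' ∈ W nm α, d' ≤ d ∧ ∃ z ∈ N, z < w1 ∧ z ∉ F ∧ R d' (l ++ [z]) := by
  classical
  have hne : (insert (0 : Om) (F.filter (fun x => x ∈ N ∧ x < w1))).Nonempty :=
    Finset.insert_nonempty _ _
  obtain ⟨ξ, hξ⟩ : ∃ ξ, ξ = (insert (0 : Om) (F.filter (fun x => x ∈ N ∧ x < w1))).max' hne :=
    ⟨_, rfl⟩
  have hξmem : ξ ∈ N ∧ ξ < w1 := by
    have hm := Finset.max'_mem _ hne
    rw [← hξ, Finset.mem_insert, Finset.mem_filter] at hm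
    rcases hm with hm | hm
    · rw [hm]
      exact ⟨hz, w1_pos⟩
    · exact hm.2
  have hξle : ∀ x ∈ F, x ∈ N → x < w1 → x ≤ ξ := by
    intro x hx hxN hx1
    rw [hξ]
    exact Finset.le_max' _ _ (Finset.mem_insert_of_mem (Finset.mem_filter.2 ⟨hx, hxN, hx1⟩))
  obtain ⟨q2, hq2, hq2d, z0, hz0⟩ := h.2.2 ξ hξmem.2 d hd le_rfl
  obtain ⟨c', hc'D, hc'W, hc'N, e, he, heq, hec⟩ := gen1 ξ hξmem.1 l hl R hR hcr q2 ⟨z0, hz0⟩
    (by rw [WT_coe]; exact hq2) (by rw [cutT_coe]; exact hq2d.1 hdN)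
  rw [WT_coe] at hc'W he
  obtain ⟨z, hzN, hξz, hz1, hRz⟩ := zf ξ hξmem.1 l hl R hR hcr c'
    (ctb_of_mem (mem_W.1 hc'W).1) hc'N hc'D
  refine ⟨e, he, heq.trans hq2d, z, hzN, hz1, ?_, hRd c' e _ hRz he hec⟩
  intro hzF
  exact absurd hξz (not_lt.2 (hξle z hzF hzN hz1))

end RowG5

section RowG6


variable {nm : Om → Set Cond → Rel}

/-- Row G6.  Finitely many values can be decided. -/
theorem decide_vals {α : Om} (hs : Suit α (W nm α) (A nm α)) {d : Cond} (hd : d ∈ W nm α)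
    (E : Finset (Om × Om)) (hE : ∀ x ∈ E, x.1 < w1 ∧ x.2 < w1) :
    ∃ e ∈ W nm α, e ≤ d ∧ ∃ F : Finset Om, ∀ x ∈ E, ∃ w ∈ F, A nm α e [x.1, x.2, w] := by
  classical
  induction E using Finset.induction_on with
  | empty => exact ⟨d, hd, le_rfl, ∅, fun x hx => absurd hx (Finset.notMem_empty _)⟩
  | insert x E hx ih =>
    obtain ⟨e, he, hed, F, hF⟩ := ih fun y hy => hE y (Finset.mem_insert_of_mem hy)
    obtain ⟨h1, h2⟩ := hE x (Finset.mem_insert_self _ _)
    obtain ⟨e', he', hee, w, hw, hA⟩ := hs.tot e he x.1 h1 x.2 h2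
    refine ⟨e', he', hee.trans hed, insert w F, ?_⟩
    intro y hy
    rcases Finset.mem_insert.1 hy with h3 | h3
    · subst h3
      exact ⟨w, Finset.mem_insert_self _ _, hA⟩
    · obtain ⟨w', hw', hA'⟩ := hF y h3
      exact ⟨w', Finset.mem_insert_of_mem hw', hs.mono _ _ _ hA' he' hee⟩

end RowG6

variable (nm) in
/-- The invariant of the choice of the new elements: `d` forces that no `u ∈ ys` maps an element of
`a ∪ ys` to another element of `a`. -/
def Inv (α : Om) (ys : List Om) (d : Cond) (a : Finset Om) : Prop :=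
  ∀ q ∈ W nm α, q ≤ d → ∀ u ∈ ys, ∀ v, v ∈ a ∨ v ∈ ys → ∀ w ∈ a, w ≠ v →
    ¬ A nm α q [u, v, w]

section RowG7


variable {nm : Om → Set Cond → Rel}

open Classical in
/-- Row G7.  One step up with the invariant (G5 and G6). -/
theorem step_inv {α : Om} {N : Set Om} (hs : Suit α (W nm α) (A nm α)) (hz : (0 : Om) ∈ N)
    (gen1 : ∀ ξ ∈ N, ∀ l : List Om, (∀ x ∈ l, x ∈ N) → ∀ R, BdR α R → cr R ∈ N →
      Gen nm α {q | ∃ z, ξ < z ∧ z < w1 ∧ R q (l ++ [z])} N)
    (zf : ∀ ξ ∈ N, ∀ l : List Om, (∀ x ∈ l, x ∈ N) →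
      ∀ R, BdR α R → cr R ∈ N → ∀ q, (∀ M ∈ q.S, M.Countable) → InN N q →
      (∃ z, ξ < z ∧ z < w1 ∧ R q (l ++ [z])) → ∃ z ∈ N, ξ < z ∧ z < w1 ∧ R q (l ++ [z]))
    {R : Rel} (hR : BdR α R) (hRd : Down (W nm α) R) (hcr : cr R ∈ N) {l : List Om}
    (hl : ∀ x ∈ l, x ∈ N) {d : Cond} (hd : d ∈ W nm α) (hdN : N ∩ Iio α ∈ d.S)
    (h : DR (W nm α) R d l) {ys : List Om} (hys : ∀ y ∈ ys, y < w1) {a : Finset Om}
    (ha : ∀ x ∈ a, x < w1) (hinv : Inv nm α ys d a) :
    ∃ d' ∈ W nm α, d' ≤ d ∧ ∃ z ∈ N, z < w1 ∧ R d' (l ++ [z]) ∧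
      Inv nm α ys d' (insert z a) := by
  obtain ⟨e, he, hed, F, hF⟩ := decide_vals hs hd (ys.toFinset ×ˢ (a ∪ ys.toFinset)) (by
    intro x hx
    rw [Finset.mem_product] at hx
    refine ⟨hys _ (List.mem_toFinset.1 hx.1), ?_⟩
    rcases Finset.mem_union.1 hx.2 with h' | h'
    · exact ha _ h'
    · exact hys _ (List.mem_toFinset.1 h'))
  obtain ⟨d', hd', hde, z, hzN, hz1, hzF, hRz⟩ := step_up hz gen1 zf hR hRd hcr hl he
    (hed.1 hdN) (down_DR d e l h he hed) F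
  refine ⟨d', hd', hde.trans hed, z, hzN, hz1, hRz, ?_⟩
  intro q hq hqd u hu v hv w hw
  intros
  rename_i hwv
  intro hA
  have hqe : q ≤ e := hqd.trans hde
  have key : ∀ v', v' ∈ a ∨ v' ∈ ys → A nm α q [u, v', z] → False := by
    intro v' hv' hA'
    obtain ⟨w0, hw0, hA0⟩ := hF (u, v') (by
      rw [Finset.mem_product, Finset.mem_union]
      refine ⟨List.mem_toFinset.2 hu, ?_⟩
      rcases hv' with h' | h'
      · exact Or.inl h'
      · exact Or.inr (List.mem_toFinset.2 h'))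
    have h1 := hs.mono e q _ hA0 hq hqe
    have h2 := hs.func q u v' z w0 hA' h1
    exact hzF (h2 ▸ hw0)
  rcases Finset.mem_insert.1 hw with hw' | hw'
  · subst hw'
    rcases hv with hv' | hv'
    · rcases Finset.mem_insert.1 hv' with h' | h'
      · exact hwv h'.symm
      · exact key v (Or.inl h') hA
    · exact key v (Or.inr hv') hA
  · rcases hv with hv' | hv'
    · rcases Finset.mem_insert.1 hv' with h' | h'
      · subst h'
        exact key w (Or.inl hw') (hs.inv q u v w hA)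
      · first
        | exact hinv q hq (hqe.trans hed) u hu v (Or.inl h') w hw' hwv hA
        | exact hinv q hq (hqe.trans hed) u hu v (Or.inl h') w hw' (by assumption) hwv hA
    · first
      | exact hinv q hq (hqe.trans hed) u hu v (Or.inr hv') w hw' hwv hA
      | exact hinv q hq (hqe.trans hed) u hu v (Or.inr hv') w hw' (by assumption) hwv hA

end RowG7

section RowG8


variable {nm : Om → Set Cond → Rel}

private lemma G8_bdR {α : Om} {R : Rel} (hR : BdR α R) (n : ℕ) :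
    BdR α ((DR (W nm α))^[n] R) := by
  rcases n with _ | n
  · exact hR
  · rw [Function.iterate_succ_apply']
    exact bdR_DR

private lemma G8_down {α : Om} {R : Rel} (hR : Down (W nm α) R) (n : ℕ) :
    Down (W nm α) ((DR (W nm α))^[n] R) := by
  rcases n with _ | n
  · exact hR
  · rw [Function.iterate_succ_apply']
    exact down_DR

private lemma G8_cr {α : Om} {N : Set Om} (hN : Good α (W nm α) (A nm α) N) {R : Rel}
    (hR : BdR α R) (hcr : cr R ∈ N) (n : ℕ) : cr ((DR (W nm α))^[n] R) ∈ N := by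
  induction n with
  | zero => exact hcr
  | succ n ih =>
    rw [Function.iterate_succ_apply']
    exact hN.der _ (G8_bdR hR n) ih

open Classical in
/-- Row G8.  Going up (induction on `n` with G7; the iterated derivatives are in `N` by `der`). -/
theorem ascend {α : Om} {N : Set Om} (hs : Suit α (W nm α) (A nm α))
    (hN : Good α (W nm α) (A nm α) N) (hz : (0 : Om) ∈ N)
    (gen1 : ∀ ξ ∈ N, ∀ l : List Om, (∀ x ∈ l, x ∈ N) → ∀ R, BdR α R → cr R ∈ N →
      Gen nm α {q | ∃ z, ξ < z ∧ z < w1 ∧ R q (l ++ [z])} N)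
    (zf : ∀ ξ ∈ N, ∀ l : List Om, (∀ x ∈ l, x ∈ N) →
      ∀ R, BdR α R → cr R ∈ N → ∀ q, (∀ M ∈ q.S, M.Countable) → InN N q →
      (∃ z, ξ < z ∧ z < w1 ∧ R q (l ++ [z])) → ∃ z ∈ N, ξ < z ∧ z < w1 ∧ R q (l ++ [z]))
    {R : Rel} (hR : BdR α R) (hRd : Down (W nm α) R) (hcr : cr R ∈ N) {ys : List Om}
    (hys : ∀ y ∈ ys, y < w1) (n : ℕ) {l : List Om} (hl : ∀ x ∈ l, x ∈ N) {d : Cond}
    (hd : d ∈ W nm α) (hdN : N ∩ Iio α ∈ d.S) (h : ((DR (W nm α))^[n] R) d l) {a : Finset Om}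
    (ha : ∀ x ∈ a, x < w1) (hinv : Inv nm α ys d a) :
    ∃ d' ∈ W nm α, d' ≤ d ∧ ∃ xs : List Om, (∀ x ∈ xs, x ∈ N) ∧ R d' (l ++ xs) ∧
      Inv nm α ys d' (a ∪ xs.toFinset) := by
  induction n generalizing l d a with
  | zero =>
    refine ⟨d, hd, le_refl d, [], by simp, by simpa using h, ?_⟩
    simpa using hinv
  | succ n ih =>
    rw [Function.iterate_succ_apply'] at h
    obtain ⟨d1, hd1, hd1d, z, hzN, hzw, hRz, hinv1⟩ := step_inv hs hz gen1 zf
      (G8_bdR hR n) (G8_down hRd n) (G8_cr hN hR hcr n) hl hd hdN h hys ha hinv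
    obtain ⟨d2, hd2, hd21, xs, hxs, hR2, hinv2⟩ := ih (l := l ++ [z]) (by
        intro x hx
        rcases List.mem_append.1 hx with hx | hx
        · exact hl x hx
        · rw [List.mem_singleton] at hx
          rw [hx]
          exact hzN) hd1 (hd1d.1 hdN) hRz (a := insert z a) (by
        intro x hx
        rcases Finset.mem_insert.1 hx with rfl | hx
        · exact hzw
        · exact ha x hx) hinv1
    refine ⟨d2, hd2, hd21.trans hd1d, z :: xs, ?_, ?_, ?_⟩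
    · intro x hx
      rcases List.mem_cons.1 hx with rfl | hx
      · exact hzN
      · exact hxs x hx
    · rw [List.append_assoc, List.singleton_append] at hR2
      exact hR2
    · have e : a ∪ (z :: xs).toFinset = insert z a ∪ xs.toFinset := by
        ext x
        simp only [Finset.mem_union, List.mem_toFinset, List.mem_cons, Finset.mem_insert]
        tauto
      rw [e]
      exact hinv2

end RowG8

section RowG9


variable {nm : Om → Set Cond → Rel}

lemma G9_cd_lt {β : WithTop Om} (hβ : ∀ b : Om, β = b → IsBig b) {M : Set Om}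
    (hM : M.Countable) (h : ∀ x ∈ M, (x : WithTop Om) < β) : (cd M : WithTop Om) < β := by
  induction β using WithTop.recTopCoe with
  | top => exact WithTop.coe_lt_top _
  | coe b =>
    exact WithTop.coe_lt_coe.2 ((hβ b rfl).code M hM fun x hx => WithTop.coe_lt_coe.1 (h x hx))

open Classical in
/-- Row G9.  Amalgamation of `c` and `c' ∈ N` with a stage: `α` is the largest element of `N` in the
support of `c`, and `d` below `α` extends both and forces the union of the working parts at `α` to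
be legal.  The nodes of the result: `c.S ∪ d.S`, amalgamated at `cutT N β` (`amalSmall`) with
`c'.S ∪ {M ∈ d.S | cd M ∈ N}` (which is a side condition by `amalBig` at `α` and `resSmall` for
`d` at `N ∩ Iio α`). -/
theorem amalgam {β : WithTop Om} (hβ : ∀ b : Om, β = b → IsBig b) {α : Om} {N : Set Om}
    {c c' d : Cond} (hc : c ∈ WT nm β) (hc' : c' ∈ WT nm β) (hN : cutT N β ∈ c.S)
    (hαβ : (α : WithTop Om) < β) (hαN : α ∈ N) (hα : α ∈ c.B) (hα' : α ∈ c'.B)
    (hin : InN N c') (hS : ∀ M ∈ c.S, cd M ∈ N → M ∈ c'.S) (hB : ∀ b ∈ c.B, b ∈ N → b ∈ c'.B)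
    (hmax : ∀ γ ∈ N, α < γ → c.p γ = ∅) (hd : d ∈ W nm α) (hdc : d ≤ c.res α)
    (hdc' : d ≤ c'.res α) (hs : Suit α (W nm α) (A nm α))
    (hsep : ∀ x ∈ c.p α ∪ c'.p α, ∀ y ∈ c.p α ∪ c'.p α, x < y → ∃ K ∈ c.S ∪ c'.S,
      Good α (W nm α) (A nm α) K ∧ x ∈ K ∧ y ∉ K)
    (hind : ∀ q ∈ W nm α, q ≤ d → ∀ u ∈ c.p α ∪ c'.p α, ∀ v ∈ c.p α ∪ c'.p α,
      ∀ w ∈ c.p α ∪ c'.p α, u ≠ v → w ≠ v → ¬ A nm α q [u, v, w]) :
    ∃ e ∈ WT nm β, e ≤ c ∧ e ≤ c' := by
  obtain ⟨hcP, hcS, hcB⟩ := hc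
  obtain ⟨hc'P, hc'S, hc'B⟩ := hc'
  obtain ⟨hdP, hdS, hdB⟩ := mem_W.1 hd
  have hαbig : IsBig α := hcP.1.big α hα
  have hctb := ctb_of_mem hcP
  have hctb' := ctb_of_mem hc'P
  have hctbd := ctb_of_mem hdP
  -- restriction memberships
  have hresS : ∀ M ∈ c.S, M ⊆ Iio α → M ∈ d.S := fun M hM h =>
    hdc.1 (by simpa [Cond.res] using And.intro hM h)
  have hresB : ∀ b ∈ c.B, b < α → b ∈ d.B := fun b hb h =>
    hdc.2.1 (by simpa [Cond.res] using And.intro hb h)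
  have hresS' : ∀ M ∈ c'.S, M ⊆ Iio α → M ∈ d.S := fun M hM h =>
    hdc'.1 (by simpa [Cond.res] using And.intro hM h)
  have hresB' : ∀ b ∈ c'.B, b < α → b ∈ d.B := fun b hb h =>
    hdc'.2.1 (by simpa [Cond.res] using And.intro hb h)
  have hresp : ∀ γ < α, c.p γ ⊆ d.p γ := fun γ hγ => by
    have := hdc.2.2 γ
    simpa [Cond.res, hγ] using this
  have hresp' : ∀ γ < α, c'.p γ ⊆ d.p γ := fun γ hγ => by
    have := hdc'.2.2 γ
    simpa [Cond.res, hγ] using this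
  have hdp : ∀ γ, α ≤ γ → d.p γ = ∅ := fun γ hγ => d.hp γ fun h => absurd (hdB γ h) (not_lt.2 hγ)
  -- the node `N ∩ Iio α`
  have hNα : N ∩ Iio α ∈ d.S := by
    have h1 := hcP.1.cut _ hN α hα
    have h2 : cutT N β ∩ Iio α = N ∩ Iio α := by
      ext x
      constructor
      · rintro ⟨⟨h3, _⟩, h4⟩
        exact ⟨h3, h4⟩
      · rintro ⟨h3, h4⟩
        exact ⟨⟨h3, lt_trans (WithTop.coe_lt_coe.2 h4) hαβ⟩, h4⟩
    rw [h2] at h1
    exact hresS _ h1 fun x hx => hx.2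
  -- the first side condition
  have hside1 : IsSide (c.S ∪ d.S) (c.B ∪ d.B) :=
    hcP.1.amalBig hα hdP.1 hdS hdB hresS hresB
  -- the second side condition
  have hside2 : IsSide (c'.S ∪ d.S.filter (fun M => cd M ∈ N ∩ Iio α))
      (c'.B ∪ d.B.filter (fun b => b ∈ N ∩ Iio α)) := by
    refine hc'P.1.amalBig hα' (by convert hdP.1.resSmall hNα) ?_ ?_ ?_ ?_
    · intro M hM
      exact hdS M (Finset.mem_filter.1 hM).1
    · intro b hb
      exact hdB b (Finset.mem_filter.1 hb).1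
    · intro M hM h
      exact Finset.mem_filter.2 ⟨hresS' M hM h, hin.1 M hM, hαbig.code M (hctb' M hM) h⟩
    · intro b hb h
      exact Finset.mem_filter.2 ⟨hresB' b hb h, hin.2.1 b hb, h⟩
  set S1 : Finset (Set Om) := c'.S ∪ d.S.filter (fun M => cd M ∈ N ∩ Iio α) with hS1
  set B1 : Finset Om := c'.B ∪ d.B.filter (fun b => b ∈ N ∩ Iio α) with hB1
  have hside3 : IsSide (amS (c.S ∪ d.S) S1 B1) (c.B ∪ d.B ∪ B1) := by
    refine amalSmall hside1 (Finset.mem_union_left _ hN) hside2 ?_ ?_ ?_ ?_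
    · intro M hM
      rcases Finset.mem_union.1 hM with hM | hM
      · exact ⟨hin.1 M hM, G9_cd_lt hβ (hctb' M hM) (hc'S M hM)⟩
      · have h := (Finset.mem_filter.1 hM).2
        exact ⟨h.1, lt_trans (WithTop.coe_lt_coe.2 h.2) hαβ⟩
    · intro b hb
      rcases Finset.mem_union.1 hb with hb | hb
      · exact ⟨hin.2.1 b hb, hc'B b hb⟩
      · have h := (Finset.mem_filter.1 hb).2
        exact ⟨h.1, lt_trans (WithTop.coe_lt_coe.2 h.2) hαβ⟩
    · intro M hM h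
      rcases Finset.mem_union.1 hM with hM | hM
      · exact Finset.mem_union_left _ (hS M hM h.1)
      · exact Finset.mem_union_right _
          (Finset.mem_filter.2 ⟨hM, h.1, hαbig.code M (hctbd M hM) (hdS M hM)⟩)
    · intro b hb h
      rcases Finset.mem_union.1 hb with hb | hb
      · exact Finset.mem_union_left _ (hB b hb h.1)
      · exact Finset.mem_union_right _ (Finset.mem_filter.2 ⟨hb, h.1, hdB b hb⟩)
  -- the condition
  let e : Cond :=
    { S := amS (c.S ∪ d.S) S1 B1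
      B := c.B ∪ d.B ∪ B1
      p := fun γ => c.p γ ∪ c'.p γ ∪ d.p γ
      hp := by
        intro γ hγ
        have h1 : γ ∉ c.B := fun h => hγ (by simp [h])
        have h2 : γ ∉ d.B := fun h => hγ (by simp [h])
        have h3 : γ ∉ c'.B := fun h => hγ (by simp [hB1, h])
        simp [c.hp γ h1, d.hp γ h2, c'.hp γ h3]
      hw := by
        intro γ x hx
        rcases Finset.mem_union.1 hx with hx | hx
        · rcases Finset.mem_union.1 hx with hx | hx
          · exact c.hw γ x hx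
          · exact c'.hw γ x hx
        · exact d.hw γ x hx }
  have hSc : c.S ⊆ e.S := fun M hM =>
    Finset.mem_union_left _ (Finset.mem_union_left _ (Finset.mem_union_left _ hM))
  have hSd : d.S ⊆ e.S := fun M hM =>
    Finset.mem_union_left _ (Finset.mem_union_left _ (Finset.mem_union_right _ hM))
  have hSc' : c'.S ⊆ e.S := fun M hM =>
    Finset.mem_union_left _ (Finset.mem_union_right _ (Finset.mem_union_left _ hM))
  have hec : e ≤ c := ⟨hSc, fun b hb => Finset.mem_union_left _ (Finset.mem_union_left _ hb),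
    fun γ x hx => Finset.mem_union_left _ (Finset.mem_union_left _ hx)⟩
  have hec' : e ≤ c' := ⟨hSc', fun b hb => Finset.mem_union_right _ (Finset.mem_union_left _ hb),
    fun γ x hx => Finset.mem_union_left _ (Finset.mem_union_right _ hx)⟩
  have hed : e ≤ d := ⟨hSd, fun b hb => Finset.mem_union_left _ (Finset.mem_union_right _ hb),
    fun γ x hx => Finset.mem_union_right _ hx⟩
  refine ⟨e, ⟨⟨hside3, ?_⟩, ?_, ?_⟩, hec, hec'⟩
  · intro γ hγ
    rcases lt_trichotomy γ α with h | h | h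
    · have hp : e.p γ = d.p γ := by
        change c.p γ ∪ c'.p γ ∪ d.p γ = d.p γ
        exact Finset.union_eq_right.2 (Finset.union_subset (hresp γ h) (hresp' γ h))
      rw [hp] at hγ
      exact Req.mono (hdP.2 γ hγ) hp hSd (res_mono hed γ)
    · subst h
      have hp : e.p γ = c.p γ ∪ c'.p γ := by
        change c.p γ ∪ c'.p γ ∪ d.p γ = c.p γ ∪ c'.p γ
        rw [hdp γ le_rfl, Finset.union_empty]
      refine ⟨hs, ?_, ?_⟩
      · intro x hx y hy hxy
        rw [hp] at hx hy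
        obtain ⟨K, hK, h1⟩ := hsep x hx y hy hxy
        exact ⟨K, (Finset.union_subset hSc hSc') hK, h1⟩
      · intro q hq hqe u hu v hv w hw
        rw [hp] at hu hv hw
        exact hind q hq (hqe.trans (res_le_of hed ⟨hdS, hdB⟩)) u hu v hv w hw
    · by_cases hγN : γ ∈ N
      · have hp : e.p γ = c'.p γ := by
          change c.p γ ∪ c'.p γ ∪ d.p γ = c'.p γ
          rw [hdp γ h.le, hmax γ hγN h, Finset.union_empty, Finset.empty_union]
        rw [hp] at hγ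
        exact Req.mono (hc'P.2 γ hγ) hp hSc' (res_mono hec' γ)
      · have hp : e.p γ = c.p γ := by
          change c.p γ ∪ c'.p γ ∪ d.p γ = c.p γ
          rw [hdp γ h.le, c'.hp γ fun h' => hγN (hin.2.1 γ h'), Finset.union_empty,
            Finset.union_empty]
        rw [hp] at hγ
        exact Req.mono (hcP.2 γ hγ) hp hSc (res_mono hec γ)
  · intro M hM x hx
    have hcd : ∀ M ∈ c.S ∪ d.S, ∀ x ∈ M, (x : WithTop Om) < β := by
      intro M hM x hx
      rcases Finset.mem_union.1 hM with hM | hM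
      · exact hcS M hM x hx
      · exact lt_trans (WithTop.coe_lt_coe.2 (hdS M hM hx)) hαβ
    rcases Finset.mem_union.1 hM with hM | hM
    · rcases Finset.mem_union.1 hM with hM | hM
      · exact hcd M hM x hx
      · rcases Finset.mem_union.1 hM with hM | hM
        · exact hc'S M hM x hx
        · exact hcd M (Finset.mem_union_right _ (Finset.mem_filter.1 hM).1) x hx
    · obtain ⟨y, hy, rfl⟩ := Finset.mem_image.1 hM
      exact hcd y.1 (Finset.mem_product.1 hy).1 x hx.1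
  · intro b hb
    have hcd : ∀ b ∈ c.B ∪ d.B, (b : WithTop Om) < β := by
      intro b hb
      rcases Finset.mem_union.1 hb with hb | hb
      · exact hcB b hb
      · exact lt_trans (WithTop.coe_lt_coe.2 (hdB b hb)) hαβ
    rcases Finset.mem_union.1 hb with hb | hb
    · exact hcd b hb
    · rcases Finset.mem_union.1 hb with hb | hb
      · exact hc'B b hb
      · exact hcd b (Finset.mem_union_right _ (Finset.mem_filter.1 hb).1)

end RowG9

section RowG10


variable {nm : Om → Set Cond → Rel}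

/-- Row G10.  Amalgamation without a stage. -/
theorem amalgam0 {β : WithTop Om} (hβ : ∀ b : Om, β = b → IsBig b) {N : Set Om}
    {c c' : Cond} (hc : c ∈ WT nm β) (hc' : c' ∈ WT nm β) (hN : cutT N β ∈ c.S)
    (hin : InN N c') (hS : ∀ M ∈ c.S, cd M ∈ N → M ∈ c'.S) (hB : ∀ b ∈ c.B, b ∈ N → b ∈ c'.B)
    (hmax : ∀ γ ∈ N, c.p γ = ∅) :
    ∃ e ∈ WT nm β, e ≤ c ∧ e ≤ c' := by
  classical
  obtain ⟨hP, hM, hb⟩ := hc
  obtain ⟨hP', hM', hb'⟩ := hc'
  have hin2 : ∀ b ∈ c'.B, b ∈ N := hin.2.1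
  have hS1 : ∀ M ∈ c'.S, cd M ∈ cutT N β := by
    intro M hMS
    refine ⟨hin.1 M hMS, ?_⟩
    rcases eq_or_ne β ⊤ with rfl | hne
    · exact WithTop.coe_lt_top _
    · obtain ⟨b, rfl⟩ := WithTop.ne_top_iff_exists.1 hne
      refine WithTop.coe_lt_coe.2 ((hβ b rfl).code M (ctb_of_mem hP' M hMS) ?_)
      intro x hx
      exact WithTop.coe_lt_coe.1 (hM' M hMS x hx)
  have hB1 : ∀ b ∈ c'.B, b ∈ cutT N β := fun b hbb => ⟨hin2 b hbb, hb' b hbb⟩
  have hside := amalSmall hP.1 hN hP'.1 hS1 hB1 (fun M h1 h2 => hS M h1 h2.1)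
    (fun b h1 h2 => hB b h1 h2.1)
  have hpB : ∀ (d : Cond) (α : Om), (d.p α).Nonempty → α ∈ d.B := by
    intro d α h
    by_contra hcon
    rw [d.hp α hcon] at h
    exact Finset.not_nonempty_empty h
  let e : Cond :=
    { S := amS c.S c'.S c'.B
      B := c.B ∪ c'.B
      p := fun α => c.p α ∪ c'.p α
      hp := by
        intro α h
        rw [Finset.notMem_union] at h
        show c.p α ∪ c'.p α = ∅
        rw [c.hp α h.1, c'.hp α h.2, Finset.empty_union]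
      hw := by
        intro α x hx
        rcases Finset.mem_union.1 hx with hx | hx
        · exact c.hw α x hx
        · exact c'.hw α x hx }
  have heS : e.S = amS c.S c'.S c'.B := rfl
  have hcS : c.S ⊆ e.S := by
    intro M h
    exact Finset.mem_union_left _ (Finset.mem_union_left _ h)
  have hcS' : c'.S ⊆ e.S := by
    intro M h
    exact Finset.mem_union_left _ (Finset.mem_union_right _ h)
  have h1 : e ≤ c := ⟨hcS, Finset.subset_union_left, fun α => Finset.subset_union_left⟩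
  have h2 : e ≤ c' := ⟨hcS', Finset.subset_union_right, fun α => Finset.subset_union_right⟩
  have hPP : e ∈ PP nm := by
    refine ⟨hside, ?_⟩
    intro α hα
    by_cases hαc : (c.p α).Nonempty
    · have h3 : c'.p α = ∅ := by
        by_contra hne
        have h4 : α ∈ N := hin2 α (hpB c' α (Finset.nonempty_iff_ne_empty.2 hne))
        rw [hmax α h4] at hαc
        exact Finset.not_nonempty_empty hαc
      have h5 : e.p α = c.p α := by
        show c.p α ∪ c'.p α = c.p α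
        rw [h3, Finset.union_empty]
      exact Req.mono (hP.2 α hαc) h5 hcS (res_mono h1 α)
    · have h3 : c.p α = ∅ := Finset.not_nonempty_iff_eq_empty.1 hαc
      have h5 : e.p α = c'.p α := by
        show c.p α ∪ c'.p α = c'.p α
        rw [h3, Finset.empty_union]
      rw [h5] at hα
      exact Req.mono (hP'.2 α hα) h5 hcS' (res_mono h2 α)
  refine ⟨e, ⟨hPP, ?_, ?_⟩, h1, h2⟩
  · intro M hMe x hx
    rw [heS] at hMe
    rcases Finset.mem_union.1 hMe with h | h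
    · rcases Finset.mem_union.1 h with h | h
      · exact hM M h x hx
      · exact hM' M h x hx
    · obtain ⟨y, hy, rfl⟩ := Finset.mem_image.1 h
      exact hM y.1 (Finset.mem_product.1 hy).1 x hx.1
  · intro b hbe
    rcases Finset.mem_union.1 hbe with h | h
    · exact hb b h
    · exact hb' b h

end RowG10

section RowG11


variable {nm : Om → Set Cond → Rel}

/-- A forced value cannot leave a good node. -/
theorem G11_func {α : Om} {K : Set Om} (hs : Suit α (W nm α) (A nm α))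
    (hK : Good α (W nm α) (A nm α) K) {q : Cond} (hq : q ∈ W nm α) (hKq : K ∩ Iio α ∈ q.S)
    {u v w : Om} (hu : u ∈ K) (hv : v ∈ K) (hw : w ∉ K) (h : A nm α q [u, v, w]) : False := by
  have hdown : Down (W nm α) (A nm α) := fun q q' l hl hq' hle => hs.mono q q' l hl hq' hle
  have hw1 : w < w1 := (hs.bd q _ h).2.2 w (by simp)
  have hl : ∀ x ∈ [u, v], x ∈ K := by
    intro x hx
    rcases List.mem_cons.1 hx with rfl | hx
    · exact hu
    · rw [List.mem_singleton.1 hx]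
      exact hv
  have h1 := hK.gen (A nm α) hs.bd hdown hK.nm [u, v] hl q hq hKq w hw1 hw h
  obtain ⟨_, _, h3⟩ := h1
  obtain ⟨q2, hq2, hle, z, hz1, _, hz3⟩ := h3 w hw1 q hq le_rfl
  exact absurd (hs.func q2 u v z w hz3 (hs.mono q q2 _ h hq2 hle)) (ne_of_gt hz1)

/-- The elements of a strictly increasing list, step by step. -/
theorem G11_take {K : Set Om} {ys : List Om} (hys : ys.Pairwise (· < ·))
    (hinit : ∀ ξ ∈ K, ξ < w1 → ∀ η < ξ, η ∈ K) (hw : ∀ y ∈ ys, y < w1) {j : ℕ}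
    (hj : j < ys.length) (h : ys[j] ∈ K) : ∀ x ∈ ys.take (j + 1), x ∈ K := by
  intro x hx
  obtain ⟨k, hk, rfl⟩ := List.mem_take_iff_getElem.1 hx
  have hk1 : k < j + 1 := by omega
  rcases Nat.lt_succ_iff_lt_or_eq.1 hk1 with hkj | hkj
  · exact hinit _ h (hw _ (List.getElem_mem _)) _ (List.pairwise_iff_getElem.1 hys k j _ hj hkj)
  · subst hkj
    exact h

/-- Row G11.  The reflection argument. -/
theorem nice_gen {β : WithTop Om} (hβ : ∀ b : Om, β = b → IsBig b) {D : Set Cond} {N : Set Om}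
    (hN : Nice nm β D N) (hβN : ∀ b : Om, β = b → b ∈ N) : Gen nm β D N := by
  classical
  intro c hcD hc hNc
  have hcP : c ∈ PP nm := hc.1
  have hside : IsSide c.S c.B := hcP.1
  have hctb := ctb_of_mem hcP
  have hS0c : ∀ M ∈ c.S.filter (fun M => cd M ∈ N), M.Countable := fun M hM =>
    hctb M (Finset.mem_filter.1 hM).1
  have hS0N : ∀ M ∈ c.S.filter (fun M => cd M ∈ N), cd M ∈ N := fun M hM =>
    (Finset.mem_filter.1 hM).2
  have hB0N : ∀ b ∈ c.B.filter (fun b => b ∈ N), b ∈ N := fun b hb => (Finset.mem_filter.1 hb).2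
  have hS0s : c.S.filter (fun M => cd M ∈ N) ⊆ c.S := Finset.filter_subset _ _
  have hB0s : c.B.filter (fun b => b ∈ N) ⊆ c.B := Finset.filter_subset _ _
  by_cases hex : ∃ γ ∈ N, (c.p γ).Nonempty
  swap
  · have hmax : ∀ γ ∈ N, c.p γ = ∅ := by
      intro γ hγ
      by_contra hcon
      exact hex ⟨γ, hγ, Finset.nonempty_iff_ne_empty.2 hcon⟩
    obtain ⟨c', hc'D, hc', hin, hS, hB⟩ := hN.c0 _ hS0c hS0N _ hB0N ⟨c, hcD, hc, hS0s, hB0s⟩
    obtain ⟨e, he, hec, hec'⟩ := amalgam0 hβ hc hc' hNc hin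
      (fun M hM hMN => hS (Finset.mem_filter.2 ⟨hM, hMN⟩))
      (fun b hb hbN => hB (Finset.mem_filter.2 ⟨hb, hbN⟩)) hmax
    exact ⟨c', hc'D, hc', hin, e, he, hec, hec'⟩
  -- the largest element `α` of `N` in the support
  obtain ⟨γ0, hγ0, hγ0n⟩ := hex
  have hpB : ∀ γ, (c.p γ).Nonempty → γ ∈ c.B := by
    intro γ hγ
    by_contra hcon
    rw [c.hp γ hcon] at hγ
    exact Finset.not_nonempty_empty hγ
  have hT : (c.B.filter (fun γ => γ ∈ N ∧ (c.p γ).Nonempty)).Nonempty :=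
    ⟨γ0, Finset.mem_filter.2 ⟨hpB γ0 hγ0n, hγ0, hγ0n⟩⟩
  obtain ⟨α, hαT, hαmax⟩ := Finset.exists_max_image _ (fun γ : Om => γ) hT
  obtain ⟨hαc, hαN, hαn⟩ := Finset.mem_filter.1 hαT
  have hmax : ∀ γ ∈ N, α < γ → c.p γ = ∅ := by
    intro γ hγ hlt
    by_contra hcon
    have hne : (c.p γ).Nonempty := Finset.nonempty_iff_ne_empty.2 hcon
    exact absurd (hαmax γ (Finset.mem_filter.2 ⟨hpB γ hne, hγ, hne⟩)) (not_le.2 hlt)
  have hαβ : (α : WithTop Om) < β := hc.2.2 α hαc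
  have hαbig : IsBig α := hside.big α hαc
  have hreq : Req α (W nm α) (A nm α) c := hcP.2 α hαn
  have hs := hreq.suit
  have hcut : ∀ {x : Om}, x ∈ N → x < w1 → x ∈ cutT N β := by
    intro x hx hx1
    exact ⟨hx, lt_trans (WithTop.coe_lt_coe.2 (lt_trans hx1 hαbig.w1_lt)) hαβ⟩
  have hinit : ∀ x ∈ N, x < w1 → ∀ y < x, y ∈ N := fun x hx hx1 y hy =>
    ((hside.node _ hNc).init x (hcut hx hx1) hx1 y hy).1
  have hNα : cutT N β ∩ Iio α = N ∩ Iio α := by
    ext x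
    constructor
    · rintro ⟨h1, h2⟩
      exact ⟨h1.1, h2⟩
    · rintro ⟨h1, h2⟩
      exact ⟨⟨h1, lt_trans (WithTop.coe_lt_coe.2 h2) hαβ⟩, h2⟩
  have hNS : N ∩ Iio α ∈ c.S := by
    rw [← hNα]
    exact hside.cut _ hNc α hαc
  have hresS : ∀ K ∈ c.S, K ∩ Iio α ∈ (c.res α).S := by
    intro K hK
    exact Finset.mem_filter.2 ⟨hside.cut K hK α hαc, inter_subset_right⟩
  have hNres : N ∩ Iio α ∈ (c.res α).S := Finset.mem_filter.2 ⟨hNS, inter_subset_right⟩
  have hd0 : c.res α ∈ W nm α := res_mem hcP hαc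
  have hNgood : Good α (W nm α) (A nm α) N := hN.good α hαN hαbig hαβ
  -- the parts of the working part
  have hpw : ∀ x ∈ c.p α, x < w1 := c.hw α
  have haN : ∀ x ∈ (c.p α).filter (fun x => x ∈ N), x ∈ N := fun x hx =>
    (Finset.mem_filter.1 hx).2
  have haw : ∀ x ∈ (c.p α).filter (fun x => x ∈ N), x < w1 := fun x hx =>
    hpw x (Finset.mem_filter.1 hx).1
  set a : Finset Om := (c.p α).filter (fun x => x ∈ N) with ha
  set Y : Finset Om := (c.p α).filter (fun x => x ∉ N) with hY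
  set ys : List Om := Y.sort with hys
  have hmemys : ∀ {x : Om}, x ∈ ys ↔ x ∈ c.p α ∧ x ∉ N := by
    intro x
    rw [hys, Finset.mem_sort, hY, Finset.mem_filter]
  have hysw : ∀ y ∈ ys, y < w1 := fun y hy => hpw y (hmemys.1 hy).1
  have hyslt : ys.Pairwise (· < ·) := (Finset.sortedLT_sort Y).pairwise
  have haY : c.p α = a ∪ ys.toFinset := by
    ext x
    rw [Finset.mem_union, List.mem_toFinset, hmemys, ha, Finset.mem_filter]
    tauto
  set S0 : Finset (Set Om) := c.S.filter (fun M => cd M ∈ N) with hS0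
  set B0 : Finset Om := c.B.filter (fun b => b ∈ N) with hB0
  set R : Rel := RD nm β D α a S0 B0 with hR
  have hRbd : BdR α R := bdR_RD
  have hRd : Down (W nm α) R := down_RD
  have hcr : cr R ∈ N := hN.rd α hαN a haN S0 hS0c hS0N B0 hB0N
  have hRys : R (c.res α) ys := ⟨hd0, c, hcD, hc, hαc, hS0s, hB0s, haY, le_rfl⟩
  have hcrβ : ((cr R : Om) : WithTop Om) < β := by
    induction β using WithTop.recTopCoe with
    | top => exact WithTop.coe_lt_top _
    | coe b => exact WithTop.coe_lt_coe.2 ((hβ b rfl).rel α (WithTop.coe_lt_coe.1 hαβ) R hRbd)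
  have hsep : ∀ i (hi : i < ys.length), ∃ K : Set Om, Good α (W nm α) (A nm α) K ∧ cr R ∈ K ∧
      K ∩ Iio α ∈ (c.res α).S ∧ (∀ x ∈ ys.take i, x ∈ K) ∧ ys[i] ∉ K := by
    intro i hi
    rcases i with _ | j
    · refine ⟨N, hNgood, hcr, hNres, ?_, (hmemys.1 (List.getElem_mem hi)).2⟩
      intro x hx
      simp at hx
    · have hj : j < ys.length := by omega
      have h1 := hmemys.1 (List.getElem_mem hj)
      have h2 := hmemys.1 (List.getElem_mem hi)
      have hlt : ys[j] < ys[j + 1] := List.pairwise_iff_getElem.1 hyslt j (j + 1) hj hi (by omega)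
      obtain ⟨K, hK, hKg, hKx, hKy⟩ := hreq.sep _ h1.1 _ h2.1 hlt
      refine ⟨K, hKg, ?_, hresS K hK, G11_take hyslt (hside.node K hK).init hysw hj hKx, hKy⟩
      exact hside.sub hNc hK hαc ⟨hαN, hαβ⟩ hKg.mem (hysw _ (List.getElem_mem hj)) hKx
        (fun h => h1.2 h.1) ⟨hcr, hcrβ⟩
        (fun b hb hlt => (hside.big b hb).rel α hlt R hRbd)
  have hdes := descend hd0 hRbd hRd ys hysw hsep hRys
  -- the invariant at the beginning
  have hinv0 : Inv nm α ys (c.res α) a := by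
    intro q hq hle u hu v hv w hw hwv hA
    have hu' := (hmemys.1 hu).1
    have hw' : w ∈ c.p α := (Finset.mem_filter.1 hw).1
    have hv' : v ∈ c.p α := by
      rcases hv with hv | hv
      · exact (Finset.mem_filter.1 hv).1
      · exact (hmemys.1 hv).1
    by_cases huv : u = v
    · subst huv
      exact hreq.ind q hq hle u hu' w hw' u hu' (Ne.symm hwv) (Ne.symm hwv) (hs.inv q u u w hA)
    · exact hreq.ind q hq hle u hu' v hv' w hw' huv hwv hA
  obtain ⟨d', hd', hd'le, xs, hxsN, hRxs, hinv⟩ := ascend hs hNgood hN.zero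
    (hN.gen1 α hαN hαbig hαβ) (hN.zf α hαN hαbig hαβ) hRbd hRd hcr hysw ys.length
    (l := []) (fun x hx => absurd hx List.not_mem_nil) hd0 hNres hdes haw hinv0
  rw [List.nil_append] at hRxs
  -- reflection below `α`
  obtain ⟨q, hqR, hqW, hqN, e0, he0, he0d, he0q⟩ := hN.gen2 α hαN hαbig hαβ xs hxsN R hRbd hcr d'
    hRxs (by rw [WT_coe]; exact hd') (by rw [cutT_coe]; exact hd'le.1 hNres)
  rw [WT_coe] at he0 hqW
  obtain ⟨c', hc'D, hc', hc'N, hαc', hS, hB, hp', hqc'⟩ := hN.cf α hαN a haN S0 hS0c hS0N B0 hB0N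
    xs hxsN q (ctb_of_mem (mem_W.1 hqW).1) hqN hqR
  have hc'P : c' ∈ PP nm := hc'.1
  have hec : e0 ≤ c.res α := he0d.trans hd'le
  have hec' : e0 ≤ c'.res α := he0q.trans hqc'
  have hc'pN : ∀ x ∈ c'.p α, x ∈ N := fun x hx => hc'N.2.2 α x hx
  have hasub : ∀ x ∈ c.p α, x ∈ N → x ∈ c'.p α := by
    intro x hx hxN
    rw [hp']
    exact Finset.mem_union_left _ (Finset.mem_filter.2 ⟨hx, hxN⟩)
  have hc'w : ∀ x ∈ c'.p α, x < w1 := c'.hw α
  -- the node `cutT N β` is good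
  have hNβgood : Good α (W nm α) (A nm α) (cutT N β) := by
    induction β using WithTop.recTopCoe with
    | top =>
      rw [cutT_top]
      exact hNgood
    | coe b =>
      rw [cutT_coe]
      exact Good.inter hs hNgood (hβ b rfl) (WithTop.coe_lt_coe.1 hαβ)
  -- membership in the union
  have hU : ∀ x ∈ c.p α ∪ c'.p α, (x ∈ N ∧ x ∈ c'.p α) ∨ (x ∉ N ∧ x ∈ c.p α) := by
    intro x hx
    by_cases hxN : x ∈ N
    · rcases Finset.mem_union.1 hx with h | h
      · exact Or.inl ⟨hxN, hasub x h hxN⟩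
      · exact Or.inl ⟨hxN, h⟩
    · rcases Finset.mem_union.1 hx with h | h
      · exact Or.inr ⟨hxN, h⟩
      · exact absurd (hc'pN x h) hxN
  have hsep' : ∀ x ∈ c.p α ∪ c'.p α, ∀ y ∈ c.p α ∪ c'.p α, x < y → ∃ K ∈ c.S ∪ c'.S,
      Good α (W nm α) (A nm α) K ∧ x ∈ K ∧ y ∉ K := by
    intro x hx y hy hxy
    rcases hU x hx with ⟨hxN, hx'⟩ | ⟨hxN, hx'⟩ <;> rcases hU y hy with ⟨hyN, hy'⟩ | ⟨hyN, hy'⟩
    · obtain ⟨K, hK, h1, h2, h3⟩ := (hc'P.2 α ⟨x, hx'⟩).sep x hx' y hy' hxy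
      exact ⟨K, Finset.mem_union_right _ hK, h1, h2, h3⟩
    · exact ⟨cutT N β, Finset.mem_union_left _ hNc, hNβgood, hcut hxN (hc'w x hx'),
        fun h => hyN h.1⟩
    · exact absurd (hinit y hyN (hc'w y hy') x hxy) hxN
    · obtain ⟨K, hK, h1, h2, h3⟩ := hreq.sep x hx' y hy' hxy
      exact ⟨K, Finset.mem_union_left _ hK, h1, h2, h3⟩
  have hind' : ∀ q ∈ W nm α, q ≤ e0 → ∀ u ∈ c.p α ∪ c'.p α, ∀ v ∈ c.p α ∪ c'.p α,
      ∀ w ∈ c.p α ∪ c'.p α, u ≠ v → w ≠ v → ¬ A nm α q [u, v, w] := by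
    intro q1 hq1 hq1e u hu v hv w hw huv hwv hA
    have hNq1 : N ∩ Iio α ∈ q1.S := (hq1e.trans hec).1 hNres
    -- two different elements outside `N`, the operator inside `N`
    have key : ∀ v w : Om, v ∈ c.p α → w ∈ c.p α → v ∉ N → u ∈ N → u < w1 → v < w →
        A nm α q1 [u, v, w] → False := by
      intro v w hv hw hvN huN huw hvw hA'
      obtain ⟨K, hK, h1, h2, h3⟩ := hreq.sep v hv w hw hvw
      have huv' : u < v := by
        by_contra hcon
        rcases eq_or_lt_of_le (not_lt.1 hcon) with h | h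
        · exact hvN (h ▸ huN)
        · exact hvN (hinit u huN huw v h)
      have huK : u ∈ K := (hside.node K hK).init v h2 (hpw v hv) u huv'
      exact G11_func hs h1 hq1 ((hq1e.trans hec).1 (hresS K hK)) huK h2 h3 hA'
    have memInv : ∀ x, x ∈ N → x ∈ c'.p α → x ∈ a ∪ xs.toFinset := by
      intro x _ hx
      rw [← hp']
      exact hx
    rcases hU u hu with ⟨huN, hu'⟩ | ⟨huN, hu'⟩
    · rcases hU v hv with ⟨hvN, hv'⟩ | ⟨hvN, hv'⟩ <;> rcases hU w hw with ⟨hwN, hw'⟩ | ⟨hwN, hw'⟩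
      · exact (hc'P.2 α ⟨u, hu'⟩).ind q1 hq1 (hq1e.trans hec') u hu' v hv' w hw' huv hwv hA
      · exact G11_func hs hNgood hq1 hNq1 huN hvN hwN hA
      · exact G11_func hs hNgood hq1 hNq1 huN hwN hvN (hs.inv q1 u v w hA)
      · rcases lt_trichotomy v w with h | h | h
        · exact key v w hv' hw' hvN huN (hc'w u hu') h hA
        · exact hwv h.symm
        · exact key w v hw' hv' hwN huN (hc'w u hu') h (hs.inv q1 u v w hA)
    · have huys : u ∈ ys := hmemys.2 ⟨hu', huN⟩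
      have hq1d' : q1 ≤ d' := hq1e.trans he0d
      rcases hU w hw with ⟨hwN, hw'⟩ | ⟨hwN, hw'⟩
      · refine hinv q1 hq1 hq1d' u huys v ?_ w (memInv w hwN hw') hwv hA
        rcases hU v hv with ⟨hvN, hv'⟩ | ⟨hvN, hv'⟩
        · exact Or.inl (memInv v hvN hv')
        · exact Or.inr (hmemys.2 ⟨hv', hvN⟩)
      · rcases hU v hv with ⟨hvN, hv'⟩ | ⟨hvN, hv'⟩
        · exact hinv q1 hq1 hq1d' u huys w (Or.inr (hmemys.2 ⟨hw', hwN⟩)) v (memInv v hvN hv')
            (Ne.symm hwv) (hs.inv q1 u v w hA)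
        · exact hreq.ind q1 hq1 (hq1e.trans hec) u hu' v hv' w hw' huv hwv hA
  obtain ⟨e, he, he1, he2⟩ := amalgam hβ hc hc' hNc hαβ hαN hαc hαc' hc'N
    (fun M hM hMN => hS (Finset.mem_filter.2 ⟨hM, hMN⟩))
    (fun b hb hbN => hB (Finset.mem_filter.2 ⟨hb, hbN⟩)) hmax he0 hec hec' hs hsep' hind'
  exact ⟨c', hc'D, hc', hc'N, e, he, he1, he2⟩

end RowG11

/-- Row G12. -/
theorem gen_main (β : WithTop Om) (hβ : ∀ b : Om, β = b → IsBig b) (D : Set Cond) :
    CL (fun N => (∀ b : Om, β = b → b ∈ N) → Gen nm β D N) := by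
  induction β using WellFoundedLT.induction generalizing D with
  | ind β ih =>
    have h : CL (Nice nm β D) := CL_nice fun α hα hαβ D' =>
      (ih (α : WithTop Om) hαβ (fun b hb => by
        obtain rfl := WithTop.coe_injective hb
        exact hα) D').mono fun N _ hN hαN => hN fun b hb => by
        obtain rfl := WithTop.coe_injective hb
        exact hαN
    exact h.mono fun N _ hN hβN => nice_gen hβ hN hβN

end Pool.ST
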