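import Pool.Agent.Lib.ST.NFree
import Pool.Agent.Lib.MP_ad72f3_pc.Pat

/-!
# ST: countable transitive models of the universe 1 are isomorphic to models of the universe 0
(rows T1-T4)
-/

set_option autoImplicit false

open Set Cardinal

namespace Pool.ST

open Pool.MP_3ade05_lc (Fml)

section RowT1


open Pool.NU Pool.ST

/-- Row T1.  The collapse: `π x = {π y | y ∈ x ∩ V}` (well-founded recursion on `∈`; the index type
`{y // y ∈ x ∧ y ∈ V}` is countable, hence small). -/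
theorem exists_collapse {V : Set ZFSet.{1}} (hc : V.Countable) : ∃ π : ZFSet.{1} → ZFSet.{0},
    ∀ x : ZFSet.{1}, ∀ z : ZFSet.{0}, z ∈ π x ↔ ∃ y ∈ x, y ∈ V ∧ z = π y := by
  have hcV : Countable V := hc
  have hs : ∀ x : ZFSet.{1}, Small.{0} {y : ZFSet.{1} // y ∈ x ∧ y ∈ V} := by
    intro x
    have : Countable {y : ZFSet.{1} // y ∈ x ∧ y ∈ V} := by
      refine Function.Injective.countable (f := fun y : {y : ZFSet.{1} // y ∈ x ∧ y ∈ V} =>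
        (⟨y.1, y.2.2⟩ : V)) ?_
      rintro ⟨y, hy⟩ ⟨y', hy'⟩ h
      simp only [Subtype.mk.injEq] at h
      exact Subtype.ext h
    exact Countable.toSmall _
  let F : ∀ x : ZFSet.{1}, (∀ y : ZFSet.{1}, y ∈ x → ZFSet.{0}) → ZFSet.{0} := fun x rec =>
    @ZFSet.range _ (hs x) (fun y : {y : ZFSet.{1} // y ∈ x ∧ y ∈ V} => rec y.1 y.2.1)
  refine ⟨ZFSet.mem_wf.fix F, ?_⟩
  intro x z
  rw [WellFounded.fix_eq]
  have := hs x
  show z ∈ ZFSet.range (fun y : {y : ZFSet.{1} // y ∈ x ∧ y ∈ V} => ZFSet.mem_wf.fix F y.1) ↔ _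
  rw [ZFSet.mem_range]
  constructor
  · rintro ⟨y, rfl⟩
    exact ⟨y.1, y.2.1, y.2.2, rfl⟩
  · rintro ⟨y, h1, h2, rfl⟩
    exact ⟨⟨y, h1, h2⟩, rfl⟩

section

variable {V : Set ZFSet.{1}} (ht : ∀ x ∈ V, ∀ y ∈ x, y ∈ V) {π : ZFSet.{1} → ZFSet.{0}}
  (hπ : ∀ x : ZFSet.{1}, ∀ z : ZFSet.{0}, z ∈ π x ↔ ∃ y ∈ x, y ∈ V ∧ z = π y)

include ht hπ

/-- Row T1. -/
theorem coll_inj : InjOn π V := by
  have key : ∀ x : ZFSet.{1}, x ∈ V → ∀ y ∈ V, π x = π y → x = y := by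
    intro x
    induction x using ZFSet.inductionOn with
    | _ x ih =>
      intro hx y hy hxy
      ext z
      constructor
      · intro hz
        have h1 : π z ∈ π x := (hπ x _).2 ⟨z, hz, ht x hx z hz, rfl⟩
        rw [hxy, hπ] at h1
        obtain ⟨w, hw1, hw2, hw3⟩ := h1
        rw [ih z hz (ht x hx z hz) w hw2 hw3]
        exact hw1
      · intro hz
        have h1 : π z ∈ π y := (hπ y _).2 ⟨z, hz, ht y hy z hz, rfl⟩
        rw [← hxy, hπ] at h1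
        obtain ⟨w, hw1, hw2, hw3⟩ := h1
        rw [← ih w hw1 hw2 z (ht y hy z hz) hw3.symm]
        exact hw1
  intro x hx y hy hxy
  exact key x hx y hy hxy

/-- Row T1. -/
theorem coll_mem {x y : ZFSet.{1}} (hx : x ∈ V) (hy : y ∈ V) : π x ∈ π y ↔ x ∈ y := by
  have _ := hy
  constructor
  · intro h
    obtain ⟨w, hw1, hw2, hw3⟩ := (hπ y _).1 h
    rw [coll_inj ht hπ hx hw2 hw3]
    exact hw1
  · intro h
    exact (hπ y _).2 ⟨x, h, hx, rfl⟩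

omit ht in
/-- Row T1. -/
theorem coll_trans0 : ∀ x ∈ π '' V, ∀ y ∈ x, y ∈ π '' V := by
  rintro _ ⟨x, _, rfl⟩ y hy
  obtain ⟨w, _, hw2, hw3⟩ := (hπ x _).1 hy
  exact ⟨w, hw2, hw3.symm⟩

/-- Row T1. -/
theorem coll_trans : ∀ x ∈ π '' V, ∀ y ∈ x, y ∈ π '' V := by
  have _ := ht
  exact coll_trans0 hπ

end

end RowT1

section RowT2


open Pool.MP_3ade05_lc (Fml)

section

variable {V : Set ZFSet.{1}} (ht : ∀ x ∈ V, ∀ y ∈ x, y ∈ V) {π : ZFSet.{1} → ZFSet.{0}}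
  (hπ : ∀ x : ZFSet.{1}, ∀ z : ZFSet.{0}, z ∈ π x ↔ ∃ y ∈ x, y ∈ V ∧ z = π y)

private lemma T2_cons {n : ℕ} (π : ZFSet.{1} → ZFSet.{0}) (x : ZFSet.{1})
    (v : Fin n → ZFSet.{1}) : (Fin.cons (π x) (fun i => π (v i)) : Fin (n + 1) → ZFSet.{0}) =
      fun i => π ((Fin.cons x v : Fin (n + 1) → ZFSet.{1}) i) := by
  funext i
  refine Fin.cases ?_ (fun j => ?_) i
  · rw [Fin.cons_zero, Fin.cons_zero]
  · rw [Fin.cons_succ, Fin.cons_succ]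

private lemma T2_mem {n : ℕ} {x : ZFSet.{1}} (hx : x ∈ V) {v : Fin n → ZFSet.{1}}
    (hv : ∀ i, v i ∈ V) : ∀ i, (Fin.cons x v : Fin (n + 1) → ZFSet.{1}) i ∈ V := by
  intro i
  refine Fin.cases ?_ (fun j => ?_) i
  · rw [Fin.cons_zero]
    exact hx
  · rw [Fin.cons_succ]
    exact hv j

include ht hπ

/-- Row T2.  Truth is preserved. -/
theorem coll_sat {n : ℕ} (φ : Fml n) (v : Fin n → ZFSet.{1}) (hv : ∀ i, v i ∈ V) :
    Pool.MP_3ade05_lc.Sat (π '' V) φ (fun i => π (v i)) ↔ NU.Sat V φ v := by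
  induction φ with
  | bot => exact Iff.rfl
  | eq i j => exact (coll_inj ht hπ).eq_iff (hv i) (hv j)
  | mem i j => exact coll_mem ht hπ (hv i) (hv j)
  | imp φ ψ ih1 ih2 => exact imp_congr (ih1 v hv) (ih2 v hv)
  | all φ ih =>
    constructor
    · intro h x hx
      refine (ih (Fin.cons x v) (T2_mem hx hv)).1 ?_
      have := h (π x) ⟨x, hx, rfl⟩
      rwa [T2_cons] at this
    · rintro h _ ⟨x, hx, rfl⟩
      rw [T2_cons]
      exact (ih (Fin.cons x v) (T2_mem hx hv)).2 (h x hx)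

private lemma T2_zf (h : NU.ZFCModel V) : Pool.MP_3ade05_lc.ZFModel (π '' V) := by
  have hi : ∀ {x y : ZFSet.{1}}, x ∈ V → y ∈ V → (π x = π y ↔ x = y) := fun hx hy =>
    (coll_inj ht hπ).eq_iff hx hy
  have hm : ∀ {x y : ZFSet.{1}}, x ∈ V → y ∈ V → (π x ∈ π y ↔ x ∈ y) := fun hx hy =>
    coll_mem ht hπ hx hy
  refine ⟨h.nonempty.image π, ?_, ?_, ?_, ?_, ?_, ?_, ?_, ?_⟩
  · rintro _ ⟨x, hx, rfl⟩ _ ⟨y, hy, rfl⟩ hz
    rw [h.extensionality x hx y hy fun z hz' => ?_]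
    have := hz (π z) ⟨z, hz', rfl⟩
    rwa [hm hz' hx, hm hz' hy] at this
  · rintro _ ⟨x, hx, rfl⟩ ⟨_, ⟨y, hy, rfl⟩, hyx⟩
    obtain ⟨y', hy', h1, h2⟩ := h.foundation x hx ⟨y, hy, (hm hy hx).1 hyx⟩
    refine ⟨π y', ⟨y', hy', rfl⟩, (hm hy' hx).2 h1, ?_⟩
    rintro _ ⟨z, hz, rfl⟩ hzy hzx
    exact h2 z hz ((hm hz hy').1 hzy) ((hm hz hx).1 hzx)
  · rintro _ ⟨x, hx, rfl⟩ _ ⟨y, hy, rfl⟩
    obtain ⟨z, hz, h1⟩ := h.pairing x hx y hy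
    refine ⟨π z, ⟨z, hz, rfl⟩, ?_⟩
    rintro _ ⟨w, hw, rfl⟩
    rw [hm hw hz, h1 w hw, hi hw hx, hi hw hy]
  · rintro _ ⟨x, hx, rfl⟩
    obtain ⟨u, hu, h1⟩ := h.union x hx
    refine ⟨π u, ⟨u, hu, rfl⟩, ?_⟩
    rintro _ ⟨z, hz, rfl⟩
    rw [hm hz hu, h1 z hz]
    constructor
    · rintro ⟨y, hy, hyx, hzy⟩
      exact ⟨π y, ⟨y, hy, rfl⟩, (hm hy hx).2 hyx, (hm hz hy).2 hzy⟩
    · rintro ⟨_, ⟨y, hy, rfl⟩, hyx, hzy⟩
      exact ⟨y, hy, (hm hy hx).1 hyx, (hm hz hy).1 hzy⟩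
  · rintro _ ⟨x, hx, rfl⟩
    obtain ⟨p, hp, h1⟩ := h.power x hx
    refine ⟨π p, ⟨p, hp, rfl⟩, ?_⟩
    rintro _ ⟨z, hz, rfl⟩
    rw [hm hz hp, h1 z hz]
    constructor
    · rintro h2 _ ⟨w, hw, rfl⟩ hwz
      exact (hm hw hx).2 (h2 w hw ((hm hw hz).1 hwz))
    · intro h2 w hw hwz
      exact (hm hw hx).1 (h2 (π w) ⟨w, hw, rfl⟩ ((hm hw hz).2 hwz))
  · obtain ⟨x, hx, ⟨e, he, hex, he0⟩, h1⟩ := h.infinity
    refine ⟨π x, ⟨x, hx, rfl⟩, ⟨π e, ⟨e, he, rfl⟩, (hm he hx).2 hex, ?_⟩, ?_⟩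
    · rintro _ ⟨z, hz, rfl⟩ hze
      exact he0 z hz ((hm hz he).1 hze)
    · rintro _ ⟨y, hy, rfl⟩ hyx
      obtain ⟨z, hz, hzx, h2⟩ := h1 y hy ((hm hy hx).1 hyx)
      refine ⟨π z, ⟨z, hz, rfl⟩, (hm hz hx).2 hzx, ?_⟩
      rintro _ ⟨w, hw, rfl⟩
      rw [hm hw hz, h2 w hw, hm hw hy, hi hw hy]
  · rintro n φ v hv _ ⟨a, ha, rfl⟩
    choose v' hv' e using hv
    obtain rfl : v = fun i => π (v' i) := funext fun i => (e i).symm
    obtain ⟨b, hb, h1⟩ := h.separation n φ v' hv' a ha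
    refine ⟨π b, ⟨b, hb, rfl⟩, ?_⟩
    rintro _ ⟨x, hx, rfl⟩
    rw [hm hx hb, h1 x hx, hm hx ha, T2_cons, coll_sat ht hπ φ _ (T2_mem hx hv')]
  · rintro n φ v hv _ ⟨a, ha, rfl⟩ huniq
    choose v' hv' e using hv
    obtain rfl : v = fun i => π (v' i) := funext fun i => (e i).symm
    have key : ∀ x ∈ V, ∀ y ∈ V,
        (Pool.MP_3ade05_lc.Sat (π '' V) φ (Fin.cons (π x) (Fin.cons (π y) fun i => π (v' i))) ↔
          NU.Sat V φ (Fin.cons x (Fin.cons y v'))) := by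
      intro x hx y hy
      rw [T2_cons, T2_cons]
      exact coll_sat ht hπ φ _ (T2_mem hx (T2_mem hy hv'))
    obtain ⟨b, hb, h1⟩ := h.replacement n φ v' hv' a ha (by
      intro x hx hxa
      obtain ⟨_, ⟨⟨y, hy, rfl⟩, h2⟩, h3⟩ := huniq (π x) ⟨x, hx, rfl⟩ ((hm hx ha).2 hxa)
      refine ⟨y, ⟨hy, (key x hx y hy).1 h2⟩, ?_⟩
      rintro y' ⟨hy', h4⟩
      exact (hi hy' hy).1 (h3 (π y') ⟨⟨y', hy', rfl⟩, (key x hx y' hy').2 h4⟩))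
    refine ⟨π b, ⟨b, hb, rfl⟩, ?_⟩
    rintro _ ⟨y, hy, rfl⟩
    rw [hm hy hb, h1 y hy]
    constructor
    · rintro ⟨x, hx, hxa, h2⟩
      exact ⟨π x, ⟨x, hx, rfl⟩, (hm hx ha).2 hxa, (key x hx y hy).2 h2⟩
    · rintro ⟨_, ⟨x, hx, rfl⟩, hxa, h2⟩
      exact ⟨x, hx, (hm hx ha).1 hxa, (key x hx y hy).1 h2⟩

/-- Row T2. -/
theorem coll_zfc (h : NU.ZFCModel V) : PC.ZFCModel (π '' V) := by
  have hi : ∀ {x y : ZFSet.{1}}, x ∈ V → y ∈ V → (π x = π y ↔ x = y) := fun hx hy =>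
    (coll_inj ht hπ).eq_iff hx hy
  have hm : ∀ {x y : ZFSet.{1}}, x ∈ V → y ∈ V → (π x ∈ π y ↔ x ∈ y) := fun hx hy =>
    coll_mem ht hπ hx hy
  refine ⟨T2_zf ht hπ h, ?_⟩
  rintro _ ⟨x, hx, rfl⟩ h1 h2
  obtain ⟨c, hc, h3⟩ := h.choice x hx (by
    intro y hy hyx
    obtain ⟨_, ⟨z, hz, rfl⟩, hzy⟩ := h1 (π y) ⟨y, hy, rfl⟩ ((hm hy hx).2 hyx)
    exact ⟨z, hz, (hm hz hy).1 hzy⟩) (by
    rintro y hy y' hy' hyx hyx' hne z hz ⟨hzy, hzy'⟩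
    exact h2 (π y) ⟨y, hy, rfl⟩ (π y') ⟨y', hy', rfl⟩ ((hm hy hx).2 hyx) ((hm hy' hx).2 hyx')
      (fun h => hne ((hi hy hy').1 h)) (π z) ⟨z, hz, rfl⟩ ⟨(hm hz hy).2 hzy, (hm hz hy').2 hzy'⟩)
  refine ⟨π c, ⟨c, hc, rfl⟩, ?_⟩
  rintro _ ⟨y, hy, rfl⟩ hyx
  obtain ⟨z, ⟨hz, hzy, hzc⟩, h4⟩ := h3 y hy ((hm hy hx).1 hyx)
  refine ⟨π z, ⟨⟨z, hz, rfl⟩, (hm hz hy).2 hzy, (hm hz hc).2 hzc⟩, ?_⟩
  rintro _ ⟨⟨z', hz', rfl⟩, hzy', hzc'⟩
  rw [h4 z' ⟨hz', (hm hz' hy).1 hzy', (hm hz' hc).1 hzc'⟩]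

end

end RowT2

section RowT3


section

variable {V : Set ZFSet.{1}} (ht : ∀ x ∈ V, ∀ y ∈ x, y ∈ V) {π : ZFSet.{1} → ZFSet.{0}}
  (hπ : ∀ x : ZFSet.{1}, ∀ z : ZFSet.{0}, z ∈ π x ↔ ∃ y ∈ x, y ∈ V ∧ z = π y)

include ht in
private lemma T3_upair (h : NU.ZFCModel V) {x y : ZFSet.{1}} (hx : x ∈ V) (hy : y ∈ V) :
    ({x, y} : ZFSet.{1}) ∈ V := by
  obtain ⟨z, hz, h1⟩ := h.pairing x hx y hy
  have : z = {x, y} := by
    ext w
    rw [ZFSet.mem_pair]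
    constructor
    · intro hw
      exact (h1 w (ht z hz w hw)).1 hw
    · rintro (rfl | rfl)
      · exact (h1 _ hx).2 (Or.inl rfl)
      · exact (h1 _ hy).2 (Or.inr rfl)
  exact this ▸ hz

include hπ in
private lemma T3_map_upair {x y : ZFSet.{1}} (hx : x ∈ V) (hy : y ∈ V) :
    π {x, y} = {π x, π y} := by
  ext w
  rw [hπ, ZFSet.mem_pair]
  constructor
  · rintro ⟨z, hz, _, rfl⟩
    rcases ZFSet.mem_pair.1 hz with rfl | rfl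
    · exact Or.inl rfl
    · exact Or.inr rfl
  · rintro (rfl | rfl)
    · exact ⟨x, ZFSet.mem_pair.2 (Or.inl rfl), hx, rfl⟩
    · exact ⟨y, ZFSet.mem_pair.2 (Or.inr rfl), hy, rfl⟩

include ht hπ

/-- Row T3. -/
theorem coll_pair (h : NU.ZFCModel V) {x y : ZFSet.{1}} (hx : x ∈ V) (hy : y ∈ V) :
    ZFSet.pair x y ∈ V ∧ π (ZFSet.pair x y) = ZFSet.pair (π x) (π y) := by
  have hs : ({x} : ZFSet.{1}) ∈ V := by
    have := T3_upair ht h hx hx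
    rwa [ZFSet.pair_eq_singleton] at this
  have hp := T3_upair ht h hx hy
  refine ⟨T3_upair ht h hs hp, ?_⟩
  have e1 : π {x} = {π x} := by
    rw [← ZFSet.pair_eq_singleton x, ← ZFSet.pair_eq_singleton (π x)]
    exact T3_map_upair hπ hx hx
  unfold ZFSet.pair
  rw [T3_map_upair hπ hs hp, e1, T3_map_upair hπ hx hy]

private lemma T3_num : ∀ n : ℕ, (∀ m ≤ n, (NU.num m : ZFSet.{1}) ∈ V) →
    π (NU.num n) = (NU.num n : ZFSet.{0}) := by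
  intro n
  induction n with
  | zero =>
    intro _
    ext z
    rw [hπ]
    constructor
    · rintro ⟨y, hy, _⟩
      exact absurd hy (ZFSet.notMem_empty y)
    · intro hz
      exact absurd hz (ZFSet.notMem_empty z)
  | succ n ih =>
    intro hn
    have h1 := ih fun m hm => hn m (hm.trans n.le_succ)
    change π (insert (NU.num n) (NU.num n)) = insert (NU.num n) (NU.num n)
    ext z
    rw [hπ, ZFSet.mem_insert_iff]
    constructor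
    · rintro ⟨y, hy, hyV, rfl⟩
      rcases ZFSet.mem_insert_iff.1 hy with rfl | hy
      · exact Or.inl h1
      · right
        rw [← h1, hπ]
        exact ⟨y, hy, hyV, rfl⟩
    · rintro (rfl | hz)
      · exact ⟨NU.num n, ZFSet.mem_insert _ _, hn n n.le_succ, h1.symm⟩
      · rw [← h1, hπ] at hz
        obtain ⟨y, hy, hyV, rfl⟩ := hz
        exact ⟨y, ZFSet.mem_insert_iff.2 (Or.inr hy), hyV, rfl⟩

/-- Row T3. -/
theorem coll_omega (h : NU.ZFCModel V) (ho : ZFSet.omega ∈ V) : π ZFSet.omega = ZFSet.omega := by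
  have hn : ∀ n : ℕ, (NU.num n : ZFSet.{1}) ∈ V := fun n =>
    ht _ ho _ (NU.mem_omega_iff.2 ⟨n, rfl⟩)
  ext z
  rw [hπ, NU.mem_omega_iff]
  constructor
  · rintro ⟨y, hy, _, rfl⟩
    obtain ⟨n, rfl⟩ := NU.mem_omega_iff.1 hy
    exact ⟨n, T3_num ht hπ n fun m _ => hn m⟩
  · rintro ⟨n, rfl⟩
    exact ⟨NU.num n, NU.mem_omega_iff.2 ⟨n, rfl⟩, hn n, (T3_num ht hπ n fun m _ => hn m).symm⟩

private lemma T3_funOn (h : NU.ZFCModel V) {f a : ZFSet.{1}} (hf : f ∈ V) (ha : a ∈ V) :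
    PC.FunOn (π f) (π a) ↔ NU.FunOn f a := by
  have hi : ∀ {x y : ZFSet.{1}}, x ∈ V → y ∈ V → (π x = π y ↔ x = y) := fun hx hy =>
    (coll_inj ht hπ).eq_iff hx hy
  have hm : ∀ {x y : ZFSet.{1}}, x ∈ V → y ∈ V → (π x ∈ π y ↔ x ∈ y) := fun hx hy =>
    coll_mem ht hπ hx hy
  have hp : ∀ {x y : ZFSet.{1}}, x ∈ V → y ∈ V → (ZFSet.pair (π x) (π y) ∈ π f ↔
      ZFSet.pair x y ∈ f) := by
    intro x y hx hy
    obtain ⟨h1, h2⟩ := coll_pair ht hπ h hx hy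
    rw [← h2, hm h1 hf]
  -- the components of a pair in `V` are in `V`
  have hfst : ∀ {x y : ZFSet.{1}}, ZFSet.pair x y ∈ V → x ∈ V ∧ y ∈ V := by
    intro x y hxy
    have h1 : ({x, y} : ZFSet.{1}) ∈ V := ht _ hxy _ (by
      unfold ZFSet.pair
      exact ZFSet.mem_pair.2 (Or.inr rfl))
    exact ⟨ht _ h1 _ (ZFSet.mem_pair.2 (Or.inl rfl)), ht _ h1 _ (ZFSet.mem_pair.2 (Or.inr rfl))⟩
  constructor
  · rintro ⟨h1, h2⟩
    refine ⟨fun z hz => ?_, fun x hx => ?_⟩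
    · have hzV := ht _ hf _ hz
      obtain ⟨x', hx', y', e⟩ := h1 (π z) ((hm hzV hf).2 hz)
      obtain ⟨x, hx, hxV, rfl⟩ := (hπ a x').1 hx'
      -- `y'` is in the image
      have hy' : ∃ y ∈ V, y' = π y := by
        have h3 : ({π x, y'} : ZFSet.{0}) ∈ π z := by
          rw [e]
          unfold ZFSet.pair
          exact ZFSet.mem_pair.2 (Or.inr rfl)
        obtain ⟨u, hu, huV, h4⟩ := (hπ z _).1 h3
        have h5 : y' ∈ π u := by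
          rw [← h4]
          exact ZFSet.mem_pair.2 (Or.inr rfl)
        obtain ⟨y, _, hyV, h6⟩ := (hπ u _).1 h5
        exact ⟨y, hyV, h6⟩
      obtain ⟨y, hyV, rfl⟩ := hy'
      obtain ⟨h7, h8⟩ := coll_pair ht hπ h hxV hyV
      rw [← h8, hi hzV h7] at e
      exact ⟨x, hx, y, e⟩
    · have hxV := ht _ ha _ hx
      obtain ⟨y', hy', huniq⟩ := h2 (π x) ((hm hxV ha).2 hx)
      obtain ⟨z, hz, hzV, e⟩ := (hπ f _).1 hy'
      have hy1 : ∃ y ∈ V, y' = π y := by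
        have h3 : ({π x, y'} : ZFSet.{0}) ∈ π z := by
          rw [← e]
          unfold ZFSet.pair
          exact ZFSet.mem_pair.2 (Or.inr rfl)
        obtain ⟨u, hu, huV, h4⟩ := (hπ z _).1 h3
        have h5 : y' ∈ π u := by
          rw [← h4]
          exact ZFSet.mem_pair.2 (Or.inr rfl)
        obtain ⟨y, _, hyV, h6⟩ := (hπ u _).1 h5
        exact ⟨y, hyV, h6⟩
      obtain ⟨y, hyV, rfl⟩ := hy1
      refine ⟨y, (hp hxV hyV).1 hy', fun y2 hy2 => ?_⟩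
      have hy2V := (hfst (ht _ hf _ hy2)).2
      exact (hi hy2V hyV).1 (huniq (π y2) ((hp hxV hy2V).2 hy2))
  · rintro ⟨h1, h2⟩
    refine ⟨fun z' hz' => ?_, fun x' hx' => ?_⟩
    · obtain ⟨z, hz, hzV, rfl⟩ := (hπ f _).1 hz'
      obtain ⟨x, hx, y, rfl⟩ := h1 z hz
      obtain ⟨hxV, hyV⟩ := hfst hzV
      exact ⟨π x, (hm hxV ha).2 hx, π y, (coll_pair ht hπ h hxV hyV).2⟩
    · obtain ⟨x, hx, hxV, rfl⟩ := (hπ a _).1 hx'
      obtain ⟨y, hy, huniq⟩ := h2 x hx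
      have hyV := (hfst (ht _ hf _ hy)).2
      refine ⟨π y, (hp hxV hyV).2 hy, fun y' hy' => ?_⟩
      obtain ⟨z, hz, hzV, e⟩ := (hπ f _).1 hy'
      obtain ⟨x2, hx2, y2, rfl⟩ := h1 z hz
      obtain ⟨hx2V, hy2V⟩ := hfst hzV
      rw [(coll_pair ht hπ h hx2V hy2V).2] at e
      obtain ⟨e1, e2⟩ := ZFSet.pair_injective e
      rw [hi hxV hx2V] at e1
      subst e1
      rw [e2, huniq y2 hz]

/-- Row T3. -/
theorem coll_infCard (h : NU.ZFCModel V) (ho : ZFSet.omega ∈ V) {c : ZFSet.{1}} (hc : c ∈ V) :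
    PC.InfCard (π '' V) (π c) ↔ NU.InfCard V c := by
  have hi : ∀ {x y : ZFSet.{1}}, x ∈ V → y ∈ V → (π x = π y ↔ x = y) := fun hx hy =>
    (coll_inj ht hπ).eq_iff hx hy
  have hm : ∀ {x y : ZFSet.{1}}, x ∈ V → y ∈ V → (π x ∈ π y ↔ x ∈ y) := fun hx hy =>
    coll_mem ht hπ hx hy
  have hp : ∀ {f x y : ZFSet.{1}}, f ∈ V → x ∈ V → y ∈ V → (ZFSet.pair (π x) (π y) ∈ π f ↔
      ZFSet.pair x y ∈ f) := by
    intro f x y hf hx hy
    obtain ⟨h1, h2⟩ := coll_pair ht hπ h hx hy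
    rw [← h2, hm h1 hf]
  constructor
  · intro hC
    refine ⟨hc, ⟨fun y hy z hz => ?_, fun {y z w} hyz hzw hwc => ?_⟩, fun n hn => ?_, ?_⟩
    · have hyV := ht _ hc _ hy
      have hzV := ht _ hyV _ hz
      exact (hm hzV hc).1 (hC.ord.isTransitive (π y) ((hm hyV hc).2 hy) ((hm hzV hyV).2 hz))
    · have hwV := ht _ hc _ hwc
      have hzV := ht _ hwV _ hzw
      have hyV := ht _ hzV _ hyz
      exact (hm hyV hwV).1 (hC.ord.mem_trans' ((hm hyV hzV).2 hyz) ((hm hzV hwV).2 hzw)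
        ((hm hwV hc).2 hwc))
    · have hnV := ht _ ho _ hn
      refine (hm hnV hc).1 (hC.inf ?_)
      rw [← coll_omega ht hπ h ho]
      exact (hm hnV ho).2 hn
    · intro a ha f hf hfa
      have haV := ht _ hc _ ha
      obtain ⟨y', hy', h1⟩ := hC.card (π a) ((hm haV hc).2 ha) (π f) ⟨f, hf, rfl⟩
        ((T3_funOn ht hπ h hf haV).2 hfa)
      obtain ⟨y, hy, hyV, rfl⟩ := (hπ c _).1 hy'
      refine ⟨y, hy, fun x hx hxy => ?_⟩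
      have hxV := ht _ haV _ hx
      exact h1 (π x) ((hm hxV haV).2 hx) ((hp hf hxV hyV).2 hxy)
  · intro hC
    refine ⟨⟨c, hc, rfl⟩, ⟨fun y' hy' z' hz' => ?_, fun {y' z' w'} hyz hzw hwc => ?_⟩,
      fun n hn => ?_, ?_⟩
    · obtain ⟨y, hy, hyV, rfl⟩ := (hπ c _).1 hy'
      obtain ⟨z, hz, hzV, rfl⟩ := (hπ y _).1 hz'
      exact (hm hzV hc).2 (hC.ord.isTransitive y hy hz)
    · obtain ⟨w, hw, hwV, rfl⟩ := (hπ c _).1 hwc
      obtain ⟨z, hz, hzV, rfl⟩ := (hπ w _).1 hzw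
      obtain ⟨y, hy, hyV, rfl⟩ := (hπ z _).1 hyz
      exact (hm hyV hwV).2 (hC.ord.mem_trans' hy hz hw)
    · rw [← coll_omega ht hπ h ho] at hn
      obtain ⟨m, hmo, hmV, rfl⟩ := (hπ _ _).1 hn
      exact (hm hmV hc).2 (hC.inf hmo)
    · rintro a' ha' _ ⟨f, hf, rfl⟩ hfa
      obtain ⟨a, ha, haV, rfl⟩ := (hπ c _).1 ha'
      obtain ⟨y, hy, h1⟩ := hC.card a ha f hf ((T3_funOn ht hπ h hf haV).1 hfa)
      have hyV := ht _ hc _ hy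
      refine ⟨π y, (hm hyV hc).2 hy, fun x' hx' hxy => ?_⟩
      obtain ⟨x, hx, hxV, rfl⟩ := (hπ a _).1 hx'
      exact h1 x hx ((hp hf hxV hyV).1 hxy)

end

end RowT3

section RowT4


section

variable {V : Set ZFSet.{1}} (ht : ∀ x ∈ V, ∀ y ∈ x, y ∈ V) {π : ZFSet.{1} → ZFSet.{0}}
  (hπ : ∀ x : ZFSet.{1}, ∀ z : ZFSet.{0}, z ∈ π x ↔ ∃ y ∈ x, y ∈ V ∧ z = π y)

include ht hπ

/-- Row T4. -/
theorem coll_nextCard (h : NU.ZFCModel V) {c : ZFSet.{1}} (hc : NU.NextCard V ZFSet.omega c) :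
    PC.NextCard (π '' V) ZFSet.omega (π c) := by
  obtain ⟨h1, h2, h3⟩ := hc
  have hcV := h1.mem
  have ho : ZFSet.omega ∈ V := ht _ hcV _ h2
  have hω := coll_omega ht hπ h ho
  refine ⟨(coll_infCard ht hπ h ho hcV).2 h1, ?_, ?_⟩
  · rw [← hω]
    exact (coll_mem ht hπ ho hcV).2 h2
  · intro d' hd' hI
    obtain ⟨d, hd, hdV, rfl⟩ := (hπ c _).1 hd'
    rcases h3 d hd ((coll_infCard ht hπ h ho hdV).1 hI) with h4 | rfl
    · left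
      rw [← hω]
      exact (coll_mem ht hπ hdV ho).2 h4
    · exact Or.inr hω

/-- Row T4. -/
theorem coll_free (h : NU.ZFCModel V) {c : ZFSet.{1}} (hc : c ∈ V) (hf : FreeV V c) :
    FreeV (π '' V) (π c) := by
  have hi : ∀ {x y : ZFSet.{1}}, x ∈ V → y ∈ V → (π x = π y ↔ x = y) := fun hx hy =>
    (coll_inj ht hπ).eq_iff hx hy
  have hm : ∀ {x y : ZFSet.{1}}, x ∈ V → y ∈ V → (π x ∈ π y ↔ x ∈ y) := fun hx hy =>
    coll_mem ht hπ hx hy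
  have hp : ∀ {f x y z : ZFSet.{1}}, f ∈ V → x ∈ V → y ∈ V → z ∈ V →
      (ZFSet.pair (ZFSet.pair (π x) (π y)) (π z) ∈ π f ↔ ZFSet.pair (ZFSet.pair x y) z ∈ f) := by
    intro f x y z hf hx hy hz
    obtain ⟨h1, h2⟩ := coll_pair ht hπ h hx hy
    obtain ⟨h3, h4⟩ := coll_pair ht hπ h h1 hz
    rw [← h2, ← h4, hm h3 hf]
  rintro _ ⟨f, hfV, rfl⟩ hI
  have hI' : InvOp c f := by
    refine ⟨fun x hx y hy => ?_, fun x hx y hy z hz z' hz' h1 h2 => ?_,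
      fun x hx y hy z hz h1 => ?_⟩
    · have hxV := ht _ hc _ hx
      have hyV := ht _ hc _ hy
      obtain ⟨z', hz', h1⟩ := hI.tot (π x) ((hm hxV hc).2 hx) (π y) ((hm hyV hc).2 hy)
      obtain ⟨z, hz, hzV, rfl⟩ := (hπ c _).1 hz'
      exact ⟨z, hz, (hp hfV hxV hyV hzV).1 h1⟩
    · have hxV := ht _ hc _ hx
      have hyV := ht _ hc _ hy
      have hzV := ht _ hc _ hz
      have hzV' := ht _ hc _ hz'
      exact (hi hzV hzV').1 (hI.func (π x) ((hm hxV hc).2 hx) (π y) ((hm hyV hc).2 hy) (π z)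
        ((hm hzV hc).2 hz) (π z') ((hm hzV' hc).2 hz') ((hp hfV hxV hyV hzV).2 h1)
        ((hp hfV hxV hyV hzV').2 h2))
    · have hxV := ht _ hc _ hx
      have hyV := ht _ hc _ hy
      have hzV := ht _ hc _ hz
      exact (hp hfV hxV hzV hyV).1 (hI.inv (π x) ((hm hxV hc).2 hx) (π y) ((hm hyV hc).2 hy) (π z)
        ((hm hzV hc).2 hz) ((hp hfV hxV hyV hzV).2 h1))
  obtain ⟨k, hk, hkc, hcof, hfree⟩ := hf f hfV hI'
  refine ⟨π k, ⟨k, hk, rfl⟩, ?_, ?_, ?_⟩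
  · intro x' hx'
    obtain ⟨x, hx, hxV, rfl⟩ := (hπ k _).1 hx'
    exact (hm hxV hc).2 (hkc hx)
  · intro x' hx'
    obtain ⟨x, hx, hxV, rfl⟩ := (hπ c _).1 hx'
    obtain ⟨y, hy, hxy⟩ := hcof x hx
    have hyV := ht _ hk _ hy
    exact ⟨π y, (hm hyV hk).2 hy, (hm hxV hyV).2 hxy⟩
  · intro x' hx' y' hy' z' hz' hxy hzy h1
    obtain ⟨x, hx, hxV, rfl⟩ := (hπ k _).1 hx'
    obtain ⟨y, hy, hyV, rfl⟩ := (hπ k _).1 hy'
    obtain ⟨z, hz, hzV, rfl⟩ := (hπ k _).1 hz'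
    exact hfree x hx y hy z hz (fun e => hxy (by rw [e])) (fun e => hzy (by rw [e]))
      ((hp hfV hxV hyV hzV).1 h1)

end

end RowT4

/-- The model in the universe 0. -/
theorem exists_model0 : ∃ V : Set ZFSet.{0}, V.Countable ∧ (∀ x ∈ V, ∀ y ∈ x, y ∈ V) ∧
    PC.ZFCModel V ∧ ∃ c, PC.NextCard V ZFSet.omega c ∧ FreeV V c := by
  obtain ⟨V, h1, h2, h3, c, h4, h5⟩ := exists_model1
  obtain ⟨π, hπ⟩ := exists_collapse h1
  exact ⟨π '' V, h1.image _, coll_trans h2 hπ, coll_zfc h2 hπ h3, π c, coll_nextCard h2 hπ h3 h4,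
    coll_free h2 hπ h3 h4.1.mem h5⟩

end Pool.ST
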