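import Pool.Agent.Lib.NU.Defs

/-!
# ST: definitions for the N-side (any universe) and for the final statement
-/

set_option autoImplicit false

namespace Pool.ST

universe u

/-- `f` is (contains) a total involutory operation on `c`: `f(x, f(x, y)) = y`. -/
structure InvOp (c f : ZFSet.{u}) : Prop where
  tot : ∀ x ∈ c, ∀ y ∈ c, ∃ z ∈ c, ZFSet.pair (ZFSet.pair x y) z ∈ f
  func : ∀ x ∈ c, ∀ y ∈ c, ∀ z ∈ c, ∀ z' ∈ c, ZFSet.pair (ZFSet.pair x y) z ∈ f →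
    ZFSet.pair (ZFSet.pair x y) z' ∈ f → z = z'
  inv : ∀ x ∈ c, ∀ y ∈ c, ∀ z ∈ c, ZFSet.pair (ZFSet.pair x y) z ∈ f →
    ZFSet.pair (ZFSet.pair x z) y ∈ f

/-- In `V`, every involutory operation on `c` has a cofinal free set. -/
def FreeV (V : Set ZFSet.{u}) (c : ZFSet.{u}) : Prop :=
  ∀ f ∈ V, InvOp c f → ∃ h ∈ V, h ⊆ c ∧ (∀ x ∈ c, ∃ y ∈ h, x ∈ y) ∧
    ∀ x ∈ h, ∀ y ∈ h, ∀ z ∈ h, x ≠ y → z ≠ y → ZFSet.pair (ZFSet.pair x y) z ∉ f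

/-- In `V` there is a bijection from `a` onto `b`. -/
def EqN (V : Set ZFSet.{u}) (a b : ZFSet.{u}) : Prop :=
  ∃ f ∈ V, NU.FunOn f a ∧ (∀ x ∈ a, ∀ y, ZFSet.pair x y ∈ f → y ∈ b) ∧
    ∀ y ∈ b, ∃! x, x ∈ a ∧ ZFSet.pair x y ∈ f

/-- `m` is the multiplication (a set of ordered pairs ` ((x, y), x * y)`) of a group with the
underlying set `X`. -/
structure IsGrp (X m : ZFSet.{u}) : Prop where
  sub : ∀ t ∈ m, ∃ x ∈ X, ∃ y ∈ X, ∃ z ∈ X, t = ZFSet.pair (ZFSet.pair x y) z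
  fn : ∀ x ∈ X, ∀ y ∈ X, ∃! z, ZFSet.pair (ZFSet.pair x y) z ∈ m
  assoc : ∀ x ∈ X, ∀ y ∈ X, ∀ z ∈ X, ∀ a b c, ZFSet.pair (ZFSet.pair x y) a ∈ m →
    ZFSet.pair (ZFSet.pair y z) b ∈ m → ZFSet.pair (ZFSet.pair a z) c ∈ m →
    ZFSet.pair (ZFSet.pair x b) c ∈ m
  unit : ∃ e ∈ X, (∀ x ∈ X, ZFSet.pair (ZFSet.pair e x) x ∈ m ∧
    ZFSet.pair (ZFSet.pair x e) x ∈ m) ∧ ∀ x ∈ X, ∃ y ∈ X, ZFSet.pair (ZFSet.pair x y) e ∈ m ∧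
      ZFSet.pair (ZFSet.pair y x) e ∈ m

/-- `h` is a good subset of the group ` (X, m)`: for `x, y, z ∈ h` the equation `x⁻¹ y = y⁻¹ z`
(that is, `x a = y` and `y a = z` for some `a ∈ X`) implies `x = z`. -/
def GoodIn (X m h : ZFSet.{u}) : Prop :=
  ∀ x ∈ h, ∀ y ∈ h, ∀ z ∈ h, ∀ a ∈ X, ZFSet.pair (ZFSet.pair x a) y ∈ m →
    ZFSet.pair (ZFSet.pair y a) z ∈ m → x = z

/-- In `V` there is a group of cardinality `c` without good subsets of cardinality `c`. -/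
def StrangeV (V : Set ZFSet.{u}) (c : ZFSet.{u}) : Prop :=
  ∃ X ∈ V, ∃ m ∈ V, IsGrp X m ∧ EqN V c X ∧ ∀ h ∈ V, h ⊆ X → GoodIn X m h → ¬ EqN V c h

/-- In `V` every group of cardinality `c` has a good subset of cardinality `c`. -/
def NoStrangeV (V : Set ZFSet.{u}) (c : ZFSet.{u}) : Prop :=
  ∀ X ∈ V, ∀ m ∈ V, IsGrp X m → EqN V c X → ∃ h ∈ V, h ⊆ X ∧ GoodIn X m h ∧ EqN V c h

end Pool.ST
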