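import Pool.Agent.Lib.ST.NDefs
import Pool.Agent.Lib.ST.Fin
import Pool.Agent.Lib.NU.Nm
import Pool.Agent.Lib.NU.ZFg

/-!
# ST: the generic hull for `PP nmb` (universe 1) satisfies `FreeV` (rows N1-N6)
-/

set_option autoImplicit false
set_option linter.unusedSectionVars false

open Set Cardinal

namespace Pool.ST

open Pool.NU

/-- The forcing notion of the N-side. -/
abbrev PN : Type 2 := ULift.{2} {c : Cond // c ∈ PP nmb}

instance : Preorder PN where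
  le a b := a.down.1 ≤ b.down.1
  le_refl _ := le_rfl
  le_trans _ _ _ h h' := h.trans h'

/-- The element of `PN` given by a legal condition. -/
def toPN (c : Cond) (h : c ∈ PP nmb) : PN := ⟨⟨c, h⟩⟩

/-- `ω₁` in the universe 1. -/
noncomputable def w1' : Ordinal.{1} := Ordinal.lift.{1} w1

section RowN1
set_option linter.unusedSectionVars false

open Pool.NU Pool.ST

/-- Row N1. -/
instance small_PN : Small.{1} PN := by
  have : Small.{1} {c : Cond // c ∈ PP nmb} := small_self _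
  exact small_ulift _

/-- Row N1. -/
theorem lt_w1' {ξ : Ordinal.{1}} : ξ < w1' ↔ ∃ η < w1, ξ = Ordinal.lift.{1} η := by
  unfold w1'
  rw [Ordinal.lt_lift_iff]
  constructor
  · rintro ⟨η, h1, h2⟩
    exact ⟨η, h1, h2.symm⟩
  · rintro ⟨η, h1, h2⟩
    exact ⟨η, h1, h2.symm⟩

/-- Row N1. -/
theorem card_lt_w1' {ξ : Ordinal.{1}} (h : ξ < w1') : ξ.card ≤ ℵ₀ := by
  obtain ⟨η, h1, rfl⟩ := lt_w1'.1 h
  rw [← Ordinal.lift_card]
  have h2 : η.card < ℵ_ 1 := by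
    unfold w1 at h1
    exact Cardinal.lt_ord.1 h1
  rw [← Cardinal.succ_aleph0, Order.lt_succ_iff] at h2
  exact Cardinal.lift_le_aleph0.2 h2

end RowN1



section RowN2
set_option linter.unusedSectionVars false

open Pool.NU Pool.ST

/-- Row N2. In the form needed for `Ev.no_surj`: no surjection from a countable ordinal onto `ω₁`
(from `bound_vals`, with an enumeration of `α` of type `ω`). -/
theorem no_surj_w1 {α : Ordinal.{1}} (hα : α < w1') (p : PN) (R : PN → α.ToType → w1'.ToType → Prop)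
    (hR : ∀ q q' a b, q' ≤ q → R q a b → R q' a b)
    (huniq : ∀ q ≤ p, ∀ a b b', R q a b → R q a b' → b = b') :
    ∃ q ≤ p, ∃ b, ∀ q' ≤ q, ∀ a, ¬ R q' a b := by
  have hc : Countable α.ToType := by
    rw [← Cardinal.mk_le_aleph0_iff, Cardinal.mk_toType]
    exact card_lt_w1' hα
  obtain ⟨e, he⟩ := hc.exists_injective_nat
  have hltm : ∀ {ξ : Om}, ξ < w1 → Ordinal.lift.{1} ξ < w1' := fun {ξ} h => lt_w1'.2 ⟨ξ, h, rfl⟩
  let E : ∀ ξ : Om, ξ < w1 → w1'.ToType := fun ξ h => Ordinal.ToType.mk ⟨Ordinal.lift.{1} ξ, hltm h⟩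
  have hE : ∀ {ξ ξ' : Om} (h : ξ < w1) (h' : ξ' < w1), E ξ h = E ξ' h' → ξ = ξ' := by
    intro ξ ξ' h h' h1
    have h2 := Ordinal.ToType.mk.injective h1
    have h3 : Ordinal.lift.{1} ξ = Ordinal.lift.{1} ξ' := congrArg Subtype.val h2
    exact Ordinal.lift_inj.1 h3
  let G : Cond → ℕ → Om → Prop := fun q n ξ => q ≤ p.down.1 ∧ ∃ (hq : q ∈ PP nmb) (a : α.ToType)
    (hξ : ξ < w1), e a = n ∧ R (toPN q hq) a (E ξ hξ)
  have hmono : ∀ q ∈ PP nmb, ∀ q' ∈ PP nmb, q' ≤ q → ∀ n ξ, G q n ξ → G q' n ξ := by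
    rintro q hq q' hq' hqq n ξ ⟨h1, h2, a, hξ, h3, h4⟩
    exact ⟨hqq.trans h1, hq', a, hξ, h3, hR (toPN q h2) (toPN q' hq') a _ hqq h4⟩
  have hfunc : ∀ q ∈ PP nmb, ∀ n ξ ξ', G q n ξ → G q n ξ' → ξ = ξ' := by
    rintro q hq n ξ ξ' ⟨h1, h2, a, hξ, h3, h4⟩ ⟨h1', h2', a', hξ', h3', h4'⟩
    have h5 : a = a' := he (h3.trans h3'.symm)
    rw [← h5] at h4'
    exact hE hξ hξ' (huniq (toPN q h2) h1 a _ _ h4 h4')
  obtain ⟨r', hr', hle, δ, hδ, hb⟩ := bound_vals hmono hfunc p.down.2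
  refine ⟨toPN r' hr', hle, E δ hδ, ?_⟩
  intro q' hq' a hRa
  have hq1 : q'.down.1 ≤ r' := hq'
  have h1 : G q'.down.1 (e a) δ := ⟨hq1.trans hle, q'.down.2, a, hδ, rfl, hRa⟩
  exact absurd (hb q'.down.1 q'.down.2 hq1 (e a) δ hδ h1) (lt_irrefl _)

end RowN2

section RowN3


open Pool.NU

theorem N3_omega_lt : Ordinal.omega0.{1} < w1' := by
  unfold w1' w1
  rw [← Ordinal.lift_omega0.{1, 0}, Ordinal.lift_lt, ← Cardinal.ord_aleph0, Cardinal.ord_lt_ord,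
    ← Cardinal.aleph_zero, Cardinal.aleph_lt_aleph]
  exact zero_lt_one

/-- Row N3. `w1'` is the first uncountable cardinal of the model (`no_surj_w1` with `Ev.no_surj`;
`Ev.ground_surj` for the countable ordinals). -/
theorem Ev.nextCard_w1 : Ev (P := PN) (fun U H => ordN PN w1' ∈ U ∧
    NextCard (MM U H) ZFSet.omega (Name.val U H (ordN PN w1'))) := by
  refine (((Ev.base (P := PN)).and (Ev.op (P := PN) (n := 0) (fun _ => ordN PN w1'))).and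
    ((Ev.no_surj (P := PN)).and (Ev.ground_surj (P := PN)))).mono ?_
  rintro U H ⟨⟨hB, hop⟩, hns, hgs⟩
  have hw : ordN PN w1' ∈ U := hop Fin.elim0 (fun i => i.elim0)
  refine ⟨hw, ⟨⟨⟨_, mem_univ _, hw, rfl⟩, isOrdinal_val_ordN hB _, ?_, ?_⟩, ?_, ?_⟩⟩
  · rw [← val_ordN_omega hB, val_ordN_subset_iff hB hB.omega hw]
    exact N3_omega_lt.le
  · intro a ha f hf hfa
    obtain ⟨α, hα, hαU, rfl⟩ := (mem_val_ordN hB).1 ha
    obtain ⟨p₀, hp₀⟩ := hB.filt.ne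
    exact hns α w1' hαU hw ⟨p₀, hp₀, fun p _ R hR huniq => no_surj_w1 hα p R hR huniq⟩ f hf hfa
  · rw [← val_ordN_omega hB]
    exact (val_ordN_mem_iff hB hB.omega hw).2 N3_omega_lt
  · intro d hd hcd
    obtain ⟨δ, hδ, hδU, rfl⟩ := (mem_val_ordN hB).1 hd
    rw [← val_ordN_omega hB]
    rcases lt_trichotomy δ Ordinal.omega0 with h | h | h
    · exact Or.inl ((val_ordN_mem_iff hB hδU hB.omega).2 h)
    · exact Or.inr (by rw [h])
    · exfalso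
      have h0 : δ ≠ 0 := (pos_of_gt h).ne'
      obtain ⟨f, hf, hfun, hsurj⟩ := hgs Ordinal.omega0 δ hB.omega hδU h0
        (by rw [Ordinal.card_omega0]; exact card_lt_w1' hδ)
      have hmem : Name.val U H (ordN PN Ordinal.omega0) ∈ Name.val U H (ordN PN δ) :=
        (val_ordN_mem_iff hB hB.omega hδU).2 h
      obtain ⟨y, hy, hno⟩ := hcd.card _ hmem f hf hfun
      obtain ⟨x, hx, hxy⟩ := hsurj y hy
      exact hno x hx hxy

end RowN3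

/-- The relation on conditions given by the name `σ`: below `r`, `q ⊩ ((u, v), w) ∈ σ`. -/
def opR (σ : Name PN) (r : Cond) : Cond → Om → Om → Om → Prop := fun q u v w =>
  q ≤ r ∧ u < w1 ∧ v < w1 ∧ w < w1 ∧ ∃ hq : q ∈ PP nmb, Name.fmem
    (oN (oN (ordN PN (Ordinal.lift.{1} u)) (ordN PN (Ordinal.lift.{1} v)))
      (ordN PN (Ordinal.lift.{1} w))) σ (toPN q hq)

section RowN4
set_option linter.unusedSectionVars false

open Pool.NU

/-- The name of the ordinal `u`. -/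
noncomputable abbrev N4_o (u : Om) : Name PN := ordN PN (Ordinal.lift.{1} u)

/-- The name of the triple. -/
noncomputable abbrev N4_t (u v w : Om) : Name PN := oN (oN (N4_o u) (N4_o v)) (N4_o w)

/-- Row N4. If the value of `σ` is an involutory operation, some element of `H` forces it.
(Genericity, `Ev.gen` with answers, for: two different values; no value; ` ((u,v),w)` forced but no
extension forces ` ((u,w),v)`.) -/
theorem Ev.opName : Ev (P := PN) (fun U H => ∀ σ ∈ U,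
    InvOp (Name.val U H (ordN PN w1')) (Name.val U H σ) →
      ∃ r : PN, r ∈ H ∧ OpName r.down.1 (opR σ r.down.1)) := by
  have g1 := Pool.NU.Ev.gen (P := PN) (n := 1) (fun v q ρ => ∃ a b c d : Om, a < w1 ∧ b < w1 ∧
    c < w1 ∧ d < w1 ∧ c ≠ d ∧ ρ = oN (oN (N4_o a) (N4_o b)) (oN (N4_o c) (N4_o d)) ∧
      Name.fmem (N4_t a b c) (v 0) q ∧ Name.fmem (N4_t a b d) (v 0) q)
  have g2 := Pool.NU.Ev.gen (P := PN) (n := 1) (fun v q ρ => ∃ a b c : Om, a < w1 ∧ b < w1 ∧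
    c < w1 ∧ ρ = N4_t a b c ∧ Name.fmem (N4_t a b c) (v 0) q ∧
      ∀ q' ≤ q, ¬ Name.fmem (N4_t a c b) (v 0) q')
  have g3 := Pool.NU.Ev.gen (P := PN) (n := 1) (fun v q ρ => ∃ a b : Om, a < w1 ∧ b < w1 ∧
    ρ = oN (N4_o a) (N4_o b) ∧ ∀ q' ≤ q, ∀ c < w1, ¬ Name.fmem (N4_t a b c) (v 0) q')
  refine (((Pool.NU.Ev.base (P := PN)).and (Pool.NU.Ev.parts (P := PN))).and
    (g1.and (g2.and g3))).mono fun U H h => ?_
  obtain ⟨⟨hB, hparts⟩, hg1, hg2, hg3⟩ := h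
  intro σ hσ hinv
  have hF := hB.filt
  have hv : ∀ i, (![σ] : Fin 1 → Name PN) i ∈ U := by intro i; fin_cases i; exact hσ
  have hc : ∀ a : Om, a < w1 → N4_o a ∈ U → Name.val U H (N4_o a) ∈
      Name.val U H (ordN PN w1') := fun a ha hU =>
    (mem_val_ordN hB).2 ⟨_, lt_w1'.2 ⟨a, ha, rfl⟩, hU, rfl⟩
  have hval : ∀ a b c : Om, N4_o a ∈ U → N4_o b ∈ U → N4_o c ∈ U →
      (ZFSet.pair (ZFSet.pair (Name.val U H (N4_o a)) (Name.val U H (N4_o b)))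
        (Name.val U H (N4_o c)) ∈ Name.val U H σ ↔ ∃ q ∈ H, Name.fmem (N4_t a b c) σ q) := by
    intro a b c ha hb hc
    rw [← val_oN hB ha hb, ← val_oN hB (oN_mem hB ha hb) hc]
    exact Name.val_mem_iff hB.full.at' (oN_mem hB (oN_mem hB ha hb) hc) hσ
  obtain ⟨p1, hp1, h1⟩ : ∃ p1 ∈ H, ∀ q ≤ p1, ∀ a b c d : Om, a < w1 → b < w1 → c < w1 → d < w1 →
      Name.fmem (N4_t a b c) σ q → Name.fmem (N4_t a b d) σ q → c = d := by
    rcases hg1 ![σ] hv with ⟨q, hq, ρ, hρ, a, b, c, d, ha, hb, hc', hd, hne, rfl, k1, k2⟩ |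
      ⟨p, hp, hn⟩
    · exfalso
      obtain ⟨l1, l2⟩ := hparts _ _ hρ
      obtain ⟨aU, bU⟩ := hparts _ _ l1
      obtain ⟨cU, dU⟩ := hparts _ _ l2
      have e := hinv.func _ (hc a ha aU) _ (hc b hb bU) _ (hc c hc' cU) _ (hc d hd dU)
        ((hval a b c aU bU cU).2 ⟨q, hq, k1⟩) ((hval a b d aU bU dU).2 ⟨q, hq, k2⟩)
      exact hne (Ordinal.lift_inj.1 ((val_ordN_inj hB cU dU).1 e))
    · refine ⟨p, hp, fun q hq a b c d ha hb hc' hd k1 k2 => ?_⟩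
      by_contra hne
      exact hn q hq _ ⟨a, b, c, d, ha, hb, hc', hd, hne, rfl, k1, k2⟩
  obtain ⟨p2, hp2, h2⟩ : ∃ p2 ∈ H, ∀ q ≤ p2, ∀ a b c : Om, a < w1 → b < w1 → c < w1 →
      Name.fmem (N4_t a b c) σ q → Name.fmem (N4_t a c b) σ q := by
    rcases hg2 ![σ] hv with ⟨q, hq, ρ, hρ, a, b, c, ha, hb, hc', rfl, k1, k2⟩ | ⟨p, hp, hn⟩
    · exfalso
      obtain ⟨l1, cU⟩ := hparts _ _ hρ
      obtain ⟨aU, bU⟩ := hparts _ _ l1
      have e := hinv.inv _ (hc a ha aU) _ (hc b hb bU) _ (hc c hc' cU)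
        ((hval a b c aU bU cU).2 ⟨q, hq, k1⟩)
      obtain ⟨p, hp, hf⟩ := (hval a c b aU cU bU).1 e
      obtain ⟨s, hs, s1, s2⟩ := hF.dir q hq p hp
      exact k2 s s1 (Name.fmem_mono hf s2)
    · refine ⟨p, hp, fun q hq a b c ha hb hc' k1 => ?_⟩
      refine Name.fmem_reg fun q1 hq1 => ?_
      by_contra hcon
      push Not at hcon
      exact hn q1 (hq1.trans hq) _ ⟨a, b, c, ha, hb, hc', rfl, Name.fmem_mono k1 hq1, hcon⟩
  obtain ⟨p3, hp3, h3⟩ : ∃ p3 ∈ H, ∀ q ≤ p3, ∀ a b : Om, a < w1 → b < w1 →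
      ∃ q' ≤ q, ∃ c < w1, Name.fmem (N4_t a b c) σ q' := by
    rcases hg3 ![σ] hv with ⟨q, hq, ρ, hρ, a, b, ha, hb, rfl, k⟩ | ⟨p, hp, hn⟩
    · exfalso
      obtain ⟨aU, bU⟩ := hparts _ _ hρ
      obtain ⟨z, hz, e⟩ := hinv.tot _ (hc a ha aU) _ (hc b hb bU)
      obtain ⟨ξ, hξ, ξU, rfl⟩ := (mem_val_ordN hB).1 hz
      obtain ⟨c, hc', rfl⟩ := lt_w1'.1 hξ
      obtain ⟨p, hp, hf⟩ := (hval a b c aU bU ξU).1 e
      obtain ⟨s, hs, s1, s2⟩ := hF.dir q hq p hp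
      exact k s s1 c hc' (Name.fmem_mono hf s2)
    · refine ⟨p, hp, fun q hq a b ha hb => ?_⟩
      by_contra hcon
      push Not at hcon
      exact hn q hq _ ⟨a, b, ha, hb, rfl, hcon⟩
  obtain ⟨r, hr, r1, r2, r3⟩ := hF.dir3 hp1 hp2 hp3
  refine ⟨r, hr, ⟨r.down.2, ?_, ?_, ?_, ?_⟩⟩
  · intro q hq q' hq' hle u v w hF
    obtain ⟨k1, k2, k3, k4, k5, k6⟩ := hF
    exact ⟨hle.trans k1, k2, k3, k4, hq',
      Name.fmem_mono k6 (show toPN q' hq' ≤ toPN q k5 from hle)⟩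
  · intro q hq u v w w' hF hF'
    obtain ⟨k1, k2, k3, k4, k5, k6⟩ := hF
    obtain ⟨-, -, -, l4, l5, l6⟩ := hF'
    exact h1 (toPN q hq) (le_trans (show toPN q hq ≤ r from k1) r1) u v w w' k2 k3 k4 l4 k6 l6
  · intro q hq hqr u v w hF
    obtain ⟨k1, k2, k3, k4, k5, k6⟩ := hF
    exact ⟨hqr, k2, k4, k3, hq,
      h2 (toPN q hq) (le_trans (show toPN q hq ≤ r from k1) r2) u v w k2 k3 k4 k6⟩
  · intro q hq hqr u hu v hv'
    obtain ⟨q', hle, c, hc', hf⟩ := h3 (toPN q hq) (le_trans (show toPN q hq ≤ r from hqr) r3)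
      u v hu hv'
    exact ⟨q'.down.1, q'.down.2, hle, c, hc', le_trans (show q'.down.1 ≤ q from hle) hqr, hu, hv',
      hc', q'.down.2, hf⟩

end RowN4

/-- The generic set at the stage `β`. -/
noncomputable def hN (β : Om) : Name PN := Name.mk (ULift.{1} (w1'.ToType))
  (fun i => ordN PN (Ordinal.ToType.toOrd i.down).1)
  (fun i => ⟨{q | ∃ x ∈ q.down.1.p β, (Ordinal.ToType.toOrd i.down).1 = Ordinal.lift.{1} x},
    fun _ _ hba h => by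
      obtain ⟨x, hx, e⟩ := h
      exact ⟨x, hba.2.2 β hx, e⟩⟩)

section RowN5
set_option linter.unusedSectionVars false

open Pool.NU

lemma N5_op {σ : Name PN} {r s : Cond} (h : OpName r (opR σ r)) (hs : s ∈ PP nmb) (hsr : s ≤ r) :
    OpName s (opR σ s) where
  mem := hs
  mono q hq q' hq' hle u v w hF := by
    obtain ⟨h1, h2, h3, h4, h5, h6⟩ := hF
    exact ⟨hle.trans h1, h2, h3, h4, hq', Name.fmem_mono h6 (show toPN q' hq' ≤ toPN q h5 from hle)⟩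
  func q hq u v w w' hF hF' := by
    obtain ⟨h1, h2⟩ := hF
    obtain ⟨h1', h2'⟩ := hF'
    exact h.func q hq u v w w' ⟨h1.trans hsr, h2⟩ ⟨h1'.trans hsr, h2'⟩
  inv q hq hqs u v w hF := by
    obtain ⟨h1, h2⟩ := hF
    exact ⟨hqs, (h.inv q hq (hqs.trans hsr) u v w ⟨h1.trans hsr, h2⟩).2⟩
  tot q hq hqs u hu v hv := by
    obtain ⟨q', hq', hle, w, hw, h1, h2⟩ := h.tot q hq (hqs.trans hsr) u hu v hv
    exact ⟨q', hq', hle, w, hw, hle.trans hqs, h2⟩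

/-- Row N5. Genericity for the conclusion of `exists_free`: for some `β` with `hN β ∈ U` some
`q ∈ H` has the two properties of `r'`. -/
theorem Ev.exists_stage : Ev (P := PN) (fun U H => ∀ σ ∈ U, ∀ r : PN, r ∈ H →
    OpName r.down.1 (opR σ r.down.1) → ∃ β : Om, hN β ∈ U ∧ ∃ q : PN, q ∈ H ∧ q ≤ r ∧
      (∀ q1 ∈ PP nmb, q1 ≤ q.down.1 → ∀ ξ < w1, ∃ q' ∈ PP nmb, q' ≤ q1 ∧ ∃ x ∈ q'.p β, ξ < x) ∧
      ∀ q1 ∈ PP nmb, q1 ≤ q.down.1 → ∀ u ∈ q1.p β, ∀ v ∈ q1.p β, ∀ w ∈ q1.p β, u ≠ v → w ≠ v →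
        ¬ opR σ r.down.1 q1 u v w) := by
  have g := Pool.NU.Ev.gen (P := PN) (n := 1) (fun v q ρ => ∃ β : Om, ρ = hN β ∧
    (∀ q1 ∈ PP nmb, q1 ≤ q.down.1 → ∀ ξ < w1, ∃ q' ∈ PP nmb, q' ≤ q1 ∧ ∃ x ∈ q'.p β, ξ < x) ∧
      ∀ q1, ∀ hq1 : q1 ∈ PP nmb, q1 ≤ q.down.1 → ∀ u ∈ q1.p β, ∀ x ∈ q1.p β, ∀ w ∈ q1.p β,
        u ≠ x → w ≠ x → ¬ Name.fmem (oN (oN (ordN PN (Ordinal.lift.{1} u))
          (ordN PN (Ordinal.lift.{1} x))) (ordN PN (Ordinal.lift.{1} w))) (v 0) (toPN q1 hq1))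
  refine ((Pool.NU.Ev.base (P := PN)).and g).mono fun U H h => ?_
  obtain ⟨hB, hg⟩ := h
  intro σ hσ r hr hop
  have hF := hB.filt
  rcases hg ![σ] (by intro i; fin_cases i; exact hσ) with
    ⟨q, hq, ρ, hρ, β, rfl, h1, h2⟩ | ⟨p, hp, hn⟩
  · obtain ⟨s, hs, hsq, hsr⟩ := hF.dir q hq r hr
    refine ⟨β, hρ, s, hs, hsr, fun q1 hq1 hle => h1 q1 hq1 (le_trans hle hsq), ?_⟩
    intro q1 hq1 hle u hu x hx w hw hux hwx hF
    obtain ⟨-, -, -, -, k1, k2⟩ := hF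
    exact h2 q1 hq1 (le_trans hle hsq) u hu x hx w hw hux hwx k2
  · exfalso
    obtain ⟨s, hs, hsp, hsr⟩ := hF.dir p hp r hr
    obtain ⟨r', hr', hle, β, h1, h2⟩ := exists_free (N5_op hop s.down.2 hsr)
    refine hn (toPN r' hr') (le_trans (show toPN r' hr' ≤ s from hle) hsp) _ ⟨β, rfl, h1, ?_⟩
    intro q1 hq1 hq1r u hu x hx w hw hux hwx hf
    exact h2 q1 hq1 hq1r u hu x hx w hw hux hwx ⟨le_trans hq1r hle, q1.hw β u hu, q1.hw β x hx,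
      q1.hw β w hw, hq1, hf⟩

end RowN5

section RowN6
set_option linter.unusedSectionVars false

open Pool.NU

lemma N6_mem {U : Set (Name PN)} {H : Set PN} {β : Om} {x : ZFSet.{1}}
    (hx : x ∈ Name.val U H (hN β)) : ∃ u < w1, ordN PN (Ordinal.lift.{1} u) ∈ U ∧
      x = Name.val U H (ordN PN (Ordinal.lift.{1} u)) ∧ ∃ q ∈ H, u ∈ q.down.1.p β := by
  obtain ⟨k, hk, ⟨q, hq, y, hy, e⟩, rfl⟩ := Name.mem_val.1 hx
  have hk' : (hN β).A k = ordN PN (Ordinal.lift.{1} y) := by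
    show ordN PN (Ordinal.ToType.toOrd k.down).1 = _
    rw [e]
  rw [hk'] at hk ⊢
  exact ⟨y, q.down.1.hw β y hy, hk, rfl, q, hq, hy⟩

lemma N6_mem' {U : Set (Name PN)} {H : Set PN} {β : Om} {u : Om} (hu : u < w1)
    (hU : ordN PN (Ordinal.lift.{1} u) ∈ U) {q : PN} (hq : q ∈ H) (h : u ∈ q.down.1.p β) :
    Name.val U H (ordN PN (Ordinal.lift.{1} u)) ∈ Name.val U H (hN β) := by
  have h1 : Ordinal.lift.{1} u < w1' := lt_w1'.2 ⟨u, hu, rfl⟩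
  have h2 : (Ordinal.ToType.toOrd (Ordinal.ToType.mk ⟨_, h1⟩ : w1'.ToType)).1 =
      Ordinal.lift.{1} u := by
    simp [Ordinal.ToType.toOrd]
  refine Name.mem_val.2 ⟨⟨Ordinal.ToType.mk ⟨_, h1⟩⟩, ?_, ⟨q, hq, u, h, h2⟩, ?_⟩
  · show ordN PN (Ordinal.ToType.toOrd (Ordinal.ToType.mk ⟨_, h1⟩ : w1'.ToType)).1 ∈ U
    rw [h2]
    exact hU
  · show _ = Name.val U H (ordN PN (Ordinal.ToType.toOrd
      (Ordinal.ToType.mk ⟨_, h1⟩ : w1'.ToType)).1)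
    rw [h2]

/-- Row N6. The hull satisfies `FreeV`. -/
theorem Ev.free : Ev (P := PN) (fun U H => ordN PN w1' ∈ U →
    FreeV (MM U H) (Name.val U H (ordN PN w1'))) := by
  have g1 := Pool.NU.Ev.gen (P := PN) (n := 2) (fun v q ρ => ∃ (β : Om) (ξ x : Om),
    v 0 = hN β ∧ v 1 = ordN PN (Ordinal.lift.{1} ξ) ∧ ρ = ordN PN (Ordinal.lift.{1} x) ∧
      ξ < x ∧ x ∈ q.down.1.p β)
  refine (((Pool.NU.Ev.base (P := PN)).and Ev.opName).and (Ev.exists_stage.and g1)).mono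
    fun U H h => ?_
  obtain ⟨⟨hB, hop⟩, hst, hg1⟩ := h
  intro hw f hf hinv
  obtain ⟨σ, -, hσ, rfl⟩ := hf
  have hF := hB.filt
  obtain ⟨r, hr, hrop⟩ := hop σ hσ hinv
  obtain ⟨β, hβU, q, hq, hqr, hunb, hfree⟩ := hst σ hσ r hr hrop
  refine ⟨Name.val U H (hN β), ⟨hN β, mem_univ _, hβU, rfl⟩, ?_, ?_, ?_⟩
  · intro x hx
    obtain ⟨u, hu, hU, rfl, -⟩ := N6_mem hx
    exact (mem_val_ordN hB).2 ⟨_, lt_w1'.2 ⟨u, hu, rfl⟩, hU, rfl⟩
  · intro x hx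
    obtain ⟨ξ, hξ, hξU, rfl⟩ := (mem_val_ordN hB).1 hx
    obtain ⟨η, hη, rfl⟩ := lt_w1'.1 hξ
    rcases hg1 ![hN β, ordN PN (Ordinal.lift.{1} η)] (by
      intro i; fin_cases i; exacts [hβU, hξU]) with
      ⟨q2, hq2, ρ, hρ, β', ξ', x, e1, e2, rfl, hlt, hx⟩ | ⟨p, hp, hn⟩
    · have e1' : hN β = hN β' := e1
      have e2' : Ordinal.lift.{1} η = Ordinal.lift.{1} ξ' := ordN_injective e2
      have e3 : η = ξ' := Ordinal.lift_inj.1 e2'
      subst e3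
      have hxw : x < w1 := q2.down.1.hw β' x hx
      refine ⟨Name.val U H (ordN PN (Ordinal.lift.{1} x)), ?_, ?_⟩
      · rw [e1']
        exact N6_mem' hxw hρ hq2 hx
      · exact (val_ordN_mem_iff hB hξU hρ).2 (Ordinal.lift_lt.2 hlt)
    · exfalso
      obtain ⟨s, hs, h1, h2⟩ := hF.dir q hq p hp
      obtain ⟨q', hq', hle, x, hx, hlt⟩ := hunb s.down.1 s.down.2 h1 η hη
      exact hn (toPN q' hq') (le_trans (show toPN q' hq' ≤ s from hle) h2) _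
        ⟨β, η, x, rfl, rfl, rfl, hlt, hx⟩
  · intro x hx y hy z hz hxy hzy hmem
    obtain ⟨u, hu, huU, rfl, q1, hq1, hu1⟩ := N6_mem hx
    obtain ⟨v, hv, hvU, rfl, q2, hq2, hv2⟩ := N6_mem hy
    obtain ⟨w, hw', hwU, rfl, q3, hq3, hw3⟩ := N6_mem hz
    rw [← val_oN hB huU hvU, ← val_oN hB (oN_mem hB huU hvU) hwU] at hmem
    obtain ⟨p, hp, hf⟩ := (Name.val_mem_iff hB.full.at' (oN_mem hB (oN_mem hB huU hvU) hwU) hσ).1
      hmem
    obtain ⟨s, hs, s1, s2, s3⟩ := hF.dir3 hq1 hq2 hq3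
    obtain ⟨t, ht, t1, t2, t3⟩ := hF.dir3 hs hp hq
    have a1 : t ≤ q1 := t1.trans s1
    have a2 : t ≤ q2 := t1.trans s2
    have a3 : t ≤ q3 := t1.trans s3
    refine hfree t.down.1 t.down.2 t3 u (a1.2.2 β hu1) v (a2.2.2 β hv2) w (a3.2.2 β hw3)
      (fun h => hxy (by rw [h])) (fun h => hzy (by rw [h])) ?_
    exact ⟨t3.trans hqr, hu, hv, hw', t.down.2, Name.fmem_mono hf t2⟩

end RowN6

/-- The model in the universe 1. -/
theorem exists_model1 : ∃ V : Set ZFSet.{1}, V.Countable ∧ (∀ x ∈ V, ∀ y ∈ x, y ∈ V) ∧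
    NU.ZFCModel V ∧ ∃ c, NU.NextCard V ZFSet.omega c ∧ FreeV V c := by
  have e := (((NU.Ev.zf (P := PN)).and (NU.Ev.choice (P := PN))).and Ev.nextCard_w1).and Ev.free
  obtain ⟨c₀, hc₀, -⟩ := exists_cond
  obtain ⟨U, H, hU, hH, -, ⟨⟨⟨q1, q2⟩, q3, q4⟩, q5⟩⟩ := e.exists_hull (toPN c₀ hc₀)
  exact ⟨MM U H, MM_countable hU, fun x hx y hy => MM_trans hx hy, ⟨q1, q2⟩, _, q4, q5 q3⟩

end Pool.ST
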