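import Pool.Agent.Lib.ST.NDefs
import Pool.Agent.Lib.MP_9fc97b_ut.Cho
import Pool.Agent.Lib.MP_9fc97b_ut.Hv
import Pool.Agent.Lib.MP_9fc97b_ut.Rec
import Pool.Agent.Lib.MP_9fc97b_ut.TB4
import Pool.Agent.Lib.MP_9fc97b_ut.TC1

/-!
# ST: groups in a transitive model (rows E1-E6)

Tools: the type classes `Df`, `DfT` of `Pool.UT` (definability by `inferInstance`), `sep`, `repl`,
`choose_fun`, recursion.
-/

set_option autoImplicit false

open Set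

namespace Pool.ST

open Pool.PC Pool.UT

section RowE1


open Pool.PC Pool.UT

theorem E1_val {X m : ZFSet.{0}} (hG : IsGrp X m) {x y : ZFSet.{0}} (hx : x ∈ X) (hy : y ∈ X) :
    ∃ z ∈ X, ZFSet.pair (ZFSet.pair x y) z ∈ m := by
  obtain ⟨z, hz, -⟩ := hG.fn x hx y hy
  obtain ⟨x', -, y', -, z', hz', e⟩ := hG.sub _ hz
  have := (ZFSet.pair_inj.1 e).2
  exact ⟨z, this ▸ hz', hz⟩

theorem E1_uniq {X m : ZFSet.{0}} (hG : IsGrp X m) {x y z z' : ZFSet.{0}} (hx : x ∈ X) (hy : y ∈ X)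
    (h : ZFSet.pair (ZFSet.pair x y) z ∈ m) (h' : ZFSet.pair (ZFSet.pair x y) z' ∈ m) : z = z' :=
  (hG.fn x hx y hy).unique h h'

theorem E1_back {X m : ZFSet.{0}} (hG : IsGrp X m) {x a b e y : ZFSet.{0}} (hx : x ∈ X)
    (ha : a ∈ X) (hb : b ∈ X) (he : e ∈ X) (h1 : ZFSet.pair (ZFSet.pair x a) y ∈ m)
    (h2 : ZFSet.pair (ZFSet.pair a b) e ∈ m) (h3 : ZFSet.pair (ZFSet.pair x e) x ∈ m) :
    ZFSet.pair (ZFSet.pair y b) x ∈ m := by
  have hyX : y ∈ X := by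
    obtain ⟨z, hz, hz'⟩ := E1_val hG hx ha
    rw [E1_uniq hG hx ha h1 hz']
    exact hz
  obtain ⟨c, hc, hc'⟩ := E1_val hG hyX hb
  have h4 := hG.assoc x hx a ha b hb _ _ _ h1 h2 hc'
  rw [E1_uniq hG hx he h3 h4]
  exact hc'

section
variable {V : Set ZFSet.{0}} (ht : ∀ x ∈ V, ∀ y ∈ x, y ∈ V) (hV : ZFCModel V)
include ht hV

/-- Row E1.  In a group (set) of `V`: cancellation and inverses for the multiplication `m`. -/
theorem grp_cancel {X m : ZFSet.{0}} (hG : IsGrp X m) {x a b y : ZFSet.{0}} (hx : x ∈ X)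
    (ha : a ∈ X) (hb : b ∈ X) (h1 : ZFSet.pair (ZFSet.pair x a) y ∈ m)
    (h2 : ZFSet.pair (ZFSet.pair x b) y ∈ m) : a = b := by
  obtain ⟨e, he, he1, he2⟩ := hG.unit
  obtain ⟨x', hx', -, h3⟩ := he2 x hx
  have hy : y ∈ X := by
    obtain ⟨z, hz, hz'⟩ := E1_val hG hx ha
    rw [E1_uniq hG hx ha h1 hz']
    exact hz
  have h4 := hG.assoc x' hx' x hx a ha _ _ _ h3 h1 (he1 a ha).1
  have h5 := hG.assoc x' hx' x hx b hb _ _ _ h3 h2 (he1 b hb).1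
  exact E1_uniq hG hx' hy h4 h5

/-- Row E1.  If `x a = y` and `y a = z`, there is `b` with `z b = y`, `y b = x`. -/
theorem grp_inv {X m : ZFSet.{0}} (hG : IsGrp X m) {x y z a : ZFSet.{0}} (hx : x ∈ X) (hy : y ∈ X)
    (hz : z ∈ X) (ha : a ∈ X) (h1 : ZFSet.pair (ZFSet.pair x a) y ∈ m)
    (h2 : ZFSet.pair (ZFSet.pair y a) z ∈ m) :
    ∃ b ∈ X, ZFSet.pair (ZFSet.pair z b) y ∈ m ∧ ZFSet.pair (ZFSet.pair y b) x ∈ m := by
  obtain ⟨e, he, he1, he2⟩ := hG.unit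
  obtain ⟨b, hb, h3, -⟩ := he2 a ha
  exact ⟨b, hb, E1_back hG hy ha hb he h2 h3 (he1 y hy).2, E1_back hG hx ha hb he h1 h3 (he1 x hx).2⟩

end

end RowE1

section RowE2


open Pool.PC Pool.UT

section grp

variable {X m : ZFSet.{0}}

lemma re2_cl (hG : IsGrp X m) {x y z : ZFSet.{0}}
    (h : ZFSet.pair (ZFSet.pair x y) z ∈ m) : x ∈ X ∧ y ∈ X ∧ z ∈ X := by
  obtain ⟨x', hx, y', hy, z', hz, e⟩ := hG.sub _ h
  obtain ⟨e1, e2⟩ := ZFSet.pair_injective e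
  obtain ⟨e3, e4⟩ := ZFSet.pair_injective e1
  subst e2 e3 e4
  exact ⟨hx, hy, hz⟩

lemma re2_assoc' (hG : IsGrp X m) {x y z a b c : ZFSet.{0}}
    (h1 : ZFSet.pair (ZFSet.pair x y) a ∈ m) (h2 : ZFSet.pair (ZFSet.pair y z) b ∈ m)
    (h3 : ZFSet.pair (ZFSet.pair x b) c ∈ m) : ZFSet.pair (ZFSet.pair a z) c ∈ m := by
  obtain ⟨hx, hy, ha⟩ := re2_cl hG h1
  obtain ⟨-, hz, hb⟩ := re2_cl hG h2
  obtain ⟨c', hc', -⟩ := hG.fn a ha z hz
  have h4 := hG.assoc x hx y hy z hz a b c' h1 h2 hc'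
  have h5 := (hG.fn x hx b hb).unique h3 h4
  subst h5
  exact hc'

lemma re2_div (hG : IsGrp X m) {x y : ZFSet.{0}} (hx : x ∈ X) (hy : y ∈ X) :
    ∃! a, a ∈ X ∧ ZFSet.pair (ZFSet.pair y a) x ∈ m := by
  obtain ⟨e, he, h1, h2⟩ := hG.unit
  obtain ⟨b, hb, hyb, hby⟩ := h2 y hy
  obtain ⟨a, ha, -⟩ := hG.fn b hb x hx
  have haX := (re2_cl hG ha).2.2
  refine ⟨a, ⟨haX, hG.assoc y hy b hb x hx e a x hyb ha (h1 x hx).1⟩, ?_⟩
  rintro a' ⟨ha', ha''⟩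
  have h3 := hG.assoc b hb y hy a' ha' e x a' hby ha'' (h1 a' ha').1
  exact (hG.fn b hb x hx).unique h3 ha

lemma re2_inv (hG : IsGrp X m) {x y z a : ZFSet.{0}}
    (h1 : ZFSet.pair (ZFSet.pair x a) y ∈ m) (h2 : ZFSet.pair (ZFSet.pair y a) z ∈ m) :
    ∃ b ∈ X, ZFSet.pair (ZFSet.pair z b) y ∈ m ∧ ZFSet.pair (ZFSet.pair y b) x ∈ m := by
  obtain ⟨hx, ha, hy⟩ := re2_cl hG h1
  obtain ⟨e, he, g1, g2⟩ := hG.unit
  obtain ⟨b, hb, hab, hba⟩ := g2 a ha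
  exact ⟨b, hb, re2_assoc' hG h2 hab (g1 y hy).2, re2_assoc' hG h1 hab (g1 x hx).2⟩

end grp

/-- Row E2.  For a bijection `g : c → X` in `V` the operation `f(x, y) = g⁻¹(g x (g y)⁻¹ g x)` is in
`V` and is involutory: `f` is the set of the ` ((x, y), z)`, `x, y, z ∈ c`, such that for some
`a ∈ X`: ` (g y) a = g x` and ` (g x) a = g z`. -/
theorem exists_op {V : Set ZFSet.{0}} (ht : ∀ x ∈ V, ∀ y ∈ x, y ∈ V) (hV : ZFCModel V)
    {X m c g : ZFSet.{0}} (hX : X ∈ V) (hm : m ∈ V) (hc : c ∈ V) (hg : g ∈ V)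
    (hG : IsGrp X m) (hg1 : PC.FunOn g c) (hg2 : ∀ x ∈ c, ∀ y, ZFSet.pair x y ∈ g → y ∈ X)
    (hg3 : ∀ y ∈ X, ∃! x, x ∈ c ∧ ZFSet.pair x y ∈ g) :
    ∃ f ∈ V, InvOp c f ∧ ∀ x ∈ c, ∀ y ∈ c, ∀ z ∈ c, ∀ x' y' z' a, ZFSet.pair x x' ∈ g →
      ZFSet.pair y y' ∈ g → ZFSet.pair z z' ∈ g → a ∈ X →
      ZFSet.pair (ZFSet.pair y' a) x' ∈ m → ZFSet.pair (ZFSet.pair x' a) z' ∈ m →
      ZFSet.pair (ZFSet.pair x y) z ∈ f := by
  have : TZ V := ⟨ht, hV.1⟩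
  have : InE V X := ⟨hX⟩
  have : InE V m := ⟨hm⟩
  have : InE V c := ⟨hc⟩
  have : InE V g := ⟨hg⟩
  let P : ZFSet.{0} → Prop := fun t => ∃ x ∈ c, ∃ y ∈ c, ∃ z ∈ c,
    t = ZFSet.pair (ZFSet.pair x y) z ∧ ∃ a ∈ X, ZFSet.pair (ZFSet.pair (ap g y) a) (ap g x) ∈ m ∧
      ZFSet.pair (ZFSet.pair (ap g x) a) (ap g z) ∈ m
  have hP : Df V (fun v : Fin 1 → ZFSet.{0} => P (v 0)) := by
    show Df V (fun v : Fin 1 → ZFSet.{0} => ∃ x ∈ c, ∃ y ∈ c, ∃ z ∈ c,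
      v 0 = ZFSet.pair (ZFSet.pair x y) z ∧ ∃ a ∈ X,
        ZFSet.pair (ZFSet.pair (ap g y) a) (ap g x) ∈ m ∧
        ZFSet.pair (ZFSet.pair (ap g x) a) (ap g z) ∈ m)
    infer_instance
  have hprd : prd (prd c c) c ∈ V := mem_of (E := V) (prd (prd c c) c)
  have hmem : ∀ x y z, ZFSet.pair (ZFSet.pair x y) z ∈ ZFSet.sep P (prd (prd c c) c) ↔
      x ∈ c ∧ y ∈ c ∧ z ∈ c ∧ ∃ a ∈ X, ZFSet.pair (ZFSet.pair (ap g y) a) (ap g x) ∈ m ∧
      ZFSet.pair (ZFSet.pair (ap g x) a) (ap g z) ∈ m := by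
    intro x y z
    rw [ZFSet.mem_sep, pair_mem_prd, pair_mem_prd]
    constructor
    · rintro ⟨-, x1, hx, y1, hy, z1, hz, e, h⟩
      obtain ⟨e1, e2⟩ := ZFSet.pair_injective e
      obtain ⟨e3, e4⟩ := ZFSet.pair_injective e1
      subst e2 e3 e4
      exact ⟨hx, hy, hz, h⟩
    · rintro ⟨hx, hy, hz, h⟩
      exact ⟨⟨⟨hx, hy⟩, hz⟩, x, hx, y, hy, z, hz, rfl, h⟩
  have hgX : ∀ x ∈ c, ap g x ∈ X := fun x hx => hg2 x hx _ (FunOn.ap_mem hg1 hx)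
  refine ⟨ZFSet.sep P (prd (prd c c) c), sep (E := V) P hprd, ⟨?_, ?_, ?_⟩, ?_⟩
  · intro x hx y hy
    obtain ⟨a, ⟨ha, h1⟩, -⟩ := re2_div hG (hgX x hx) (hgX y hy)
    obtain ⟨z', hz', -⟩ := hG.fn _ (hgX x hx) a ha
    obtain ⟨z, ⟨hz, hzz⟩, -⟩ := hg3 z' (re2_cl hG hz').2.2
    rw [FunOn.ap_eq hg1 hz] at hzz
    exact ⟨z, hz, (hmem x y z).2 ⟨hx, hy, hz, a, ha, h1, by rw [hzz]; exact hz'⟩⟩
  · intro x hx y hy z hz z' hz' h h'
    obtain ⟨-, -, -, a, ha, h1, h2⟩ := (hmem x y z).1 h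
    obtain ⟨-, -, -, a', ha', h1', h2'⟩ := (hmem x y z').1 h'
    have e1 : a = a' := (re2_div hG (hgX x hx) (hgX y hy)).unique ⟨ha, h1⟩ ⟨ha', h1'⟩
    subst e1
    have e2 : ap g z = ap g z' := (hG.fn _ (hgX x hx) a ha).unique h2 h2'
    refine (hg3 _ (hgX z hz)).unique ⟨hz, FunOn.ap_mem hg1 hz⟩ ⟨hz', ?_⟩
    rw [e2]
    exact FunOn.ap_mem hg1 hz'
  · intro x hx y hy z hz h
    obtain ⟨-, -, -, a, ha, h1, h2⟩ := (hmem x y z).1 h
    obtain ⟨b, hb, h3, h4⟩ := re2_inv hG h1 h2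
    exact (hmem x z y).2 ⟨hx, hz, hy, b, hb, h3, h4⟩
  · intro x hx y hy z hz x' y' z' a hxx hyy hzz ha h1 h2
    rw [FunOn.ap_eq hg1 hx] at hxx
    rw [FunOn.ap_eq hg1 hy] at hyy
    rw [FunOn.ap_eq hg1 hz] at hzz
    subst hxx hyy hzz
    exact (hmem x y z).2 ⟨hx, hy, hz, a, ha, h1, h2⟩

end RowE2

section RowE3
set_option linter.unusedSectionVars false

open Pool.PC Pool.UT

/-- The zigzag enumeration of the pairs. -/
def E3_p : ℕ → ℕ × ℕ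
  | 0 => (0, 0)
  | n + 1 => match E3_p n with
    | (0, l) => (l + 1, 0)
    | (k + 1, l) => (k, l + 1)

theorem E3_surj : ∀ s l k : ℕ, k + l = s → ∃ n, E3_p n = (k, l) := by
  intro s
  induction s with
  | zero =>
    intro l k h
    obtain ⟨rfl, rfl⟩ : k = 0 ∧ l = 0 := by omega
    exact ⟨0, rfl⟩
  | succ s ih =>
    intro l
    induction l with
    | zero =>
      intro k h
      obtain ⟨n, hn⟩ := ih s 0 (by omega)
      refine ⟨n + 1, ?_⟩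
      have : E3_p (n + 1) = (s + 1, 0) := by
        simp only [E3_p, hn]
      rw [this]
      congr 1
      omega
    | succ l ihl =>
      intro k h
      obtain ⟨n, hn⟩ := ihl (k + 1) (by omega)
      refine ⟨n + 1, ?_⟩
      simp only [E3_p, hn]

noncomputable def E3_q (n : ℕ) : ZFSet.{0} := ZFSet.pair (num (E3_p n).1) (num (E3_p n).2)

theorem E3_num_inj {m n : ℕ} (h : num m = num n) : m = n := by
  have h1 : m ≤ n := num_sub.1 (by rw [h])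
  have h2 : n ≤ m := num_sub.1 (by rw [h])
  omega

/-- The step relation. -/
def E3_St (a b : ZFSet.{0}) : Prop :=
  ∃ k ∈ ZFSet.omega, ∃ l ∈ ZFSet.omega, a = ZFSet.pair k l ∧
    ((k = ∅ ∧ b = ZFSet.pair (insert l l) ∅) ∨
      ∃ j ∈ ZFSet.omega, k = insert j j ∧ b = ZFSet.pair j (insert l l))

theorem E3_inst {V : Set ZFSet.{0}} [hT : TC V] (hω : ZFSet.omega.{0} ∈ V) (h0 : (∅ : ZFSet.{0}) ∈ V) {n : ℕ}
    {s t : (Fin n → ZFSet.{0}) → ZFSet.{0}} [hs : DfT V s] [ht : DfT V t] :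
    Df V (fun v => E3_St (s v) (t v)) := by
  have : InE V (∅ : ZFSet.{0}) := ⟨h0⟩
  have : InE V ZFSet.omega.{0} := ⟨hω⟩
  have h : Df V (fun v : Fin 2 → ZFSet.{0} => ∃ k ∈ ZFSet.omega, ∃ l ∈ ZFSet.omega,
      v 0 = ZFSet.pair k l ∧ ((k = ∅ ∧ v 1 = ZFSet.pair (insert l l) ∅) ∨
      ∃ j ∈ ZFSet.omega, k = insert j j ∧ v 1 = ZFSet.pair j (insert l l))) := inferInstance
  exact Df.comp2 (P := E3_St) h hs ht

theorem E3_St_q (n : ℕ) : E3_St (E3_q n) (E3_q (n + 1)) := by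
  rcases h : E3_p n with ⟨k, l⟩
  refine ⟨num k, mem_omega.2 ⟨k, rfl⟩, num l, mem_omega.2 ⟨l, rfl⟩, by rw [E3_q, h], ?_⟩
  cases k with
  | zero =>
    left
    refine ⟨rfl, ?_⟩
    rw [E3_q]
    simp only [E3_p, h]
    rfl
  | succ k =>
    right
    refine ⟨num k, mem_omega.2 ⟨k, rfl⟩, rfl, ?_⟩
    rw [E3_q]
    simp only [E3_p, h]
    rfl

theorem E3_St_eq {n : ℕ} {b : ZFSet.{0}} (h : E3_St (E3_q n) b) : b = E3_q (n + 1) := by
  obtain ⟨k, hk, l, hl, e, h1⟩ := h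
  obtain ⟨k, rfl⟩ := mem_omega.1 hk
  obtain ⟨l, rfl⟩ := mem_omega.1 hl
  rw [E3_q] at e
  obtain ⟨e1, e2⟩ := ZFSet.pair_injective e
  have e1' := E3_num_inj e1
  have e2' := E3_num_inj e2
  rcases hp : E3_p n with ⟨k', l'⟩
  rw [hp] at e1' e2'
  simp only at e1' e2'
  subst e1'
  subst e2'
  rcases h1 with ⟨h1, h2⟩ | ⟨j, hj, h1, h2⟩
  · have : k' = 0 := E3_num_inj h1
    subst this
    rw [h2, E3_q]
    simp only [E3_p, hp]
    rfl
  · obtain ⟨j, rfl⟩ := mem_omega.1 hj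
    have : k' = j + 1 := E3_num_inj h1
    subst this
    rw [h2, E3_q]
    simp only [E3_p, hp]
    rfl

/-- The attempts. -/
noncomputable def E3_h : ℕ → ZFSet.{0}
  | 0 => {ZFSet.pair (num 0) (E3_q 0)}
  | n + 1 => insert (ZFSet.pair (num (n + 1)) (E3_q (n + 1))) (E3_h n)

theorem E3_mem_h (n : ℕ) (z : ZFSet.{0}) :
    z ∈ E3_h n ↔ ∃ m ≤ n, z = ZFSet.pair (num m) (E3_q m) := by
  induction n with
  | zero =>
    rw [E3_h, ZFSet.mem_singleton]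
    constructor
    · rintro rfl
      exact ⟨0, le_rfl, rfl⟩
    · rintro ⟨m, hm, rfl⟩
      obtain rfl : m = 0 := by omega
      rfl
  | succ n ih =>
    rw [E3_h, ZFSet.mem_insert_iff, ih]
    constructor
    · rintro (rfl | ⟨m, hm, rfl⟩)
      · exact ⟨n + 1, le_rfl, rfl⟩
      · exact ⟨m, by omega, rfl⟩
    · rintro ⟨m, hm, rfl⟩
      rcases Nat.lt_succ_iff_lt_or_eq.1 (Nat.lt_succ_of_le hm) with h | rfl
      · exact Or.inr ⟨m, by omega, rfl⟩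
      · exact Or.inl rfl

theorem E3_tc {V : Set ZFSet.{0}} (ht : ∀ x ∈ V, ∀ y ∈ x, y ∈ V) (hV : ZFCModel V) : TC V where
  trans := ht
  zf := hV.toZFModel
  choice := hV.choice

/-- `ω × ω` is covered by `ω`. -/
theorem E3_sq {V : Set ZFSet.{0}} [hT : TC V] (hω : ZFSet.omega ∈ V) :
    Pool.UL.Sq V ZFSet.omega := by
  have : InE V ZFSet.omega := ⟨hω⟩
  have hnum : ∀ n : ℕ, num n ∈ V := fun n => hT.trans _ hω _ (mem_omega.2 ⟨n, rfl⟩)
  have : InE V (∅ : ZFSet.{0}) := ⟨hnum 0⟩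
  have hq : ∀ n, E3_q n ∈ V := fun n => pair_mem (hnum _) (hnum _)
  have hh : ∀ n, E3_h n ∈ V := by
    intro n
    induction n with
    | zero => exact sing_mem (pair_mem (hnum 0) (hq 0))
    | succ n ih => exact insert_mem (pair_mem (hnum _) (hq _)) ih
  set W : ZFSet.{0} := prd ZFSet.omega ZFSet.omega with hW
  have : InE V W := ⟨mem_of (E := V) (prd ZFSet.omega ZFSet.omega)⟩
  have hqW : ∀ n, E3_q n ∈ W := fun n =>
    pair_mem_prd.2 ⟨mem_omega.2 ⟨_, rfl⟩, mem_omega.2 ⟨_, rfl⟩⟩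
  have hSt : ∀ (n : ℕ) (s t : (Fin n → ZFSet.{0}) → ZFSet.{0}) [DfT V s] [DfT V t],
    Df V (fun v => E3_St (s v) (t v)) := fun n s t _ _ => E3_inst hω (hnum 0)
  let P : ZFSet.{0} → Prop := fun z => ∃ h ∈ V, ∃ n ∈ ZFSet.omega, ∃ y ∈ W,
    z = ZFSet.pair n y ∧ FunOn h (insert n n) ∧ ZFSet.pair ∅ (ZFSet.pair ∅ ∅) ∈ h ∧
    ZFSet.pair n y ∈ h ∧ ∀ m ∈ n, ∃ a ∈ W, ∃ b ∈ W, ZFSet.pair m a ∈ h ∧
      ZFSet.pair (insert m m) b ∈ h ∧ E3_St a b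
  have hP : Df V (fun v : Fin 1 → ZFSet.{0} => P (v 0)) := by
    have : Df V (fun v : Fin 1 → ZFSet.{0} => ∃ h ∈ V, ∃ n ∈ ZFSet.omega, ∃ y ∈ W,
      v 0 = ZFSet.pair n y ∧ FunOn h (insert n n) ∧ ZFSet.pair ∅ (ZFSet.pair ∅ ∅) ∈ h ∧
      ZFSet.pair n y ∈ h ∧ ∀ m ∈ n, ∃ a ∈ W, ∃ b ∈ W, ZFSet.pair m a ∈ h ∧
        ZFSet.pair (insert m m) b ∈ h ∧ E3_St a b) := inferInstance
    exact this
  have hf : ZFSet.sep P (prd ZFSet.omega W) ∈ V := sep (E := V) P (mem_of (E := V) _)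
  have key : ∀ n y, ZFSet.pair (num n) y ∈ ZFSet.sep P (prd ZFSet.omega W) ↔ y = E3_q n := by
    intro n y
    rw [ZFSet.mem_sep, pair_mem_prd]
    constructor
    · rintro ⟨-, h, hhV, n', -, y', -, e, hfun, h0, hny, hst⟩
      obtain ⟨rfl, rfl⟩ := ZFSet.pair_injective e
      have ind : ∀ m ≤ n, ∀ y, ZFSet.pair (num m) y ∈ h → y = E3_q m := by
        intro m
        induction m with
        | zero =>
          intro hm y hy
          exact (hfun.2 (num 0) (TC1_mem_num (n := n + 1).2 ⟨0, by omega, rfl⟩)).unique hy h0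
        | succ m ih =>
          intro hm y hy
          obtain ⟨a, ha, b, hb, h1, h2, h3⟩ := hst (num m) (num_mem.2 (by omega))
          have h4 : a = E3_q m := ih (by omega) a h1
          subst h4
          have h5 : b = E3_q (m + 1) := E3_St_eq h3
          subst h5
          exact (hfun.2 (num (m + 1)) (TC1_mem_num (n := n + 1).2 ⟨m + 1, by omega, rfl⟩)).unique
            hy h2
      exact ind n le_rfl y hny
    · rintro rfl
      refine ⟨⟨mem_omega.2 ⟨n, rfl⟩, hqW n⟩, E3_h n, hh n, num n, mem_omega.2 ⟨n, rfl⟩, E3_q n,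
        hqW n, rfl, ⟨?_, ?_⟩, (E3_mem_h n _).2 ⟨0, by omega, rfl⟩,
        (E3_mem_h n _).2 ⟨n, le_rfl, rfl⟩, ?_⟩
      · intro z hz
        obtain ⟨m, hm, rfl⟩ := (E3_mem_h n z).1 hz
        exact ⟨num m, TC1_mem_num (n := n + 1).2 ⟨m, by omega, rfl⟩, _, rfl⟩
      · intro x hx
        obtain ⟨m, hm, rfl⟩ := TC1_mem_num (n := n + 1).1 hx
        refine ⟨E3_q m, (E3_mem_h n _).2 ⟨m, by omega, rfl⟩, fun y hy => ?_⟩
        obtain ⟨m', hm', e⟩ := (E3_mem_h n _).1 hy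
        obtain ⟨e1, e2⟩ := ZFSet.pair_injective e
        rw [E3_num_inj e1, e2]
      · intro x hx
        obtain ⟨m, hm, rfl⟩ := TC1_mem_num.1 hx
        exact ⟨E3_q m, hqW m, E3_q (m + 1), hqW _, (E3_mem_h n _).2 ⟨m, by omega, rfl⟩,
          (E3_mem_h n _).2 ⟨m + 1, by omega, rfl⟩, E3_St_q m⟩
  refine ⟨_, hf, ⟨?_, ?_⟩, ?_⟩
  · intro z hz
    obtain ⟨n, hn, y, -, rfl⟩ := mem_prd.1 (ZFSet.mem_sep.1 hz).1
    exact ⟨n, hn, y, rfl⟩
  · intro x hx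
    obtain ⟨n, rfl⟩ := mem_omega.1 hx
    exact ⟨E3_q n, (key n _).2 rfl, fun y hy => (key n y).1 hy⟩
  · intro y hy z hz
    obtain ⟨k, rfl⟩ := mem_omega.1 hy
    obtain ⟨l, rfl⟩ := mem_omega.1 hz
    obtain ⟨n, hn⟩ := E3_surj (k + l) l k rfl
    refine ⟨num n, mem_omega.2 ⟨n, rfl⟩, (key n _).2 ?_⟩
    rw [E3_q, hn]

/-- Every element of `ω₁` is countable. -/
theorem E3_ctb {V : Set ZFSet.{0}} [hT : TC V] {c : ZFSet.{0}}
    (hc : NextCard V ZFSet.omega c) : ∀ d ∈ c, Pool.UL.Cov V ZFSet.omega d := by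
  have hω : ZFSet.omega ∈ V := hT.trans _ hc.1.mem _ hc.2.1
  have hωo : ZFSet.IsOrdinal ZFSet.omega.{0} := hc.1.ord.mem hc.2.1
  intro d
  induction d using ZFSet.inductionOn with
  | _ d ih =>
    intro hd
    have hdV : d ∈ V := hT.trans _ hc.1.mem _ hd
    have hdo : d.IsOrdinal := hc.1.ord.mem hd
    rcases hdo.mem_trichotomous hωo with h | h | h
    · exact cov_id hω (hωo.subset_of_mem h)
    · exact cov_id hω (by rw [h])
    · have hsub := hdo.subset_of_mem h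
      have hn : ¬ ∀ a ∈ d, ∀ f ∈ V, FunOn f a → ∃ y ∈ d, ∀ x ∈ a, ZFSet.pair x y ∉ f := by
        intro hcard
        rcases hc.2.2 d hd ⟨hdV, hdo, hsub, hcard⟩ with h1 | h1
        · exact ZFSet.mem_irrefl _ (hsub h1)
        · exact ZFSet.mem_irrefl _ (h1 ▸ h)
      push Not at hn
      obtain ⟨a, ha, f, hf, hfa, hall⟩ := hn
      have hac : a ∈ c := hc.1.ord.mem_trans ha hd
      exact cov_trans hω ⟨f, hf, hfa, hall⟩ (ih a ha hac)

section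
variable {V : Set ZFSet.{0}} (ht : ∀ x ∈ V, ∀ y ∈ x, y ∈ V) (hV : ZFCModel V)
include ht hV

/-- Row E3.  `ω₁` of `V` is regular in `V`: for `s ∈ V` a function from `ω` to `c` the values are
bounded in `c`. -/
theorem w1_regular {c : ZFSet.{0}} (hc : NextCard V ZFSet.omega c) {s : ZFSet.{0}} (hs : s ∈ V)
    (hs1 : PC.FunOn s ZFSet.omega) (hs2 : ∀ n ∈ ZFSet.omega, ∀ y, ZFSet.pair n y ∈ s → y ∈ c) :
    ∃ d ∈ c, ∀ n ∈ ZFSet.omega, ∀ y, ZFSet.pair n y ∈ s → y ∈ d := by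
  have hT : TC V := E3_tc ht hV
  have hω : ZFSet.omega ∈ V := hT.trans _ hc.1.mem _ hc.2.1
  have : InE V ZFSet.omega := ⟨hω⟩
  have : InE V s := ⟨hs⟩
  by_contra hcon
  push Not at hcon
  have hap : ∀ n ∈ ZFSet.omega, ap s n ∈ c := fun n hn => hs2 n hn _ (FunOn.ap_mem hs1 hn)
  have hsq := E3_sq (V := V) hω
  have h2 : ∃ x ∈ ZFSet.omega, ∃ y ∈ ZFSet.omega, x ≠ y :=
    ⟨num 0, mem_omega.2 ⟨0, rfl⟩, num 1, mem_omega.2 ⟨1, rfl⟩, fun h => by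
      have := E3_num_inj h
      omega⟩
  have hcov : Pool.UL.Cov V ZFSet.omega c := by
    refine cov_union (E := V) hω hsq (fun i => insert (ap s i) (ap s i)) (hC := inferInstance)
      ?_ ?_
    · intro i hi
      have h3 := E3_ctb hc _ (hap i hi)
      have hE : ap s i ∈ V := hT.trans _ hc.1.mem _ (hap i hi)
      have : InE V (ap s i) := ⟨hE⟩
      have h4 : Pool.UL.Cov V ZFSet.omega {ap s i} := by
        refine ⟨mkF (fun _ => ap s i) ZFSet.omega, mem_of (E := V) (mkF (fun _ => ap s i) ZFSet.omega),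
          FunOn_mkF _ _, fun y hy => ⟨num 0, mem_omega.2 ⟨0, rfl⟩, pair_mem_mkF.2
            ⟨mem_omega.2 ⟨0, rfl⟩, ZFSet.mem_singleton.1 hy⟩⟩⟩
      refine cov_sub (Pool.UL.Cov.union hω hsq h2 h4 h3) ?_
      intro x hx
      rcases ZFSet.mem_insert_iff.1 hx with h5 | h5
      · exact ZFSet.mem_union.2 (Or.inl (ZFSet.mem_singleton.2 h5))
      · exact ZFSet.mem_union.2 (Or.inr h5)
    · intro y hy
      obtain ⟨n, hn, z, hz, hzy⟩ := hcon y hy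
      refine ⟨n, hn, ?_⟩
      have e : ap s n = z := (FunOn.ap_eq hs1 hn).1 hz
      rw [e, ZFSet.mem_insert_iff]
      rcases (hc.1.ord.mem hy).mem_trichotomous (hc.1.ord.mem (hs2 n hn z hz)) with h5 | h5 | h5
      · exact Or.inr h5
      · exact Or.inl h5
      · exact absurd h5 hzy
  obtain ⟨f, hf, hf1, hf2⟩ := hcov
  obtain ⟨y, hy, hy2⟩ := hc.1.card _ hc.2.1 f hf hf1
  obtain ⟨x, hx, hxy⟩ := hf2 y hy
  exact hy2 x hx hxy

end

end RowE3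

section RowE4


open Pool.PC Pool.UT Pool.UL

section
variable {V : Set ZFSet.{0}}

/-- All elements of `ω₁` of `V` are countable in `V`. -/
lemma cov_of_mem [hT : TC V] {c : ZFSet.{0}} (hc : NextCard V ZFSet.omega c) (d : ZFSet.{0}) :
    d ∈ c → Cov V ZFSet.omega d := by
  have hw : ZFSet.omega ∈ V := hT.trans c hc.1.mem _ hc.2.1
  have hwo : ZFSet.omega.IsOrdinal := hc.1.ord.mem hc.2.1
  induction d using ZFSet.inductionOn with
  | h d ih =>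
    intro hd
    by_contra hcov
    have hdo : d.IsOrdinal := hc.1.ord.mem hd
    have h1 : ¬ d ⊆ ZFSet.omega := fun h => hcov (cov_id hw h)
    have h2 : InfCard V d := by
      refine ⟨hT.trans c hc.1.mem d hd, hdo, ?_, ?_⟩
      · rcases hdo.mem_trichotomous hwo with h | h | h
        · exact absurd (hwo.subset_of_mem h) h1
        · exact absurd (h ▸ fun _ hx => hx) h1
        · exact hdo.subset_of_mem h
      · intro a ha f hf hfa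
        by_contra h
        push Not at h
        exact hcov (cov_trans hw ⟨f, hf, hfa, h⟩ (ih a ha (hc.1.ord.mem_trans ha hd)))
    rcases hc.2.2 d hd h2 with h | h
    · exact h1 (hwo.subset_of_mem h)
    · exact h1 (h ▸ fun _ hx => hx)

/-- The collapse of `h`. -/
noncomputable def pi (h : ZFSet.{0}) : ZFSet.{0} → ZFSet.{0} := recur (fun k => im k h)

lemma mem_pi {h y w : ZFSet.{0}} : w ∈ pi h y ↔ ∃ z ∈ h, z ∈ y ∧ w = pi h z := by
  rw [pi, recur_eq, mem_im]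
  constructor
  · rintro ⟨x, hx, hp⟩
    exact ⟨x, hx, pair_mem_mkF.1 hp⟩
  · rintro ⟨x, hx, hp⟩
    exact ⟨x, hx, pair_mem_mkF.2 hp⟩

lemma pi_ord {h y : ZFSet.{0}} (hy : y.IsOrdinal) : (pi h y).IsOrdinal := by
  induction y using ZFSet.inductionOn with
  | h y ih =>
    rw [ZFSet.isOrdinal_iff_forall_mem_isOrdinal]
    refine ⟨fun w hw u hu => ?_, fun w hw => ?_⟩
    · obtain ⟨z, hz, hzy, rfl⟩ := mem_pi.1 hw
      obtain ⟨z', hz', hzz, rfl⟩ := mem_pi.1 hu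
      exact mem_pi.2 ⟨z', hz', hy.mem_trans hzz hzy, rfl⟩
    · obtain ⟨z, hz, hzy, rfl⟩ := mem_pi.1 hw
      exact ih z hzy (hy.mem hzy)

lemma pi_sub {h y : ZFSet.{0}} (hy : y.IsOrdinal) : pi h y ⊆ y := by
  induction y using ZFSet.inductionOn with
  | h y ih =>
    intro w hw
    obtain ⟨z, hz, hzy, rfl⟩ := mem_pi.1 hw
    exact (pi_ord (hy.mem hzy)).mem_of_subset_of_mem hy (ih z hzy (hy.mem hzy)) hzy

lemma pi_inj {h y z : ZFSet.{0}} (hy : y.IsOrdinal) (hz : z.IsOrdinal) (hyh : y ∈ h) (hzh : z ∈ h)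
    (he : pi h y = pi h z) : y = z := by
  rcases hy.mem_trichotomous hz with h1 | h1 | h1
  · have h2 : pi h y ∈ pi h z := mem_pi.2 ⟨y, hyh, h1, rfl⟩
    rw [he] at h2
    exact absurd h2 (ZFSet.mem_irrefl _)
  · exact h1
  · have h2 : pi h z ∈ pi h y := mem_pi.2 ⟨z, hzh, h1, rfl⟩
    rw [he] at h2
    exact absurd h2 (ZFSet.mem_irrefl _)

end

section
variable {V : Set ZFSet.{0}} (ht : ∀ x ∈ V, ∀ y ∈ x, y ∈ V) (hV : ZFCModel V)
include ht hV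

/-- Row E4.  A cofinal subset of `ω₁` in `V` is in bijection with `ω₁` in `V` (enumerate it
increasingly by recursion; at countable stages the values are bounded by E3). -/
theorem eqN_of_cofinal {c h : ZFSet.{0}} (hc : NextCard V ZFSet.omega c) (hh : h ∈ V) (hsub : h ⊆ c)
    (hcof : ∀ x ∈ c, ∃ y ∈ h, x ∈ y) : EqN V c h := by
  have hT : TC V := { trans := ht, zf := hV.toZFModel, choice := hV.choice }
  have : InE V h := ⟨hh⟩
  have : InE V c := ⟨hc.1.mem⟩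
  have hco := hc.1.ord
  -- the collapse restricted to `c`
  have hG : DfT V (fun v : Fin 1 → ZFSet.{0} => im (v 0) h) := inferInstance
  obtain ⟨hP, -⟩ := recur_mem (E := V) (fun k => im k h) (hG := hG) hc.1.mem hco
  set P : ZFSet.{0} := mkF (pi h) c with hPdef
  have hPV : P ∈ V := hP
  have : InE V P := ⟨hPV⟩
  have hpP : ∀ x y, ZFSet.pair x y ∈ P ↔ x ∈ c ∧ y = pi h x := fun x y => pair_mem_mkF
  have hord : ∀ x ∈ h, x.IsOrdinal := fun x hx => hco.mem (hsub hx)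
  -- the range is `c`
  have hoc : pi h c = c := by
    rcases (ZFSet.IsOrdinal.subset_iff_eq_or_mem (pi_ord hco) hco).1 (pi_sub hco) with h1 | h1
    · exact h1
    exfalso
    obtain ⟨f, hf, hf1, hf2⟩ := cov_of_mem hc _ h1
    have : InE V f := ⟨hf⟩
    have : InE V (∅ : ZFSet.{0}) := ⟨by
      have h3 := sep (E := V) (fun _ => False) hc.1.mem
      rwa [show ZFSet.sep (fun _ => False) c = ∅ by ext z; simp] at h3⟩
    have : InE V ZFSet.omega := ⟨ht c hc.1.mem _ hc.2.1⟩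
    -- `s n` is the element of `h` whose collapse is `f n` (or `∅`)
    let S : ZFSet.{0} → ZFSet.{0} := fun n =>
      ZFSet.sUnion (ZFSet.sep (fun z => ZFSet.pair z (ap f n) ∈ P) h)
    have hS : ∀ n ∈ ZFSet.omega, ∀ z ∈ h, ZFSet.pair n (pi h z) ∈ f → S n = ZFSet.sUnion {z} := by
      intro n hn z hz hp
      have h2 : ap f n = pi h z := (FunOn.ap_eq hf1 hn).1 hp
      show ZFSet.sUnion _ = _
      congr 1
      ext y
      rw [ZFSet.mem_sep, ZFSet.mem_singleton, h2, hpP]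
      constructor
      · rintro ⟨hy, _, hy2⟩
        exact (pi_inj (hord z hz) (hord y hy) hz hy hy2).symm
      · rintro rfl
        exact ⟨hz, hsub hz, rfl⟩
    have hSc : ∀ n ∈ ZFSet.omega, S n ∈ c := by
      intro n hn
      by_cases h2 : ∃ z ∈ h, ap f n = pi h z
      · obtain ⟨z, hz, h2⟩ := h2
        rw [hS n hn z hz ((FunOn.ap_eq hf1 hn).2 h2)]
        rw [ZFSet.sUnion_singleton]
        exact hsub hz
      · have : S n = ∅ := by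
          rw [ZFSet.eq_empty]
          intro w hw
          obtain ⟨y, hy, _⟩ := ZFSet.mem_sUnion.1 hw
          rw [ZFSet.mem_sep, hpP] at hy
          exact h2 ⟨y, hy.1, hy.2.2⟩
        rw [this]
        exact hc.1.inf ZFSet.omega_zero
    have hSm : mkF S ZFSet.omega ∈ V := mem_of (E := V) (mkF S ZFSet.omega)
    obtain ⟨d, hd, hd2⟩ := w1_regular ht hV hc hSm (FunOn_mkF _ _) (by
      intro n hn y hy
      rw [(pair_mem_mkF.1 hy).2]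
      exact hSc n hn)
    obtain ⟨y, hy, hdy⟩ := hcof d hd
    obtain ⟨n, hn, hny⟩ := hf2 (pi h y) (mem_pi.2 ⟨y, hy, hsub hy, rfl⟩)
    have h5 := hd2 n hn (S n) (pair_mem_mkF.2 ⟨hn, rfl⟩)
    rw [hS n hn y hy hny, ZFSet.sUnion_singleton] at h5
    exact ZFSet.mem_asymm h5 hdy
  -- the bijection
  set g : ZFSet.{0} := ZFSet.sep (fun t => ∃ x ∈ c, ∃ y ∈ h, t = ZFSet.pair x y ∧
    ZFSet.pair y x ∈ P) (prd c h) with hg
  have hgV : g ∈ V := mem_of (E := V) _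
  have hpg : ∀ x y, ZFSet.pair x y ∈ g ↔ x ∈ c ∧ y ∈ h ∧ x = pi h y := by
    intro x y
    rw [hg, ZFSet.mem_sep, pair_mem_prd]
    constructor
    · rintro ⟨⟨h1, h2⟩, x', _, y', _, he, hp⟩
      obtain ⟨rfl, rfl⟩ := ZFSet.pair_injective he
      exact ⟨h1, h2, ((hpP _ _).1 hp).2⟩
    · rintro ⟨h1, h2, h3⟩
      exact ⟨⟨h1, h2⟩, x, h1, y, h2, rfl, (hpP _ _).2 ⟨hsub h2, h3⟩⟩
  refine ⟨g, hgV, ⟨fun t ht' => ?_, fun x hx => ?_⟩, fun x _ y hy => ((hpg x y).1 hy).2.1,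
    fun y hy => ⟨pi h y, ?_, fun x hx => ((hpg x y).1 hx.2).2.2⟩⟩
  · rw [hg, ZFSet.mem_sep] at ht'
    obtain ⟨_, x, hx, y, _, rfl, _⟩ := ht'
    exact ⟨x, hx, y, rfl⟩
  · have hx' := hx
    rw [← hoc] at hx'
    obtain ⟨z, hz, _, rfl⟩ := mem_pi.1 hx'
    refine ⟨z, (hpg _ _).2 ⟨hx, hz, rfl⟩, fun y hy => ?_⟩
    obtain ⟨_, h2, h3⟩ := (hpg _ _).1 hy
    exact (pi_inj (hord z hz) (hord y h2) hz h2 h3).symm
  · have h1 : pi h y ∈ c := by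
      rw [← hoc]
      exact mem_pi.2 ⟨y, hy, hsub hy, rfl⟩
    exact ⟨h1, (hpg _ _).2 ⟨h1, hy, rfl⟩⟩

end

end RowE4

section RowE5


open Pool.PC Pool.UT

section
variable {V : Set ZFSet.{0}} (ht : ∀ x ∈ V, ∀ y ∈ x, y ∈ V) (hV : ZFCModel V)
include ht hV

/-- Row E5.  Images under a bijection. -/
theorem eqN_image {c X g h : ZFSet.{0}} (hg : g ∈ V) (hg1 : PC.FunOn g c)
    (hg3 : ∀ y ∈ X, ∃! x, x ∈ c ∧ ZFSet.pair x y ∈ g)
    (hg2 : ∀ x ∈ c, ∀ y, ZFSet.pair x y ∈ g → y ∈ X) (hh : h ∈ V) (hsub : h ⊆ c)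
    (he : EqN V c h) : ∃ k ∈ V, k ⊆ X ∧ (∀ y, y ∈ k ↔ ∃ x ∈ h, ZFSet.pair x y ∈ g) ∧
      EqN V c k := by
  have hTZ : TZ V := ⟨ht, hV.toZFModel⟩
  obtain ⟨f, hf, hf1, hf2, hf3⟩ := he
  have hf1' : PC.FunOn f c := hf1
  -- the domain of `f` is in `V`
  have hg' : InE V g := ⟨hg⟩
  have hh' : InE V h := ⟨hh⟩
  have hf' : InE V f := ⟨hf⟩
  have hkV : im g h ∈ V := mem_of (E := V) (im g h)
  have hc : c ∈ V := by
    have e : c = ZFSet.sep (fun x => ∃ y ∈ h, ZFSet.pair x y ∈ f)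
        (ZFSet.sUnion (ZFSet.sUnion f)) := by
      ext x
      rw [ZFSet.mem_sep]
      constructor
      · intro hx
        have h1 := FunOn.ap_mem hf1' hx
        exact ⟨(mem_uu h1).1, _, hf2 x hx _ h1, h1⟩
      · rintro ⟨-, y, -, h1⟩
        exact FunOn.dom hf1' h1
    rw [e]
    exact mem_of (E := V) (ZFSet.sep (fun x => ∃ y ∈ h, ZFSet.pair x y ∈ f)
        (ZFSet.sUnion (ZFSet.sUnion f)))
  have hc' : InE V c := ⟨hc⟩
  have hval : ∀ x ∈ c, ap f x ∈ h := fun x hx => hf2 x hx _ (FunOn.ap_mem hf1' hx)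
  have hval2 : ∀ x ∈ c, ZFSet.pair (ap f x) (ap g (ap f x)) ∈ g := fun x hx =>
    FunOn.ap_mem hg1 (hsub (hval x hx))
  refine ⟨im g h, hkV, ?_, fun y => mem_im, mkF (fun x => ap g (ap f x)) c,
    mem_of (E := V) (mkF (fun x => ap g (ap f x)) c), FunOn_mkF _ _, ?_, ?_⟩
  · intro y hy
    obtain ⟨x, hx, hxy⟩ := mem_im.1 hy
    exact hg2 x (hsub hx) y hxy
  · intro x hx y hy
    obtain ⟨-, rfl⟩ := pair_mem_mkF.1 hy
    exact mem_im.2 ⟨_, hval x hx, hval2 x hx⟩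
  · intro y hy
    obtain ⟨x₁, hx₁, hxy⟩ := mem_im.1 hy
    obtain ⟨x, ⟨hx, hxf⟩, hu⟩ := hf3 x₁ hx₁
    have e1 : ap f x = x₁ := (FunOn.ap_eq hf1' hx).1 hxf
    have e2 : ap g x₁ = y := (FunOn.ap_eq hg1 (hsub hx₁)).1 hxy
    refine ⟨x, ⟨hx, pair_mem_mkF.2 ⟨hx, by rw [e1, e2]⟩⟩, ?_⟩
    rintro x' ⟨hx', hx'y⟩
    obtain ⟨-, he⟩ := pair_mem_mkF.1 hx'y
    have h3 : ZFSet.pair (ap f x') y ∈ g := by
      rw [he]
      exact hval2 x' hx'
    have h4 := (hg3 y (hg2 x₁ (hsub hx₁) y hxy)).unique ⟨hsub (hval x' hx'), h3⟩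
      ⟨hsub hx₁, hxy⟩
    exact hu x' ⟨hx', (FunOn.ap_eq hf1' hx').2 h4⟩

end

end RowE5

section RowE6


open Pool.PC Pool.UT

section
variable {V : Set ZFSet.{0}} (ht : ∀ x ∈ V, ∀ y ∈ x, y ∈ V) (hV : ZFCModel V)
include ht hV

/-- Row E6. -/
theorem noStrange_of_free {c : ZFSet.{0}} (hc : NextCard V ZFSet.omega c) (hf : FreeV V c) :
    NoStrangeV V c := by
  intro X hX m hm hG he
  obtain ⟨g, hg, hg1, hg2, hg3⟩ := he
  have hg1' : PC.FunOn g c := hg1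
  obtain ⟨f, hfV, hf1, hf2⟩ := exists_op ht hV hX hm hc.1.mem hg hG hg1' hg2 hg3
  obtain ⟨h, hh, hsub, hcof, hfree⟩ := hf f hfV hf1
  obtain ⟨k, hk, hkX, hkm, hke⟩ := eqN_image ht hV hg hg1' hg3 hg2 hh hsub
    (eqN_of_cofinal ht hV hc hh hsub hcof)
  refine ⟨k, hk, hkX, ?_, hke⟩
  intro x hx y hy z hz a ha h1 h2
  obtain ⟨x', hx', hxp⟩ := (hkm x).1 hx
  obtain ⟨y', hy', hyp⟩ := (hkm y).1 hy
  obtain ⟨z', hz', hzp⟩ := (hkm z).1 hz
  have h3 := hf2 y' (hsub hy') x' (hsub hx') z' (hsub hz') y x z a hyp hxp hzp ha h1 h2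
  by_cases e1 : y' = x'
  · subst e1
    have e2 : y = x := (hg1'.2 y' (hsub hy')).unique hyp hxp
    subst e2
    exact (hG.fn y (hkX hy) a ha).unique h1 h2
  by_cases e2 : z' = x'
  · subst e2
    exact (hg1'.2 z' (hsub hz')).unique hxp hzp
  exact absurd h3 (hfree y' hy' x' hx' z' hz' e1 e2)

end

end RowE6

end Pool.ST
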