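import Pool.Agent.Lib.ST.Codes

/-!
# ST: side conditions (rows S1-S9)
-/

set_option autoImplicit false

open Set Cardinal

namespace Pool.ST

/-- Side conditions: finite sets `S` of small nodes and `B` of big nodes. For `M ∈ S` let
`B_M = {β ∈ B | ¬ M ⊆ Iio β}` (an initial segment of `B`): `top` says that the largest element of
`B_M` is in `M`, `lin` that nodes with the same `B_M` are comparable. -/
structure IsSide (S : Finset (Set Om)) (B : Finset Om) : Prop where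
  big : ∀ β ∈ B, IsBig β
  node : ∀ M ∈ S, IsNode M
  cut : ∀ M ∈ S, ∀ β ∈ B, M ∩ Iio β ∈ S
  top : ∀ M ∈ S, ∀ β ∈ B, ¬ M ⊆ Iio β → (∀ γ ∈ B, ¬ M ⊆ Iio γ → γ ≤ β) → β ∈ M
  lin : ∀ M ∈ S, ∀ M' ∈ S, (∀ β ∈ B, M ⊆ Iio β ↔ M' ⊆ Iio β) →
    M = M' ∨ cd M ∈ M' ∨ cd M' ∈ M

section RowS1


/-- Row S1. -/
theorem isSide_empty : IsSide ∅ ∅ where
  big β hβ := absurd hβ (Finset.notMem_empty _)
  node M hM := absurd hM (Finset.notMem_empty _)
  cut M hM := absurd hM (Finset.notMem_empty _)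
  top M hM := absurd hM (Finset.notMem_empty _)
  lin M hM := absurd hM (Finset.notMem_empty _)

/-- Row S1. The largest element of `B_M`. -/
theorem exists_top {B : Finset Om} {M : Set Om} {β : Om} (hβ : β ∈ B) (h : ¬ M ⊆ Iio β) :
    ∃ μ ∈ B, ¬ M ⊆ Iio μ ∧ β ≤ μ ∧ ∀ γ ∈ B, ¬ M ⊆ Iio γ → γ ≤ μ := by
  classical
  have hne : (B.filter (fun γ => ¬ M ⊆ Iio γ)).Nonempty := ⟨β, Finset.mem_filter.2 ⟨hβ, h⟩⟩
  refine ⟨(B.filter (fun γ => ¬ M ⊆ Iio γ)).max' hne, ?_, ?_, ?_, ?_⟩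
  · exact (Finset.mem_filter.1 (Finset.max'_mem _ hne)).1
  · exact (Finset.mem_filter.1 (Finset.max'_mem _ hne)).2
  · exact Finset.le_max' _ _ (Finset.mem_filter.2 ⟨hβ, h⟩)
  · intro γ hγ h'
    exact Finset.le_max' _ _ (Finset.mem_filter.2 ⟨hγ, h'⟩)

/-- Row S1. If `β ∈ B_M` is not in `M`, there is a gap of `M` from `β` to some `β' ∈ B ∩ M`
(the least element of `B ∩ M` above `β`; apply `top` to the node `M ∩ Iio β'`). -/
theorem IsSide.gap {S : Finset (Set Om)} {B : Finset Om} (h : IsSide S B) {M : Set Om}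
    (hM : M ∈ S) {β : Om} (hβ : β ∈ B) (h1 : ¬ M ⊆ Iio β) (h2 : β ∉ M) :
    ∃ β' ∈ B, β' ∈ M ∧ β < β' ∧ ∀ ζ ∈ M, β ≤ ζ → β' ≤ ζ := by
  classical
  obtain ⟨μ, hμB, hμM, hβμ, hmax⟩ := exists_top hβ h1
  have hμ : μ ∈ M := h.top M hM μ hμB hμM hmax
  have hne : (B.filter (fun γ => γ ∈ M ∧ β < γ)).Nonempty :=
    ⟨μ, Finset.mem_filter.2 ⟨hμB, hμ, lt_of_le_of_ne hβμ (fun e => h2 (e ▸ hμ))⟩⟩
  have hmem := Finset.mem_filter.1 (Finset.min'_mem _ hne)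
  refine ⟨(B.filter (fun γ => γ ∈ M ∧ β < γ)).min' hne, hmem.1, hmem.2.1, hmem.2.2, ?_⟩
  intro ζ hζ hβζ
  by_contra hlt
  rw [not_le] at hlt
  have hM' := h.cut M hM _ hmem.1
  have h1' : ¬ (M ∩ Iio ((B.filter (fun γ => γ ∈ M ∧ β < γ)).min' hne)) ⊆ Iio β := by
    intro hs
    exact absurd (hs ⟨hζ, hlt⟩) (not_lt.2 hβζ)
  obtain ⟨γ, hγB, hγM, hβγ, hmax'⟩ := exists_top hβ h1'
  have hγ := h.top _ hM' γ hγB hγM hmax'
  have hle := Finset.min'_le (B.filter (fun γ => γ ∈ M ∧ β < γ)) γ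
    (Finset.mem_filter.2 ⟨hγB, hγ.1, lt_of_le_of_ne hβγ (fun e => h2 (e ▸ hγ.1))⟩)
  exact absurd hγ.2 (not_lt.2 hle)

end RowS1



section RowS2


/-- The comparison of two nodes with a common element above which there is no big node. -/
private theorem S2_aux {S : Finset (Set Om)} {B : Finset Om} (h : IsSide S B) {X Y : Set Om}
    (hX : X ∈ S) (hY : Y ∈ S) {α : Om} (hαX : α ∈ X) (hαY : α ∈ Y)
    {x : Om} (hxY : x ∈ Y) (hxX : x ∉ X) {ζ : Om} (hζ : ζ ∈ X)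
    (hlt : ∀ b ∈ B, α < b → X ⊆ Iio b ∧ Y ⊆ Iio b) : ζ ∈ Y := by
  have h1 : ∀ b ∈ B, X ⊆ Iio b ↔ Y ⊆ Iio b := by
    intro b hb
    rcases lt_or_ge α b with hab | hab
    · exact ⟨fun _ => (hlt b hb hab).2, fun _ => (hlt b hb hab).1⟩
    · exact ⟨fun h' => absurd (h' hαX) (not_lt.2 hab), fun h' => absurd (h' hαY) (not_lt.2 hab)⟩
  rcases h.lin X hX Y hY h1 with h2 | h2 | h2
  · exact h2 ▸ hζ
  · exact (h.node Y hY).mem X (h.node X hX).ctb h2 hζ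
  · exact absurd ((h.node X hX).mem Y (h.node Y hY).ctb h2 hxY) hxX

/-- Row S2.  Nodes with a common big element are comparable up to the next big node.
(Let `λ` be the least element of `B` above `α`; `X ∩ Iio λ`, `Y ∩ Iio λ` are comparable by `lin`;
if there is no such `λ` compare `X` and `Y`.) -/
theorem IsSide.sub {S : Finset (Set Om)} {B : Finset Om} (h : IsSide S B) {X Y : Set Om}
    (hX : X ∈ S) (hY : Y ∈ S) {α : Om} (hα : α ∈ B) (hαX : α ∈ X) (hαY : α ∈ Y)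
    {x : Om} (hx : x < w1) (hxY : x ∈ Y) (hxX : x ∉ X) {ζ : Om} (hζ : ζ ∈ X)
    (hlt : ∀ b ∈ B, α < b → ζ < b) : ζ ∈ Y := by
  classical
  by_cases hne : (B.filter fun b => α < b).Nonempty
  · obtain ⟨l, hl, hmin⟩ := (B.filter fun b => α < b).exists_min_image id hne
    obtain ⟨hlB, hαl⟩ := Finset.mem_filter.1 hl
    have hxl : x < l := hx.trans (h.big l hlB).w1_lt
    have h1 : ζ ∈ Y ∩ Iio l := by
      refine S2_aux h (h.cut X hX l hlB) (h.cut Y hY l hlB) ⟨hαX, hαl⟩ ⟨hαY, hαl⟩ (x := x)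
        ⟨hxY, hxl⟩ (fun h' => hxX h'.1) ⟨hζ, hlt l hlB hαl⟩ ?_
      intro b hb hab
      have hlb : l ≤ b := hmin b (Finset.mem_filter.2 ⟨hb, hab⟩)
      have h2 : Iio l ⊆ Iio b := Iio_subset_Iio hlb
      exact ⟨inter_subset_right.trans h2, inter_subset_right.trans h2⟩
    exact h1.1
  · refine S2_aux h hX hY hαX hαY hxY hxX hζ ?_
    intro b hb hab
    exact absurd ⟨b, Finset.mem_filter.2 ⟨hb, hab⟩⟩ hne

end RowS2

section RowS3


open Classical in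
/-- Row S3.  Residue at a big node. -/
theorem IsSide.resBig {S : Finset (Set Om)} {B : Finset Om} (h : IsSide S B) {α : Om}
    (hα : α ∈ B) : IsSide (S.filter (fun M => M ⊆ Iio α)) (B.filter (fun β => β < α)) where
  big β hβ := h.big β (Finset.mem_filter.1 hβ).1
  node M hM := h.node M (Finset.mem_filter.1 hM).1
  cut M hM β hβ := by
    obtain ⟨h1, h2⟩ := Finset.mem_filter.1 hM
    exact Finset.mem_filter.2 ⟨h.cut M h1 β (Finset.mem_filter.1 hβ).1,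
      inter_subset_left.trans h2⟩
  top M hM β hβ hMβ hmax := by
    obtain ⟨h1, h2⟩ := Finset.mem_filter.1 hM
    refine h.top M h1 β (Finset.mem_filter.1 hβ).1 hMβ fun γ hγ hMγ => ?_
    refine hmax γ (Finset.mem_filter.2 ⟨hγ, ?_⟩) hMγ
    by_contra hcon
    exact hMγ (h2.trans (Iio_subset_Iio (not_lt.1 hcon)))
  lin M hM M' hM' hB := by
    obtain ⟨h1, h2⟩ := Finset.mem_filter.1 hM
    obtain ⟨h3, h4⟩ := Finset.mem_filter.1 hM'
    refine h.lin M h1 M' h3 fun β hβ => ?_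
    rcases lt_or_ge β α with hβα | hβα
    · exact hB β (Finset.mem_filter.2 ⟨hβ, hβα⟩)
    · exact ⟨fun _ => h4.trans (Iio_subset_Iio hβα), fun _ => h2.trans (Iio_subset_Iio hβα)⟩

/-- The maximum of `B_M` is in `N` if `cd M ∈ N`. -/
private theorem S3_aux {S : Finset (Set Om)} {B : Finset Om} (h : IsSide S B) {N M : Set Om}
    (hN : N ∈ S) (hM : M ∈ S) (hc : cd M ∈ N) {β : Om} (hβ : β ∈ B) (hMβ : ¬ M ⊆ Iio β) :
    ∃ μ ∈ B, μ ∈ M ∧ μ ∈ N ∧ ¬ M ⊆ Iio μ ∧ β ≤ μ := by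
  obtain ⟨μ, hμ, h1, h2, h3⟩ := exists_top hβ hMβ
  have h4 : μ ∈ M := h.top M hM μ hμ h1 h3
  exact ⟨μ, hμ, h4, (h.node N hN).mem M (h.node M hM).ctb hc h4, h1, h2⟩

open Classical in
/-- Row S3.  Residue at a small node. -/
theorem IsSide.resSmall {S : Finset (Set Om)} {B : Finset Om} (h : IsSide S B) {N : Set Om}
    (hN : N ∈ S) : IsSide (S.filter (fun M => cd M ∈ N)) (B.filter (fun β => β ∈ N)) where
  big β hβ := h.big β (Finset.mem_filter.1 hβ).1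
  node M hM := h.node M (Finset.mem_filter.1 hM).1
  cut M hM β hβ := by
    obtain ⟨h1, h2⟩ := Finset.mem_filter.1 hM
    obtain ⟨h3, h4⟩ := Finset.mem_filter.1 hβ
    exact Finset.mem_filter.2 ⟨h.cut M h1 β h3, (h.node N hN).cut M (h.node M h1).ctb β h4 h2⟩
  top M hM β hβ hMβ hmax := by
    obtain ⟨h1, h2⟩ := Finset.mem_filter.1 hM
    obtain ⟨h3, h4⟩ := Finset.mem_filter.1 hβ
    obtain ⟨μ, hμ, k1, k2, k3, k4⟩ := S3_aux h hN h1 h2 h3 hMβ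
    have h5 : μ ≤ β := hmax μ (Finset.mem_filter.2 ⟨hμ, k2⟩) k3
    exact le_antisymm h5 k4 ▸ k1
  lin M hM M' hM' hB := by
    obtain ⟨h1, h2⟩ := Finset.mem_filter.1 hM
    obtain ⟨h3, h4⟩ := Finset.mem_filter.1 hM'
    refine h.lin M h1 M' h3 fun β hβ => ⟨fun k => ?_, fun k => ?_⟩
    · by_contra hcon
      obtain ⟨μ, hμ, k1, k2, k3, k4⟩ := S3_aux h hN h3 h4 hβ hcon
      exact k3 ((hB μ (Finset.mem_filter.2 ⟨hμ, k2⟩)).1 (k.trans (Iio_subset_Iio k4)))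
    · by_contra hcon
      obtain ⟨μ, hμ, k1, k2, k3, k4⟩ := S3_aux h hN h1 h2 hβ hcon
      exact k3 ((hB μ (Finset.mem_filter.2 ⟨hμ, k2⟩)).2 (k.trans (Iio_subset_Iio k4)))

end RowS3


section RowS4


open Classical in
/-- Row S4.  Amalgamation at a big node. -/
theorem IsSide.amalBig {S S1 : Finset (Set Om)} {B B1 : Finset Om} (h : IsSide S B) {α : Om}
    (hα : α ∈ B) (h1 : IsSide S1 B1) (hS1 : ∀ M ∈ S1, M ⊆ Iio α) (hB1 : ∀ β ∈ B1, β < α)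
    (hS : ∀ M ∈ S, M ⊆ Iio α → M ∈ S1) (hB : ∀ β ∈ B, β < α → β ∈ B1) :
    IsSide (S ∪ S1) (B ∪ B1) := by
  have hBl : ∀ β ∈ B, β ∈ B ∪ B1 := fun β hβ => Finset.mem_union_left _ hβ
  have hBr : ∀ β ∈ B1, β ∈ B ∪ B1 := fun β hβ => Finset.mem_union_right _ hβ
  have htop1 : ∀ M ∈ S1, ∀ β ∈ B ∪ B1, ¬ M ⊆ Iio β →
      (∀ γ ∈ B ∪ B1, ¬ M ⊆ Iio γ → γ ≤ β) → β ∈ M := by
    intro M hM β hβ h2 h3
    have hlt : β < α := by
      by_contra hcon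
      exact h2 ((hS1 M hM).trans (Iio_subset_Iio (not_lt.1 hcon)))
    have hβ1 : β ∈ B1 := by
      rcases Finset.mem_union.1 hβ with h4 | h4
      · exact hB β h4 hlt
      · exact h4
    exact h1.top M hM β hβ1 h2 (fun γ hγ => h3 γ (hBr γ hγ))
  refine ⟨?_, ?_, ?_, ?_, ?_⟩
  · intro β hβ
    rcases Finset.mem_union.1 hβ with h2 | h2
    · exact h.big β h2
    · exact h1.big β h2
  · intro M hM
    rcases Finset.mem_union.1 hM with h2 | h2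
    · exact h.node M h2
    · exact h1.node M h2
  · intro M hM β hβ
    rcases Finset.mem_union.1 hM with h2 | h2
    · rcases Finset.mem_union.1 hβ with h3 | h3
      · exact Finset.mem_union_left _ (h.cut M h2 β h3)
      · have h4 : M ∩ Iio α ∈ S1 := hS _ (h.cut M h2 α hα) inter_subset_right
        have e : M ∩ Iio β = M ∩ Iio α ∩ Iio β := by
          rw [inter_assoc, Iio_inter_Iio, min_eq_right (hB1 β h3).le]
        rw [e]
        exact Finset.mem_union_right _ (h1.cut _ h4 β h3)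
    · rcases Finset.mem_union.1 hβ with h3 | h3
      · by_cases hlt : β < α
        · exact Finset.mem_union_right _ (h1.cut M h2 β (hB β h3 hlt))
        · rw [inter_eq_left.2 ((hS1 M h2).trans (Iio_subset_Iio (not_lt.1 hlt)))]
          exact Finset.mem_union_right _ h2
      · exact Finset.mem_union_right _ (h1.cut M h2 β h3)
  · intro M hM β hβ h2 h3
    rcases Finset.mem_union.1 hM with h4 | h4
    · by_cases hMα : M ⊆ Iio α
      · exact htop1 M (hS M h4 hMα) β hβ h2 h3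
      · have h5 : α ≤ β := h3 α (hBl α hα) hMα
        have hβB : β ∈ B := by
          rcases Finset.mem_union.1 hβ with h6 | h6
          · exact h6
          · exact absurd (hB1 β h6) (not_lt.2 h5)
        exact h.top M h4 β hβB h2 (fun γ hγ => h3 γ (hBl γ hγ))
    · exact htop1 M h4 β hβ h2 h3
  · intro M hM M' hM' hh
    have hα' := hh α (hBl α hα)
    rcases Finset.mem_union.1 hM with h4 | h4
    · rcases Finset.mem_union.1 hM' with h5 | h5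
      · exact h.lin M h4 M' h5 (fun β hβ => hh β (hBl β hβ))
      · exact h1.lin M (hS M h4 (hα'.2 (hS1 M' h5))) M' h5 (fun β hβ => hh β (hBr β hβ))
    · rcases Finset.mem_union.1 hM' with h5 | h5
      · exact h1.lin M h4 M' (hS M' h5 (hα'.1 (hS1 M h4))) (fun β hβ => hh β (hBr β hβ))
      · exact h1.lin M h4 M' h5 (fun β hβ => hh β (hBr β hβ))

end RowS4

section small

open Classical in
/-- The nodes of the amalgam at a small node. -/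
noncomputable def amS (S S1 : Finset (Set Om)) (B1 : Finset Om) : Finset (Set Om) :=
  S ∪ S1 ∪ (S ×ˢ B1).image (fun x => x.1 ∩ Iio x.2)

section RowS5


variable {S S1 : Finset (Set Om)} {B B1 : Finset Om} (h : IsSide S B) {N : Set Om}
  (hN : N ∈ S) (h1 : IsSide S1 B1) (hS1 : ∀ M ∈ S1, cd M ∈ N) (hB1 : ∀ β ∈ B1, β ∈ N)
  (hS : ∀ M ∈ S, cd M ∈ N → M ∈ S1) (hB : ∀ β ∈ B, β ∈ N → β ∈ B1)

include h hN h1 hS1 hB1 hS hB

open Classical in
/-- Row S5. -/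
theorem amal_cut : ∀ M ∈ amS S S1 B1, ∀ β ∈ B ∪ B1, M ∩ Iio β ∈ amS S S1 B1 := by
  intro M hM β hβ
  have inS : ∀ X ∈ S, X ∈ amS S S1 B1 := fun X hX =>
    Finset.mem_union_left _ (Finset.mem_union_left _ hX)
  have inS1 : ∀ X ∈ S1, X ∈ amS S S1 B1 := fun X hX =>
    Finset.mem_union_left _ (Finset.mem_union_right _ hX)
  have inI : ∀ X ∈ S, ∀ b ∈ B1, X ∩ Iio b ∈ amS S S1 B1 := fun X hX b hb =>
    Finset.mem_union_right _ (Finset.mem_image.2 ⟨(X, b), Finset.mem_product.2 ⟨hX, hb⟩, rfl⟩)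
  rcases Finset.mem_union.1 hM with hM | hM
  · rcases Finset.mem_union.1 hM with hM | hM
    · rcases Finset.mem_union.1 hβ with hβ | hβ
      · exact inS _ (h.cut M hM β hβ)
      · exact inI M hM β hβ
    · rcases Finset.mem_union.1 hβ with hβ | hβ
      · by_cases hβN : β ∈ N
        · exact inS1 _ (h1.cut M hM β (hB β hβ hβN))
        · have hMN : M ⊆ N := (h.node N hN).mem M (h1.node M hM).ctb (hS1 M hM)
          by_cases hMβ : M ⊆ Iio β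
          · rw [inter_eq_left.2 hMβ]
            exact inS1 _ hM
          · obtain ⟨β', hβ', hβ'N, hlt, hgap⟩ := h.gap hN hβ
              (fun hsub => hMβ (hMN.trans hsub)) hβN
            have heq : M ∩ Iio β = M ∩ Iio β' := by
              ext ζ
              constructor
              · rintro ⟨h2, h3⟩
                exact ⟨h2, lt_trans h3 hlt⟩
              · rintro ⟨h2, h3⟩
                refine ⟨h2, ?_⟩
                by_contra hcon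
                exact absurd (hgap ζ (hMN h2) (not_lt.1 hcon)) (not_le.2 h3)
            rw [heq]
            exact inS1 _ (h1.cut M hM β' (hB β' hβ' hβ'N))
      · exact inS1 _ (h1.cut M hM β hβ)
  · obtain ⟨x, hx, rfl⟩ := Finset.mem_image.1 hM
    obtain ⟨h2, h3⟩ := Finset.mem_product.1 hx
    rcases Finset.mem_union.1 hβ with hβ | hβ
    · have heq : x.1 ∩ Iio x.2 ∩ Iio β = (x.1 ∩ Iio β) ∩ Iio x.2 := inter_right_comm _ _ _
      rw [heq]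
      exact inI _ (h.cut _ h2 β hβ) _ h3
    · rcases le_total x.2 β with hle | hle
      · have heq : x.1 ∩ Iio x.2 ∩ Iio β = x.1 ∩ Iio x.2 := by
          apply inter_eq_left.2
          rintro ζ ⟨-, h4⟩
          exact lt_of_lt_of_le h4 hle
        rw [heq]
        exact inI _ h2 _ h3
      · have heq : x.1 ∩ Iio x.2 ∩ Iio β = x.1 ∩ Iio β := by
          ext ζ
          constructor
          · rintro ⟨⟨h4, -⟩, h5⟩
            exact ⟨h4, h5⟩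
          · rintro ⟨h4, h5⟩
            exact ⟨⟨h4, lt_of_lt_of_le h5 hle⟩, h5⟩
        rw [heq]
        exact inI _ h2 _ hβ

end RowS5

section RowS6


/-- the elements below the next big node after `β0` -/
lemma S6_J {S : Finset (Set Om)} {B : Finset Om} (h : IsSide S B) (β0 : Om) :
    ∃ J : Set Om, (∀ M ∈ S, M ∩ J ∈ S) ∧ (∀ γ ∈ B, β0 < γ → J ⊆ Iio γ) ∧ β0 ∈ J ∧
      ∀ X : Set Om, (∀ γ ∈ B, β0 < γ → X ⊆ Iio γ) → X ⊆ J := by
  classical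
  by_cases hne : (B.filter (fun γ => β0 < γ)).Nonempty
  · obtain ⟨l1, l2⟩ := Finset.mem_filter.1 ((B.filter (fun γ => β0 < γ)).min'_mem hne)
    refine ⟨Iio ((B.filter (fun γ => β0 < γ)).min' hne), fun M hM => h.cut M hM _ l1, ?_, l2,
      fun X hX => hX _ l1 l2⟩
    intro γ hγ hlt
    exact Iio_subset_Iio (Finset.min'_le _ _ (Finset.mem_filter.2 ⟨hγ, hlt⟩))
  · refine ⟨univ, fun M hM => by rw [inter_univ]; exact hM, ?_, mem_univ _, fun X _ => subset_univ X⟩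
    intro γ hγ hlt
    exact absurd ⟨γ, Finset.mem_filter.2 ⟨hγ, hlt⟩⟩ hne

lemma S6_key {S S1 : Finset (Set Om)} {B : Finset Om} (h : IsSide S B) {N : Set Om}
    (hN : N ∈ S) (hS : ∀ M ∈ S, cd M ∈ N → M ∈ S1) {β0 : Om} (hβN : β0 ∈ N) (hβB : β0 ∉ B)
    {J : Set Om} (hJ1 : ∀ M ∈ S, M ∩ J ∈ S) (hJ2 : ∀ γ ∈ B, β0 < γ → J ⊆ Iio γ) (hJ3 : β0 ∈ J)
    {Y : Set Om} (hY : Y ∈ S) {ζ : Om} (hζY : ζ ∈ Y) (hζJ : ζ ∈ J) (hζ : β0 ≤ ζ) :
    β0 ∈ Y ∩ J ∨ Y ∩ J ∈ S1 := by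
  have hlin := h.lin (Y ∩ J) (hJ1 Y hY) (N ∩ J) (hJ1 N hN) (by
    intro γ hγ
    rcases lt_trichotomy γ β0 with h1 | h1 | h1
    · constructor
      · intro h2
        have h3 : ζ < γ := h2 ⟨hζY, hζJ⟩
        exact absurd h3 (not_lt.2 (h1.le.trans hζ))
      · intro h2
        have h3 : β0 < γ := h2 ⟨hβN, hJ3⟩
        exact absurd h3 (not_lt.2 h1.le)
    · exact absurd (h1 ▸ hγ) hβB
    · exact ⟨fun _ => inter_subset_right.trans (hJ2 γ hγ h1),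
        fun _ => inter_subset_right.trans (hJ2 γ hγ h1)⟩)
  rcases hlin with h1 | h1 | h1
  · left
    rw [h1]
    exact ⟨hβN, hJ3⟩
  · right
    exact hS _ (hJ1 Y hY) h1.1
  · left
    exact (h.node _ (hJ1 Y hY)).mem _ (h.node _ (hJ1 N hN)).ctb h1 ⟨hβN, hJ3⟩

section small

variable {S S1 : Finset (Set Om)} {B B1 : Finset Om} (h : IsSide S B) {N : Set Om}
  (hN : N ∈ S) (h1 : IsSide S1 B1) (hS1 : ∀ M ∈ S1, cd M ∈ N) (hB1 : ∀ β ∈ B1, β ∈ N)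
  (hS : ∀ M ∈ S, cd M ∈ N → M ∈ S1) (hB : ∀ β ∈ B, β ∈ N → β ∈ B1)

include h hN h1 hS1 hB1 hS hB

open Classical in
/-- Row S6. -/
theorem amal_top : ∀ M ∈ amS S S1 B1, ∀ β ∈ B ∪ B1, ¬ M ⊆ Iio β →
    (∀ γ ∈ B ∪ B1, ¬ M ⊆ Iio γ → γ ≤ β) → β ∈ M := by
  intro X hX β0 hβ0 hne hmax
  have hBl : ∀ β ∈ B, β ∈ B ∪ B1 := fun β hβ => Finset.mem_union_left _ hβ
  have hBr : ∀ β ∈ B1, β ∈ B ∪ B1 := fun β hβ => Finset.mem_union_right _ hβ
  have hXJ : ∀ γ ∈ B, β0 < γ → X ⊆ Iio γ := by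
    intro γ hγ hlt
    by_contra hcon
    exact absurd (hmax γ (hBl γ hγ) hcon) (not_le.2 hlt)
  have hc : X ∈ S1 → β0 ∈ B1 → β0 ∈ X := fun hX1 hb =>
    h1.top X hX1 β0 hb hne (fun γ hγ => hmax γ (hBr γ hγ))
  have hX' : X ∈ S ∨ X ∈ S1 ∨ ∃ Y ∈ S, ∃ β ∈ B1, X = Y ∩ Iio β := by
    rcases Finset.mem_union.1 hX with h2 | h2
    · rcases Finset.mem_union.1 h2 with h3 | h3
      · exact Or.inl h3
      · exact Or.inr (Or.inl h3)
    · obtain ⟨x, hx, rfl⟩ := Finset.mem_image.1 h2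
      obtain ⟨h3, h4⟩ := Finset.mem_product.1 hx
      exact Or.inr (Or.inr ⟨x.1, h3, x.2, h4, rfl⟩)
  obtain ⟨ζ, hζX, hζβ⟩ := not_subset.1 hne
  have hζ : β0 ≤ ζ := not_lt.1 hζβ
  obtain ⟨J, hJ1, hJ2, hJ3, hJ4⟩ := S6_J h β0
  have hXJ' : X ⊆ J := hJ4 X hXJ
  rcases hX' with h2 | h2 | ⟨Y, hY, β, hβ, rfl⟩
  · by_cases hb : β0 ∈ B
    · exact h.top X h2 β0 hb hne (fun γ hγ => hmax γ (hBl γ hγ))
    · have hb1 : β0 ∈ B1 := (Finset.mem_union.1 hβ0).resolve_left hb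
      have h3 := S6_key h hN hS (hB1 β0 hb1) hb hJ1 hJ2 hJ3 h2 hζX (hXJ' hζX) hζ
      rw [inter_eq_left.2 hXJ'] at h3
      rcases h3 with h4 | h4
      · exact h4
      · exact hc h4 hb1
  · by_cases hb1 : β0 ∈ B1
    · exact hc h2 hb1
    · exfalso
      have hb : β0 ∈ B := (Finset.mem_union.1 hβ0).resolve_right hb1
      have hnN : β0 ∉ N := fun hh => hb1 (hB β0 hb hh)
      have hXN : X ⊆ N := (h.node N hN).mem X (h1.node X h2).ctb (hS1 X h2)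
      obtain ⟨β', hβ', _, hlt, hgap⟩ := h.gap hN hb (fun hh => hne (hXN.trans hh)) hnN
      have h3 : ¬ X ⊆ Iio β' := fun hh => absurd (hh hζX) (not_lt.2 (hgap ζ (hXN hζX) hζ))
      exact absurd (hmax β' (hBl β' hβ') h3) (not_le.2 hlt)
  · have hβ0β : β0 < β := lt_of_le_of_lt hζ hζX.2
    by_cases hb : β0 ∈ B
    · by_contra hcon
      have hnY : β0 ∉ Y := fun hh => hcon ⟨hh, hβ0β⟩
      obtain ⟨β', hβ', _, hlt, hgap⟩ := h.gap hY hb
        (fun hh => hne (inter_subset_left.trans hh)) hnY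
      have h3 : ¬ Y ∩ Iio β ⊆ Iio β' := fun hh => absurd (hh hζX) (not_lt.2 (hgap ζ hζX.1 hζ))
      exact absurd (hmax β' (hBl β' hβ') h3) (not_le.2 hlt)
    · have hb1 : β0 ∈ B1 := (Finset.mem_union.1 hβ0).resolve_left hb
      rcases S6_key h hN hS (hB1 β0 hb1) hb hJ1 hJ2 hJ3 hY hζX.1 (hXJ' hζX) hζ with h4 | h4
      · exact ⟨h4.1, hβ0β⟩
      · have h5 := h1.cut _ h4 β hβ
        have e : Y ∩ J ∩ Iio β = Y ∩ Iio β := by
          ext x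
          exact ⟨fun hx => ⟨hx.1.1, hx.2⟩, fun hx => ⟨⟨hx.1, hXJ' hx⟩, hx.2⟩⟩
        rw [e] at h5
        exact hc h5 hb1

end small

end RowS6

section RowS7


/-- comparability -/
private def S7_R (X X' : Set Om) : Prop := X = X' ∨ cd X ∈ X' ∨ cd X' ∈ X

private theorem S7_symm {X X' : Set Om} (h : S7_R X X') : S7_R X' X := by
  rcases h with h | h | h
  · exact Or.inl h.symm
  · exact Or.inr (Or.inr h)
  · exact Or.inr (Or.inl h)

/-- the cut at the least big node which bounds `M` -/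
private theorem S7_J {S : Finset (Set Om)} {B : Finset Om} (h : IsSide S B) (M : Set Om) :
    ∃ J : Set Om, (∀ Y ∈ S, Y ∩ J ∈ S) ∧ M ⊆ J ∧ (∀ β ∈ B, M ⊆ Iio β → J ⊆ Iio β) ∧
      (∀ X : Set Om, X.Countable → X ⊆ J → cd X ∈ J) ∧
      (∀ β : Om, J ⊆ Iio β ∨ β ∈ J) ∧
      (J = Set.univ ∨ ∃ l ∈ B, M ⊆ Iio l ∧ J = Iio l) := by
  classical
  by_cases hex : ∃ l ∈ B, M ⊆ Iio l
  · obtain ⟨l0, hl0, hl0M⟩ := hex
    obtain ⟨l, hl, hmin⟩ := Finset.exists_min_image (B.filter (fun l => M ⊆ Iio l)) id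
      ⟨l0, Finset.mem_filter.2 ⟨hl0, hl0M⟩⟩
    obtain ⟨hlB, hlM⟩ := Finset.mem_filter.1 hl
    refine ⟨Iio l, fun Y hY => h.cut Y hY l hlB, hlM, ?_, ?_, ?_, Or.inr ⟨l, hlB, hlM, rfl⟩⟩
    · intro β hβ hM
      exact Iio_subset_Iio (hmin β (Finset.mem_filter.2 ⟨hβ, hM⟩))
    · intro X hX hXJ
      exact (h.big l hlB).code X hX hXJ
    · intro β
      rcases lt_or_ge β l with h1 | h1
      · exact Or.inr h1
      · exact Or.inl (Iio_subset_Iio h1)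
  · refine ⟨Set.univ, fun Y hY => by rwa [inter_univ], subset_univ _, ?_, fun _ _ _ => mem_univ _,
      fun _ => Or.inr (mem_univ _), Or.inl rfl⟩
    intro β hβ hM
    exact absurd ⟨β, hβ, hM⟩ hex

variable {S S1 : Finset (Set Om)} {B B1 : Finset Om} (h : IsSide S B) {N : Set Om}
  (hN : N ∈ S) (h1 : IsSide S1 B1) (hS1 : ∀ M ∈ S1, cd M ∈ N) (hB1 : ∀ β ∈ B1, β ∈ N)
  (hS : ∀ M ∈ S, cd M ∈ N → M ∈ S1) (hB : ∀ β ∈ B, β ∈ N → β ∈ B1)

include h hN h1 hS1 hB1 hS hB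

/-- `X ∈ S`, `X' ∈ S1` -/
private theorem S7_12 {X X' J : Set Om} (hJ1 : ∀ Y ∈ S, Y ∩ J ∈ S) (hXJ : X ⊆ J) (hX'J : X' ⊆ J)
    (hJ2 : ∀ β ∈ B, X ⊆ Iio β → J ⊆ Iio β)
    (hJ3 : ∀ Z : Set Om, Z.Countable → Z ⊆ J → cd Z ∈ J)
    (hX : X ∈ S) (hX' : X' ∈ S1) (hs : ∀ β ∈ B, X ⊆ Iio β ↔ X' ⊆ Iio β)
    (hs1 : ∀ β ∈ B1, X ⊆ Iio β ↔ X' ⊆ Iio β) : S7_R X X' := by
  have hnX' := h1.node X' hX'
  have hX'N : X' ⊆ N := (h.node N hN).mem X' hnX'.ctb (hS1 X' hX')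
  have hcd : cd X' ∈ N ∩ J := ⟨hS1 X' hX', hJ3 X' hnX'.ctb hX'J⟩
  have hnN' := h.node _ (hJ1 N hN)
  rcases h.lin X hX (N ∩ J) (hJ1 N hN) (by
    intro β hβ
    constructor
    · intro h2
      exact inter_subset_right.trans (hJ2 β hβ h2)
    · intro h2
      exact (hs β hβ).2 ((subset_inter hX'N hX'J).trans h2)) with h2 | h2 | h2
  · exact Or.inr (Or.inr (by rw [h2]; exact hcd))
  · exact h1.lin X (hS X hX h2.1) X' hX' hs1
  · have h3 : N ∩ J ⊆ X := (h.node X hX).mem _ hnN'.ctb h2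
    exact Or.inr (Or.inr (h3 hcd))

/-- `X = Y ∩ Iio β`, `X' ∈ S` -/
private theorem S7_31 {Y X' J : Set Om} {b : Om} (hJ1 : ∀ Y ∈ S, Y ∩ J ∈ S)
    (hXJ : Y ∩ Iio b ⊆ J) (hJ2 : ∀ β ∈ B, Y ∩ Iio b ⊆ Iio β → J ⊆ Iio β)
    (hY : Y ∈ S) (hb : b ∈ B1) (hX' : X' ∈ S)
    (hs : ∀ β ∈ B, Y ∩ Iio b ⊆ Iio β ↔ X' ⊆ Iio β)
    (hs1 : ∀ β ∈ B1, Y ∩ Iio b ⊆ Iio β ↔ X' ⊆ Iio β) : S7_R (Y ∩ Iio b) X' := by
  have hX'b : X' ⊆ Iio b := (hs1 b hb).1 inter_subset_right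
  have hbig := h1.big b hb
  have heq : Y ∩ Iio b = (Y ∩ J) ∩ Iio b := by
    ext ζ
    constructor
    · intro h2
      exact ⟨⟨h2.1, hXJ h2⟩, h2.2⟩
    · rintro ⟨⟨h2, -⟩, h3⟩
      exact ⟨h2, h3⟩
  have hn := h.node _ (hJ1 Y hY)
  rcases h.lin (Y ∩ J) (hJ1 Y hY) X' hX' (by
    intro β hβ
    constructor
    · intro h2
      refine (hs β hβ).1 ?_
      rw [heq]
      exact inter_subset_left.trans h2
    · intro h2
      exact inter_subset_right.trans (hJ2 β hβ ((hs β hβ).2 h2))) with h2 | h2 | h2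
  · left
    rw [heq, h2]
    exact inter_eq_left.2 hX'b
  · have h3 : Y ∩ J ⊆ Iio b := hbig.mem _ hn.ctb (hX'b h2)
    right
    left
    rw [heq, inter_eq_left.2 h3]
    exact h2
  · right
    right
    rw [heq]
    exact ⟨h2, hbig.code X' (h.node X' hX').ctb hX'b⟩

/-- `X = Y ∩ Iio β`, `X' ∈ S1` -/
private theorem S7_32 {Y X' J : Set Om} {b : Om} (hJ1 : ∀ Y ∈ S, Y ∩ J ∈ S)
    (hXJ : Y ∩ Iio b ⊆ J) (hX'J : X' ⊆ J) (hJ2 : ∀ β ∈ B, Y ∩ Iio b ⊆ Iio β → J ⊆ Iio β)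
    (hJ3 : ∀ Z : Set Om, Z.Countable → Z ⊆ J → cd Z ∈ J)
    (hY : Y ∈ S) (hb : b ∈ B1) (hX' : X' ∈ S1)
    (hs : ∀ β ∈ B, Y ∩ Iio b ⊆ Iio β ↔ X' ⊆ Iio β)
    (hs1 : ∀ β ∈ B1, Y ∩ Iio b ⊆ Iio β ↔ X' ⊆ Iio β) : S7_R (Y ∩ Iio b) X' := by
  have hX'b : X' ⊆ Iio b := (hs1 b hb).1 inter_subset_right
  have hbig := h1.big b hb
  have hnX' := h1.node X' hX'
  have hX'N : X' ⊆ N := (h.node N hN).mem X' hnX'.ctb (hS1 X' hX')
  have hcd : cd X' ∈ N ∩ J := ⟨hS1 X' hX', hJ3 X' hnX'.ctb hX'J⟩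
  have hcdb : cd X' < b := hbig.code X' hnX'.ctb hX'b
  have heq : Y ∩ Iio b = (Y ∩ J) ∩ Iio b := by
    ext ζ
    constructor
    · intro h2
      exact ⟨⟨h2.1, hXJ h2⟩, h2.2⟩
    · rintro ⟨⟨h2, -⟩, h3⟩
      exact ⟨h2, h3⟩
  rcases h.lin (Y ∩ J) (hJ1 Y hY) (N ∩ J) (hJ1 N hN) (by
    intro β hβ
    constructor
    · intro h2
      have h3 : Y ∩ Iio b ⊆ Iio β := by
        rw [heq]
        exact inter_subset_left.trans h2
      exact inter_subset_right.trans (hJ2 β hβ h3)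
    · intro h2
      have h3 : X' ⊆ Iio β := (subset_inter hX'N hX'J).trans h2
      exact inter_subset_right.trans (hJ2 β hβ ((hs β hβ).2 h3))) with h2 | h2 | h2
  · right
    right
    rw [heq, h2]
    exact ⟨hcd, hcdb⟩
  · have h3 : Y ∩ J ∈ S1 := hS _ (hJ1 Y hY) h2.1
    have h4 : Y ∩ Iio b ∈ S1 := by
      rw [heq]
      exact h1.cut _ h3 b hb
    exact h1.lin _ h4 X' hX' hs1
  · have h3 : N ∩ J ⊆ Y ∩ J := (h.node _ (hJ1 Y hY)).mem _ (h.node _ (hJ1 N hN)).ctb h2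
    right
    right
    rw [heq]
    exact ⟨h3 hcd, hcdb⟩

/-- the last case: `cd Y' ∈ Y2'` -/
private theorem S7_33aux {Z Z2 N' : Set Om} {b : Om} (hZ : Z ∈ S) (hZ2 : Z2 ∈ S) (hN' : N' ∈ S)
    (hN'N : N' ⊆ N) (hb : b ∈ B1) (hbN' : b ∈ N')
    (hs2 : ∀ β ∈ B, Z2 ⊆ Iio β ↔ N' ⊆ Iio β)
    (hs1 : ∀ β ∈ B1, Z ∩ Iio b ⊆ Iio β ↔ Z2 ∩ Iio b ⊆ Iio β) (hcd : cd Z ∈ Z2) :
    S7_R (Z ∩ Iio b) (Z2 ∩ Iio b) := by
  have key : b ∈ Z2 → S7_R (Z ∩ Iio b) (Z2 ∩ Iio b) := by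
    intro hbZ2
    right
    left
    refine ⟨(h.node Z2 hZ2).cut Z (h.node Z hZ).ctb b hbZ2 hcd, ?_⟩
    exact (h1.big b hb).code _ ((h.node Z hZ).ctb.mono inter_subset_left) inter_subset_right
  rcases h.lin Z2 hZ2 N' hN' hs2 with h2 | h2 | h2
  · exact key (by rw [h2]; exact hbN')
  · have h3 : Z2 ∈ S1 := hS Z2 hZ2 (hN'N h2)
    have h4 : Z2 ⊆ N' := (h.node N' hN').mem Z2 (h.node Z2 hZ2).ctb h2
    have h5 : Z ∈ S1 := hS Z hZ (hN'N (h4 hcd))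
    exact h1.lin _ (h1.cut Z h5 b hb) _ (h1.cut Z2 h3 b hb) hs1
  · exact key ((h.node Z2 hZ2).mem N' (h.node N' hN').ctb h2 hbN')

/-- `X = Y ∩ Iio β`, `X' = Y2 ∩ Iio β2`, `β ≤ β2` -/
private theorem S7_33 {Y Y2 J : Set Om} {b b2 : Om} (hJ1 : ∀ Y ∈ S, Y ∩ J ∈ S)
    (hXJ : Y ∩ Iio b ⊆ J) (hX'J : Y2 ∩ Iio b2 ⊆ J)
    (hJ2 : ∀ β ∈ B, Y ∩ Iio b ⊆ Iio β → J ⊆ Iio β) (hJ4 : ∀ β : Om, J ⊆ Iio β ∨ β ∈ J)
    (hY : Y ∈ S) (hb : b ∈ B1) (hY2 : Y2 ∈ S) (hbb : b ≤ b2)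
    (hs : ∀ β ∈ B, Y ∩ Iio b ⊆ Iio β ↔ Y2 ∩ Iio b2 ⊆ Iio β)
    (hs1 : ∀ β ∈ B1, Y ∩ Iio b ⊆ Iio β ↔ Y2 ∩ Iio b2 ⊆ Iio β) :
    S7_R (Y ∩ Iio b) (Y2 ∩ Iio b2) := by
  have hX'b : Y2 ∩ Iio b2 ⊆ Iio b := (hs1 b hb).1 inter_subset_right
  have heq : Y ∩ Iio b = (Y ∩ J) ∩ Iio b := by
    ext ζ
    constructor
    · intro h2
      exact ⟨⟨h2.1, hXJ h2⟩, h2.2⟩
    · rintro ⟨⟨h2, -⟩, h3⟩
      exact ⟨h2, h3⟩
  have heq2 : Y2 ∩ Iio b2 = (Y2 ∩ J) ∩ Iio b := by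
    ext ζ
    constructor
    · intro h2
      exact ⟨⟨h2.1, hX'J h2⟩, hX'b h2⟩
    · rintro ⟨⟨h2, -⟩, h3⟩
      exact ⟨h2, lt_of_lt_of_le h3 hbb⟩
  rw [heq, heq2]
  rw [heq, heq2] at hs hs1
  rw [heq] at hJ2
  have hsY : ∀ β ∈ B, Y ∩ J ⊆ Iio β ↔ J ⊆ Iio β := by
    intro β hβ
    constructor
    · intro h2
      exact hJ2 β hβ (inter_subset_left.trans h2)
    · intro h2
      exact inter_subset_right.trans h2
  have hsY2 : ∀ β ∈ B, Y2 ∩ J ⊆ Iio β ↔ J ⊆ Iio β := by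
    intro β hβ
    constructor
    · intro h2
      exact hJ2 β hβ ((hs β hβ).2 (inter_subset_left.trans h2))
    · intro h2
      exact inter_subset_right.trans h2
  rcases hJ4 b with hJb | hbJ
  · have e1 : Y ∩ J ∩ Iio b = Y ∩ J := inter_eq_left.2 (inter_subset_right.trans hJb)
    have e2 : Y2 ∩ J ∩ Iio b = Y2 ∩ J := inter_eq_left.2 (inter_subset_right.trans hJb)
    rw [e1, e2]
    exact h.lin _ (hJ1 Y hY) _ (hJ1 Y2 hY2) (fun β hβ => (hsY β hβ).trans (hsY2 β hβ).symm)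
  · have hbN' : b ∈ N ∩ J := ⟨hB1 b hb, hbJ⟩
    have hsN : ∀ β ∈ B, N ∩ J ⊆ Iio β ↔ J ⊆ Iio β := by
      intro β hβ
      constructor
      · intro h2
        have h3 : b < β := h2 hbN'
        exact hJ2 β hβ (inter_subset_right.trans (Iio_subset_Iio h3.le))
      · intro h2
        exact inter_subset_right.trans h2
    rcases h.lin _ (hJ1 Y hY) _ (hJ1 Y2 hY2)
      (fun β hβ => (hsY β hβ).trans (hsY2 β hβ).symm) with h2 | h2 | h2
    · left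
      rw [h2]
    · exact S7_33aux h hN h1 hS1 hB1 hS hB (hJ1 Y hY) (hJ1 Y2 hY2) (hJ1 N hN) inter_subset_left
        hb hbN' (fun β hβ => (hsY2 β hβ).trans (hsN β hβ).symm) hs1 h2
    · exact S7_symm (S7_33aux h hN h1 hS1 hB1 hS hB (hJ1 Y2 hY2) (hJ1 Y hY) (hJ1 N hN)
        inter_subset_left hb hbN' (fun β hβ => (hsY β hβ).trans (hsN β hβ).symm)
        (fun β hβ => (hs1 β hβ).symm) h2)

open Classical in
/-- Row S7. -/
theorem amal_lin : ∀ M ∈ amS S S1 B1, ∀ M' ∈ amS S S1 B1,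
    (∀ β ∈ B ∪ B1, M ⊆ Iio β ↔ M' ⊆ Iio β) → M = M' ∨ cd M ∈ M' ∨ cd M' ∈ M := by
  intro M hM M' hM' hsame
  have hs : ∀ β ∈ B, M ⊆ Iio β ↔ M' ⊆ Iio β := fun β hβ => hsame β (Finset.mem_union_left _ hβ)
  have hs1 : ∀ β ∈ B1, M ⊆ Iio β ↔ M' ⊆ Iio β := fun β hβ => hsame β (Finset.mem_union_right _ hβ)
  have hs' : ∀ β ∈ B, M' ⊆ Iio β ↔ M ⊆ Iio β := fun β hβ => (hs β hβ).symm
  have hs1' : ∀ β ∈ B1, M' ⊆ Iio β ↔ M ⊆ Iio β := fun β hβ => (hs1 β hβ).symm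
  obtain ⟨J, hJ1, hMJ, hJ2, hJ3, hJ4, hJ5⟩ := S7_J h M
  have hM'J : M' ⊆ J := by
    rcases hJ5 with h2 | ⟨l, hl, h2, h3⟩
    · rw [h2]
      exact subset_univ _
    · rw [h3]
      exact (hs l hl).1 h2
  have hJ2' : ∀ β ∈ B, M' ⊆ Iio β → J ⊆ Iio β := fun β hβ h2 => hJ2 β hβ ((hs β hβ).2 h2)
  change S7_R M M'
  rcases Finset.mem_union.1 hM with hM | hM
  · rcases Finset.mem_union.1 hM with hM | hM
    · rcases Finset.mem_union.1 hM' with hM' | hM'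
      · rcases Finset.mem_union.1 hM' with hM' | hM'
        · exact h.lin M hM M' hM' hs
        · exact S7_12 h hN h1 hS1 hB1 hS hB hJ1 hMJ hM'J hJ2 hJ3 hM hM' hs hs1
      · obtain ⟨x, hx, rfl⟩ := Finset.mem_image.1 hM'
        obtain ⟨h2, h3⟩ := Finset.mem_product.1 hx
        exact S7_symm (S7_31 h hN h1 hS1 hB1 hS hB hJ1 hM'J hJ2' h2 h3 hM hs' hs1')
    · rcases Finset.mem_union.1 hM' with hM' | hM'
      · rcases Finset.mem_union.1 hM' with hM' | hM'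
        · exact S7_symm (S7_12 h hN h1 hS1 hB1 hS hB hJ1 hM'J hMJ hJ2' hJ3 hM' hM hs' hs1')
        · exact h1.lin M hM M' hM' hs1
      · obtain ⟨x, hx, rfl⟩ := Finset.mem_image.1 hM'
        obtain ⟨h2, h3⟩ := Finset.mem_product.1 hx
        exact S7_symm (S7_32 h hN h1 hS1 hB1 hS hB hJ1 hM'J hMJ hJ2' hJ3 h2 h3 hM hs' hs1')
  · obtain ⟨x, hx, rfl⟩ := Finset.mem_image.1 hM
    obtain ⟨h2, h3⟩ := Finset.mem_product.1 hx
    rcases Finset.mem_union.1 hM' with hM' | hM'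
    · rcases Finset.mem_union.1 hM' with hM' | hM'
      · exact S7_31 h hN h1 hS1 hB1 hS hB hJ1 hMJ hJ2 h2 h3 hM' hs hs1
      · exact S7_32 h hN h1 hS1 hB1 hS hB hJ1 hMJ hM'J hJ2 hJ3 h2 h3 hM' hs hs1
    · obtain ⟨x', hx', rfl⟩ := Finset.mem_image.1 hM'
      obtain ⟨h2', h3'⟩ := Finset.mem_product.1 hx'
      rcases le_total x.2 x'.2 with hle | hle
      · exact S7_33 h hN h1 hS1 hB1 hS hB hJ1 hMJ hM'J hJ2 hJ4 h2 h3 h2' hle hs hs1
      · exact S7_symm (S7_33 h hN h1 hS1 hB1 hS hB hJ1 hM'J hMJ hJ2' hJ4 h2' h3' h2 hle hs' hs1')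

end RowS7

variable {S S1 : Finset (Set Om)} {B B1 : Finset Om} (h : IsSide S B) {N : Set Om}
  (hN : N ∈ S) (h1 : IsSide S1 B1) (hS1 : ∀ M ∈ S1, cd M ∈ N) (hB1 : ∀ β ∈ B1, β ∈ N)
  (hS : ∀ M ∈ S, cd M ∈ N → M ∈ S1) (hB : ∀ β ∈ B, β ∈ N → β ∈ B1)

include h hN h1 hS1 hB1 hS hB

open Classical in
/-- Amalgamation at a small node. -/
theorem amalSmall : IsSide (amS S S1 B1) (B ∪ B1) where
  big β hβ := by
    rcases Finset.mem_union.1 hβ with h' | h'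
    · exact h.big β h'
    · exact h1.big β h'
  node M hM := by
    rcases Finset.mem_union.1 hM with hM | hM
    · rcases Finset.mem_union.1 hM with hM | hM
      · exact h.node M hM
      · exact h1.node M hM
    · obtain ⟨x, hx, rfl⟩ := Finset.mem_image.1 hM
      obtain ⟨h2, h3⟩ := Finset.mem_product.1 hx
      exact (h.node _ h2).inter (h1.big _ h3)
  cut := amal_cut h hN h1 hS1 hB1 hS hB
  top := amal_top h hN h1 hS1 hB1 hS hB
  lin := amal_lin h hN h1 hS1 hB1 hS hB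

end small

section RowS8


open Classical in
/-- Row S8.  Adding a small node on top. -/
theorem IsSide.addSmall {S : Finset (Set Om)} {B : Finset Om} (h : IsSide S B) {N : Set Om}
    (hN : IsNode N) (hS : ∀ M ∈ S, cd M ∈ N) (hB : ∀ β ∈ B, β ∈ N) :
    IsSide (insert N (S ∪ B.image (fun β => N ∩ Iio β))) B := by
  have hmem : ∀ M, M ∈ insert N (S ∪ B.image (fun β => N ∩ Iio β)) →
      M = N ∨ M ∈ S ∨ ∃ γ ∈ B, M = N ∩ Iio γ := by
    intro M hM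
    rcases Finset.mem_insert.1 hM with h1 | h1
    · exact Or.inl h1
    · rcases Finset.mem_union.1 h1 with h2 | h2
      · exact Or.inr (Or.inl h2)
      · obtain ⟨γ, hγ, rfl⟩ := Finset.mem_image.1 h2
        exact Or.inr (Or.inr ⟨γ, hγ, rfl⟩)
  have hN' : ∀ γ ∈ B, N ∩ Iio γ ∈ insert N (S ∪ B.image (fun β => N ∩ Iio β)) := by
    intro γ hγ
    exact Finset.mem_insert_of_mem (Finset.mem_union_right _ (Finset.mem_image_of_mem _ hγ))
  have hSm : ∀ M ∈ S, M ∈ insert N (S ∪ B.image (fun β => N ∩ Iio β)) := by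
    intro M hM
    exact Finset.mem_insert_of_mem (Finset.mem_union_left _ hM)
  refine ⟨h.big, ?_, ?_, ?_, ?_⟩
  · intro M hM
    rcases hmem M hM with rfl | h1 | ⟨γ, hγ, rfl⟩
    · exact hN
    · exact h.node M h1
    · exact hN.inter (h.big γ hγ)
  · intro M hM β hβ
    rcases hmem M hM with rfl | h1 | ⟨γ, hγ, rfl⟩
    · exact hN' β hβ
    · exact hSm _ (h.cut M h1 β hβ)
    · have e : N ∩ Iio γ ∩ Iio β = N ∩ Iio (min γ β) := by
        rw [inter_assoc, Iio_inter_Iio]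
      rw [e]
      rcases min_choice γ β with h2 | h2
      · rw [h2]
        exact hN' γ hγ
      · rw [h2]
        exact hN' β hβ
  · intro M hM β hβ h1 h2
    rcases hmem M hM with rfl | h3 | ⟨γ, hγ, rfl⟩
    · exact hB β hβ
    · exact h.top M h3 β hβ h1 h2
    · obtain ⟨ζ, hζ, hζβ⟩ := not_subset.1 h1
      have h4 : β ≤ ζ := not_lt.1 hζβ
      have h5 : ζ < γ := hζ.2
      exact ⟨hB β hβ, lt_of_le_of_lt h4 h5⟩
  · have key : ∀ M ∈ S, ∀ γ ∈ B, (∀ β ∈ B, M ⊆ Iio β ↔ N ∩ Iio γ ⊆ Iio β) →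
        cd M ∈ N ∩ Iio γ := by
      intro M hM γ hγ hh
      exact ⟨hS M hM, (h.big γ hγ).code M (h.node M hM).ctb ((hh γ hγ).2 inter_subset_right)⟩
    intro M hM M' hM' hh
    rcases hmem M hM with rfl | h1 | ⟨γ, hγ, rfl⟩
    · rcases hmem M' hM' with rfl | h1' | ⟨γ', hγ', rfl⟩
      · exact Or.inl rfl
      · exact Or.inr (Or.inr (hS M' h1'))
      · left
        exact (inter_eq_left.2 ((hh γ' hγ').2 inter_subset_right)).symm
    · rcases hmem M' hM' with rfl | h1' | ⟨γ', hγ', rfl⟩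
      · exact Or.inr (Or.inl (hS M h1))
      · exact h.lin M h1 M' h1' hh
      · exact Or.inr (Or.inl (key M h1 γ' hγ' hh))
    · rcases hmem M' hM' with rfl | h1' | ⟨γ', hγ', rfl⟩
      · left
        exact inter_eq_left.2 ((hh γ hγ).1 inter_subset_right)
      · exact Or.inr (Or.inr (key M' h1' γ hγ (fun β hβ => (hh β hβ).symm)))
      · left
        have h3 := (hh γ' hγ').2 inter_subset_right
        have h4 := (hh γ hγ).1 inter_subset_right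
        exact subset_antisymm (fun x hx => ⟨hx.1, h3 hx⟩) (fun x hx => ⟨hx.1, h4 hx⟩)

open Classical in
/-- Row S8.  Adding a big node on top. -/
theorem IsSide.addBig {S : Finset (Set Om)} {B : Finset Om} (h : IsSide S B) {α : Om}
    (hα : IsBig α) (hS : ∀ M ∈ S, M ⊆ Iio α) (hB : ∀ β ∈ B, β < α) :
    IsSide S (insert α B) := by
  refine ⟨?_, h.node, ?_, ?_, ?_⟩
  · intro β hβ
    rcases Finset.mem_insert.1 hβ with rfl | h1
    · exact hα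
    · exact h.big β h1
  · intro M hM β hβ
    rcases Finset.mem_insert.1 hβ with rfl | h1
    · rw [inter_eq_left.2 (hS M hM)]
      exact hM
    · exact h.cut M hM β h1
  · intro M hM β hβ h1 h2
    rcases Finset.mem_insert.1 hβ with rfl | h3
    · exact absurd (hS M hM) h1
    · exact h.top M hM β h3 h1 (fun γ hγ => h2 γ (Finset.mem_insert_of_mem hγ))
  · intro M hM M' hM' hh
    exact h.lin M hM M' hM' (fun β hβ => hh β (Finset.mem_insert_of_mem hβ))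

end RowS8


end Pool.ST
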