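import Pool.Agent.Lib.MP_b18e8e_lc_Diamond.Main

/-!
# ST: forcing a strange group of cardinality `ℵ₁` with countable conditions (V-side, rows W1-W9)
-/

set_option autoImplicit false

open Set Cardinal

namespace Pool.ST1

open Pool.Agent.Lib.MP_b18e8e_lc_Diamond

/-- The underlying set of the group. -/
abbrev El : Type := Option (Om × ℕ)

/-- The element `x` has its level in `J`. -/
def Lev (J : LowerSet Om) (x : El) : Prop := ∀ p ∈ x, p.1 ∈ J

/-- Conditions: guesses `A` and a countable approximation `a` of the group with the levels below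
`γ`. -/
structure P1 : Type where
  A : Om → Set El
  a : App A
  γ : Om
  hJ : ∀ i, i ∈ a.J ↔ i < γ

/-- `p` extends `q`. -/
def P1.Le (p q : P1) : Prop := ∃ h : q.a.J ≤ p.a.J, (∀ δ ∈ q.a.J, p.A δ = q.A δ) ∧
  ∀ x y : Lv q.a.J, linc h (x * y) = linc h x * linc h y

instance : Preorder P1 where
  le := P1.Le
  le_refl q := ⟨le_rfl, fun _ _ => rfl, fun _ _ => rfl⟩
  le_trans p q r := by
    rintro ⟨h, h1, h2⟩ ⟨g, g1, g2⟩
    refine ⟨g.trans h, fun δ hδ => (h1 δ (g hδ)).trans (g1 δ hδ), fun x y => ?_⟩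
    change linc h (linc g (x * y)) = linc h (linc g x) * linc h (linc g y)
    rw [g2, h2]

/-- The element `x` of the group of `q`. -/
def P1.el (q : P1) (x : El) (h : Lev q.a.J x) : Lv q.a.J := ⟨x, h⟩

/-- `q` forces `x * y = z`. -/
def P1.mul (q : P1) (x y z : El) : Prop :=
  ∃ (hx : Lev q.a.J x) (hy : Lev q.a.J y), (q.el x hx * q.el y hy).1 = z

section RowW1


open Pool.Agent.Lib.MP_b18e8e_lc_Diamond Pool.ST1 App

/-- Row W1.  One more level (the proof of `App.exists_ext` gives `J' = Iic γ`; copy it with this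
conclusion). -/
theorem exists_ext_Iic {A : Om → Set El} (a : App A) (γ : Om) (hγ : ∀ i, i ∈ a.J ↔ i < γ) :
    ∃ b : App A, a ≤ b ∧ ∀ i, i ∈ b.J ↔ i ≤ γ := by
  classical
  have hJγ := hγ
  have : Countable (Lv a.J) := by
    have h1 : Countable (Set.Iio γ) := (countable_Iio γ).to_subtype
    refine Function.Injective.countable
      (f := fun x : Lv a.J => (show Option (Set.Iio γ × ℕ) from
        match x with
        | ⟨none, _⟩ => none
        | ⟨some p, hp⟩ => some (⟨p.1, (hJγ p.1).1 (hp p rfl)⟩, p.2))) ?_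
    rintro ⟨_ | ⟨i, m⟩, hx⟩ ⟨_ | ⟨j, n⟩, hy⟩ h
    · rfl
    · simp at h
    · simp at h
    · simp only [Option.some.injEq, Prod.mk.injEq] at h
      obtain ⟨h1, rfl⟩ := h
      have h2 : i = j := congrArg Subtype.val h1
      subst h2
      rfl
  -- the tasks
  let τ : Type := {δ : Om // δ ≤ γ} × Bool
  have hτ : Countable τ := by
    have h1 : Countable {δ : Om // δ ≤ γ} := by
      have : (Set.Iic γ).Countable := by
        rw [← Set.Iio_insert]
        exact (countable_Iio γ).insert γ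
      exact this.to_subtype
    infer_instance
  have hVγ : Vs a.J γ = Set.univ := by
    ext x
    simp only [Set.mem_univ, iff_true]
    intro p hp
    exact (hJγ p.1).1 (x.2 p hp)
  have hV : ∀ t : τ, ∃ V : Subgroup (Lv a.J), (V : Set (Lv a.J)) = Vs a.J t.1.1 := by
    rintro ⟨⟨δ, hδ⟩, t⟩
    rcases hδ.lt_or_eq with h | h
    · exact a.sub δ ((hJγ δ).2 h)
    · subst h
      exact ⟨⊤, hVγ.symm⟩
  choose V hV using hV
  have hG : ∀ t : τ, Gen (ps t.2) (Lv a.J) (V t) (As A a.J t.1.1) := by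
    rintro ⟨⟨δ, hδ⟩, t⟩
    rw [hV]
    rcases hδ.lt_or_eq with h | h
    · exact a.gen δ ((hJγ δ).2 h) t
    · subst h
      change Gen (ps t) (Lv a.J) (Vs a.J δ) _
      rw [hVγ]
      exact gen_base (ps t) (ps_spec t) a.lf _
  have hR : ∀ t : τ, Real (ps t.2) (Lv a.J) (V t) (As A a.J t.1.1) := by
    rintro ⟨⟨δ, hδ⟩, t⟩
    rw [hV]
    rcases hδ.lt_or_eq with h | h
    · exact a.real δ ((hJγ δ).2 h) t
    · subst h
      change Real (ps t) (Lv a.J) (Vs a.J δ) _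
      rw [hVγ]
      exact real_base (ps t) _
  obtain ⟨gK, inl', hinl', hLF, hGR⟩ := ext_step a.lf (τ := τ) (fun t => pk t.2)
    (fun t => ps t.2) V (fun t => As A a.J t.1.1)
    (fun t => by rw [hV]; exact As_subset A a.J t.1.1) hG hR
  -- transport
  let J' : LowerSet Om := LowerSet.Iic γ
  have hJJ' : a.J ≤ J' := fun i hi => ((hJγ i).1 hi).le
  let f : Lv a.J ⊕ ℕ → Lv J' := Sum.elim (linc hJJ') (fun n => ⟨some (γ, n), by
    intro p hp
    cases hp
    exact le_refl γ⟩)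
  have hfinl : ∀ x, (f (Sum.inl x)).1 = x.1 := fun _ => rfl
  have hfinr : ∀ n, (f (Sum.inr n)).1 = some (γ, n) := fun _ => rfl
  have hne : ∀ (x : Lv a.J) (n : ℕ), x.1 ≠ some (γ, n) := by
    intro x n h
    exact lt_irrefl γ ((hJγ γ).1 (x.2 (γ, n) h))
  have hf : Function.Bijective f := by
    constructor
    · rintro (x | m) (y | n) h
      · exact congrArg Sum.inl (linc_injective hJJ' h)
      · exact absurd (congrArg Subtype.val h) (hne x n)
      · exact absurd (congrArg Subtype.val h).symm (hne y m)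
      · have h1 := congrArg Subtype.val h
        change some (γ, m) = some (γ, n) at h1
        simp only [Option.some.injEq, Prod.mk.injEq, true_and] at h1
        rw [h1]
    · rintro ⟨_ | ⟨i, n⟩, hx⟩
      · exact ⟨Sum.inl ⟨none, fun p hp => by cases hp⟩, rfl⟩
      · have hi : i ≤ γ := hx (i, n) rfl
        rcases hi.lt_or_eq with h | h
        · refine ⟨Sum.inl ⟨some (i, n), ?_⟩, rfl⟩
          intro p hp
          cases hp
          exact (hJγ i).2 h
        · subst h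
          exact ⟨Sum.inr n, rfl⟩
  let e : Lv a.J ⊕ ℕ ≃ Lv J' := Equiv.ofBijective f hf
  let gJ' : Group (Lv J') := e.symm.group
  let φ : Lv a.J ⊕ ℕ →* Lv J' := (Equiv.mulEquiv e.symm).symm.toMonoidHom
  have hφ : ∀ x, φ x = f x := fun _ => rfl
  have hφi : Function.Injective φ := hf.1
  have hφr : ∀ x, x ∈ Set.range φ := hf.2
  have hVp : ∀ δ ≤ γ, φ ⁻¹' (Vs J' δ) = Sum.inl '' (Vs a.J δ) := by
    intro δ hδ
    ext x
    rcases x with x | n
    · constructor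
      · intro h
        exact ⟨x, h, rfl⟩
      · rintro ⟨y, hy, h⟩
        cases h
        exact hy
    · constructor
      · intro h
        exact absurd (h (γ, n) rfl) (not_lt.2 hδ)
      · rintro ⟨y, hy, h⟩
        cases h
  have hAp : ∀ δ ≤ γ, φ ⁻¹' (As A J' δ) = Sum.inl '' (As A a.J δ) := by
    intro δ hδ
    ext x
    rcases x with x | n
    · constructor
      · intro h
        exact ⟨x, h, rfl⟩
      · rintro ⟨y, hy, h⟩
        cases h
        exact hy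
    · constructor
      · intro h
        exact absurd (h.1 (γ, n) rfl) (not_lt.2 hδ)
      · rintro ⟨y, hy, h⟩
        cases h
  refine ⟨{ J := J'
            grp := gJ'
            lf := ?_
            sub := ?_
            gen := ?_
            real := ?_ }, ⟨hJJ', ?_⟩, ?_⟩
  · apply lf_of_local
    intro T hT
    exact ⟨_, gK, φ, fun x _ => hφr x, hLF⟩
  · intro δ hδ
    have h1 := hV (⟨δ, hδ⟩, true)
    refine ⟨((V (⟨δ, hδ⟩, true)).map inl').map φ, ?_⟩
    rw [Subgroup.coe_map, Subgroup.coe_map, h1]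
    have h2 : inl' '' (Vs a.J δ) = Sum.inl '' (Vs a.J δ) := by
      congr 1
      funext x
      exact hinl' x
    change φ '' (inl' '' (Vs a.J δ)) = _
    rw [h2, ← hVp δ hδ, Set.image_preimage_eq_iff]
    exact fun x _ => hφr x
  · intro δ hδ t
    apply gen_of_local _ _ _ (As_subset A J' δ)
    intro T hT
    refine ⟨_, gK, φ, hφi, fun x _ => hφr x, fun x _ => hφr x, ?_⟩
    rw [hVp δ hδ, hAp δ hδ, ← hV (⟨δ, hδ⟩, t)]
    exact (hGR (⟨δ, hδ⟩, t)).1
  · intro δ hδ t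
    apply real_of_local _ _ _ (As_subset A J' δ)
    intro T hT
    refine ⟨_, gK, φ, hφi, fun x _ => hφr x, fun x _ => hφr x, ?_⟩
    rw [hVp δ hδ, hAp δ hδ, ← hV (⟨δ, hδ⟩, t)]
    exact (hGR (⟨δ, hδ⟩, t)).2
  · intro x y
    have h1 : ∀ z, linc hJJ' z = φ (inl' z) := by
      intro z
      rw [hinl']
      rfl
    rw [h1, h1, h1, map_mul, map_mul]
  · intro i
    exact Iff.rfl

end RowW1

section RowW2


open Pool.Agent.Lib.MP_b18e8e_lc_Diamond Pool.ST1 App

/-- Row W2.  Unions of chains (the proof of `App.chain_bdd` gives the union of the levels; copy it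
with this conclusion). -/
theorem chain_sup {A : Om → Set El} (c : Set (App A)) (hne : c.Nonempty)
    (hc : IsChain (· ≤ ·) c) :
    ∃ b : App A, (∀ a ∈ c, a ≤ b) ∧ ∀ i, i ∈ b.J ↔ ∃ a ∈ c, i ∈ a.J := by
  classical
  have dir : ∀ a ∈ c, ∀ b ∈ c, ∃ d ∈ c, a ≤ d ∧ b ≤ d := by
    intro a ha b hb
    rcases hc.total ha hb with h | h
    · exact ⟨b, hb, h, le_rfl⟩
    · exact ⟨a, ha, le_rfl, h⟩
  let J : LowerSet Om := ⨆ a : {a : App A // a ∈ c}, a.1.J
  have hJ : ∀ a ∈ c, a.J ≤ J := fun a ha => le_iSup (fun a : {a : App A // a ∈ c} => a.1.J) ⟨a, ha⟩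
  have hJ' : ∀ i ∈ J, ∃ a ∈ c, i ∈ a.J := by
    intro i hi
    rw [LowerSet.mem_iSup_iff] at hi
    obtain ⟨⟨a, ha⟩, h⟩ := hi
    exact ⟨a, ha, h⟩
  have cov : ∀ x : Lv J, ∃ a ∈ c, ∀ p ∈ x.1, p.1 ∈ a.J := by
    rintro ⟨o, ho⟩
    rcases o with _ | p
    · obtain ⟨a, ha⟩ := hne
      exact ⟨a, ha, fun p hp => by cases hp⟩
    · obtain ⟨a, ha, h⟩ := hJ' p.1 (ho p rfl)
      refine ⟨a, ha, ?_⟩
      intro p' hp'
      cases hp'
      exact h
  have : Nonempty {a : App A // a ∈ c} := hne.to_subtype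
  obtain ⟨gJ, hgJ⟩ := glue (Ω := Lv J) (ι := {a : App A // a ∈ c}) (fun a => Lv a.1.J)
    (fun a => linc (hJ a.1 a.2)) (fun a => linc_injective _)
    (by
      rintro ⟨a, ha⟩ ⟨b, hb⟩
      obtain ⟨d, hd, had, hbd⟩ := dir a ha b hb
      exact ⟨⟨d, hd⟩, hom had, hom hbd, fun _ => rfl, fun _ => rfl⟩)
    (by
      intro x
      obtain ⟨a, ha, hx⟩ := cov x
      exact ⟨⟨a, ha⟩, ⟨x.1, hx⟩, rfl⟩)
  let ev : ∀ a : App A, ∀ ha : a ∈ c, (Lv a.J →* Lv J) := fun a ha =>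
    MonoidHom.mk' (linc (hJ a ha)) (hgJ ⟨a, ha⟩)
  have hev : ∀ a ha x, (ev a ha x).1 = x.1 := fun _ _ _ => rfl
  have hevi : ∀ a ha, Function.Injective (ev a ha) := fun a ha =>
    linc_injective (hJ a ha)
  have hevr : ∀ a ha x, x ∈ Set.range (ev a ha) ↔ ∀ p ∈ x.1, p.1 ∈ a.J := fun a ha x =>
    mem_range_linc (hJ a ha) x
  have covT : ∀ T : Set (Lv J), T.Finite → ∃ a, ∃ ha : a ∈ c, T ⊆ Set.range (ev a ha) := by
    intro T hT
    induction T, hT using Set.Finite.induction_on with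
    | empty =>
      obtain ⟨a, ha⟩ := hne
      exact ⟨a, ha, Set.empty_subset _⟩
    | @insert x T _ _ ih =>
      obtain ⟨a, ha, haT⟩ := ih
      obtain ⟨b, hb, hx⟩ := cov x
      obtain ⟨d, hd, had, hbd⟩ := dir a ha b hb
      refine ⟨d, hd, ?_⟩
      rw [Set.insert_subset_iff, hevr d hd]
      refine ⟨fun p hp => hbd.choose (hx p hp), fun z hz => ?_⟩
      rw [hevr d hd]
      intro p hp
      exact had.choose ((hevr a ha z).1 (haT hz) p hp)
  have covTδ : ∀ T : Set (Lv J), T.Finite → ∀ δ ∈ J, ∃ a, ∃ ha : a ∈ c,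
      T ⊆ Set.range (ev a ha) ∧ δ ∈ a.J := by
    intro T hT δ hδ
    obtain ⟨a, ha, haT⟩ := covT T hT
    obtain ⟨b, hb, hδb⟩ := hJ' δ hδ
    obtain ⟨d, hd, had, hbd⟩ := dir a ha b hb
    refine ⟨d, hd, ?_, hbd.choose hδb⟩
    intro z hz
    rw [hevr d hd]
    intro p hp
    exact had.choose ((hevr a ha z).1 (haT hz) p hp)
  have hVr : ∀ a ha, ∀ δ ∈ a.J, Vs J δ ⊆ Set.range (ev a ha) := by
    intro a ha δ hδ x hx
    rw [hevr a ha]
    intro p hp
    exact a.J.lower (hx p hp).le hδ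
  have hVp : ∀ a ha δ, ev a ha ⁻¹' (Vs J δ) = Vs a.J δ := fun _ _ _ => rfl
  have hAp : ∀ a ha δ, ev a ha ⁻¹' (As A J δ) = As A a.J δ := fun _ _ _ => rfl
  refine ⟨{ J := J
            grp := gJ
            lf := ?_
            sub := ?_
            gen := ?_
            real := ?_ }, ?_, ?_⟩
  · apply lf_of_local
    intro T hT
    obtain ⟨a, ha, haT⟩ := covT T hT
    exact ⟨Lv a.J, inferInstance, ev a ha, haT, a.lf⟩
  · intro δ hδ
    obtain ⟨a, ha, hδa⟩ := hJ' δ hδ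
    obtain ⟨V, hV⟩ := a.sub δ hδa
    refine ⟨V.map (ev a ha), ?_⟩
    rw [Subgroup.coe_map, hV, ← hVp a ha, Set.image_preimage_eq_iff]
    exact hVr a ha δ hδa
  · intro δ hδ t
    apply gen_of_local _ _ _ (As_subset A J δ)
    intro T hT
    obtain ⟨a, ha, haT, hδa⟩ := covTδ T hT δ hδ
    exact ⟨Lv a.J, inferInstance, ev a ha, hevi a ha, haT, hVr a ha δ hδa, a.gen δ hδa t⟩
  · intro δ hδ t
    apply real_of_local _ _ _ (As_subset A J δ)
    intro T hT
    obtain ⟨a, ha, haT, hδa⟩ := covTδ T hT δ hδ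
    exact ⟨Lv a.J, inferInstance, ev a ha, hevi a ha, haT, hVr a ha δ hδa, a.real δ hδa t⟩
  · intro a ha
    exact ⟨hJ a ha, hgJ ⟨a, ha⟩⟩
  · intro i
    exact ⟨hJ' i, fun ⟨a, ha, h⟩ => hJ a ha h⟩

end RowW2

section RowW3


open Pool.Agent.Lib.MP_b18e8e_lc_Diamond Pool.ST1

/-- Row W3.  Only the guesses at levels in `J` matter. -/
theorem exists_cast {A A' : Om → Set El} (a : App A) (h : ∀ δ ∈ a.J, A' δ = A δ) :
    ∃ (b : App A') (hJ : b.J = a.J), ∀ x y : Lv a.J,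
      linc hJ.ge (x * y) = linc hJ.ge x * linc hJ.ge y := by
  have e : ∀ δ ∈ a.J, As A' a.J δ = As A a.J δ := by
    intro δ hδ
    unfold As
    rw [h δ hδ]
  refine ⟨{ J := a.J
            grp := a.grp
            lf := a.lf
            sub := a.sub
            gen := fun δ hδ t => by rw [e δ hδ]; exact a.gen δ hδ t
            real := fun δ hδ t => by rw [e δ hδ]; exact a.real δ hδ t }, rfl, fun _ _ => rfl⟩

instance : Nonempty P1 := by
  obtain ⟨j, _⟩ := exists_bound ∅ Set.countable_empty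
  obtain ⟨γ, -, hmin⟩ := WellFounded.has_min (wellFounded_lt (α := Om)) Set.univ ⟨j, trivial⟩
  have huniq : ∀ x : Lv (⊥ : LowerSet Om), x = ⟨none, fun p hp => by cases hp⟩ := by
    rintro ⟨o, ho⟩
    apply Subtype.ext
    rcases o with _ | p
    · rfl
    · exact absurd (ho p rfl) (LowerSet.notMem_bot)
  let e : Lv (⊥ : LowerSet Om) ≃ Unit :=
    { toFun := fun _ => ()
      invFun := fun _ => ⟨none, fun p hp => by cases hp⟩
      left_inv := fun x => (huniq x).symm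
      right_inv := fun _ => rfl }
  let g : Group (Lv (⊥ : LowerSet Om)) := e.group
  have : Finite (Lv (⊥ : LowerSet Om)) := Finite.of_equiv _ e.symm
  exact ⟨{ A := fun _ => ∅
           a := { J := ⊥
                  grp := g
                  lf := lf_of_finite _
                  sub := fun δ hδ => absurd hδ LowerSet.notMem_bot
                  gen := fun δ hδ => absurd hδ LowerSet.notMem_bot
                  real := fun δ hδ => absurd hδ LowerSet.notMem_bot }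
           γ := γ
           hJ := fun i => ⟨fun hi => absurd hi LowerSet.notMem_bot,
             fun hi => absurd hi (hmin i trivial)⟩ }⟩

end RowW3


section RowW4


open Pool.Agent.Lib.MP_b18e8e_lc_Diamond Pool.ST1

/-- Row W4.  Extension by one level with a given guess. -/
theorem ext_level (p : P1) (D : Set El) : ∃ p' ≤ p, p.γ ∈ p'.a.J ∧ p'.A p.γ = D := by
  classical
  have hA : ∀ δ ∈ p.a.J, Function.update p.A p.γ D δ = p.A δ := by
    intro δ hδ
    have hlt := (p.hJ δ).1 hδ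
    exact Function.update_of_ne hlt.ne D p.A
  obtain ⟨b, hJ, hcast⟩ := exists_cast p.a hA
  obtain ⟨b', ⟨hb, hmul⟩, hb'⟩ := exists_ext_Iic b p.γ (fun i => by rw [hJ]; exact p.hJ i)
  obtain ⟨j, hj⟩ := exists_bound {p.γ} (Set.countable_singleton _)
  obtain ⟨γ', hγ', hmin⟩ := WellFounded.has_min (wellFounded_lt (α := Om)) {j | p.γ < j}
    ⟨j, hj p.γ rfl⟩
  have hJ' : ∀ i, i ∈ b'.J ↔ i < γ' := by
    intro i
    rw [hb' i]
    constructor
    · intro hi
      exact lt_of_le_of_lt hi hγ'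
    · intro hi
      by_contra hcon
      exact hmin i (not_le.1 hcon) hi
  refine ⟨⟨Function.update p.A p.γ D, b', γ', hJ'⟩, ?_, ?_, ?_⟩
  · refine ⟨hJ.ge.trans hb, hA, ?_⟩
    intro x y
    change linc hb (linc hJ.ge (x * y)) = linc hb (linc hJ.ge x) * linc hb (linc hJ.ge y)
    rw [hcast, hmul]
  · exact (hb' p.γ).2 le_rfl
  · exact Function.update_self p.γ D p.A

end RowW4

section RowW5


open Pool.Agent.Lib.MP_b18e8e_lc_Diamond

/-- Row W5.  Suprema of sequences. -/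
theorem seq_sup (q : ℕ → P1) (hq : ∀ n, q (n + 1) ≤ q n) :
    ∃ p : P1, (∀ n, p ≤ q n) ∧ ∀ i, i ∈ p.a.J ↔ ∃ n, i ∈ (q n).a.J := by
  classical
  have hanti : Antitone q := antitone_nat_of_succ_le hq
  let A : Om → Set El := fun δ => if h : ∃ n, δ ∈ (q n).a.J then (q (Nat.find h)).A δ else ∅
  have hA : ∀ n, ∀ δ ∈ (q n).a.J, A δ = (q n).A δ := by
    intro n δ hδ
    have h : ∃ n, δ ∈ (q n).a.J := ⟨n, hδ⟩
    have h1 : A δ = (q (Nat.find h)).A δ := dif_pos h
    rw [h1]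
    have h2 : Nat.find h ≤ n := Nat.find_min' h hδ
    obtain ⟨-, h3, -⟩ := hanti h2
    exact (h3 δ (Nat.find_spec h)).symm
  choose b hJ hmul using fun n => exists_cast (A' := A) (q n).a (hA n)
  have hle : ∀ m n, m ≤ n → b m ≤ b n := by
    intro m n hmn
    obtain ⟨h1, -, h2⟩ := hanti hmn
    have h : (b m).J ≤ (b n).J := ((hJ m).le.trans h1).trans (hJ n).ge
    refine ⟨h, fun x y => ?_⟩
    have e1 : x * y = linc (hJ m).ge (linc (hJ m).le x * linc (hJ m).le y) := by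
      rw [hmul m]
      rfl
    have e2 : linc h (x * y) = linc (hJ n).ge (linc h1 (linc (hJ m).le x * linc (hJ m).le y)) := by
      rw [e1]
      rfl
    rw [e2, h2, hmul n]
    rfl
  obtain ⟨c, hc1, hc2⟩ := chain_sup (range b) ⟨_, mem_range_self 0⟩ (by
    rintro _ ⟨m, rfl⟩ _ ⟨n, rfl⟩ -
    rcases le_total m n with h | h
    · exact Or.inl (hle m n h)
    · exact Or.inr (hle n m h))
  have hcJ : ∀ i, i ∈ c.J ↔ ∃ n, i ∈ (q n).a.J := by
    intro i
    rw [hc2]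
    constructor
    · rintro ⟨_, ⟨n, rfl⟩, h⟩
      exact ⟨n, (hJ n).le h⟩
    · rintro ⟨n, h⟩
      exact ⟨b n, ⟨n, rfl⟩, (hJ n).ge h⟩
  have hex : ∃ γ, γ ∉ c.J := by
    obtain ⟨j, hj⟩ := exists_bound (range fun n => (q n).γ) (countable_range _)
    refine ⟨j, fun h => ?_⟩
    obtain ⟨n, hn⟩ := (hcJ j).1 h
    exact lt_asymm (hj _ ⟨n, rfl⟩) (((q n).hJ j).1 hn)
  obtain ⟨γ, hγ, hmin⟩ := WellFounded.has_min (wellFounded_lt (α := Om)) {i | i ∉ c.J} hex
  refine ⟨⟨A, c, γ, fun i => ⟨fun hi => ?_, fun hi => ?_⟩⟩, fun n => ?_, hcJ⟩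
  · by_contra h
    exact hγ (c.J.lower (not_lt.1 h) hi)
  · by_contra h
    exact hmin i h hi
  · obtain ⟨h1, h2⟩ := hc1 (b n) ⟨n, rfl⟩
    refine ⟨(hJ n).ge.trans h1, hA n, fun x y => ?_⟩
    change linc h1 (linc (hJ n).ge (x * y)) = linc h1 (linc (hJ n).ge x) *
      linc h1 (linc (hJ n).ge y)
    rw [hmul n, h2]

end RowW5

section RowW6


open Pool.Agent.Lib.MP_b18e8e_lc_Diamond Pool.ST1

theorem W6_last (p : P1) (i : Om) (h : ∀ j < i, j ∈ p.a.J) : ∃ p' ≤ p, i ∈ p'.a.J := by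
  by_cases hi : i ∈ p.a.J
  · exact ⟨p, le_rfl, hi⟩
  · have h1 : ¬ i < p.γ := fun hlt => hi ((p.hJ i).2 hlt)
    have h2 : ¬ p.γ < i := fun hlt => lt_irrefl _ ((p.hJ p.γ).1 (h _ hlt))
    have h3 : p.γ = i := le_antisymm (not_lt.1 h1) (not_lt.1 h2)
    obtain ⟨p', hp', hγ, -⟩ := ext_level p ∅
    exact ⟨p', hp', h3 ▸ hγ⟩

/-- Row W6. (Well-founded induction on `i`.) -/
theorem ext_dom (p : P1) (i : Om) : ∃ p' ≤ p, i ∈ p'.a.J := by
  have main : ∀ (i : Om) (p : P1), ∃ p' ≤ p, i ∈ p'.a.J := by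
    intro i
    induction i using WellFoundedLT.induction with
    | ind i ih =>
      intro p
      rcases (Set.Iio i).eq_empty_or_nonempty with he | hne
      · apply W6_last
        intro j hj
        have : j ∈ Set.Iio i := hj
        rw [he] at this
        exact absurd this (Set.notMem_empty j)
      · obtain ⟨f, hf⟩ := (countable_Iio i).exists_eq_range hne
        have hfi : ∀ n, f n < i := by
          intro n
          have : f n ∈ Set.Iio i := by
            rw [hf]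
            exact ⟨n, rfl⟩
          exact this
        choose F hF1 hF2 using fun (n : ℕ) (q : P1) => ih (f n) (hfi n) q
        let q : ℕ → P1 := fun n => Nat.rec p (fun n q => F n q) n
        have hq : ∀ n, q (n + 1) ≤ q n := fun n => hF1 n (q n)
        obtain ⟨r, hr, hrJ⟩ := seq_sup q hq
        obtain ⟨p', hp', hi⟩ := W6_last r i (by
          intro j hj
          have : j ∈ Set.Iio i := hj
          rw [hf] at this
          obtain ⟨n, rfl⟩ := this
          exact (hrJ _).2 ⟨n + 1, hF2 n (q n)⟩)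
        exact ⟨p', hp'.trans (hr 0), hi⟩
  exact main i p

end RowW6

section RowW7


open Pool.Agent.Lib.MP_b18e8e_lc_Diamond

/-- Row W7. -/
theorem mul_mono {p q : P1} (h : p ≤ q) {x y z : El} (hm : q.mul x y z) : p.mul x y z := by
  obtain ⟨h1, -, h2⟩ := h
  obtain ⟨hx, hy, he⟩ := hm
  refine ⟨fun r hr => h1 (hx r hr), fun r hr => h1 (hy r hr), ?_⟩
  have h3 := h2 (q.el x hx) (q.el y hy)
  exact (congrArg Subtype.val h3).symm.trans he

/-- Row W7. -/
theorem mul_func {q : P1} {x y z z' : El} (h : q.mul x y z) (h' : q.mul x y z') : z = z' := by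
  obtain ⟨hx, hy, he⟩ := h
  obtain ⟨hx', hy', he'⟩ := h'
  exact he.symm.trans he'

/-- Extend so that the element `x` is in the domain. -/
theorem W7_lev (q : P1) (x : El) : ∃ q' ≤ q, Lev q'.a.J x := by
  rcases x with _ | p
  · exact ⟨q, le_rfl, fun p hp => by cases hp⟩
  · obtain ⟨q', hq', h⟩ := ext_dom q p.1
    refine ⟨q', hq', fun r hr => ?_⟩
    cases hr
    exact h

theorem W7_lev_mono {p q : P1} (h : p ≤ q) {x : El} (hx : Lev q.a.J x) : Lev p.a.J x :=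
  fun r hr => h.choose (hx r hr)

/-- Row W7. -/
theorem mul_tot (q : P1) (x y : El) : ∃ q' ≤ q, ∃ z, q'.mul x y z := by
  obtain ⟨q1, h1, hx⟩ := W7_lev q x
  obtain ⟨q2, h2, hy⟩ := W7_lev q1 y
  exact ⟨q2, h2.trans h1, _, W7_lev_mono h2 hx, hy, rfl⟩

/-- Row W7. -/
theorem mul_assoc' {q : P1} {x y z a b c : El} (h1 : q.mul x y a) (h2 : q.mul y z b)
    (h3 : q.mul a z c) : q.mul x b c := by
  obtain ⟨hx, hy, he1⟩ := h1
  obtain ⟨hy2, hz, he2⟩ := h2
  obtain ⟨ha, hz2, he3⟩ := h3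
  have hb : Lev q.a.J b := by
    rw [← he2]
    exact (q.el y hy * q.el z hz).2
  refine ⟨hx, hb, ?_⟩
  have e1 : q.el a ha = q.el x hx * q.el y hy := Subtype.ext he1.symm
  have e2 : q.el b hb = q.el y hy * q.el z hz := Subtype.ext he2.symm
  rw [e2, ← mul_assoc, ← e1]
  exact he3

/-- The unit is `none` as soon as the least level is in the domain. -/
theorem W7_one {q : P1} {i : Om} (hi : i ∈ q.a.J) (hmin : ∀ j, ¬ j < i) :
    (1 : Lv q.a.J).1 = none := by
  obtain ⟨V, hV⟩ := q.a.sub i hi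
  have h1 : (1 : Lv q.a.J) ∈ Vs q.a.J i := by
    rw [← hV]
    exact V.one_mem
  rcases h : (1 : Lv q.a.J).1 with _ | p
  · rfl
  · exact absurd (h1 p h) (hmin _)

theorem W7_bot : ∃ i : Om, ∀ j, ¬ j < i := by
  obtain ⟨j, -⟩ := exists_bound ∅ countable_empty
  obtain ⟨i, -, hi⟩ := WellFounded.has_min (wellFounded_lt (α := Om)) univ ⟨j, mem_univ _⟩
  exact ⟨i, fun j => hi j (mem_univ _)⟩

theorem W7_ext (q : P1) (x : El) : ∃ q' ≤ q, Lev q'.a.J x ∧ (1 : Lv q'.a.J).1 = none := by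
  obtain ⟨i, hi⟩ := W7_bot
  obtain ⟨q1, h1, hx⟩ := W7_lev q x
  obtain ⟨q2, h2, hq2⟩ := ext_dom q1 i
  exact ⟨q2, h2.trans h1, W7_lev_mono h2 hx, W7_one hq2 hi⟩

theorem W7_none (J : LowerSet Om) : Lev J none := fun p hp => by cases hp

/-- Row W7. The unit is `none` (the elements of level below the first level form a subgroup). -/
theorem mul_unit (q : P1) (x : El) : ∃ q' ≤ q, q'.mul none x x ∧ q'.mul x none x := by
  obtain ⟨q', hq', hx, h1⟩ := W7_ext q x
  have e : q'.el none (W7_none _) = 1 := Subtype.ext h1.symm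
  refine ⟨q', hq', ⟨W7_none _, hx, ?_⟩, ⟨hx, W7_none _, ?_⟩⟩
  · rw [e, one_mul]
    rfl
  · rw [e, mul_one]
    rfl

/-- Row W7. -/
theorem mul_inv' (q : P1) (x : El) : ∃ q' ≤ q, ∃ y, q'.mul x y none ∧ q'.mul y x none := by
  obtain ⟨q', hq', hx, h1⟩ := W7_ext q x
  refine ⟨q', hq', ((q'.el x hx)⁻¹).1, ⟨hx, ((q'.el x hx)⁻¹).2, ?_⟩,
    ⟨((q'.el x hx)⁻¹).2, hx, ?_⟩⟩
  · change (q'.el x hx * (q'.el x hx)⁻¹).1 = none
    rw [mul_inv_cancel, h1]
  · change ((q'.el x hx)⁻¹ * q'.el x hx).1 = none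
    rw [inv_mul_cancel, h1]

end RowW7






section RowW8


open Pool.Agent.Lib.MP_b18e8e_lc_Diamond Pool.ST1

/-- Row W8.  No new countable sequences: values of a name of a sequence are bounded below a stronger
condition (σ-closed by `seq_sup`). -/
theorem bound_seq {G : P1 → ℕ → Om → Prop} (r : P1)
    (mono : ∀ q q' n ξ, q' ≤ q → G q n ξ → G q' n ξ)
    (func : ∀ q ≤ r, ∀ n ξ ξ', G q n ξ → G q n ξ' → ξ = ξ') :
    ∃ r' ≤ r, ∃ δ : Om, ∀ q ≤ r', ∀ n ξ, G q n ξ → ξ < δ := by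
  classical
  have step : ∀ (n : ℕ) (q : P1), ∃ q' ≤ q, (∃ ξ, G q' n ξ) ∨ ∀ q'' ≤ q, ∀ ξ, ¬ G q'' n ξ := by
    intro n q
    by_cases h : ∃ q' ≤ q, ∃ ξ, G q' n ξ
    · obtain ⟨q', hq', ξ, hξ⟩ := h
      exact ⟨q', hq', Or.inl ⟨ξ, hξ⟩⟩
    · refine ⟨q, le_rfl, Or.inr ?_⟩
      intro q'' hq'' ξ hξ
      exact h ⟨q'', hq'', ξ, hξ⟩
  choose F hF1 hF2 using step
  let q : ℕ → P1 := fun n => Nat.rec r (fun n q => F n q) n
  have hq : ∀ n, q (n + 1) ≤ q n := fun n => hF1 n (q n)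
  have hq2 : ∀ n, (∃ ξ, G (q (n + 1)) n ξ) ∨ ∀ q'' ≤ q n, ∀ ξ, ¬ G q'' n ξ := fun n => hF2 n (q n)
  obtain ⟨r', hr', -⟩ := seq_sup q hq
  have hr0 : r' ≤ r := hr' 0
  let B : Set Om := ⋃ n : ℕ, {ξ | G r' n ξ}
  have hB : B.Countable := by
    apply Set.countable_iUnion
    intro n
    apply Set.Subsingleton.countable
    intro ξ hξ ξ' hξ'
    exact func r' hr0 n ξ ξ' hξ hξ'
  obtain ⟨δ, hδ⟩ := exists_bound B hB
  refine ⟨r', hr0, δ, ?_⟩
  intro p hp n ξ hξ
  rcases hq2 n with ⟨ξ', hξ'⟩ | hno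
  · have h1 : G r' n ξ' := mono _ _ n ξ' (hr' (n + 1)) hξ'
    have h2 : G p n ξ' := mono _ _ n ξ' hp h1
    have h3 : ξ = ξ' := func p (hp.trans hr0) n ξ ξ' hξ h2
    rw [h3]
    exact hδ ξ' (Set.mem_iUnion.2 ⟨n, h1⟩)
  · exact absurd hξ (hno p (hp.trans (hr' n)) ξ)

end RowW8

/-- A task: a finite tuple and a type over it. -/
abbrev Tk : Type := Σ n : ℕ, (Fin n → El) × Subgroup (FreeGroup (Fin n ⊕ Fin 1))

/-- `z` realises the task `t` in the group of `q`. -/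
def Rlz (q : P1) (t : Tk) (z : El) : Prop :=
  ∃ (hb : ∀ i, Lev q.a.J (t.2.1 i)) (hz : Lev q.a.J z),
    tp (Sum.elim (fun i => q.el (t.2.1 i) (hb i)) (fun _ : Fin 1 => q.el z hz)) = t.2.2

section RowW9a


open Pool.Agent.Lib.MP_b18e8e_lc_Diamond

theorem w9a_countable_lev (q : P1) : {x : El | Lev q.a.J x}.Countable := by
  have h1 : (Set.Iio q.γ ×ˢ (Set.univ : Set ℕ)).Countable :=
    (countable_Iio q.γ).prod Set.countable_univ
  have h2 : (insert none (some '' (Set.Iio q.γ ×ˢ (Set.univ : Set ℕ))) : Set El).Countable :=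
    (h1.image _).insert _
  refine h2.mono ?_
  rintro (_ | p) hx
  · exact Set.mem_insert _ _
  · exact Set.mem_insert_of_mem _ ⟨p, ⟨(q.hJ p.1).1 (hx p rfl), Set.mem_univ _⟩, rfl⟩

/-- The tasks with parameters in the group of `q`. -/
def w9a_TS (q : P1) : Set Tk :=
  {t | (∀ i, Lev q.a.J (t.2.1 i)) ∧ t.2.2 ∈ finTypes (Fin t.1 ⊕ Fin 1)}

theorem w9a_countable_TS (q : P1) : (w9a_TS q).Countable := by
  have h1 : w9a_TS q ⊆ ⋃ n : ℕ, (fun c => (⟨n, c⟩ : Tk)) ''
      ((Set.pi Set.univ fun _ : Fin n => {x : El | Lev q.a.J x}) ×ˢ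
        finTypes (Fin n ⊕ Fin 1)) := by
    rintro ⟨n, b, N⟩ ⟨hb, hN⟩
    refine Set.mem_iUnion.2 ⟨n, (b, N), ⟨fun i _ => hb i, hN⟩, rfl⟩
  refine Set.Countable.mono h1 (Set.countable_iUnion fun n => Set.Countable.image ?_ _)
  exact (Set.countable_univ_pi fun _ => w9a_countable_lev q).prod (countable_finTypes _)

theorem w9a_exists_enum (q : P1) : ∃ e : ℕ → Tk, ∀ t ∈ w9a_TS q, ∃ k, e k = t := by
  rcases (w9a_TS q).eq_empty_or_nonempty with h0 | hne
  · refine ⟨fun _ => ⟨0, fun _ => none, ⊤⟩, ?_⟩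
    intro t ht
    rw [h0] at ht
    exact absurd ht (Set.notMem_empty t)
  · obtain ⟨e, he⟩ := (w9a_countable_TS q).exists_eq_range hne
    refine ⟨e, fun t ht => ?_⟩
    rw [he] at ht
    exact ht

/-- Row W9a.  Fusion with bookkeeping: all tasks with parameters in the union and with types in
`finTypes` are decided along a sequence with union `p`. -/
theorem fusion (r : P1) {h : P1 → El → Prop} (mono : ∀ q q' x, q' ≤ q → h q x → h q' x) :
    ∃ (q : ℕ → P1) (p : P1), q 0 = r ∧ (∀ n, q (n + 1) ≤ q n) ∧ (∀ n, p ≤ q n) ∧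
      (∀ i, i ∈ p.a.J ↔ ∃ n, i ∈ (q n).a.J) ∧
      ∀ t : Tk, (∀ i, Lev p.a.J (t.2.1 i)) → t.2.2 ∈ finTypes (Fin t.1 ⊕ Fin 1) →
        (∃ n z, h (q n) z ∧ Rlz (q n) t z) ∨ ∃ n, ∀ q' ≤ q n, ∀ z, h q' z → ¬ Rlz q' t z := by
  classical
  choose en hen using w9a_exists_enum
  have hstep : ∀ (q : P1) (t : Tk), ∃ q' ≤ q, (∃ z, h q' z ∧ Rlz q' t z) ∨
      ∀ q'' ≤ q, ∀ z, h q'' z → ¬ Rlz q'' t z := by
    intro q t
    by_cases hc : ∃ q' ≤ q, ∃ z, h q' z ∧ Rlz q' t z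
    · obtain ⟨q', hq', hz⟩ := hc
      exact ⟨q', hq', Or.inl hz⟩
    · refine ⟨q, le_rfl, Or.inr ?_⟩
      intro q'' hq'' z hz hR
      exact hc ⟨q'', hq'', z, hz, hR⟩
  choose step hstep1 hstep2 using hstep
  let S : ℕ → ℕ → P1 := fun n => Nat.rec (fun _ => r)
    (fun n f => Function.update f (n + 1)
      (step (f n) (en (f (Nat.unpair n).1) (Nat.unpair n).2))) n
  have hS0 : S 0 = fun _ => r := rfl
  have hS1 : ∀ n, S (n + 1) = Function.update (S n) (n + 1)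
      (step (S n n) (en (S n (Nat.unpair n).1) (Nat.unpair n).2)) := fun _ => rfl
  have hS : ∀ n m, m ≤ n → S n m = S m m := by
    intro n
    induction n with
    | zero =>
      intro m hm
      rw [Nat.le_zero.1 hm]
    | succ n ih =>
      intro m hm
      rcases Nat.lt_or_ge n m with h1 | h1
      · rw [le_antisymm hm h1]
      · rw [hS1, Function.update_of_ne (by omega)]
        exact ih m h1
  have hq : ∀ n, S (n + 1) (n + 1) =
      step (S n n) (en (S (Nat.unpair n).1 (Nat.unpair n).1) (Nat.unpair n).2) := by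
    intro n
    rw [hS1, Function.update_self, hS n _ (Nat.unpair_left_le n)]
  have hdec : ∀ n, S (n + 1) (n + 1) ≤ S n n := by
    intro n
    rw [hq]
    exact hstep1 _ _
  obtain ⟨p, hp1, hp2⟩ := seq_sup (fun n => S n n) hdec
  refine ⟨fun n => S n n, p, rfl, hdec, hp1, hp2, ?_⟩
  have hanti : Antitone (fun n => S n n) := antitone_nat_of_succ_le hdec
  intro t ht1 ht2
  -- a common stage of the parameters
  have hm : ∃ m, ∀ i, Lev (S m m).a.J (t.2.1 i) := by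
    have h1 : ∀ i, ∃ m, Lev (S m m).a.J (t.2.1 i) := by
      intro i
      have h2 := ht1 i
      generalize t.2.1 i = o at h2
      rcases o with _ | x
      · exact ⟨0, fun p hp => by cases hp⟩
      · obtain ⟨m, hm⟩ := (hp2 x.1).1 (h2 x rfl)
        refine ⟨m, ?_⟩
        intro p' hp'
        cases hp'
        exact hm
    choose f hf using h1
    obtain ⟨m, hm⟩ := (Set.finite_range f).bddAbove
    refine ⟨m, fun i p' hp' => ?_⟩
    have h3 : S m m ≤ S (f i) (f i) := hanti (hm ⟨i, rfl⟩)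
    exact h3.choose (hf i p' hp')
  obtain ⟨m, hm⟩ := hm
  obtain ⟨k, hk⟩ := hen (S m m) t ⟨hm, ht2⟩
  have h4 := hq (Nat.pair m k)
  rw [Nat.unpair_pair] at h4
  dsimp only at h4
  rw [hk] at h4
  rcases hstep2 (S (Nat.pair m k) (Nat.pair m k)) t with hz | hn
  · left
    obtain ⟨z, hz1, hz2⟩ := hz
    refine ⟨Nat.pair m k + 1, z, ?_, ?_⟩
    · rw [← h4] at hz1
      exact hz1
    · rw [← h4] at hz2
      exact hz2
  · right
    exact ⟨Nat.pair m k, hn⟩

end RowW9a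

section RowW9b


open Pool.Agent.Lib.MP_b18e8e_lc_Diamond Pool.ST1

theorem w9b_le_trans {a b c : P1} (h : a ≤ b) (g : b ≤ c) : a ≤ c := le_trans h g

/-- The inclusion homomorphism of an extension. -/
theorem w9b_hom {p q : P1} (h : p ≤ q) : ∃ φ : Lv q.a.J →* Lv p.a.J, Function.Injective φ ∧
    ∀ x, (φ x).1 = x.1 := by
  obtain ⟨h1, _, h3⟩ := h
  exact ⟨MonoidHom.mk' (linc h1) h3, linc_injective h1, fun _ => rfl⟩

theorem bounded_good {r : P1} {h : P1 → El → Prop} (mono : ∀ q q' x, q' ≤ q → h q x → h q' x)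
    (good : ∀ q ≤ r, ∀ x y z g, h q x → h q y → h q z → q.mul x g y → q.mul y g z → x = z) :
    ∃ r' ≤ r, ∃ δ : Om, ∀ q ≤ r', ∀ x, h q x → ∀ p ∈ x, p.1 < δ := by
  classical
  obtain ⟨q, p, hq0, hqd, hpq, hpJ, htask⟩ := fusion r mono
  obtain ⟨p', hp'p, hδp', hAp'⟩ := ext_level p {z | ∃ n, h (q n) z}
  have hpr : p ≤ r := hq0 ▸ hpq 0
  refine ⟨p', w9b_le_trans hp'p hpr, p.γ, ?_⟩
  intro q' hq' y₀ hy₀ p₀ hp₀
  by_contra hcon
  obtain ⟨q₂, hq₂, hi⟩ := ext_dom q' p₀.1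
  have hq₂p' : q₂ ≤ p' := w9b_le_trans hq₂ hq'
  have hq₂p : q₂ ≤ p := w9b_le_trans hq₂p' hp'p
  have hq₂r : q₂ ≤ r := w9b_le_trans hq₂p hpr
  have hyq₂ : h q₂ y₀ := mono _ _ _ hq₂ hy₀
  set δ := p.γ with hδdef
  set a := q₂.a with ha
  have hδJ : δ ∈ a.J := by
    obtain ⟨h1, _, _⟩ := hq₂p'
    exact h1 hδp'
  have hAδ : q₂.A δ = {z | ∃ n, h (q n) z} := by
    obtain ⟨_, h2, _⟩ := hq₂p'
    rw [h2 δ hδp', hAp']
  have hylev : ∀ t ∈ y₀, t.1 ∈ a.J := by
    intro t ht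
    rw [Option.mem_def] at ht hp₀
    rw [hp₀] at ht
    cases ht
    exact hi
  let y : Lv a.J := ⟨y₀, hylev⟩
  have hyV : y ∉ Vs a.J δ := fun hy => hcon (hy p₀ hp₀)
  have hAs : ∀ x : Lv a.J, x ∈ As q₂.A a.J δ → h q₂ x.1 := by
    rintro x ⟨_, h2⟩
    rw [hAδ] at h2
    obtain ⟨n, hn⟩ := h2
    exact mono _ _ _ (w9b_le_trans hq₂p (hpq n)) hn
  have hE1 : ∀ (n : ℕ) (b : Fin n → Lv a.J), (∀ m, b m ∈ Vs a.J δ) → ∃ z : Lv a.J,
      z ∈ As q₂.A a.J δ ∧ tp (Sum.elim b (fun _ : Fin 1 => z)) =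
        tp (Sum.elim b (fun _ : Fin 1 => y)) := by
    intro n b hb
    let t : Tk := ⟨n, (fun i => (b i).1, tp (Sum.elim b (fun _ : Fin 1 => y)))⟩
    have hlev : ∀ i, Lev p.a.J (t.2.1 i) := by
      intro i s hs
      exact (p.hJ s.1).2 (hb i s hs)
    have hfin : t.2.2 ∈ finTypes (Fin t.1 ⊕ Fin 1) :=
      tp_mem_finTypes _ (a.lf _ (Set.finite_range _))
    rcases htask t hlev hfin with ⟨m, z, hz, hb', hz', htp⟩ | ⟨m, hm⟩
    · have hzδ : ∀ s ∈ z, s.1 < δ := by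
        intro s hs
        exact (p.hJ s.1).1 ((hpJ s.1).2 ⟨m, hz' s hs⟩)
      obtain ⟨φ, hφ, hφv⟩ := w9b_hom (w9b_le_trans hq₂p (hpq m))
      let z₁ : Lv a.J := ⟨z, fun s hs => a.J.lower (hzδ s hs).le hδJ⟩
      refine ⟨z₁, ⟨hzδ, ?_⟩, ?_⟩
      · rw [hAδ]
        exact ⟨m, hz⟩
      · have h1 : tp (Sum.elim b (fun _ : Fin 1 => y)) = t.2.2 := rfl
        rw [h1, ← htp, ← tp_map φ hφ]
        congr 1
        funext s
        rcases s with i | i
        · exact Subtype.ext (hφv ((q m).el (t.2.1 i) (hb' i))).symm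
        · exact Subtype.ext (hφv ((q m).el z hz')).symm
    · exfalso
      refine hm q₂ (w9b_le_trans hq₂p (hpq m)) y₀ hyq₂ ⟨fun i => (b i).2, hylev, rfl⟩
  obtain ⟨V, hV⟩ := a.sub δ hδJ
  have hclos : ∀ {n : ℕ} (b : Fin n → Lv a.J), (∀ m, b m ∈ Vs a.J δ) →
      y ∉ Subgroup.closure (Set.range b) := by
    intro n b hb h
    apply hyV
    rw [← hV]
    refine (?_ : Subgroup.closure (Set.range b) ≤ V) h
    rw [Subgroup.closure_le, hV]
    rintro _ ⟨m, rfl⟩
    exact hb m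
  obtain ⟨n, b, hb⟩ := exists_enum {x : Lv a.J | x ∈ Subgroup.closure {y} ∧ x ∈ Vs a.J δ}
    ((a.lf {y} (Set.finite_singleton y)).subset fun x hx => hx.1)
  have hbadm : Adm (Vs a.J δ) b y := by
    refine ⟨Subgroup.closure {y}, a.lf {y} (Set.finite_singleton y),
      Subgroup.subset_closure rfl, ?_, ?_⟩
    · intro i
      have : b i ∈ {x : Lv a.J | x ∈ Subgroup.closure {y} ∧ x ∈ Vs a.J δ} := hb ▸ ⟨i, rfl⟩
      exact this
    · intro e he heV
      have : e ∈ Set.range b := hb ▸ ⟨he, heV⟩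
      exact this
  have R0 : ∀ (n : ℕ) (b : Fin n → Lv a.J), Adm (Vs a.J δ) b y →
      (∃ x : Fin 2 → Lv a.J, (∀ i, x i ∈ As q₂.A a.J δ) ∧
        tp (Sum.elim b (sn x y)) = sT (sn (![3, 1] : Fin 2 → ZMod 4) 0) b y) ∨
      ∃ (m : ℕ) (b' : Fin m → Lv a.J), Adm (Vs a.J δ) b' y ∧ ∀ x : Fin 2 → Lv a.J,
        (∀ i, x i ∈ As q₂.A a.J δ) → tp (Sum.elim b' x) ≠ sT (![3, 1] : Fin 2 → ZMod 4) b' y :=
    fun n b hb => a.real δ hδJ false y hyV n b hb
  have R1 : ∀ (n : ℕ) (b : Fin n → Lv a.J), Adm (Vs a.J δ) b y →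
      (∃ x : Fin 1 → Lv a.J, (∀ i, x i ∈ As q₂.A a.J δ) ∧
        tp (Sum.elim b (sn x y)) = sT (sn (![2] : Fin 1 → ZMod 4) 0) b y) ∨
      ∃ (m : ℕ) (b' : Fin m → Lv a.J), Adm (Vs a.J δ) b' y ∧ ∀ x : Fin 1 → Lv a.J,
        (∀ i, x i ∈ As q₂.A a.J δ) → tp (Sum.elim b' x) ≠ sT (![2] : Fin 1 → ZMod 4) b' y :=
    fun n b hb => a.real δ hδJ true y hyV n b hb
  rcases R0 n b hbadm with ⟨x, hx, hx'⟩ | ⟨m, b', hb', hneg⟩
  · -- a bad triple
    obtain ⟨_, _, _, h2, _⟩ := hbadm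
    obtain ⟨h3, h4⟩ := bad_of_sT b x y (hclos b fun i => (h2 i).2) hx'
    apply h4
    apply Subtype.ext
    refine good q₂ hq₂r (x 0).1 y₀ (x 1).1 ((x 0)⁻¹ * y).1 (hAs _ (hx 0)) hyq₂ (hAs _ (hx 1))
      ⟨(x 0).2, ((x 0)⁻¹ * y).2, ?_⟩ ⟨hylev, ((x 0)⁻¹ * y).2, ?_⟩
    · have : x 0 * ((x 0)⁻¹ * y) = y := by group
      exact congrArg Subtype.val this
    · have : y * ((x 0)⁻¹ * y) = x 1 := by rw [h3]; group
      exact congrArg Subtype.val this
  · obtain ⟨_, _, _, hb'V, _⟩ := id hb'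
    rcases R1 m b' hb' with ⟨x, hx, hx'⟩ | ⟨m', b'', hb'', hneg'⟩
    · -- a special pair
      have hx0 := hx 0
      have e1 : tp (Sum.elim b' ![x 0, y]) = sT (![3, 1] : Fin 2 → ZMod 4) b' y := by
        have e2 : sn x y = ![x 0, y] := by
          funext i
          fin_cases i <;> rfl
        have e3 : (![3, 1] : Fin 2 → ZMod 4) =
            fun i => 1 + (sn (![2] : Fin 1 → ZMod 4) 0 : Fin 2 → ZMod 4) i := by
          funext i
          fin_cases i <;> rfl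
        rw [e3, sT_shift]
        rw [← e2]
        exact hx'
      obtain ⟨z, hz, hz'⟩ := hE1 (m + 1) (sn b' (x 0)) (by
        intro i
        refine Fin.lastCases ?_ ?_ i
        · rw [sn_last]
          exact hx0.1
        · intro i
          rw [sn_castSucc]
          exact (hb'V i).2)
      have e4 := tp_shift b' (x 0) y z hz'
      apply hneg ![x 0, z] ?_ (e4.trans e1)
      intro i
      fin_cases i
      · exact hx0
      · exact hz
    · obtain ⟨_, _, _, hb''V, _⟩ := id hb''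
      obtain ⟨z, hz, hz'⟩ := hE1 m' b'' (fun i => (hb''V i).2)
      apply hneg' (fun _ => z) (fun _ => hz)
      rw [sT_one]
      exact hz'

end RowW9b

end Pool.ST1
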