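import Pool.Agent.Lib.ST.V1
import Pool.Agent.Lib.ST.NDefs
import Pool.Agent.Lib.MP_ad72f3_pc.Nm
import Pool.Agent.Lib.MP_ad72f3_pc.ZFg
import Pool.Agent.Lib.MP_9fc97b_ut.Cho

/-!
# ST: a ctm with a strange group of cardinality `ℵ₁` (N-side, rows Y1-Y6)
-/

set_option autoImplicit false
set_option linter.unusedSectionVars false

open Set Cardinal

namespace Pool.ST1

open Pool.PC Pool.ST
open Pool.Agent.Lib.MP_b18e8e_lc_Diamond (Om)
open Pool.MP_3ade05_lc (Name)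

/-- The forcing notion. -/
abbrev PQ : Type 1 := ULift.{1} P1

instance : Preorder PQ where
  le a b := a.down ≤ b.down
  le_refl _ := le_rfl
  le_trans _ _ _ h h' := le_trans (α := P1) h h'

/-- The first uncountable ordinal. -/
noncomputable def wo : Ordinal.{0} := (ℵ₁ : Cardinal.{0}).ord

/-- The ordinal of an element of `Om = wo.ToType`. -/
noncomputable def oo (i : Om) : Ordinal.{0} := (Ordinal.ToType.toOrd (o := wo) i).1

section RowY1
set_option linter.unusedSectionVars false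

open Pool.PC Pool.ST Pool.ST1
open Pool.Agent.Lib.MP_b18e8e_lc_Diamond (Om mk_Om)
open Pool.MP_3ade05_lc (Name)

/-- Row Y1. -/
instance : Small.{0} PQ := Small.mk' Equiv.ulift

/-- Row Y1. -/
theorem lt_wo {ξ : Ordinal.{0}} : ξ < wo ↔ ∃ i : Om, ξ = oo i := by
  constructor
  · intro h
    refine ⟨(Ordinal.ToType.mk ⟨ξ, h⟩ : wo.ToType), ?_⟩
    show ξ = (Ordinal.ToType.toOrd (Ordinal.ToType.mk ⟨ξ, h⟩ : wo.ToType)).1
    simp [Ordinal.ToType.toOrd]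
  · rintro ⟨i, rfl⟩
    exact (Ordinal.ToType.toOrd (o := wo) i).2

/-- Row Y1. -/
theorem oo_lt {i j : Om} : oo i < oo j ↔ i < j := by
  unfold oo
  rw [Subtype.coe_lt_coe]
  exact (Ordinal.ToType.mk (o := wo)).symm.lt_iff_lt

/-- Row Y1. A coding of the elements. -/
theorem exists_eo : Nonempty (El ≃ Om) := by
  have hcard : #(Option (Om × ℕ)) = #Om := by
    rw [Cardinal.mk_option, Cardinal.mk_prod, mk_Om]
    simp
  exact Cardinal.eq.1 hcard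

end RowY1



section RowY2
set_option linter.unusedSectionVars false

open Pool.PC Pool.ST Pool.ST1
open Pool.Agent.Lib.MP_b18e8e_lc_Diamond (Om)
open Pool.MP_3ade05_lc (Name)

theorem Y2_card {δ : Ordinal.{0}} (h : δ < wo) : δ.card ≤ ℵ₀ := by
  have h1 : δ.card < ℵ₁ := Cardinal.lt_ord.1 h
  have h2 : δ.card < Order.succ ℵ₀ := by
    rw [Cardinal.succ_aleph0]
    exact h1
  exact Order.lt_succ_iff.1 h2

theorem Y2_omega_lt : Ordinal.omega0 < wo := by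
  unfold wo
  rw [← Cardinal.ord_aleph0]
  exact Cardinal.ord_lt_ord.2 Cardinal.aleph0_lt_aleph_one

theorem Y2_infCard {U : Set (Name PQ)} {H : Set PQ} (hB : Base U H)
    {α : Ordinal.{0}} (hα : ordN _ α ∈ U) (hω : Ordinal.omega0 ≤ α)
    (h : ∀ δ < α, ordN _ δ ∈ U → ∀ f ∈ MM U H, FunOn f (Name.val U H (ordN _ δ)) →
      ∃ y ∈ Name.val U H (ordN _ α), ∀ x ∈ Name.val U H (ordN _ δ), ZFSet.pair x y ∉ f) :
    InfCard (MM U H) (Name.val U H (ordN _ α)) where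
  mem := ⟨ordN _ α, mem_univ _, hα, rfl⟩
  ord := isOrdinal_val_ordN hB α
  inf := by
    rw [← val_ordN_omega hB]
    exact (val_ordN_subset_iff hB hB.omega hα).2 hω
  card := by
    intro a ha f hf hfa
    obtain ⟨δ, hδ, hδU, rfl⟩ := (mem_val_ordN hB).1 ha
    exact h δ hδ hδU f hf hfa

/-- Row Y2.  `wo` is the first uncountable cardinal of the hull (`Ev.no_surj` with `bound_seq`,
`Ev.ground_surj`). -/
theorem Ev.nextCard_wo : Ev (P := PQ) (fun U H => ordN PQ wo ∈ U ∧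
    NextCard (MM U H) ZFSet.omega (Name.val U H (ordN PQ wo))) := by
  refine (((Pool.PC.Ev.base (P := PQ)).and (Pool.PC.Ev.op (P := PQ) (n := 0)
    (fun _ => ordN PQ wo))).and ((Pool.PC.Ev.no_surj (P := PQ)).and
      (Pool.PC.Ev.ground_surj (P := PQ)))).mono ?_
  rintro U H ⟨⟨hB, hwo'⟩, hns, hgs⟩
  have hwo : ordN PQ wo ∈ U := hwo' Fin.elim0 (fun i => i.elim0)
  refine ⟨hwo, ?_⟩
  have hI : InfCard (MM U H) (Name.val U H (ordN PQ wo)) := by
    refine Y2_infCard hB hwo Y2_omega_lt.le ?_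
    intro δ hδ hδU f hf hfa
    obtain ⟨p₀, hp₀⟩ := hB.filt.ne
    refine hns δ wo hδU hwo ⟨p₀, hp₀, ?_⟩ f hf hfa
    intro p _ R hmono huniq
    have hc : Countable δ.ToType := by
      rw [← Cardinal.mk_le_aleph0_iff]
      simpa using Y2_card hδ
    obtain ⟨enc, henc⟩ := hc.exists_injective_nat
    obtain ⟨r', hr', b, hb⟩ := bound_seq
      (G := fun q n ξ => ∃ a : δ.ToType, enc a = n ∧ R (ULift.up q) a ξ) p.down
      (by
        rintro q q' n ξ hq ⟨a, ha, hR⟩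
        exact ⟨a, ha, hmono (ULift.up q) (ULift.up q') a ξ hq hR⟩)
      (by
        rintro q hq n ξ ξ' ⟨a, ha, hR⟩ ⟨a', ha', hR'⟩
        have e : a = a' := henc (ha.trans ha'.symm)
        subst e
        exact huniq (ULift.up q) hq a ξ ξ' hR hR')
    refine ⟨ULift.up r', hr', b, ?_⟩
    intro q' hq' a hR
    exact lt_irrefl b (hb q'.down hq' (enc a) b ⟨a, rfl, hR⟩)
  refine ⟨hI, ?_, ?_⟩
  · rw [← val_ordN_omega hB]
    exact (val_ordN_mem_iff hB hB.omega hwo).2 Y2_omega_lt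
  · intro d hd hId
    rw [← val_ordN_omega hB]
    obtain ⟨δ, hδ, hδU, rfl⟩ := (mem_val_ordN hB).1 hd
    rcases lt_trichotomy δ Ordinal.omega0 with h1 | h1 | h1
    · exact Or.inl ((val_ordN_mem_iff hB hδU hB.omega).2 h1)
    · exact Or.inr (by rw [h1])
    · exfalso
      obtain ⟨f, hf1, hf2, hf3⟩ := hgs Ordinal.omega0 δ hB.omega hδU
        (by rintro rfl; simp at h1)
        (by rw [Ordinal.card_omega0]; exact Y2_card hδ)
      obtain ⟨y, hy, hy'⟩ := hId.card _ ((val_ordN_mem_iff hB hB.omega hδU).2 h1) f hf1 hf2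
      obtain ⟨x, hx, hxy⟩ := hf3 y hy
      exact hy' x hx hxy

end RowY2


/-- The coding of the elements by elements of `Om`. -/
noncomputable def eo : El ≃ Om := exists_eo.some

/-- The name of the multiplication. -/
noncomputable def mN : Name PQ := Name.mk ((Om × Om) × Om)
  (fun x => oN (oN (ordN PQ (oo x.1.1)) (ordN PQ (oo x.1.2))) (ordN PQ (oo x.2)))
  (fun x => ⟨{q | q.down.mul (eo.symm x.1.1) (eo.symm x.1.2) (eo.symm x.2)},
    fun _ _ hba h => mul_mono hba h⟩)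

section RowY3
set_option linter.unusedSectionVars false

open Pool.PC Pool.ST Pool.ST1
open Pool.Agent.Lib.MP_b18e8e_lc_Diamond (Om)
open Pool.MP_3ade05_lc (Name)

theorem Y3_mem {U : Set (Name PQ)} {H : Set PQ} (hB : Base U H)
    (hp : ∀ σ τ : Name PQ, oN σ τ ∈ U → σ ∈ U ∧ τ ∈ U) (x y z : ZFSet.{0}) :
    ZFSet.pair (ZFSet.pair x y) z ∈ Name.val U H mN ↔ ∃ i j k : Om, ordN PQ (oo i) ∈ U ∧
      ordN PQ (oo j) ∈ U ∧ ordN PQ (oo k) ∈ U ∧ x = Name.val U H (ordN PQ (oo i)) ∧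
      y = Name.val U H (ordN PQ (oo j)) ∧ z = Name.val U H (ordN PQ (oo k)) ∧
      ∃ q ∈ H, q.down.mul (eo.symm i) (eo.symm j) (eo.symm k) := by
  unfold mN
  rw [Name.mem_val]
  constructor
  · rintro ⟨⟨⟨i, j⟩, k⟩, hU, ⟨q, hq, hqm⟩, e⟩
    have hU' : oN (oN (ordN PQ (oo i)) (ordN PQ (oo j))) (ordN PQ (oo k)) ∈ U := hU
    obtain ⟨h1, h2⟩ := hp _ _ hU'
    obtain ⟨h3, h4⟩ := hp _ _ h1
    have e' : ZFSet.pair (ZFSet.pair x y) z =
        Name.val U H (oN (oN (ordN PQ (oo i)) (ordN PQ (oo j))) (ordN PQ (oo k))) := e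
    rw [val_oN hB h1 h2, val_oN hB h3 h4] at e'
    obtain ⟨e1, e2⟩ := ZFSet.pair_injective e'
    obtain ⟨e3, e4⟩ := ZFSet.pair_injective e1
    exact ⟨i, j, k, h3, h4, h2, e3, e4, e2, q, hq, hqm⟩
  · rintro ⟨i, j, k, h3, h4, h2, rfl, rfl, rfl, q, hq, hqm⟩
    have h1 : oN (ordN PQ (oo i)) (ordN PQ (oo j)) ∈ U := oN_mem hB h3 h4
    refine ⟨⟨⟨i, j⟩, k⟩, oN_mem hB h1 h2, ⟨q, hq, hqm⟩, ?_⟩
    show ZFSet.pair (ZFSet.pair _ _) _ =
        Name.val U H (oN (oN (ordN PQ (oo i)) (ordN PQ (oo j))) (ordN PQ (oo k)))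
    rw [val_oN hB h1 h2, val_oN hB h3 h4]

/-- Row Y3.  The value of `mN` : triples. -/
theorem Ev.mem_mN : Ev (P := PQ) (fun U H => mN ∈ U ∧ ∀ x y z : ZFSet.{0},
    ZFSet.pair (ZFSet.pair x y) z ∈ Name.val U H mN ↔ ∃ i j k : Om, ordN PQ (oo i) ∈ U ∧
      ordN PQ (oo j) ∈ U ∧ ordN PQ (oo k) ∈ U ∧ x = Name.val U H (ordN PQ (oo i)) ∧
      y = Name.val U H (ordN PQ (oo j)) ∧ z = Name.val U H (ordN PQ (oo k)) ∧
      ∃ q ∈ H, q.down.mul (eo.symm i) (eo.symm j) (eo.symm k)) := by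
  refine (((Pool.PC.Ev.base (P := PQ)).and (Pool.PC.Ev.parts (P := PQ))).and
    (Pool.PC.Ev.op (P := PQ) (n := 0) (fun _ => mN))).mono ?_
  rintro U H ⟨⟨hB, hp⟩, hm⟩
  exact ⟨hm Fin.elim0 (fun i => i.elim0), Y3_mem hB hp⟩

end RowY3

section RowY4
set_option linter.unusedSectionVars false

open Pool.PC Pool.ST
open Pool.Agent.Lib.MP_b18e8e_lc_Diamond (Om)
open Pool.MP_3ade05_lc (Name IsFilt)

/-- The multiplication decided in the filter. -/
def mH (H : Set PQ) (x y z : El) : Prop := ∃ q ∈ H, q.down.mul x y z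

lemma oo_inj {i j : Om} (h : oo i = oo j) : i = j := by
  rcases lt_trichotomy i j with h1 | h1 | h1
  · exact absurd h (oo_lt.2 h1).ne
  · exact h1
  · exact absurd h.symm (oo_lt.2 h1).ne

section
variable {H : Set PQ} (hH : IsFilt H)
include hH

lemma mH_func {x y z z' : El} (h : mH H x y z) (h' : mH H x y z') : z = z' := by
  obtain ⟨q, hq, h⟩ := h
  obtain ⟨q', hq', h'⟩ := h'
  obtain ⟨r, -, h1, h2⟩ := hH.dir q hq q' hq'
  exact mul_func (mul_mono (p := r.down) h1 h) (mul_mono (p := r.down) h2 h')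

lemma mH_assoc {x y z a b c : El} (h1 : mH H x y a) (h2 : mH H y z b) (h3 : mH H a z c) :
    mH H x b c := by
  obtain ⟨q1, hq1, h1⟩ := h1
  obtain ⟨q2, hq2, h2⟩ := h2
  obtain ⟨q3, hq3, h3⟩ := h3
  obtain ⟨r, hr, g1, g2⟩ := hH.dir q1 hq1 q2 hq2
  obtain ⟨s, hs, k1, k2⟩ := hH.dir r hr q3 hq3
  exact ⟨s, hs, mul_assoc' (mul_mono (p := s.down) (le_trans (α := PQ) k1 g1) h1)
    (mul_mono (p := s.down) (le_trans (α := PQ) k1 g2) h2) (mul_mono (p := s.down) k2 h3)⟩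

end

/-- Genericity: the multiplication is total, `none` is the unit, inverses exist. -/
lemma Ev.tot : Ev (P := PQ) (fun U H => ∀ i j : Om, ordN PQ (oo i) ∈ U → ordN PQ (oo j) ∈ U →
    ∃ k : Om, ordN PQ (oo k) ∈ U ∧ mH H (eo.symm i) (eo.symm j) (eo.symm k)) := by
  refine (Pool.PC.Ev.ogen2 (P := PQ) (fun α β q ξ => ∃ i j k : Om, α = oo i ∧ β = oo j ∧ ξ = oo k ∧
    q.down.mul (eo.symm i) (eo.symm j) (eo.symm k))).mono fun U H h i j hi hj => ?_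
  rcases h _ _ hi hj with ⟨q, hq, ξ, hξ, i', j', k, e1, e2, rfl, hm⟩ | ⟨p, hp, hn⟩
  · rw [← oo_inj e1, ← oo_inj e2] at hm
    exact ⟨k, hξ, q, hq, hm⟩
  · obtain ⟨q', hq', z, hz⟩ := mul_tot p.down (eo.symm i) (eo.symm j)
    exact absurd ⟨i, j, eo z, rfl, rfl, rfl, by simpa using hz⟩
      (hn (ULift.up q') hq' (oo (eo z)))

lemma Ev.unit : Ev (P := PQ) (fun U H => ∀ i : Om, ordN PQ (oo i) ∈ U →
    mH H none (eo.symm i) (eo.symm i) ∧ mH H (eo.symm i) none (eo.symm i)) := by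
  refine (Pool.PC.Ev.ogen1 (P := PQ) (fun α q _ => ∃ i : Om, α = oo i ∧
    q.down.mul none (eo.symm i) (eo.symm i) ∧ q.down.mul (eo.symm i) none (eo.symm i))).mono
    fun U H h i hi => ?_
  rcases h _ hi with ⟨q, hq, ξ, hξ, i', e1, hm1, hm2⟩ | ⟨p, hp, hn⟩
  · rw [← oo_inj e1] at hm1 hm2
    exact ⟨⟨q, hq, hm1⟩, ⟨q, hq, hm2⟩⟩
  · obtain ⟨q', hq', h1, h2⟩ := mul_unit p.down (eo.symm i)
    exact absurd ⟨i, rfl, h1, h2⟩ (hn (ULift.up q') hq' 0)

lemma Ev.inv : Ev (P := PQ) (fun U H => ∀ i : Om, ordN PQ (oo i) ∈ U →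
    ∃ k : Om, ordN PQ (oo k) ∈ U ∧ mH H (eo.symm i) (eo.symm k) none ∧
      mH H (eo.symm k) (eo.symm i) none) := by
  refine (Pool.PC.Ev.ogen1 (P := PQ) (fun α q ξ => ∃ i k : Om, α = oo i ∧ ξ = oo k ∧
    q.down.mul (eo.symm i) (eo.symm k) none ∧ q.down.mul (eo.symm k) (eo.symm i) none)).mono
    fun U H h i hi => ?_
  rcases h _ hi with ⟨q, hq, ξ, hξ, i', k, e1, rfl, hm1, hm2⟩ | ⟨p, hp, hn⟩
  · rw [← oo_inj e1] at hm1 hm2
    exact ⟨k, hξ, ⟨q, hq, hm1⟩, ⟨q, hq, hm2⟩⟩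
  · obtain ⟨q', hq', y, h1, h2⟩ := mul_inv' p.down (eo.symm i)
    exact absurd ⟨i, eo y, rfl, rfl, by simpa using h1, by simpa using h2⟩
      (hn (ULift.up q') hq' (oo (eo y)))

/-- Row Y4.  The value of `mN` is a group with the underlying set `ω₁`. -/
theorem Ev.isGrp : Ev (P := PQ) (fun U H => ordN PQ wo ∈ U ∧ mN ∈ U ∧
    IsGrp (Name.val U H (ordN PQ wo)) (Name.val U H mN)) := by
  refine ((((Pool.PC.Ev.base (P := PQ)).and Ev.mem_mN).and ((Pool.PC.Ev.parts (P := PQ)).and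
    (Pool.PC.Ev.op (P := PQ) (n := 0) (fun _ => ordN PQ wo)))).and ((Ev.tot.and Ev.unit).and
    (Ev.inv.and (Pool.PC.Ev.op (P := PQ) (n := 0) (fun _ => ordN PQ (oo (eo none))))))).mono
    fun U H h => ?_
  obtain ⟨⟨⟨hB, hmU, hm⟩, hparts, hwo⟩, ⟨htot, hunit⟩, hinv, hnone⟩ := h
  have hwo := hwo Fin.elim0 (fun i => i.elim0)
  have hnone := hnone Fin.elim0 (fun i => i.elim0)
  have hF := hB.filt
  -- the elements of `ω₁`
  have hmem : ∀ x, x ∈ Name.val U H (ordN PQ wo) ↔ ∃ i : Om, ordN PQ (oo i) ∈ U ∧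
      x = Name.val U H (ordN PQ (oo i)) := by
    intro x
    rw [mem_val_ordN hB]
    constructor
    · rintro ⟨β, hβ, hU, rfl⟩
      obtain ⟨i, rfl⟩ := lt_wo.1 hβ
      exact ⟨i, hU, rfl⟩
    · rintro ⟨i, hU, rfl⟩
      exact ⟨oo i, lt_wo.2 ⟨i, rfl⟩, hU, rfl⟩
  have hinj : ∀ i j : Om, ordN PQ (oo i) ∈ U → ordN PQ (oo j) ∈ U →
      Name.val U H (ordN PQ (oo i)) = Name.val U H (ordN PQ (oo j)) → i = j := fun i j hi hj he =>
    oo_inj ((val_ordN_inj hB hi hj).1 he)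
  have hmv : ∀ i j k : Om, ordN PQ (oo i) ∈ U → ordN PQ (oo j) ∈ U → ordN PQ (oo k) ∈ U →
      (ZFSet.pair (ZFSet.pair (Name.val U H (ordN PQ (oo i))) (Name.val U H (ordN PQ (oo j))))
        (Name.val U H (ordN PQ (oo k))) ∈ Name.val U H mN ↔
      mH H (eo.symm i) (eo.symm j) (eo.symm k)) := by
    intro i j k hi hj hk
    rw [hm]
    constructor
    · rintro ⟨i', j', k', hi', hj', hk', e1, e2, e3, q, hq, hh⟩
      rw [← hinj i i' hi hi' e1, ← hinj j j' hj hj' e2, ← hinj k k' hk hk' e3] at hh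
      exact ⟨q, hq, hh⟩
    · rintro ⟨q, hq, hh⟩
      exact ⟨i, j, k, hi, hj, hk, rfl, rfl, rfl, q, hq, hh⟩
  refine ⟨hwo, hmU, ?_, ?_, ?_, ?_⟩
  · intro t ht
    obtain ⟨k, hk, -, rfl⟩ := Name.mem_val.1 ht
    have hk' : oN (oN (ordN PQ (oo k.1.1)) (ordN PQ (oo k.1.2))) (ordN PQ (oo k.2)) ∈ U := hk
    obtain ⟨h1, h2⟩ := hparts _ _ hk'
    obtain ⟨h3, h4⟩ := hparts _ _ h1
    refine ⟨_, (hmem _).2 ⟨k.1.1, h3, rfl⟩, _, (hmem _).2 ⟨k.1.2, h4, rfl⟩, _,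
      (hmem _).2 ⟨k.2, h2, rfl⟩, ?_⟩
    show Name.val U H (oN (oN (ordN PQ (oo k.1.1)) (ordN PQ (oo k.1.2))) (ordN PQ (oo k.2))) = _
    rw [val_oN hB h1 h2, val_oN hB h3 h4]
  · intro x hx y hy
    obtain ⟨i, hi, rfl⟩ := (hmem x).1 hx
    obtain ⟨j, hj, rfl⟩ := (hmem y).1 hy
    obtain ⟨k, hk, hh⟩ := htot i j hi hj
    refine ⟨_, (hmv i j k hi hj hk).2 hh, fun z hz => ?_⟩
    obtain ⟨i', j', k', hi', hj', hk', e1, e2, rfl, q, hq, hh'⟩ := (hm _ _ _).1 hz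
    rw [← hinj i i' hi hi' e1, ← hinj j j' hj hj' e2] at hh'
    have := eo.symm.injective (mH_func hF ⟨q, hq, hh'⟩ hh)
    rw [this]
  · intro x hx y hy z hz a b c h1 h2 h3
    obtain ⟨i, j, l, hi, hj, hl, rfl, rfl, rfl, hq1⟩ := (hm _ _ _).1 h1
    obtain ⟨j', k, m, hj', hk, hm', e1, rfl, rfl, hq2⟩ := (hm _ _ _).1 h2
    obtain ⟨l', k', n, hl', hk', hn, e2, e3, rfl, hq3⟩ := (hm _ _ _).1 h3
    obtain rfl := hinj _ _ hj hj' e1
    obtain rfl := hinj _ _ hl hl' e2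
    obtain rfl := hinj _ _ hk hk' e3
    exact (hmv i m n hi hm' hn).2 (mH_assoc hF hq1 hq2 hq3)
  · refine ⟨_, (hmem _).2 ⟨eo none, hnone, rfl⟩, fun x hx => ?_, fun x hx => ?_⟩
    · obtain ⟨i, hi, rfl⟩ := (hmem x).1 hx
      rw [hmv _ _ _ hnone hi hi, hmv _ _ _ hi hnone hi]
      simpa using hunit i hi
    · obtain ⟨i, hi, rfl⟩ := (hmem x).1 hx
      obtain ⟨k, hk, h1, h2⟩ := hinv i hi
      refine ⟨_, (hmem _).2 ⟨k, hk, rfl⟩, ?_⟩
      rw [hmv _ _ _ hi hk hnone, hmv _ _ _ hk hi hnone]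
      simpa using And.intro h1 h2

end RowY4

section RowY5
set_option linter.unusedSectionVars false

open Pool.PC Pool.ST
open Pool.Agent.Lib.MP_b18e8e_lc_Diamond (Om)
open Pool.MP_3ade05_lc (Name IsFilt)

lemma oo_inj5 {i j : Om} (h : oo i = oo j) : i = j := by
  rcases lt_trichotomy i j with h1 | h1 | h1
  · exact absurd h (oo_lt.2 h1).ne
  · exact h1
  · exact absurd h.symm (oo_lt.2 h1).ne

/-- `q` forces `x` into the set named by `σ`. -/
def hh (σ : Name PQ) (q : P1) (x : El) : Prop :=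
  Name.fmem (ordN PQ (oo (eo x))) σ (ULift.up q : PQ)

lemma hh_mono (σ : Name PQ) (q q' : P1) (x : El) (h : q' ≤ q) (hx : hh σ q x) : hh σ q' x :=
  Name.fmem_mono (q := (ULift.up q' : PQ)) hx h

/-- Row Y5.  A good subset in the hull is bounded by a countable ordinal of the hull after
decoding: some `δ` in the hull such that all its elements are `val (ordN (oo i))` with the level of
`eo.symm i` below `δ`. -/
theorem Ev.good_bdd : Ev (P := PQ) (fun U H => ∀ h ∈ MM U H, h ⊆ Name.val U H (ordN PQ wo) →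
    GoodIn (Name.val U H (ordN PQ wo)) (Name.val U H mN) h →
      ∃ δ : Om, ordN PQ (oo δ) ∈ U ∧ ∀ i : Om, ordN PQ (oo i) ∈ U →
        Name.val U H (ordN PQ (oo i)) ∈ h → ∀ p ∈ eo.symm i, p.1 < δ) := by
  -- genericity for the goodness
  have g1 := Pool.PC.Ev.gen (P := PQ) (n := 1) (fun v q ρ => ∃ x y z g : El,
    ρ = oN (oN (ordN PQ (oo (eo x))) (ordN PQ (oo (eo y))))
      (oN (ordN PQ (oo (eo z))) (ordN PQ (oo (eo g)))) ∧
    hh (v 0) q.down x ∧ hh (v 0) q.down y ∧ hh (v 0) q.down z ∧ q.down.mul x g y ∧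
    q.down.mul y g z ∧ x ≠ z)
  -- genericity for the bound
  have g2 := Pool.PC.Ev.gen (P := PQ) (n := 1) (fun v q ρ => ∃ δ : Om, ρ = ordN PQ (oo δ) ∧
    ∀ q' ≤ q.down, ∀ x, hh (v 0) q' x → ∀ p ∈ x, p.1 < δ)
  refine (((Pool.PC.Ev.base (P := PQ)).and Ev.mem_mN).and
    ((Pool.PC.Ev.parts (P := PQ)).and (g1.and g2))).mono fun U H h => ?_
  obtain ⟨⟨hB, hmU, hm⟩, hparts, hg1, hg2⟩ := h
  intro h hh' hsub hgood
  obtain ⟨σ, -, hσ, rfl⟩ := hh'
  have hF := hB.filt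
  have hv : ∀ i, (![σ] : Fin 1 → Name PQ) i ∈ U := by intro i; fin_cases i; exact hσ
  -- a condition which forces the goodness
  obtain ⟨r, hr, hrg⟩ : ∃ r ∈ H, ∀ q ≤ r.down, ∀ x y z g, hh σ q x → hh σ q y → hh σ q z →
      q.mul x g y → q.mul y g z → x = z := by
    rcases hg1 ![σ] hv with ⟨q, hq, ρ, hρ, x, y, z, g, rfl, h1, h2, h3, h4, h5, h6⟩ | ⟨p, hp, hn⟩
    · exfalso
      obtain ⟨k1, k2⟩ := hparts _ _ hρ
      obtain ⟨hx, hy⟩ := hparts _ _ k1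
      obtain ⟨hz, hg⟩ := hparts _ _ k2
      have e1 := (Name.val_mem_iff hB.full.at' hx hσ).2 ⟨q, hq, h1⟩
      have e2 := (Name.val_mem_iff hB.full.at' hy hσ).2 ⟨q, hq, h2⟩
      have e3 := (Name.val_mem_iff hB.full.at' hz hσ).2 ⟨q, hq, h3⟩
      have e4 : Name.val U H (ordN PQ (oo (eo g))) ∈ Name.val U H (ordN PQ wo) :=
        (mem_val_ordN hB).2 ⟨_, lt_wo.2 ⟨eo g, rfl⟩, hg, rfl⟩
      have e5 := hgood _ e1 _ e2 _ e3 _ e4
        ((hm _ _ _).2 ⟨eo x, eo g, eo y, hx, hg, hy, rfl, rfl, rfl, q, hq, by simpa using h4⟩)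
        ((hm _ _ _).2 ⟨eo y, eo g, eo z, hy, hg, hz, rfl, rfl, rfl, q, hq, by simpa using h5⟩)
      exact h6 (eo.injective (oo_inj5 ((val_ordN_inj hB hx hz).1 e5)))
    · refine ⟨p, hp, fun q hq x y z g h1 h2 h3 h4 h5 => ?_⟩
      by_contra hne
      exact hn (ULift.up q) hq _ ⟨x, y, z, g, rfl, h1, h2, h3, h4, h5, hne⟩
  -- the bound
  rcases hg2 ![σ] hv with ⟨q, hq, ρ, hρ, δ, rfl, hδ⟩ | ⟨p, hp, hn⟩
  · refine ⟨δ, hρ, fun i hi him => ?_⟩
    obtain ⟨p, hp, hf⟩ := (Name.val_mem_iff hB.full.at' hi hσ).1 him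
    obtain ⟨s, hs, h1, h2⟩ := hF.dir q hq p hp
    refine hδ s.down h1 (eo.symm i) ?_
    show Name.fmem (ordN PQ (oo (eo (eo.symm i)))) σ s
    rw [Equiv.apply_symm_apply]
    exact Name.fmem_mono hf h2
  · exfalso
    obtain ⟨s, hs, h1, h2⟩ := hF.dir r hr p hp
    obtain ⟨r', hr', δ, hδ⟩ := bounded_good (r := s.down) (h := hh σ) (hh_mono σ)
      (fun q hq => hrg q (le_trans hq h1))
    exact hn (ULift.up r') (le_trans (α := P1) hr' h2) _ ⟨δ, rfl, hδ⟩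

end RowY5

section RowY6
set_option linter.unusedSectionVars false

open Pool.PC Pool.ST Pool.UT
open Pool.Agent.Lib.MP_b18e8e_lc_Diamond (Om countable_Iio exists_bound)
open Pool.MP_3ade05_lc (Name IsFilt)

/-- The elements with levels below `δ` have bounded codes. -/
lemma exists_code_bound (δ : Om) : ∃ j : Om, ∀ i : Om, (∀ p ∈ eo.symm i, p.1 < δ) → i < j := by
  have h1 : {x : El | ∀ p ∈ x, p.1 < δ}.Countable := by
    have h2 : {x : El | ∀ p ∈ x, p.1 < δ} ⊆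
        insert none (some '' (Set.Iio δ ×ˢ (Set.univ : Set ℕ))) := by
      rintro (_ | x) hx
      · exact Set.mem_insert _ _
      · exact Set.mem_insert_of_mem _ ⟨x, ⟨hx x rfl, Set.mem_univ _⟩, rfl⟩
    exact ((((countable_Iio δ).prod Set.countable_univ).image _).insert _).mono h2
  obtain ⟨j, hj⟩ := exists_bound (eo '' {x : El | ∀ p ∈ x, p.1 < δ}) (h1.image _)
  refine ⟨j, fun i hi => hj i ⟨eo.symm i, hi, by simp⟩⟩

/-- A bound for the codes, as an operation on ordinals. -/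
lemma exists_F : ∃ F : Ordinal.{0} → Ordinal.{0}, ∀ δ : Om, F (oo δ) < wo ∧
    ∀ i : Om, (∀ p ∈ eo.symm i, p.1 < δ) → oo i < F (oo δ) := by
  classical
  choose j hj using exists_code_bound
  refine ⟨fun α => if h : ∃ δ : Om, α = oo δ then oo (j h.choose) else 0, fun δ => ?_⟩
  have h : ∃ δ' : Om, oo δ = oo δ' := ⟨δ, rfl⟩
  have h1 : h.choose = δ := (oo_inj h.choose_spec).symm
  simp only [dif_pos h, h1]
  exact ⟨lt_wo.2 ⟨_, rfl⟩, fun i hi => oo_lt.2 (hj δ i hi)⟩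

/-- Row Y6.  The codes of the elements with level below `δ` are bounded in `ω₁`, so `h` is not in
bijection with `ω₁`. -/
theorem Ev.strange : Ev (P := PQ) (fun U H => ordN PQ wo ∈ U ∧
    StrangeV (MM U H) (Name.val U H (ordN PQ wo))) := by
  obtain ⟨F, hFs⟩ := exists_F
  refine ((((Pool.PC.Ev.base (P := PQ)).and (Pool.PC.Ev.zf (P := PQ))).and
    (Ev.nextCard_wo.and Ev.isGrp)).and (Ev.good_bdd.and
    (Pool.PC.Ev.ord1 (P := PQ) F))).mono fun U H h => ?_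
  obtain ⟨⟨⟨hB, hzf⟩, ⟨hwo, hc⟩, -, hmN, hG⟩, hgb, hF⟩ := h
  have hT : TZ (MM U H) := { trans := fun x hx y hy => MM_trans hx hy, zf := hzf }
  have hcV : Name.val U H (ordN PQ wo) ∈ MM U H := ⟨_, mem_univ _, hwo, rfl⟩
  have hmV : Name.val U H mN ∈ MM U H := ⟨_, mem_univ _, hmN, rfl⟩
  refine ⟨hwo, _, hcV, _, hmV, hG, ?_, fun h hh hsub hgood he => ?_⟩
  · -- the identity
    generalize Name.val U H (ordN PQ wo) = c at hcV
    have : InE (MM U H) c := ⟨hcV⟩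
    refine ⟨mkF (fun x => x) c, mem_of (E := MM U H) (mkF (fun x => x) c), FunOn_mkF _ _,
      fun x hx y hy => ?_, fun y hy => ⟨y, ⟨hy, pair_mem_mkF.2 ⟨hy, rfl⟩⟩, fun x hx => ?_⟩⟩
    · rw [(pair_mem_mkF.1 hy).2]
      exact hx
    · exact (pair_mem_mkF.1 hx.2).2.symm
  · obtain ⟨δ, hδU, hδ⟩ := hgb h hh hsub hgood
    obtain ⟨hF1, hF2⟩ := hFs δ
    have hFU := hF _ hδU
    obtain ⟨f, hf, hf1, hf2, hf3⟩ := he
    -- the bound
    have hd : Name.val U H (ordN PQ (F (oo δ))) ∈ Name.val U H (ordN PQ wo) :=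
      (val_ordN_mem_iff hB hFU hwo).2 hF1
    have hhd : h ⊆ Name.val U H (ordN PQ (F (oo δ))) := by
      intro x hx
      obtain ⟨β, hβ, hβU, rfl⟩ := (mem_val_ordN hB).1 (hsub hx)
      obtain ⟨i, rfl⟩ := lt_wo.1 hβ
      exact (mem_val_ordN hB).2 ⟨_, hF2 i (hδ i hβU hx), hβU, rfl⟩
    have hdV : Name.val U H (ordN PQ (F (oo δ))) ∈ MM U H := MM_trans hcV hd
    generalize Name.val U H (ordN PQ (F (oo δ))) = d at *
    have hc1 := hc.1
    generalize Name.val U H (ordN PQ wo) = c at *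
    have : InE (MM U H) c := ⟨hcV⟩
    have : InE (MM U H) d := ⟨hdV⟩
    have : InE (MM U H) f := ⟨hf⟩
    obtain ⟨y, hy, hy2⟩ := hc1.card d hd
      (mkF (fun x => ZFSet.sUnion (ZFSet.sep (fun z => ZFSet.pair z x ∈ f) c)) d)
      (mem_of (E := MM U H) _) (FunOn_mkF _ _)
    obtain ⟨x, hx, -⟩ := hf1.2 y hy
    have hxh := hf2 y hy x hx
    refine hy2 x (hhd hxh) (pair_mem_mkF.2 ⟨hhd hxh, ?_⟩)
    have h1 : ZFSet.sep (fun z => ZFSet.pair z x ∈ f) c = {y} := by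
      ext z
      rw [ZFSet.mem_sep, ZFSet.mem_singleton]
      constructor
      · rintro ⟨hz, hz2⟩
        exact (hf3 x hxh).unique ⟨hz, hz2⟩ ⟨hy, hx⟩
      · rintro rfl
        exact ⟨hy, hx⟩
    rw [h1, ZFSet.sUnion_singleton]

end RowY6

/-- A countable transitive model with a strange group of cardinality `ℵ₁`. -/
theorem exists_strange : ∃ V : Set ZFSet.{0}, V.Countable ∧ (∀ x ∈ V, ∀ y ∈ x, y ∈ V) ∧
    ZFCModel V ∧ ∃ c, NextCard V ZFSet.omega c ∧ StrangeV V c := by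
  have e := (((Pool.PC.Ev.zf (P := PQ)).and (Pool.PC.Ev.choice (P := PQ))).and
    Ev.nextCard_wo).and Ev.strange
  obtain ⟨U, H, hU, hH, -, ⟨⟨⟨q1, q2⟩, q3, q4⟩, q5, q6⟩⟩ :=
    e.exists_hull (ULift.up (Classical.arbitrary P1))
  exact ⟨MM U H, MM_countable hU, fun x hx y hy => MM_trans hx hy, ⟨q1, q2⟩, _, q4, q6⟩

end Pool.ST1
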